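import Pool.Agent.SigPoly.Cone

/-!
# General facts on the angles `aR` and `aL`
-/

namespace Pool.Agent.SigPoly

open Complex Set Filter Topology Pool.Agent.VisGraph

section angles

variable {n : ℕ} {p : ℕ → ℂ}

/-- The set of angles in the definition of `aR`. -/
def setR (n : ℕ) (p : ℕ → ℂ) (i : ℕ) : Set ℝ :=
  {x | ∃ j, (Diag n p i j ∨ p j = p (i + (n - 1))) ∧ x = turn (p (i + 1) - p i) (p j - p i)}

/-- The set of angles in the definition of `aL`. -/
def setL (n : ℕ) (p : ℕ → ℂ) (i : ℕ) : Set ℝ :=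
  {x | ∃ j, (Diag n p i j ∨ p j = p (i + 1)) ∧
    x = turn (p j - p i) (p (i + (n - 1)) - p i)}

lemma mod_eq (h : SP n p) (k : ℕ) : p (k % n) = p k := by
  have h1 : ∀ m k, p (k + m * n) = p k := by
    intro m
    induction m with
    | zero => intro k; simp
    | succ m ih =>
      intro k
      rw [show k + (m + 1) * n = (k + m * n) + n by ring, h.per, ih]
  have h2 := h1 (k / n) (k % n)
  rw [show k % n + k / n * n = k by rw [mul_comm]; exact Nat.mod_add_div k n] at h2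
  exact h2.symm

lemma setR_finite (h : SP n p) (i : ℕ) : (setR n p i).Finite := by
  have hn : 0 < n := by have := h.three_le; omega
  refine Set.Finite.subset ((Finset.range n).finite_toSet.image
    fun j => turn (p (i + 1) - p i) (p j - p i)) ?_
  rintro x ⟨j, -, rfl⟩
  refine ⟨j % n, by simpa using Nat.mod_lt j hn, ?_⟩
  simp only [mod_eq h]

lemma setL_finite (h : SP n p) (i : ℕ) : (setL n p i).Finite := by
  have hn : 0 < n := by have := h.three_le; omega
  refine Set.Finite.subset ((Finset.range n).finite_toSet.image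
    fun j => turn (p j - p i) (p (i + (n - 1)) - p i)) ?_
  rintro x ⟨j, -, rfl⟩
  refine ⟨j % n, by simpa using Nat.mod_lt j hn, ?_⟩
  simp only [mod_eq h]

lemma aR_mem (h : SP n p) (i : ℕ) : aR n p i ∈ setR n p i :=
  Set.Nonempty.csInf_mem ⟨_, i + (n - 1), Or.inr rfl, rfl⟩ (setR_finite h i)

lemma aL_mem (h : SP n p) (i : ℕ) : aL n p i ∈ setL n p i :=
  Set.Nonempty.csInf_mem ⟨_, i + 1, Or.inr rfl, rfl⟩ (setL_finite h i)

lemma aR_le_mem (h : SP n p) {i : ℕ} {x : ℝ} (hx : x ∈ setR n p i) : aR n p i ≤ x :=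
  csInf_le (setR_finite h i).bddBelow hx

lemma aL_le_mem (h : SP n p) {i : ℕ} {x : ℝ} (hx : x ∈ setL n p i) : aL n p i ≤ x :=
  csInf_le (setL_finite h i).bddBelow hx

lemma Diag.p_ne (h : SP n p) {i j : ℕ} (hd : Diag n p i j) : p i ≠ p j := by
  intro e
  unfold Diag at hd
  rw [e, openSegment_same, singleton_subset_iff] at hd
  apply hd.1
  rw [← h.chain_per j]
  exact ⟨j, le_rfl, by have := h.three_le; omega, left_mem_segment ℝ _ _⟩

end angles

section angles'

variable {n : ℕ} {p : ℕ → ℂ} (h : PP n p)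

include h

lemma aR_pos (i : ℕ) : 0 < aR n p i := by
  obtain ⟨j, -, hx⟩ := aR_mem h.sp i
  rw [hx]
  exact turn_pos _ _

lemma aL_pos (i : ℕ) : 0 < aL n p i := by
  obtain ⟨j, -, hx⟩ := aL_mem h.sp i
  rw [hx]
  exact turn_pos _ _

lemma aR_le (i : ℕ) : aR n p i ≤ th n p i :=
  aR_le_mem h.sp ⟨i + (n - 1), Or.inr rfl, rfl⟩

lemma aL_le (i : ℕ) : aL n p i ≤ th n p i :=
  aL_le_mem h.sp ⟨i + 1, Or.inr rfl, rfl⟩

lemma aR_le_diag {i j : ℕ} (hd : Diag n p i j) : aR n p i ≤ turn (p (i + 1) - p i) (p j - p i) :=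
  aR_le_mem h.sp ⟨j, Or.inl hd, rfl⟩

lemma aL_le_diag {i j : ℕ} (hd : Diag n p i j) :
    aL n p i ≤ turn (p j - p i) (p (i + (n - 1)) - p i) :=
  aL_le_mem h.sp ⟨j, Or.inl hd, rfl⟩

lemma aR_of_noDiag {i : ℕ} (hd : NoDiag n p i) : aR n p i = th n p i := by
  obtain ⟨j, hj, hx⟩ := aR_mem h.sp i
  rcases hj with hj | hj
  · exact absurd hj (hd j)
  · rw [hx, hj]; rfl

lemma aL_of_noDiag {i : ℕ} (hd : NoDiag n p i) : aL n p i = th n p i := by
  obtain ⟨j, hj, hx⟩ := aL_mem h.sp i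
  rcases hj with hj | hj
  · exact absurd hj (hd j)
  · rw [hx, hj]; rfl

/-- A diagonal divides the interior angle. -/
lemma turn_add_diag {i j : ℕ} (hd : Diag n p i j) :
    th n p i = turn (p (i + 1) - p i) (p j - p i) + turn (p j - p i) (p (i + (n - 1)) - p i) :=
  turn_split (sub_ne_zero.2 (h.sp.ne_succ i).symm) (sub_ne_zero.2 (hd.p_ne h.sp).symm)
    (sub_ne_zero.2 (PP.prev_ne h.sp i)) (h.diag_turn hd)

lemma aR_add_aL_le {i j : ℕ} (hd : Diag n p i j) : aR n p i + aL n p i ≤ th n p i := by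
  rw [turn_add_diag h hd]
  exact add_le_add (aR_le_diag h hd) (aL_le_diag h hd)

end angles'

end Pool.Agent.SigPoly
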