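import Pool.Agent.SigPoly.Attach4

/-!
# Attaching a small triangle without creating further diagonals
-/

namespace Pool.Agent.SigPoly

open Complex Set Filter Topology Pool.Agent.VisGraph

variable {n : ℕ} {p : ℕ → ℂ}

lemma attach_core (h : PP n p) (g : GP n p) {d : ℂ} (D : Dir n p d) {δ : ℝ} (hδ : 0 < δ) :
    ∃ b, Ear n p (insp n p b) ∧ GP (n + 1) (insp n p b) ∧ NoDiag (n + 1) (insp n p b) n ∧
      bet n p (insp n p b) < δ ∧ eta n p (insp n p b) = turn d (p 0 - p (n - 1)) := by
  have hs := h.sp
  have hn := hs.three_le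
  have hyv : p 0 ≠ p (n - 1) := hs.inj 0 (n - 1) (by omega) (by omega)
  have hcr : 0 < cr (p (n - 1) - p 0) d := by
    have := D.pos
    have e : cr (p (n - 1) - p 0) d = cr d (p 0 - p (n - 1)) := by
      simp only [cr, Complex.sub_re, Complex.sub_im]; ring
    rw [e]; exact this
  have h1 := thin_disj h D
  have h2 := noDiag_near h g D
  have h3 := gp_near h g D
  have h4 := turn_thin (sub_ne_zero.2 hyv.symm) hcr hδ
  obtain ⟨ε, ⟨⟨⟨k1, k2⟩, k3⟩, k4⟩, k5⟩ :=
    ((((h1.and h2).and h3).and h4).and self_mem_nhdsWithin).exists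
  have hε : 0 < ε := k5
  have E := Ear.of_disj h (D.orient_pos hε) k1
  refine ⟨_, E, k3, k2 E, ?_, ?_⟩
  · unfold bet
    rw [insp_n]
    rw [show p (n - 1) + (ε : ℂ) * d - p 0 = p (n - 1) - p 0 + ε * d by ring]
    exact k4
  · unfold eta
    rw [insp_n, add_sub_cancel_left]
    have := turn_smul D.ne (sub_ne_zero.2 hyv) hε one_pos
    rwa [Complex.ofReal_one, one_mul] at this

/-- Attaching a triangle with tip near `p (n - 1)`, which becomes concave. -/
theorem attach_neg (h : PP n p) (g : GP n p)
    (hv : th n p (n - 1) ≠ Real.pi) (hy : th n p 0 ≠ Real.pi)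
    (ext : th n p (n - 1) - aR n p (n - 1) < Real.pi) {δ : ℝ} (hδ : 0 < δ) :
    ∃ b, Ear n p (insp n p b) ∧ GP (n + 1) (insp n p b) ∧ NoDiag (n + 1) (insp n p b) n ∧
      bet n p (insp n p b) < δ ∧ Real.pi < aR n p (n - 1) + eta n p (insp n p b) := by
  have hs := h.sp
  have hn := hs.three_le
  have hpi := Real.pi_pos
  have hyv : p 0 ≠ p (n - 1) := hs.inj 0 (n - 1) (by omega) (by omega)
  have hu : p 0 - p (n - 1) ≠ 0 := sub_ne_zero.2 hyv
  have haR := aR_pos h (n - 1)
  have hth := h.th_lt (n - 1)
  set u := p 0 - p (n - 1) with hudef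
  set lo := max 0 (Real.pi - aR n p (n - 1)) with hlo
  set hi := min Real.pi (2 * Real.pi - th n p (n - 1)) with hhi
  have hlohi : lo < hi := by
    rw [hlo, hhi]
    refine max_lt (lt_min hpi (by linarith)) (lt_min (by linarith) (by linarith))
  -- the bad directions
  set dir : ℝ → ℂ := fun η => Complex.exp (-(η * I)) * u with hdir
  have hdu : ∀ η : ℝ, u = Complex.exp (η * I) * dir η := by
    intro η
    simp only [hdir]
    rw [← mul_assoc, ← Complex.exp_add, add_neg_cancel, Complex.exp_zero, one_mul]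
  have hdne : ∀ η, dir η ≠ 0 := fun η => mul_ne_zero (Complex.exp_ne_zero _) hu
  have hbad : ∀ j, (∀ η1 ∈ Ioo 0 Real.pi, ∀ η2 ∈ Ioo 0 Real.pi, p j ≠ p (n - 1) →
      cr (dir η1) (p j - p (n - 1)) = 0 → cr (dir η2) (p j - p (n - 1)) = 0 → η1 = η2) := by
    intro j η1 h1 η2 h2 hj c1 c2
    have hw : p j - p (n - 1) ≠ 0 := sub_ne_zero.2 hj
    obtain ⟨a, ha⟩ := cr_eq_zero (hdne η1) c1
    have ha0 : a ≠ 0 := by
      rintro rfl
      apply hw
      rw [ha]; simp
    have c3 : cr (dir η1) (dir η2) = 0 := by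
      rw [ha, cr_smul_right] at c2
      rcases mul_eq_zero.1 c2 with h3 | h3
      · exact absurd h3 ha0
      · rw [cr_swap, h3, neg_zero]
    have e : dir η2 = ((1 : ℝ) : ℂ) * Complex.exp (((η1 - η2 : ℝ) : ℂ) * I) * dir η1 := by
      simp only [hdir]
      rw [Complex.ofReal_one, one_mul, ← mul_assoc, ← Complex.exp_add]
      congr 2
      push_cast
      ring
    rw [e, cr_exp] at c3
    have hN : 0 < normSq (dir η1) := normSq_pos.2 (hdne η1)
    have hsin : Real.sin (η1 - η2) = 0 := by
      rcases mul_eq_zero.1 c3 with h4 | h4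
      · rw [one_mul] at h4
        exact absurd h4 hN.ne'
      · exact h4
    by_contra hne
    rcases lt_or_gt_of_ne hne with h5 | h5
    · have : 0 < Real.sin (η2 - η1) :=
        Real.sin_pos_of_pos_of_lt_pi (by linarith) (by linarith [h2.2, h1.1])
      rw [show η2 - η1 = -(η1 - η2) by ring, Real.sin_neg] at this
      linarith
    · have : 0 < Real.sin (η1 - η2) :=
        Real.sin_pos_of_pos_of_lt_pi (by linarith) (by linarith [h1.2, h2.1])
      linarith
  set B : Set ℝ := ⋃ j ∈ Finset.range n,
    {η | η ∈ Ioo 0 Real.pi ∧ p j ≠ p (n - 1) ∧ cr (dir η) (p j - p (n - 1)) = 0} with hB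
  have hBfin : B.Finite := by
    refine Set.Finite.biUnion (Finset.finite_toSet _) fun j _ => ?_
    refine Set.Subsingleton.finite ?_
    intro η1 h1 η2 h2
    exact hbad j η1 h1.1 η2 h2.1 h1.2.1 h1.2.2 h2.2.2
  obtain ⟨η, hη, hηB⟩ := ((Set.Ioo_infinite hlohi).sdiff hBfin).nonempty
  have hη0 : 0 < η := lt_of_le_of_lt (le_max_left _ _) hη.1
  have hη1 : η < Real.pi := lt_of_lt_of_le hη.2 (min_le_left _ _)
  have hη2 : Real.pi - aR n p (n - 1) < η := lt_of_le_of_lt (le_max_right _ _) hη.1
  have hη3 : η < 2 * Real.pi - th n p (n - 1) := lt_of_lt_of_le hη.2 (min_le_right _ _)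
  have hturn : turn (dir η) u = η := by
    refine turn_unique (c := 1) (hdne η) one_pos hη0 (by linarith) ?_
    rw [Complex.ofReal_one, one_mul]
    exact hdu η
  have D : Dir n p (dir η) := by
    refine ⟨?_, ?_, ?_, ext, hv, hy, ?_⟩
    · rw [← hudef, ← turn_lt_pi (hdne η) hu, hturn]; exact hη1
    · rw [← hudef, hturn]; linarith
    · rw [← hudef, hturn]; linarith
    · intro j hj hc
      exfalso
      apply hηB
      rw [hB]
      simp only [mem_iUnion, Finset.mem_range, exists_prop]
      refine ⟨j % n, Nat.mod_lt _ (by omega), ⟨hη0, hη1⟩, ?_, ?_⟩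
      · rw [per_mod hs.per]; exact hj
      · rw [per_mod hs.per]; exact hc
  obtain ⟨b, E, g', hb, hbet, heta⟩ := attach_core h g D hδ
  refine ⟨b, E, g', hb, hbet, ?_⟩
  rw [heta, ← hudef, hturn]
  linarith

/-- Attaching a triangle with tip near `p (n - 1)`, which becomes flat. -/
theorem attach_flat (h : PP n p) (g : GP n p)
    (hv : th n p (n - 1) < Real.pi) (hnd : NoDiag n p (n - 1)) (hy : th n p 0 ≠ Real.pi)
    {δ : ℝ} (hδ : 0 < δ) :
    ∃ b, Ear n p (insp n p b) ∧ GP (n + 1) (insp n p b) ∧ NoDiag (n + 1) (insp n p b) n ∧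
      bet n p (insp n p b) < δ ∧ th n p (n - 1) + eta n p (insp n p b) = Real.pi := by
  have hs := h.sp
  have hn := hs.three_le
  have hpi := Real.pi_pos
  obtain ⟨e1, e2, e3⟩ := idx_facts hs
  have hyv : p 0 ≠ p (n - 1) := hs.inj 0 (n - 1) (by omega) (by omega)
  have hxv : p (n - 2) ≠ p (n - 1) := by
    have := hs.ne_succ (n - 2)
    rwa [e3] at this
  have hu : p 0 - p (n - 1) ≠ 0 := sub_ne_zero.2 hyv
  have hw : p (n - 2) - p (n - 1) ≠ 0 := sub_ne_zero.2 hxv
  have hd : p (n - 1) - p (n - 2) ≠ 0 := sub_ne_zero.2 hxv.symm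
  have hthe : th n p (n - 1) = turn (p 0 - p (n - 1)) (p (n - 2) - p (n - 1)) := by
    unfold th; rw [e1, e2]
  have hth0 : 0 < th n p (n - 1) := turn_pos _ _
  have t1 : turn (p (n - 2) - p (n - 1)) (p (n - 1) - p (n - 2)) = Real.pi := by
    rw [turn_eq_pi hw hd]
    exact ⟨1, one_pos, by push_cast; ring⟩
  have t2 : turn (p 0 - p (n - 1)) (p (n - 1) - p (n - 2)) = th n p (n - 1) + Real.pi := by
    rw [turn_add hu hw hd (by rw [t1, ← hthe]; linarith), t1, ← hthe]
  have t3 : turn (p (n - 1) - p (n - 2)) (p 0 - p (n - 1)) = Real.pi - th n p (n - 1) := by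
    rw [turn_swap hu hd (by rw [t2]; linarith), t2]; ring
  have haR := aR_of_noDiag h hnd
  have D : Dir n p (p (n - 1) - p (n - 2)) := by
    refine ⟨?_, by rw [t3]; linarith, by rw [t3, haR]; linarith, by rw [haR]; linarith, hv.ne,
      hy, ?_⟩
    · rw [← turn_lt_pi hd hu, t3]; linarith
    · intro j hj hc
      obtain ⟨s, hs'⟩ := cr_eq_zero hd hc
      have hs0 : s ≠ 0 := by
        rintro rfl
        apply hj
        rw [Complex.ofReal_zero, zero_mul] at hs'
        exact sub_eq_zero.1 hs'
      have hej : p j = p (n - 1) + s * (p (n - 1) - p (n - 2)) := by rw [← hs']; ring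
      rcases lt_or_gt_of_ne hs0 with hneg | hpos
      · refine ⟨⟨-s, by linarith, by rw [hej]; push_cast; ring⟩, ?_⟩
        by_cases hwx : p j = p (n - 2)
        · have h5 : j % n = n - 2 := by
            by_contra hne
            have e4 := hwx
            rw [← per_mod hs.per j] at e4
            have l1 := Nat.mod_lt j (show 0 < n by omega)
            rcases lt_or_gt_of_ne hne with h6 | h6
            · exact hs.inj _ _ h6 (by omega) e4
            · exact hs.inj _ _ h6 (by omega) e4.symm
          have h6 : p (j + 1) = p (n - 1) := by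
            rw [← per_mod hs.per (j + 1), Nat.add_mod, h5]
            rw [← per_mod hs.per (n - 1)]
            congr 1
            rw [Nat.mod_eq_of_lt (show 1 < n by omega), e3]
          rw [h6]
          exact right_mem_segment ℝ _ _
        · rcases lt_trichotomy (-s) 1 with h5 | h5 | h5
          · exfalso
            apply vertex_not_open hs (n - 2) j
            rw [e3, openSegment_symm, mem_open_iff]
            exact ⟨-s, by linarith, h5, by rw [hej]; push_cast; ring⟩
          · exfalso
            apply hwx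
            have : s = -1 := by linarith
            rw [hej, this]; push_cast; ring
          · have hx : p (n - 1 + (n - 1)) ∈ openSegment ℝ (p (n - 1)) (p j) := by
              rw [e2, mem_open_iff]
              refine ⟨1 / (-s), div_pos one_pos (by linarith),
                by rw [div_lt_one (by linarith)]; exact h5, ?_⟩
              have hcc : (s : ℂ) ≠ 0 := by exact_mod_cast hs0
              rw [hej]
              push_cast
              field_simp
              ring
            rcases g (n - 1) j _ hj.symm hx with ⟨h1, -⟩ | ⟨-, h1⟩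
            · exact (not_same_ray hs (n - 1) h1 (openSegment_subset_segment ℝ _ _ hx)).elim
            · rw [segment_symm]; exact h1
      · exfalso
        refine not_pass hs g (i := n - 2) (j := j) ?_ ?_
        · rw [e3]; exact hv.ne
        · rw [e3, mem_open_iff]
          refine ⟨1 / (1 + s), by positivity, by rw [div_lt_one (by positivity)]; linarith, ?_⟩
          have h1 : (1 + (s : ℂ)) ≠ 0 := by
            have : (1 + s : ℝ) ≠ 0 := by positivity
            exact_mod_cast this
          rw [hej]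
          push_cast
          field_simp
          ring
  obtain ⟨b, E, g', hb, hbet, heta⟩ := attach_core h g D hδ
  refine ⟨b, E, g', hb, hbet, ?_⟩
  rw [heta, t3]
  ring

end Pool.Agent.SigPoly
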