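import Pool.Agent.SigPoly.Basic3

/-!
# Plane geometry for attaching triangles
-/

namespace Pool.Agent.SigPoly

open Complex Set Filter Topology Pool.Agent.VisGraph

/-! ### Cross products -/

lemma cr_self (u : ℂ) : cr u u = 0 := by simp only [cr]; ring

lemma cr_swap (u v : ℂ) : cr v u = - cr u v := by simp only [cr]; ring

lemma cr_smul_left (a : ℝ) (u v : ℂ) : cr (a * u) v = a * cr u v := by
  simp only [cr, Complex.mul_re, Complex.mul_im, Complex.ofReal_re, Complex.ofReal_im]; ring

lemma cr_smul_right (a : ℝ) (u v : ℂ) : cr u (a * v) = a * cr u v := by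
  simp only [cr, Complex.mul_re, Complex.mul_im, Complex.ofReal_re, Complex.ofReal_im]; ring

lemma cr_add_left (u u' v : ℂ) : cr (u + u') v = cr u v + cr u' v := by
  simp only [cr, Complex.add_re, Complex.add_im]; ring

lemma cr_add_right (u v v' : ℂ) : cr u (v + v') = cr u v + cr u v' := by
  simp only [cr, Complex.add_re, Complex.add_im]; ring

lemma cr_neg_left (u v : ℂ) : cr (-u) v = - cr u v := by
  simp only [cr, Complex.neg_re, Complex.neg_im]; ring

lemma cr_neg_right (u v : ℂ) : cr u (-v) = - cr u v := by
  simp only [cr, Complex.neg_re, Complex.neg_im]; ring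

lemma continuous_cr : Continuous fun x : ℂ × ℂ => cr x.1 x.2 := by
  unfold cr
  fun_prop

/-- Parallel vectors. -/
lemma cr_eq_zero {u v : ℂ} (hu : u ≠ 0) (h : cr u v = 0) : ∃ c : ℝ, v = c * u := by
  have hn : 0 < normSq u := normSq_pos.2 hu
  refine ⟨(u.re * v.re + u.im * v.im) / normSq u, ?_⟩
  have h1 : u.re * v.im = u.im * v.re := by unfold cr at h; linarith
  have h2 : (normSq u : ℝ) = u.re * u.re + u.im * u.im := Complex.normSq_apply u
  apply Complex.ext
  · rw [Complex.mul_re, Complex.ofReal_re, Complex.ofReal_im, zero_mul, sub_zero, div_mul_eq_mul_div,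
      eq_div_iff hn.ne', h2]
    linear_combination (-u.im) * h1
  · rw [Complex.mul_im, Complex.ofReal_re, Complex.ofReal_im, zero_mul, add_zero,
      div_mul_eq_mul_div, eq_div_iff hn.ne', h2]
    linear_combination u.re * h1

/-! ### Segments -/

lemma mem_open_iff {a b z : ℂ} : z ∈ openSegment ℝ a b ↔
    ∃ t : ℝ, 0 < t ∧ t < 1 ∧ z = a + t * (b - a) := by
  constructor
  · rintro ⟨s, t, hs, ht, hst, rfl⟩
    refine ⟨t, ht, by linarith, ?_⟩
    have : s = 1 - t := by linarith
    rw [this]; simp only [Complex.real_smul]; push_cast; ring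
  · rintro ⟨t, ht, ht', rfl⟩
    refine ⟨1 - t, t, by linarith, ht, by ring, ?_⟩
    simp only [Complex.real_smul]; push_cast; ring

lemma mem_seg_iff {a b z : ℂ} : z ∈ segment ℝ a b ↔
    ∃ t : ℝ, 0 ≤ t ∧ t ≤ 1 ∧ z = a + t * (b - a) := by
  constructor
  · rintro ⟨s, t, hs, ht, hst, rfl⟩
    refine ⟨t, ht, by linarith, ?_⟩
    have : s = 1 - t := by linarith
    rw [this]; simp only [Complex.real_smul]; push_cast; ring
  · rintro ⟨t, ht, ht', rfl⟩
    refine ⟨1 - t, t, by linarith, ht, by ring, ?_⟩
    simp only [Complex.real_smul]; push_cast; ring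

lemma mem_open_of_mem {a b z : ℂ} (h : z ∈ segment ℝ a b) (ha : z ≠ a) (hb : z ≠ b) :
    z ∈ openSegment ℝ a b := by
  rw [mem_seg_iff] at h
  obtain ⟨t, h0, h1, rfl⟩ := h
  rw [mem_open_iff]
  refine ⟨t, lt_of_le_of_ne h0 ?_, lt_of_le_of_ne h1 ?_, rfl⟩
  · rintro rfl; apply ha; simp
  · rintro rfl; apply hb; simp

/-- Two segments with alternating signs cross. -/
lemma cross_of_signs {b w s t : ℂ} (h1 : orient b w s * orient b w t < 0)
    (h2 : orient s t b * orient s t w < 0) :
    ∃ z, z ∈ openSegment ℝ b w ∧ z ∈ openSegment ℝ s t := by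
  set a := orient s t b with ha
  set c := orient s t w with hc
  set e := orient b w s with he
  set f := orient b w t with hf
  have hD : c - a = e - f := by
    rw [ha, hc, he, hf]
    simp only [orient, cr, Complex.sub_re, Complex.sub_im]; ring
  have hac : c - a ≠ 0 := by
    intro h0
    have : c = a := by linarith
    rw [this] at h2
    nlinarith
  have hl : 0 < -a / (c - a) ∧ -a / (c - a) < 1 := by
    rcases lt_or_gt_of_ne hac with h3 | h3
    · have h4 : 0 < a ∧ c < 0 := by
        constructor
        · by_contra hcon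
          push Not at hcon
          have : c < 0 := by linarith
          nlinarith
        · by_contra hcon
          push Not at hcon
          have : 0 < a := by linarith
          nlinarith
      constructor
      · exact div_pos_of_neg_of_neg (by linarith) h3
      · rw [div_lt_one_of_neg h3]; linarith
    · have h4 : a < 0 ∧ 0 < c := by
        constructor
        · by_contra hcon
          push Not at hcon
          have : 0 < c := by linarith
          nlinarith
        · by_contra hcon
          push Not at hcon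
          have : a < 0 := by linarith
          nlinarith
      constructor
      · exact div_pos (by linarith) h3
      · rw [div_lt_one h3]; linarith
  have hm : 0 < e / (e - f) ∧ e / (e - f) < 1 := by
    rw [hD] at hac
    rcases lt_or_gt_of_ne hac with h3 | h3
    · have h4 : e < 0 ∧ 0 < f := by
        constructor
        · by_contra hcon
          push Not at hcon
          have : 0 < f := by linarith
          nlinarith
        · by_contra hcon
          push Not at hcon
          have : e < 0 := by linarith
          nlinarith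
      constructor
      · exact div_pos_of_neg_of_neg h4.1 h3
      · rw [div_lt_one_of_neg h3]; linarith
    · have h4 : 0 < e ∧ f < 0 := by
        constructor
        · by_contra hcon
          push Not at hcon
          have : f < 0 := by linarith
          nlinarith
        · by_contra hcon
          push Not at hcon
          have : 0 < e := by linarith
          nlinarith
      constructor
      · exact div_pos h4.1 h3
      · rw [div_lt_one h3]; linarith
  refine ⟨b + ((-a / (c - a) : ℝ) : ℂ) * (w - b), mem_open_iff.2 ⟨_, hl.1, hl.2, rfl⟩,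
    mem_open_iff.2 ⟨_, hm.1, hm.2, ?_⟩⟩
  rw [← hD]
  have hac' : ((c - a : ℝ) : ℂ) ≠ 0 := by exact_mod_cast hac
  have key : ((c - a : ℝ) : ℂ) * (b - s) = (a : ℂ) * (w - b) + (e : ℂ) * (t - s) := by
    have e1 : c - a = cr (t - s) (w - b) := by
      rw [ha, hc]; simp only [orient, cr, Complex.sub_re, Complex.sub_im]; ring
    have e2 : a = cr (t - s) (b - s) := rfl
    have e3 : e = cr (w - b) (s - b) := rfl
    rw [e1, e2, e3]
    apply Complex.ext
    · simp only [cr, Complex.mul_re, Complex.add_re, Complex.ofReal_re, Complex.ofReal_im,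
        Complex.sub_re, Complex.sub_im]; ring
    · simp only [cr, Complex.mul_im, Complex.add_im, Complex.ofReal_re, Complex.ofReal_im,
        Complex.sub_re, Complex.sub_im]; ring
  push_cast at key hac' ⊢
  field_simp
  linear_combination key

lemma tendsto_add_smul (v d : ℂ) :
    Tendsto (fun ε : ℝ => v + (ε : ℂ) * d) (𝓝[>] 0) (𝓝 v) := by
  have h : Continuous fun ε : ℝ => v + (ε : ℂ) * d := by fun_prop
  have h1 := h.tendsto 0
  simp only [Complex.ofReal_zero, zero_mul, add_zero] at h1
  exact h1.mono_left nhdsWithin_le_nhds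

lemma continuous_orient1 (b c : ℂ) : Continuous fun z => orient z b c := by
  unfold orient cr
  fun_prop

/-- Strict crossings persist. -/
lemma cross_persist {v d w s t : ℂ} (h1 : orient v w s * orient v w t < 0)
    (h2 : orient s t v * orient s t w < 0) :
    ∀ᶠ ε : ℝ in 𝓝[>] 0, ∃ z, z ∈ openSegment ℝ (v + (ε : ℂ) * d) w ∧ z ∈ openSegment ℝ s t := by
  have c1 : Continuous fun b : ℂ => orient b w s * orient b w t :=
    (continuous_orient1 w s).mul (continuous_orient1 w t)
  have c2 : Continuous fun b : ℂ => orient s t b * orient s t w :=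
    (continuous_orient s t).mul continuous_const
  have e1 : ∀ᶠ b in 𝓝 v, orient b w s * orient b w t < 0 := c1.continuousAt.eventually_lt
    continuousAt_const h1
  have e2 : ∀ᶠ b in 𝓝 v, orient s t b * orient s t w < 0 := c2.continuousAt.eventually_lt
    continuousAt_const h2
  filter_upwards [(tendsto_add_smul v d).eventually (e1.and e2)] with ε hε
  exact cross_of_signs hε.1 hε.2

/-- Crossings near `v`. -/
lemma cross_near {v d w x : ℂ} (h1 : 0 < cr (w - v) (x - v)) (h2 : 0 < cr (x - v) d)
    (h3 : 0 < cr (w - v) d) :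
    ∀ᶠ ε : ℝ in 𝓝[>] 0, ∃ z, z ∈ openSegment ℝ (v + (ε : ℂ) * d) w ∧ z ∈ openSegment ℝ v x := by
  have c1 : ∀ᶠ b in 𝓝 v, 0 < orient b w x :=
    continuousAt_const.eventually_lt (continuous_orient1 w x).continuousAt h1
  filter_upwards [(tendsto_add_smul v d).eventually c1, self_mem_nhdsWithin] with ε hε hε0
  have hε1 : 0 < ε := hε0
  apply cross_of_signs
  · have : orient (v + ε * d) w v = -(ε * cr (w - v) d) := by
      simp only [orient, cr, Complex.sub_re, Complex.sub_im, Complex.add_re, Complex.add_im,
        Complex.mul_re, Complex.mul_im, Complex.ofReal_re, Complex.ofReal_im]; ring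
    rw [this]
    have : 0 < ε * cr (w - v) d := by positivity
    nlinarith
  · have e1 : orient v x (v + ε * d) = ε * cr (x - v) d := by
      simp only [orient, cr, Complex.sub_re, Complex.sub_im, Complex.add_re, Complex.add_im,
        Complex.mul_re, Complex.mul_im, Complex.ofReal_re, Complex.ofReal_im]; ring
    have e2 : orient v x w = - cr (w - v) (x - v) := by
      simp only [orient, cr, Complex.sub_re, Complex.sub_im]; ring
    rw [e1, e2]
    have : 0 < ε * cr (x - v) d := by positivity
    nlinarith

lemma turn_eq_arg_of_pos {u v : ℂ} (h : 0 < cr u v) : turn u v = Complex.arg (v / u) := by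
  have hu : u ≠ 0 := by rintro rfl; simp [cr] at h
  have hv : v ≠ 0 := by rintro rfl; simp [cr] at h
  have him : 0 < (v / u).im := by
    rw [Complex.div_im]
    have hn := normSq_pos.2 hu
    have : v.im * u.re / normSq u - v.re * u.im / normSq u = cr u v / normSq u := by
      unfold cr; ring
    rw [this]
    positivity
  have h0 : 0 < Complex.arg (v / u) := by
    rcases (Complex.arg_nonneg_iff.2 him.le).lt_or_eq with h1 | h1
    · exact h1
    · have := (Complex.arg_eq_zero_iff.1 h1.symm).2
      rw [this] at him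
      exact absurd him (lt_irrefl _)
  have hpi := Real.pi_pos
  refine turn_unique (c := ‖v / u‖) hu (norm_pos_iff.2 (div_ne_zero hv hu)) h0
    (by linarith [Complex.arg_le_pi (v / u)]) ?_
  rw [Complex.norm_mul_exp_arg_mul_I]
  field_simp

/-- The angle of a thin triangle. -/
lemma turn_thin {a d : ℂ} (ha : a ≠ 0) (h : 0 < cr a d) {δ : ℝ} (hδ : 0 < δ) :
    ∀ᶠ ε : ℝ in 𝓝[>] 0, turn a (a + (ε : ℂ) * d) < δ := by
  have h1 : Tendsto (fun z : ℂ => Complex.arg (z / a)) (𝓝 a) (𝓝 0) := by
    have h2 : ContinuousAt (fun z : ℂ => z / a) a := by fun_prop (disch := exact ha)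
    have h3 : ContinuousAt Complex.arg (a / a) := by
      rw [div_self ha]
      exact Complex.continuousAt_arg Complex.one_mem_slitPlane
    have h4 : ContinuousAt (fun z : ℂ => Complex.arg (z / a)) a :=
      ContinuousAt.comp (f := fun z : ℂ => z / a) (g := Complex.arg) h3 h2
    have h5 := h4.tendsto
    rwa [div_self ha, Complex.arg_one] at h5
  have h2 := h1.comp (tendsto_add_smul a d)
  have h3 := h2.eventually (gt_mem_nhds hδ)
  filter_upwards [h3, self_mem_nhdsWithin] with ε hε hε0
  have hε1 : 0 < ε := hε0
  rw [turn_eq_arg_of_pos]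
  · exact hε
  · rw [cr_add_right, cr_self, cr_smul_right, zero_add]; positivity

lemma turn_thin' {a d : ℂ} (ha : a ≠ 0) (h : cr a d < 0) {δ : ℝ} (hδ : 0 < δ) :
    ∀ᶠ ε : ℝ in 𝓝[>] 0, 2 * Real.pi - δ < turn a (a + (ε : ℂ) * d) := by
  have h1 : Tendsto (fun z : ℂ => Complex.arg (a / z)) (𝓝 a) (𝓝 0) := by
    have h2 : ContinuousAt (fun z : ℂ => a / z) a := by fun_prop (disch := exact ha)
    have h3 : ContinuousAt Complex.arg (a / a) := by
      rw [div_self ha]
      exact Complex.continuousAt_arg Complex.one_mem_slitPlane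
    have h4 : ContinuousAt (fun z : ℂ => Complex.arg (a / z)) a :=
      ContinuousAt.comp (f := fun z : ℂ => a / z) (g := Complex.arg) h3 h2
    have h5 := h4.tendsto
    rwa [div_self ha, Complex.arg_one] at h5
  have h2 := h1.comp (tendsto_add_smul a d)
  have h3 := h2.eventually (gt_mem_nhds hδ)
  have h4 : ∀ᶠ ε : ℝ in 𝓝[>] 0, a + (ε : ℂ) * d ≠ 0 :=
    (tendsto_add_smul a d).eventually_ne ha
  filter_upwards [h3, self_mem_nhdsWithin, h4] with ε hε hε0 hne
  have hε1 : 0 < ε := hε0
  have hcr : 0 < cr (a + (ε : ℂ) * d) a := by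
    rw [cr_add_left, cr_self, cr_smul_left, zero_add, cr_swap]
    have : 0 < ε * -cr a d := mul_pos hε1 (by linarith)
    simpa using this
  have h5 := turn_eq_arg_of_pos hcr
  have h6 : turn (a + (ε : ℂ) * d) a < 2 * Real.pi := by
    have := (turn_lt_pi hne ha).2 hcr
    linarith [Real.pi_pos]
  have h7 := turn_swap hne ha h6
  rw [h7, h5]
  have : Complex.arg (a / (a + (ε : ℂ) * d)) < δ := hε
  linarith

/-! ### Triangles as convex combinations -/

lemma ctri_comb {a b c z : ℂ} (h : 0 < orient a b c) (hz : z ∈ ctri a b c) :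
    ∃ α β γ : ℝ, 0 ≤ α ∧ 0 ≤ β ∧ 0 ≤ γ ∧ α + β + γ = 1 ∧
      z = (α : ℂ) * a + (β : ℂ) * b + (γ : ℂ) * c := by
  obtain ⟨h1, h2, h3⟩ := hz
  refine ⟨orient b c z / orient a b c, orient c a z / orient a b c, orient a b z / orient a b c,
    div_nonneg h2 h.le, div_nonneg h3 h.le, div_nonneg h1 h.le, ?_, ?_⟩
  · rw [← add_div, ← add_div, div_eq_one_iff_eq h.ne', ← orient_sum a b c z]; ring
  · have h4 : ((orient a b c : ℝ) : ℂ) ≠ 0 := by exact_mod_cast h.ne'
    have key : ((orient a b c : ℝ) : ℂ) * z = (orient b c z : ℂ) * a + (orient c a z : ℂ) * b +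
        (orient a b z : ℂ) * c := by
      apply Complex.ext
      · simp only [orient, cr, Complex.mul_re, Complex.add_re, Complex.ofReal_re,
          Complex.ofReal_im, Complex.sub_re, Complex.sub_im]; ring
      · simp only [orient, cr, Complex.mul_im, Complex.add_im, Complex.ofReal_re,
          Complex.ofReal_im, Complex.sub_re, Complex.sub_im]; ring
    push_cast
    field_simp
    linear_combination key

end Pool.Agent.SigPoly
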