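import Pool.Agent.SigPoly.Sym

/-!
# Cutting a polygon along a diagonal
-/

namespace Pool.Agent.SigPoly

open Complex Set Filter Topology Pool.Agent.VisGraph

/-- The polygon `p i, …, p j`, closed by the diagonal. -/
def subp (p : ℕ → ℂ) (i j : ℕ) : ℕ → ℂ := fun k => p (i + k % (j - i + 1))

variable {n : ℕ} {p : ℕ → ℂ}

section aux

/-- Every edge lies in the boundary. -/
lemma edge_sub_bd (h : SP n p) (k : ℕ) : segment ℝ (p k) (p (k + 1)) ⊆ chain p 0 n := by
  intro z hz
  have hn := h.three_le
  rw [← h.chain_per k]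
  exact mem_chain_of_mem le_rfl (by omega) hz

/-- A vertex is only on the two edges ending there. -/
lemma vertex_edge_sub (h : SP n p) {i k : ℕ} (h1 : i < k) (h2 : k + 1 < i + n)
    (hz : p i ∈ segment ℝ (p k) (p (k + 1))) : False := by
  by_cases h3 : k = i + 1
  · subst h3
    have h4 : p i ∈ segment ℝ (p i) (p (i + 1)) ∩ segment ℝ (p (i + 1)) (p (i + 2)) :=
      ⟨left_mem_segment ℝ _ _, hz⟩
    rw [h.consec i] at h4
    exact h.ne_succ i h4
  · have h4 : p i ∈ segment ℝ (p i) (p (i + 1)) ∩ segment ℝ (p k) (p (k + 1)) :=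
      ⟨left_mem_segment ℝ _ _, hz⟩
    rw [h.disj i k (by omega) h2] at h4
    exact h4

/-- Reduction of periodic functions to small indices. -/
lemma per_mod_sub {α : Type*} {m : ℕ} {f : ℕ → α} (per : ∀ k, f (k + m) = f k) (k j : ℕ) :
    f (k + j) = f (k % m + j) := by
  have e : k + j = (k % m + j) + m * (k / m) := by
    have := Nat.mod_add_div k m
    omega
  rw [e, per_mul f m per]

/-- Conditions for simplicity need only be checked for small indices. -/
lemma SP_of_small_sub {m : ℕ} {q : ℕ → ℂ} (hm : 3 ≤ m) (per : ∀ k, q (k + m) = q k)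
    (inj : ∀ i j, i < j → j < m → q i ≠ q j)
    (consec : ∀ k < m, segment ℝ (q k) (q (k + 1)) ∩ segment ℝ (q (k + 1)) (q (k + 2)) = {q (k + 1)})
    (disj : ∀ i j, i + 1 < j → j < m → ¬ (i = 0 ∧ j + 1 = m) →
      segment ℝ (q i) (q (i + 1)) ∩ segment ℝ (q j) (q (j + 1)) = ∅) : SP m q := by
  have h0 : ∀ k, q k = q (k % m) := fun k => by simpa using per_mod_sub per k 0
  have hlt : ∀ k, k % m < m := fun k => Nat.mod_lt _ (by omega)
  -- the residue of `j` relative to that of `i`
  have hres : ∀ i j, i ≤ j → j < i + m →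
      (j % m = i % m + (j - i) ∧ i % m + (j - i) < m) ∨
      (j % m + m = i % m + (j - i) ∧ m ≤ i % m + (j - i)) := by
    intro i j hij hj
    have h1 := hlt i
    have e : j % m = (i % m + (j - i)) % m := by
      rw [Nat.mod_add_mod]
      congr 1
      omega
    rcases lt_or_ge (i % m + (j - i)) m with h2 | h2
    · left
      rw [Nat.mod_eq_of_lt h2] at e
      exact ⟨e, h2⟩
    · right
      have e2 : (i % m + (j - i)) % m = i % m + (j - i) - m := by
        rw [Nat.mod_eq_sub_mod h2]
        exact Nat.mod_eq_of_lt (by omega)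
      omega
  refine ⟨hm, per, ?_, ?_, ?_⟩
  · intro i j hij hj
    rw [h0 i, h0 j]
    have h1 := hlt i
    have h2 := hlt j
    rcases hres i j hij.le hj with h3 | h3
    · exact inj _ _ (by omega) h2
    · exact (inj _ _ (by omega) h1).symm
  · intro k
    rw [h0 k, per_mod_sub per k 1, per_mod_sub per k 2]
    exact consec _ (hlt k)
  · intro i j hij hj
    rw [h0 i, h0 j, per_mod_sub per i 1, per_mod_sub per j 1]
    have h1 := hlt i
    have h2 := hlt j
    rcases hres i j (by omega) (by omega) with h3 | h3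
    · exact disj _ _ (by omega) h2 (by omega)
    · rw [inter_comm]
      exact disj _ _ (by omega) h1 (by omega)

lemma mid_mem_open (a b : ℂ) : ((1 / 2 : ℝ)) • a + ((1 / 2 : ℝ)) • b ∈ openSegment ℝ a b :=
  ⟨1 / 2, 1 / 2, by norm_num, by norm_num, by norm_num, rfl⟩

lemma subp_lt {i j k : ℕ} (hk : k < j - i + 1) : subp p i j k = p (i + k) := by
  unfold subp
  rw [Nat.mod_eq_of_lt hk]

lemma subp_per (i j k : ℕ) : subp p i j (k + (j - i + 1)) = subp p i j k := by
  unfold subp
  rw [Nat.add_mod_right]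

lemma subp_end (i j : ℕ) : subp p i j (j - i + 1) = p i := by
  have := subp_per (p := p) i j 0
  rw [zero_add] at this
  rw [this, subp_lt (by omega), add_zero]

end aux

/-- A diagonal does not join neighbours. -/
lemma Diag.two_le (h : SP n p) {i j : ℕ} (hd : Diag n p i j) (hij : i < j) (hj : j < i + n) :
    i + 2 ≤ j ∧ j + 2 ≤ i + n := by
  have key := hd (mid_mem_open (p i) (p j))
  have hs := openSegment_subset_segment ℝ _ _ (mid_mem_open (p i) (p j))
  constructor
  · by_contra hcon
    have e : j = i + 1 := by omega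
    subst e
    exact key.1 (edge_sub_bd h i hs)
  · by_contra hcon
    have e : j + 1 = i + n := by omega
    have e2 : p (j + 1) = p i := by rw [e, h.per]
    rw [segment_symm, ← e2] at hs
    rw [← e2] at key
    exact key.1 (edge_sub_bd h j hs)

lemma Diag.ne (h : SP n p) {i j : ℕ} (hd : Diag n p i j) : p i ≠ p j := by
  intro he
  have key := hd (mid_mem_open (p i) (p j))
  have e : ((1 / 2 : ℝ)) • p i + ((1 / 2 : ℝ)) • p j = p i := by
    rw [← he, ← add_smul]
    norm_num
  rw [e] at key
  exact key.1 (edge_sub_bd h i (left_mem_segment ℝ _ _))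

/-- A diagonal meets the boundary only in its end points. -/
lemma Diag.bd {i j : ℕ} (hd : Diag n p i j) {z : ℂ} (hz : z ∈ segment ℝ (p i) (p j))
    (hzc : z ∈ chain p 0 n) : z = p i ∨ z = p j := by
  by_contra hcon
  push Not at hcon
  exact (hd (mem_openSegment_of_ne_left_right hcon.1.symm hcon.2.symm hz)).1 hzc

lemma sub_sp (h : SP n p) {i j : ℕ} (hd : Diag n p i j) (hij : i < j) (hj : j < i + n) :
    SP (j - i + 1) (subp p i j) := by
  obtain ⟨h1, h2⟩ := hd.two_le h hij hj
  have hlt : ∀ k, k < j - i + 1 → subp p i j k = p (i + k) := fun k hk => subp_lt hk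
  have hend := subp_end (p := p) i j
  have hend1 : subp p i j (j - i + 1 + 1) = p (i + 1) := by
    rw [show j - i + 1 + 1 = 1 + (j - i + 1) by ring, subp_per, hlt 1 (by omega)]
  have hji : i + (j - i) = j := by omega
  refine SP_of_small_sub (by omega) (subp_per i j) ?_ ?_ ?_
  · intro a b hab hb
    rw [hlt a (by omega), hlt b hb]
    exact h.inj _ _ (by omega) (by omega)
  · intro k hk
    rcases lt_trichotomy (k + 1) (j - i) with h3 | h3 | h3
    · rw [hlt k (by omega), hlt (k + 1) (by omega), hlt (k + 2) (by omega)]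
      exact h.consec (i + k)
    · rw [hlt k (by omega), hlt (k + 1) (by omega), show k + 2 = j - i + 1 by omega, hend]
      have e1 : i + (k + 1) = j := by omega
      have e2 : i + k + 1 = j := by omega
      rw [e1]
      apply Subset.antisymm
      · rintro z ⟨hz1, hz2⟩
        rw [segment_symm] at hz2
        rw [← e2] at hz1
        rcases hd.bd hz2 (edge_sub_bd h _ hz1) with h4 | h4
        · exfalso
          rw [h4] at hz1
          exact vertex_edge_sub h (by omega) (by omega) hz1
        · exact h4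
      · rintro z rfl
        exact ⟨right_mem_segment ℝ _ _, left_mem_segment ℝ _ _⟩
    · have e0 : k = j - i := by omega
      subst e0
      rw [hlt _ (by omega), hend, show j - i + 2 = j - i + 1 + 1 by ring, hend1, hji]
      apply Subset.antisymm
      · rintro z ⟨hz1, hz2⟩
        rw [segment_symm] at hz1
        rcases hd.bd hz1 (edge_sub_bd h _ hz2) with h4 | h4
        · exact h4
        · exfalso
          rw [h4] at hz2
          have h5 : p j ∈ segment ℝ (p (i + n)) (p (i + n + 1)) := by
            rw [h.per, show i + n + 1 = i + 1 + n by ring, h.per]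
            exact hz2
          exact vertex_edge_sub h (by omega) (by omega) h5
      · rintro z rfl
        exact ⟨right_mem_segment ℝ _ _, left_mem_segment ℝ _ _⟩
  · intro a b hab hb hne
    rw [eq_empty_iff_forall_notMem]
    rintro z ⟨hz1, hz2⟩
    rw [hlt a (by omega), hlt (a + 1) (by omega)] at hz1
    rcases Nat.lt_or_ge (b + 1) (j - i + 1) with h3 | h3
    · rw [hlt b (by omega), hlt (b + 1) h3] at hz2
      have h4 : z ∈ segment ℝ (p (i + a)) (p (i + a + 1)) ∩ segment ℝ (p (i + b)) (p (i + b + 1)) :=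
        ⟨hz1, hz2⟩
      rw [h.disj (i + a) (i + b) (by omega) (by omega)] at h4
      exact h4
    · have e0 : b = j - i := by omega
      subst e0
      rw [hlt _ (by omega), hend, hji, segment_symm] at hz2
      have ha : 0 < a := by
        rcases Nat.eq_zero_or_pos a with h5 | h5
        · exact absurd ⟨h5, rfl⟩ hne
        · exact h5
      rcases hd.bd hz2 (edge_sub_bd h (i + a) hz1) with h4 | h4
      · rw [h4] at hz1
        exact vertex_edge_sub h (i := i) (k := i + a) (by omega) (by omega) hz1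
      · rw [h4] at hz1
        have h5 : p j ∈ segment ℝ (p (i + a + n)) (p (i + a + n + 1)) := by
          rw [h.per, show i + a + n + 1 = i + a + 1 + n by ring, h.per]
          exact hz1
        exact vertex_edge_sub h (by omega) (by omega) h5

/-- The boundary of the part. -/
lemma sub_chain {i j : ℕ} (hij : i < j) :
    chain (subp p i j) 0 (j - i + 1) = cl p i j := by
  have hlt : ∀ k, k < j - i + 1 → subp p i j k = p (i + k) := fun k hk => subp_lt hk
  have hend := subp_end (p := p) i j
  have hji : i + (j - i) = j := by omega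
  ext z
  constructor
  · rintro ⟨k, -, hk, hz⟩
    rcases Nat.lt_or_ge (k + 1) (j - i + 1) with h3 | h3
    · rw [hlt k hk, hlt (k + 1) h3] at hz
      exact Or.inl ⟨i + k, by omega, by omega, hz⟩
    · have e0 : k = j - i := by omega
      subst e0
      rw [hlt _ hk, hend, hji] at hz
      exact Or.inr hz
  · rintro (⟨k, hk1, hk2, hz⟩ | hz)
    · refine ⟨k - i, Nat.zero_le _, by omega, ?_⟩
      rw [hlt _ (by omega), hlt _ (by omega), show i + (k - i) = k by omega,
        show i + (k - i + 1) = k + 1 by omega]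
      exact hz
    · refine ⟨j - i, Nat.zero_le _, by omega, ?_⟩
      rw [hlt _ (by omega), hend, hji]
      exact hz

/-- The winding angle of the part. -/
lemma sub_A {i j : ℕ} (hij : i < j) (z : ℂ) : A (subp p i j) 0 (j - i + 1) z = wd p i j z := by
  have hlt : ∀ k, k < j - i + 1 → subp p i j k = p (i + k) := fun k hk => subp_lt hk
  have hend := subp_end (p := p) i j
  have hji : i + (j - i) = j := by omega
  rw [← A_add (Nat.zero_le (j - i)) (Nat.le_succ (j - i)), A_one, hend, hlt _ (by omega), hji]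
  unfold wd
  congr 1
  unfold A
  rw [Finset.sum_Ico_eq_sum_range, Finset.sum_Ico_eq_sum_range, Nat.sub_zero]
  refine Finset.sum_congr rfl fun k hk => ?_
  rw [Finset.mem_range] at hk
  rw [zero_add, hlt _ (by omega), hlt _ (by omega)]
  rfl

lemma sub_ins_eq {i j : ℕ} (hij : i < j) :
    Ins (j - i + 1) (subp p i j) = {z | z ∉ cl p i j ∧ wd p i j z ≠ 0} := by
  unfold Ins
  simp only [sub_chain hij, sub_A hij]

lemma sub_ins (h : SP n p) {i j : ℕ} (hd : Diag n p i j) (hij : i < j) (hj : j < i + n) :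
    Ins (j - i + 1) (subp p i j) ⊆ Ins n p := by
  obtain ⟨ε, U, J⟩ := jordan h
  have hc : IsChord n p U i j := by
    refine ⟨hij, hj, ?_⟩
    intro z hz hzU
    by_cases h1 : z = p i
    · exact J.sub hzU (edge_sub_bd h i (h1 ▸ left_mem_segment ℝ _ _))
    · by_cases h2 : z = p j
      · exact J.sub hzU (edge_sub_bd h j (h2 ▸ left_mem_segment ℝ _ _))
      · have h3 := hd (mem_openSegment_of_ne_left_right (Ne.symm h1) (Ne.symm h2) hz)
        rw [ins_eq J] at h3
        exact h3.1 hzU
  rw [sub_ins_eq hij, ins_eq J]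
  rintro z ⟨hz1, hz2⟩
  refine ⟨fun hzU => hz2 (wd_out J hij.le (hc.cl_sub h J) hzU), fun hzc => ?_⟩
  have hs : z ∉ segment ℝ (p i) (p j) := by
    intro hh
    rw [segment_symm] at hh
    exact hz1 (Or.inr hh)
  rw [← h.chain_per i, chain_union hij.le hj.le] at hzc
  rcases hzc with h3 | h3
  · exact hz1 (Or.inl h3)
  · exact hz2 (hc.mem_Oz' h J hs h3).2

lemma sub_diag (h : SP n p) {i j : ℕ} (hd : Diag n p i j) (hij : i < j) (hj : j < i + n)
    {a b : ℕ} (ha : a ≤ j - i) (hb : b ≤ j - i) (hab : Diag (j - i + 1) (subp p i j) a b) :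
    Diag n p (i + a) (i + b) := by
  have h1 := hab.trans (sub_ins h hd hij hj)
  rwa [subp_lt (by omega), subp_lt (by omega)] at h1

/-- The part of a counterclockwise polygon is counterclockwise. -/
lemma sub_pp (h : PP n p) {i j : ℕ} (hd : Diag n p i j) (hij : i < j) (hj : j < i + n) :
    PP (j - i + 1) (subp p i j) := by
  have hs := sub_sp h.sp hd hij hj
  refine ⟨hs, ?_⟩
  obtain ⟨ε, U, J⟩ := jordan hs
  have hpi := Real.pi_pos
  have e0 : subp p i j 0 = p i := by rw [subp_lt (by omega), add_zero]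
  have e1 : subp p i j (0 + 1) = p (i + 1) := by rw [subp_lt (by omega), zero_add]
  have hq := mid_mem_open (p i) (p (i + 1))
  set q := ((1 / 2 : ℝ)) • p i + ((1 / 2 : ℝ)) • p (i + 1) with hqd
  have hq' : q ∈ openSegment ℝ (subp p i j 0) (subp p i j (0 + 1)) := by
    rw [e0, e1]; exact hq
  obtain ⟨r, hr, hoff, hjump⟩ := hs.edge_jump 0 hq'
  rw [e0, e1] at hoff hjump
  have hq0 := orient_eq_zero_of_mem (openSegment_subset_segment ℝ _ _ hq)
  obtain ⟨W, hW, hWo, hqW⟩ := eventually_nhds_iff.1 (h.left_ins i hq)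
  obtain ⟨y1, ⟨hy1, hy1W⟩, ho1⟩ := VisGraph.exists_neg (h.sp.ne_succ i)
    (Metric.isOpen_ball.inter hWo) ⟨Metric.mem_ball_self hr, hqW⟩ hq0.le
  obtain ⟨y2, hy2, ho2⟩ := VisGraph.exists_pos (h.sp.ne_succ i) Metric.isOpen_ball
    (Metric.mem_ball_self hr) hq0.ge
  have h1 := hjump y1 y2 hy1 hy2 ho1 ho2
  have h2 : y1 ∉ Ins (j - i + 1) (subp p i j) := fun hh =>
    ((hW y1 hy1W).2 ho1).1 (sub_ins h.sp hd hij hj hh)
  have h3 : A (subp p i j) 0 (j - i + 1) y1 = 0 := by
    by_contra h4
    exact h2 ⟨hoff y1 hy1 ho1.ne, h4⟩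
  rw [h3, zero_add] at h1
  have h5 : y2 ∉ U := by
    intro hU
    rw [J.W_out y2 hU] at h1
    linarith
  have h6 := J.W_in y2 h5 (hoff y2 hy2 ho2.ne')
  rw [h1] at h6
  have h7 : ε = 1 := by
    have h8 : 2 * Real.pi * (ε - 1) = 0 := by linarith
    rcases mul_eq_zero.1 h8 with h9 | h9
    · linarith
    · linarith
  exact ⟨U, h7 ▸ J⟩

end Pool.Agent.SigPoly
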