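import Pool.Agent.SigPoly.Cone

/-!
# Triangles
-/

namespace Pool.Agent.SigPoly

open Complex Set Filter Topology Pool.Agent.VisGraph

lemma ne_of_orient {a b c : ℂ} (h : orient a b c ≠ 0) : a ≠ b ∧ b ≠ c ∧ a ≠ c := by
  refine ⟨?_, ?_, ?_⟩
  · rintro rfl; apply h; simp [orient, cr]
  · rintro rfl; apply h; simp only [orient, cr, Complex.sub_re, Complex.sub_im]; ring
  · rintro rfl; apply h; simp [orient, cr]

/-- The angle under which a segment is seen has the sign of the orientation. -/
lemma ang_pos {z u v : ℂ} (h : 0 < orient u v z) : 0 < ang z u v ∧ ang z u v < Real.pi := by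
  have hz : u - z ≠ 0 := by
    intro h0
    rw [sub_eq_zero] at h0
    rw [h0] at h
    simp [orient, cr] at h
  have him : 0 < ((v - z) / (u - z)).im := by
    rw [im_div_eq]
    exact div_pos h (normSq_pos.2 hz)
  unfold ang
  constructor
  · rcases (Complex.arg_nonneg_iff.2 him.le).lt_or_eq with h1 | h1
    · exact h1
    · have := (Complex.arg_eq_zero_iff.1 h1.symm).2
      rw [this] at him
      exact absurd him (lt_irrefl _)
  · refine lt_of_le_of_ne (Complex.arg_le_pi _) ?_
    intro h1
    have := (Complex.arg_eq_pi_iff.1 h1).2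
    rw [this] at him
    exact absurd him (lt_irrefl _)

lemma ang_neg {z u v : ℂ} (h : orient u v z < 0) : -Real.pi < ang z u v ∧ ang z u v < 0 := by
  have hz : u - z ≠ 0 := by
    intro h0
    rw [sub_eq_zero] at h0
    rw [h0] at h
    simp [orient, cr] at h
  have him : ((v - z) / (u - z)).im < 0 := by
    rw [im_div_eq]
    exact div_neg_of_neg_of_pos h (normSq_pos.2 hz)
  unfold ang
  exact ⟨Complex.neg_pi_lt_arg _, Complex.arg_neg_iff.2 him⟩

lemma ang_abs (z u v : ℂ) : -Real.pi < ang z u v ∧ ang z u v ≤ Real.pi :=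
  ⟨Complex.neg_pi_lt_arg _, Complex.arg_le_pi _⟩

lemma orient_sum (a b c z : ℂ) :
    orient a b z + orient b c z + orient c a z = orient a b c := by
  simp only [orient, cr, Complex.sub_re, Complex.sub_im]; ring

lemma segment_sub_ctri {a b c : ℂ} (h : 0 < orient a b c) : segment ℝ a b ⊆ ctri a b c := by
  intro z hz
  have h0 := orient_eq_zero_of_mem hz
  obtain ⟨s, t, hs, ht, hst, rfl⟩ := hz
  refine ⟨h0.ge, ?_, ?_⟩
  · rw [orient_comb hst]
    have e1 : orient b c a = orient a b c := orient_cyc a b c
    have e2 : orient b c b = 0 := by simp only [orient, cr, Complex.sub_re, Complex.sub_im]; ring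
    rw [e1, e2]
    nlinarith
  · rw [orient_comb hst]
    have e1 : orient c a b = orient a b c := (orient_cyc c a b).symm
    have e2 : orient c a a = 0 := by simp only [orient, cr, Complex.sub_re, Complex.sub_im]; ring
    rw [e1, e2]
    nlinarith

lemma ctri_cyc (a b c : ℂ) : ctri b c a = ctri a b c := by
  ext z; simp only [ctri, mem_ofPred_eq]; tauto

lemma otri_cyc (a b c : ℂ) : otri b c a = otri a b c := by
  ext z; simp only [otri, mem_ofPred_eq]; tauto

lemma otri_sub_ctri (a b c : ℂ) : otri a b c ⊆ ctri a b c := fun _ h =>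
  ⟨h.1.le, h.2.1.le, h.2.2.le⟩

/-- The winding number of a triangle is an integer multiple of `2π`. -/
lemma tri_int {a b c z : ℂ} (h1 : z ∉ segment ℝ a b) (h2 : z ∉ segment ℝ b c)
    (h3 : z ∉ segment ℝ c a) : ∃ k : ℤ, ang z a b + ang z b c + ang z c a = 2 * Real.pi * k := by
  have r := ((Rot.ang h1).trans (Rot.ang h2)).trans (Rot.ang h3)
  refine Rot.closed ?_ r
  rintro rfl
  exact h1 (left_mem_segment ℝ _ _)

lemma tri_in {a b c z : ℂ} (hz : z ∈ otri a b c) :
    ang z a b + ang z b c + ang z c a = 2 * Real.pi := by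
  obtain ⟨h1, h2, h3⟩ := hz
  obtain ⟨k, hk⟩ := tri_int (a := a) (b := b) (c := c) (z := z)
    (fun hh => h1.ne' (orient_eq_zero_of_mem hh)) (fun hh => h2.ne' (orient_eq_zero_of_mem hh))
    (fun hh => h3.ne' (orient_eq_zero_of_mem hh))
  have a1 := ang_pos h1
  have a2 := ang_pos h2
  have a3 := ang_pos h3
  have hpi := Real.pi_pos
  rw [hk] 
  have hk0 : (0 : ℝ) < k := by
    by_contra hcon
    push Not at hcon
    nlinarith
  have hk2 : (k : ℝ) < 2 := by
    by_contra hcon
    push Not at hcon
    nlinarith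
  have h4 : 0 < k := by exact_mod_cast hk0
  have h5 : k < 2 := by exact_mod_cast hk2
  have : k = 1 := by omega
  rw [this]; simp

lemma tri_out {a b c z : ℂ} (h : 0 < orient a b c) (hz : z ∉ ctri a b c) :
    ang z a b + ang z b c + ang z c a = 0 := by
  have s1 : z ∉ segment ℝ a b := fun hh => hz (segment_sub_ctri h hh)
  have s2 : z ∉ segment ℝ b c := fun hh => hz (by
    rw [← ctri_cyc]; exact segment_sub_ctri (by rw [orient_cyc]; exact h) hh)
  have s3 : z ∉ segment ℝ c a := fun hh => hz (by
    rw [← ctri_cyc, ← ctri_cyc]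
    exact segment_sub_ctri (by rw [orient_cyc, orient_cyc]; exact h) hh)
  obtain ⟨k, hk⟩ := tri_int s1 s2 s3
  have hsum := orient_sum a b c z
  have hpi := Real.pi_pos
  have b1 := ang_abs z a b
  have b2 := ang_abs z b c
  have b3 := ang_abs z c a
  have hlow : -(2 * Real.pi) < ang z a b + ang z b c + ang z c a := by
    have : 0 < orient a b z ∨ 0 < orient b c z ∨ 0 < orient c a z := by
      by_contra hcon
      push Not at hcon
      linarith [hcon.1, hcon.2.1, hcon.2.2]
    rcases this with h0 | h0 | h0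
    · linarith [(ang_pos h0).1]
    · linarith [(ang_pos h0).1]
    · linarith [(ang_pos h0).1]
  have hup : ang z a b + ang z b c + ang z c a < 2 * Real.pi := by
    have : orient a b z < 0 ∨ orient b c z < 0 ∨ orient c a z < 0 := by
      by_contra hcon
      push Not at hcon
      exact hz hcon
    rcases this with h0 | h0 | h0
    · linarith [(ang_neg h0).2]
    · linarith [(ang_neg h0).2]
    · linarith [(ang_neg h0).2]
  rw [hk] at hlow hup ⊢
  have hk0 : (-1 : ℝ) < k := by
    by_contra hcon
    push Not at hcon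
    nlinarith
  have hk2 : (k : ℝ) < 1 := by
    by_contra hcon
    push Not at hcon
    nlinarith
  have h4 : -1 < k := by exact_mod_cast hk0
  have h5 : k < 1 := by exact_mod_cast hk2
  have : k = 0 := by omega
  rw [this]; simp

/-- A point in the open triangle. -/
lemma centroid_mem {a b c : ℂ} (h : 0 < orient a b c) : (a + b + c) / 3 ∈ otri a b c := by
  have e : ∀ u v : ℂ, orient u v ((a + b + c) / 3) =
      (orient u v a + orient u v b + orient u v c) / 3 := by
    intro u v
    simp only [orient, cr, Complex.sub_re, Complex.sub_im]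
    have h3 : ((3 : ℂ)) = ((3 : ℝ) : ℂ) := by norm_num
    rw [h3, Complex.div_ofReal_re, Complex.div_ofReal_im]
    simp only [Complex.add_re, Complex.add_im]
    ring
  refine ⟨?_, ?_, ?_⟩
  · rw [e]
    have e1 : orient a b a = 0 := by simp only [orient, cr, Complex.sub_re, Complex.sub_im]; ring
    have e2 : orient a b b = 0 := by simp only [orient, cr, Complex.sub_re, Complex.sub_im]; ring
    rw [e1, e2]; linarith
  · rw [e]
    have e1 : orient b c b = 0 := by simp only [orient, cr, Complex.sub_re, Complex.sub_im]; ring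
    have e2 : orient b c c = 0 := by simp only [orient, cr, Complex.sub_re, Complex.sub_im]; ring
    rw [e1, e2, orient_cyc]; linarith
  · rw [e]
    have e1 : orient c a c = 0 := by simp only [orient, cr, Complex.sub_re, Complex.sub_im]; ring
    have e2 : orient c a a = 0 := by simp only [orient, cr, Complex.sub_re, Complex.sub_im]; ring
    rw [e1, e2, show orient c a b = orient a b c from (orient_cyc c a b).symm]; linarith

lemma orient_left (a b : ℂ) : orient a b a = 0 := by
  simp only [orient, cr, Complex.sub_re, Complex.sub_im]; ring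

lemma orient_right (a b : ℂ) : orient a b b = 0 := by
  simp only [orient, cr, Complex.sub_re, Complex.sub_im]; ring

lemma seg_inter_seg {a b c : ℂ} (h : orient a b c ≠ 0) :
    segment ℝ a b ∩ segment ℝ b c = {b} := by
  ext z
  constructor
  · rintro ⟨h1, h2⟩
    have h0 := orient_eq_zero_of_mem h2
    obtain ⟨s, t, hs, ht, hst, rfl⟩ := h1
    rw [orient_comb hst, orient_cyc, orient_left, mul_zero, add_zero] at h0
    rcases mul_eq_zero.1 h0 with h1 | h1
    · have : t = 1 := by linarith
      rw [h1, this]; simp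
    · exact absurd h1 h
  · rintro rfl
    exact ⟨right_mem_segment ℝ _ _, left_mem_segment ℝ _ _⟩

lemma orient3 {p : ℕ → ℂ} (per : ∀ k, p (k + 3) = p k) (k : ℕ) :
    orient (p k) (p (k + 1)) (p (k + 2)) = orient (p 0) (p 1) (p 2) := by
  induction k with
  | zero => rfl
  | succ k ih =>
    rw [show k + 1 + 2 = k + 3 by ring, per, show k + 1 + 1 = k + 2 by ring, orient_cyc]
    exact ih

lemma SP3_of_orient {p : ℕ → ℂ} (per : ∀ k, p (k + 3) = p k)
    (h : orient (p 0) (p 1) (p 2) ≠ 0) : SP 3 p := by
  refine ⟨le_rfl, per, ?_, ?_, ?_⟩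
  · intro i j hij hj
    have h1 : orient (p i) (p (i + 1)) (p (i + 2)) ≠ 0 := by rw [orient3 per]; exact h
    have := ne_of_orient h1
    have : j = i + 1 ∨ j = i + 2 := by omega
    rcases this with rfl | rfl
    · exact (ne_of_orient h1).1
    · exact (ne_of_orient h1).2.2
  · intro k
    exact seg_inter_seg (by rw [orient3 per]; exact h)
  · intro i j h1 h2
    omega

lemma A_three {p : ℕ → ℂ} (z : ℂ) :
    A p 0 3 z = ang z (p 0) (p 1) + ang z (p 1) (p 2) + ang z (p 2) (p 3) := by
  unfold A
  rw [show Finset.Ico 0 3 = Finset.range 3 by ext; simp, Finset.sum_range_succ,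
    Finset.sum_range_succ, Finset.sum_range_one]

lemma A_swap3 {a b c z : ℂ} (h1 : z ∉ segment ℝ a b) (h2 : z ∉ segment ℝ b c)
    (h3 : z ∉ segment ℝ c a) : ang z a b + ang z b c + ang z c a =
      -(ang z a c + ang z c b + ang z b a) := by
  rw [ang_swap h1, ang_swap h2, ang_swap h3]; ring

lemma notMem_chain3 {p : ℕ → ℂ} (per : ∀ k, p (k + 3) = p k) {z : ℂ}
    (h1 : orient (p 0) (p 1) z ≠ 0) (h2 : orient (p 1) (p 2) z ≠ 0)
    (h3 : orient (p 2) (p 0) z ≠ 0) : z ∉ chain p 0 3 := by
  rintro ⟨k, -, hk, hz⟩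
  have := orient_eq_zero_of_mem hz
  have : k = 0 ∨ k = 1 ∨ k = 2 := by omega
  rcases this with rfl | rfl | rfl
  · exact h1 (orient_eq_zero_of_mem hz)
  · exact h2 (orient_eq_zero_of_mem hz)
  · apply h3
    have e : p 0 = p 3 := (per 0).symm
    rw [e]
    exact orient_eq_zero_of_mem hz

lemma PP3_of_orient {p : ℕ → ℂ} (per : ∀ k, p (k + 3) = p k)
    (h : 0 < orient (p 0) (p 1) (p 2)) : PP 3 p := by
  have hs := SP3_of_orient per h.ne'
  refine ⟨hs, ?_⟩
  obtain ⟨ε, U, J⟩ := jordan hs
  have hc := centroid_mem h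
  have hin := tri_in hc
  have e : p 3 = p 0 := per 0
  have hA : A p 0 3 ((p 0 + p 1 + p 2) / 3) = 2 * Real.pi := by
    rw [A_three, e]; exact hin
  have hpi := Real.pi_pos
  have hU : (p 0 + p 1 + p 2) / 3 ∉ U := by
    intro hh
    rw [J.W_out _ hh] at hA
    linarith
  have := J.W_in _ hU (notMem_chain3 per hc.1.ne' hc.2.1.ne' hc.2.2.ne')
  rw [hA] at this
  have hε : ε = 1 := by
    rcases J.eps with h1 | h1
    · exact h1
    · rw [h1] at this; linarith
  rw [hε] at J
  exact ⟨U, J⟩

lemma PP3_orient {p : ℕ → ℂ} (h : PP 3 p) : 0 < orient (p 0) (p 1) (p 2) := by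
  obtain ⟨U, J⟩ := h.pos
  by_contra hcon
  push Not at hcon
  have per := h.sp.per
  have e : p 3 = p 0 := per 0
  have hpi := Real.pi_pos
  rcases hcon.lt_or_eq with h1 | h1
  · have h2 : 0 < orient (p 0) (p 2) (p 1) := by
      have : orient (p 0) (p 2) (p 1) = - orient (p 0) (p 1) (p 2) := by
        simp only [orient, cr, Complex.sub_re, Complex.sub_im]; ring
      rw [this]; linarith
    have hc := centroid_mem h2
    have hin := tri_in hc
    have o1 : orient (p 0) (p 1) ((p 0 + p 2 + p 1) / 3) ≠ 0 := by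
      rw [orient_swap]; exact (neg_lt_zero.2 hc.2.2).ne
    have o2 : orient (p 1) (p 2) ((p 0 + p 2 + p 1) / 3) ≠ 0 := by
      rw [orient_swap]; exact (neg_lt_zero.2 hc.2.1).ne
    have o3 : orient (p 2) (p 0) ((p 0 + p 2 + p 1) / 3) ≠ 0 := by
      rw [orient_swap]; exact (neg_lt_zero.2 hc.1).ne
    have hA : A p 0 3 ((p 0 + p 2 + p 1) / 3) = -(2 * Real.pi) := by
      rw [A_three, e, A_swap3 (fun hh => o1 (orient_eq_zero_of_mem hh))
        (fun hh => o2 (orient_eq_zero_of_mem hh)) (fun hh => o3 (orient_eq_zero_of_mem hh)), hin]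
    have hU : (p 0 + p 2 + p 1) / 3 ∉ U := by
      intro hh
      rw [J.W_out _ hh] at hA
      linarith
    have := J.W_in _ hU (notMem_chain3 per o1 o2 o3)
    rw [hA] at this
    linarith
  · -- collinear vertices
    have hne : p 0 ≠ p 1 := h.sp.inj 0 1 (by omega) (by omega)
    have hc0 := h.sp.consec 0
    have hc1 := h.sp.consec 1
    have hc2 := h.sp.consec 2
    simp only [Nat.zero_add] at hc0
    rw [show (1 : ℕ) + 1 = 2 by rfl, show (1 : ℕ) + 2 = 3 by rfl, e] at hc1
    rw [show (2 : ℕ) + 1 = 3 by rfl, show (2 : ℕ) + 2 = 4 by rfl, e,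
      show p 4 = p 1 from per 1] at hc2
    have n02 : p 0 ≠ p 2 := h.sp.inj 0 2 (by omega) (by omega)
    have n12 : p 1 ≠ p 2 := h.sp.inj 1 2 (by omega) (by omega)
    rw [orient_eq_co hne] at h1
    have him : (co (p 0) (p 1) (p 2)).im = 0 := by
      rcases mul_eq_zero.1 h1 with h2 | h2
      · exact absurd h2 (normSq_pos' hne).ne'
      · exact h2
    have hp2 := co_affine hne (p 2)
    set t := (co (p 0) (p 1) (p 2)).re with ht
    have hco : co (p 0) (p 1) (p 2) = (t : ℂ) := by
      apply Complex.ext <;> simp [him, ht]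
    rw [hco] at hp2
    rcases le_total t 0 with h0 | h0
    · -- p 0 between p 2 and p 1
      have : p 0 ∈ segment ℝ (p 1) (p 2) := by
        refine ⟨-t / (1 - t), 1 / (1 - t), div_nonneg (by linarith) (by linarith),
          by apply div_nonneg <;> linarith, ?_, ?_⟩
        · have : (1 - t) ≠ 0 := by linarith
          field_simp; ring
        · have h3 : ((1 : ℂ) - t) ≠ 0 := by
            have : (1 - t : ℝ) ≠ 0 := by linarith
            exact_mod_cast this
          rw [hp2]
          simp only [Complex.real_smul]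
          push_cast
          field_simp
          ring
      have h4 : p 0 ∈ segment ℝ (p 0) (p 1) ∩ segment ℝ (p 1) (p 2) :=
        ⟨left_mem_segment ℝ _ _, this⟩
      rw [hc0] at h4
      exact hne h4
    · rcases le_total t 1 with h5 | h5
      · have : p 2 ∈ segment ℝ (p 0) (p 1) := by
          rw [mem_segment_iff_co hne]
          exact ⟨him, h0, h5⟩
        have h4 : p 2 ∈ segment ℝ (p 0) (p 1) ∩ segment ℝ (p 1) (p 2) :=
          ⟨this, right_mem_segment ℝ _ _⟩
        rw [hc0] at h4
        exact n12 h4.symm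
      · have : p 1 ∈ segment ℝ (p 2) (p 0) := by
          refine ⟨1 / t, 1 - 1 / t, by positivity, ?_, by ring, ?_⟩
          · have : 1 / t ≤ 1 := by rw [div_le_one (by linarith)]; exact h5
            linarith
          · have h3 : (t : ℂ) ≠ 0 := by
              have : (t : ℝ) ≠ 0 := by linarith
              exact_mod_cast this
            rw [hp2]
            simp only [Complex.real_smul]
            push_cast
            field_simp
            ring
        have h4 : p 1 ∈ segment ℝ (p 1) (p 2) ∩ segment ℝ (p 2) (p 0) :=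
          ⟨left_mem_segment ℝ _ _, this⟩
        rw [hc1] at h4
        exact n12 h4

end Pool.Agent.SigPoly
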