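import Pool.Agent.SigPoly.Defs

/-!
# Words of the grammar without flat letters
-/

namespace Pool.Agent.SigPoly

/-- The sign of a label. -/
def Lab.sgn : Lab → ℤ
  | Lab.tip => 1
  | Lab.plus => 1
  | Lab.flat => 0
  | Lab.neg _ _ => -1

/-- Number of letters with a given sign. -/
def num (n : ℕ) (s : ℕ → ℤ) (x : ℤ) : ℕ := ((Finset.range n).filter fun k => s k = x).card

section sums

variable {M : Type*} [AddCancelCommMonoid M]

theorem sum_rot1 (f : ℕ → M) (n : ℕ) (per : ∀ k, f (k + n) = f k) :
    ∑ k ∈ Finset.range n, f (k + 1) = ∑ k ∈ Finset.range n, f k := by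
  have h1 := Finset.sum_range_succ f n
  have h2 := Finset.sum_range_succ' f n
  have h3 : f n = f 0 := by simpa using per 0
  rw [h1, h3] at h2
  exact (add_right_cancel h2).symm

theorem per_mul {α : Type*} (f : ℕ → α) (n : ℕ) (per : ∀ k, f (k + n) = f k) (k j : ℕ) :
    f (k + n * j) = f k := by
  induction j with
  | zero => simp
  | succ j ih => rw [Nat.mul_succ, ← add_assoc, per, ih]

theorem sum_rot (f : ℕ → M) (n : ℕ) (per : ∀ k, f (k + n) = f k) (j : ℕ) :
    ∑ k ∈ Finset.range n, f (k + j) = ∑ k ∈ Finset.range n, f k := by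
  induction j with
  | zero => simp
  | succ j ih =>
    rw [← ih, ← sum_rot1 (fun k => f (k + j)) n]
    · exact Finset.sum_congr rfl fun k _ => by rw [show k + 1 + j = k + (j + 1) by omega]
    · intro k
      show f (k + n + j) = f (k + j)
      rw [show k + n + j = (k + j) + n by omega, per]

theorem sum_mir (f : ℕ → M) (m : ℕ) (per : ∀ k, f (k + (m + 1)) = f k) :
    ∑ k ∈ Finset.range (m + 1), f (m * k) = ∑ k ∈ Finset.range (m + 1), f k := by
  rw [Finset.sum_range_succ', Finset.sum_range_succ' (fun k => f k)]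
  congr 1
  rw [← Finset.sum_range_reflect (fun k => f (k + 1)) m]
  refine Finset.sum_congr rfl fun k hk => ?_
  rw [Finset.mem_range] at hk
  have e : m * (k + 1) = (m - 1 - k + 1) + (m + 1) * k := by
    obtain ⟨d, rfl⟩ : ∃ d, m = k + 1 + d := ⟨m - (k + 1), by omega⟩
    rw [show k + 1 + d - 1 - k + 1 = d + 1 by omega]
    ring
  rw [e, per_mul f (m + 1) per]

end sums

theorem num_eq (n : ℕ) (s : ℕ → ℤ) (x : ℤ) :
    num n s x = ∑ k ∈ Finset.range n, if s k = x then 1 else 0 := by
  unfold num; rw [Finset.card_filter]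

theorem num_rot {n : ℕ} (s : ℕ → ℤ) (per : ∀ k, s (k + n) = s k) (x : ℤ) (j : ℕ) :
    num n (fun k => s (k + j)) x = num n s x := by
  rw [num_eq, num_eq]
  exact sum_rot (fun k => if s k = x then 1 else 0) n (fun k => by simp only [per]) j

theorem Gen.three_le {n : ℕ} {L : ℕ → Lab} (h : Gen n L) : 3 ≤ n := by
  induction h with
  | base => exact le_rfl
  | rot _ _ _ ih => exact ih
  | mir _ _ _ ih => exact ih
  | att _ _ _ _ _ _ _ _ _ ih => omega

theorem Gen.per {n : ℕ} {L : ℕ → Lab} (h : Gen n L) : ∀ k, L (k + n) = L k := by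
  induction h with
  | base L per _ => exact per
  | rot n L _ ih =>
    intro k
    show L (k + n + 1) = L (k + 1)
    rw [show k + n + 1 = (k + 1) + n by omega, ih]
  | mir n L _ ih =>
    intro k
    show (L ((n - 1) * (k + n))).mir = (L ((n - 1) * k)).mir
    rw [Nat.mul_add, Nat.mul_comm (n - 1) n, per_mul L n ih]
  | att _ _ _ _ per _ _ _ _ _ => exact per

/-- sum of weights -/
def wsum (w : Lab → ℤ) (n : ℕ) (L : ℕ → Lab) : ℤ := ∑ k ∈ Finset.range n, w (L k)

theorem wsum_rot (w : Lab → ℤ) {n : ℕ} {L : ℕ → Lab} (h : ∀ k, L (k + n) = L k) :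
    wsum w n (fun k => L (k + 1)) = wsum w n L :=
  sum_rot1 (fun k => w (L k)) n fun k => by simp only [h]

theorem wsum_mir (w : Lab → ℤ) (hw : ∀ x : Lab, w x.mir = w x) {n : ℕ} (hn : 3 ≤ n) {L : ℕ → Lab}
    (h : ∀ k, L (k + n) = L k) :
    wsum w n (fun k => (L ((n - 1) * k)).mir) = wsum w n L := by
  obtain ⟨m, rfl⟩ : ∃ m, n = m + 1 := ⟨n - 1, by omega⟩
  unfold wsum
  simp only [hw, Nat.add_sub_cancel]
  exact sum_mir (fun k => w (L k)) m fun k => by simp only [h]

theorem wsum_att (w : Lab → ℤ) {n : ℕ} (hn : 3 ≤ n) {L L' : ℕ → Lab}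
    (mid : ∀ k, 0 < k → k + 1 < n → L' k = L k) :
    wsum w (n + 1) L' = wsum w n L + (w (L' 0) - w (L 0)) + (w (L' (n - 1)) - w (L (n - 1)))
      + w (L' n) := by
  obtain ⟨m, rfl⟩ : ∃ m, n = m + 2 := ⟨n - 2, by omega⟩
  unfold wsum
  rw [Finset.sum_range_succ, Finset.sum_range_succ, Finset.sum_range_succ']
  rw [Finset.sum_range_succ (fun k => w (L k)), Finset.sum_range_succ' (fun k => w (L k))]
  have e : ∑ k ∈ Finset.range m, w (L' (k + 1)) = ∑ k ∈ Finset.range m, w (L (k + 1)) :=
    Finset.sum_congr rfl fun k hk => by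
      rw [Finset.mem_range] at hk
      rw [mid (k + 1) (by omega) (by omega)]
  rw [e]
  simp only [show m + 2 - 1 = m + 1 by omega]
  ring

/-- weights: convex letters -/
def wP : Lab → ℤ
  | Lab.tip => 1
  | Lab.plus => 1
  | Lab.flat => 0
  | Lab.neg _ _ => 0

/-- weights: concave letters -/
def wN : Lab → ℤ
  | Lab.neg _ _ => 1
  | _ => 0

/-- weights: concave letters with a flag -/
def wT : Lab → ℤ
  | Lab.neg l r => if l = true ∨ r = true then 1 else 0
  | _ => 0

theorem wP_mir (x : Lab) : wP x.mir = wP x := by cases x <;> rfl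

theorem wN_mir (x : Lab) : wN x.mir = wN x := by cases x <;> rfl

theorem wT_mir (x : Lab) : wT x.mir = wT x := by
  cases x with
  | neg l r => cases l <;> cases r <;> rfl
  | _ => rfl

theorem Gen.wcount {n : ℕ} {L : ℕ → Lab} (h : Gen n L) :
    3 ≤ wsum wP n L ∧ wsum wP n L + wsum wT n L ≤ wsum wN n L + 3 := by
  induction h with
  | base L per h =>
    have hP : ∀ k, wP (L k) = 1 := fun k => by rcases h k with e | e <;> rw [e] <;> rfl
    have hT : ∀ k, wT (L k) = 0 := fun k => by rcases h k with e | e <;> rw [e] <;> rfl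
    have hN : ∀ k, wN (L k) = 0 := fun k => by rcases h k with e | e <;> rw [e] <;> rfl
    simp [wsum, hP, hT, hN]
  | rot n L h ih =>
    rw [wsum_rot wP h.per, wsum_rot wT h.per, wsum_rot wN h.per]
    exact ih
  | mir n L h ih =>
    rw [wsum_mir wP wP_mir h.three_le h.per, wsum_mir wT wT_mir h.three_le h.per,
      wsum_mir wN wN_mir h.three_le h.per]
    exact ih
  | att n L L' h per mid new hv hy ih =>
    rw [wsum_att wP h.three_le mid, wsum_att wT h.three_le mid, wsum_att wN h.three_le mid]
    obtain ⟨ih1, ih2⟩ := ih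
    have a1 : wP (L' n) = 1 := by rcases new with e | e <;> rw [e] <;> rfl
    have a2 : wT (L' n) = 0 := by rcases new with e | e <;> rw [e] <;> rfl
    have a3 : wN (L' n) = 0 := by rcases new with e | e <;> rw [e] <;> rfl
    have b1 : wP (L' 0) = wP (L 0) := by
      generalize L 0 = x at hy
      generalize L' 0 = y at hy
      cases hy <;> rfl
    have b2 : wN (L' 0) = wN (L 0) := by
      generalize L 0 = x at hy
      generalize L' 0 = y at hy
      cases hy <;> rfl
    have b3 : wT (L' 0) ≤ wT (L 0) := by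
      generalize L 0 = x at hy
      generalize L' 0 = y at hy
      cases hy with
      | tp => exact le_rfl
      | pp => exact le_rfl
      | nn l r r' h =>
        cases l <;> cases r <;> cases r' <;> simp_all [wT]
    have c1 : -1 ≤ wP (L' (n - 1)) - wP (L (n - 1)) := by
      generalize L (n - 1) = x at hv
      generalize L' (n - 1) = y at hv
      cases hv <;> simp [wP]
    have c2 : wP (L' (n - 1)) - wP (L (n - 1)) + (wT (L' (n - 1)) - wT (L (n - 1))) -
        (wN (L' (n - 1)) - wN (L (n - 1))) ≤ -1 := by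
      generalize L (n - 1) = x at hv
      generalize L' (n - 1) = y at hv
      cases hv with
      | tf => simp [wP, wT, wN]
      | tn l r => cases l <;> cases r <;> simp [wP, wT, wN]
      | pn r => cases r <;> simp [wP, wT, wN]
      | nn l => cases l <;> simp [wP, wT, wN]
    constructor
    · omega
    · omega

theorem wP_num (n : ℕ) (L : ℕ → Lab) : wsum wP n L = (num n (fun k => (L k).sgn) 1 : ℤ) := by
  rw [num_eq, wsum]
  push_cast
  refine Finset.sum_congr rfl fun k _ => ?_
  cases L k <;> simp [wP, Lab.sgn]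

theorem wN_num (n : ℕ) (L : ℕ → Lab) : wsum wN n L = (num n (fun k => (L k).sgn) (-1) : ℤ) := by
  rw [num_eq, wsum]
  push_cast
  refine Finset.sum_congr rfl fun k _ => ?_
  cases L k <;> simp [wN, Lab.sgn]

theorem wT_nonneg (n : ℕ) (L : ℕ → Lab) : 0 ≤ wsum wT n L := by
  refine Finset.sum_nonneg fun k _ => ?_
  cases L k with
  | neg l r => simp only [wT]; split_ifs <;> simp
  | _ => exact le_rfl

/-- The counting conditions. -/
theorem Gen.count {n : ℕ} {L : ℕ → Lab} (h : Gen n L) :
    3 ≤ num n (fun k => (L k).sgn) 1 ∧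
      num n (fun k => (L k).sgn) 1 ≤ num n (fun k => (L k).sgn) (-1) + 3 := by
  obtain ⟨h1, h2⟩ := h.wcount
  have h3 := wT_nonneg n L
  rw [wP_num] at h1
  rw [wP_num, wN_num] at h2
  constructor
  · exact_mod_cast h1
  · have : (num n (fun k => (L k).sgn) 1 : ℤ) ≤ (num n (fun k => (L k).sgn) (-1) : ℤ) + 3 := by
      linarith
    exact_mod_cast this

theorem Gen.rotk {n : ℕ} {L : ℕ → Lab} (h : Gen n L) (j : ℕ) : Gen n (fun k => L (k + j)) := by
  induction j with
  | zero => simpa using h
  | succ j ih =>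
    have := Gen.rot n _ ih
    have e : (fun k => (fun k => L (k + j)) (k + 1)) = fun k => L (k + (j + 1)) := by
      funext k
      show L (k + 1 + j) = L (k + (j + 1))
      rw [show k + 1 + j = k + (j + 1) by omega]
    rwa [e] at this

/-- sign words which are generated -/
def Good (n : ℕ) (s : ℕ → ℤ) : Prop := ∃ L, Gen n L ∧ ∀ k, (L k).sgn = s k

theorem Good.unrot {n : ℕ} {s : ℕ → ℤ} (per : ∀ k, s (k + n) = s k) {j : ℕ}
    (h : Good n (fun k => s (k + j))) : Good n s := by
  obtain ⟨L, hL, hs⟩ := h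
  have hn := hL.three_le
  refine ⟨_, hL.rotk ((n - 1) * j), fun k => ?_⟩
  rw [hs]
  show s (k + (n - 1) * j + j) = s k
  have e : k + (n - 1) * j + j = k + n * j := by
    obtain ⟨m, rfl⟩ : ∃ m, n = m + 1 := ⟨n - 1, by omega⟩
    simp only [Nat.add_sub_cancel]
    ring
  rw [e, per_mul s n per]

/-- the word after attaching -/
def attw (n : ℕ) (L : ℕ → Lab) (a x y : Lab) : ℕ → Lab := fun k =>
  if k % (n + 1) = n then a else if k % (n + 1) = n - 1 then x else
    if k % (n + 1) = 0 then y else L (k % (n + 1))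

theorem attw_n (n : ℕ) (L : ℕ → Lab) (a x y : Lab) : attw n L a x y n = a := by
  simp [attw, Nat.mod_eq_of_lt (Nat.lt_succ_self n)]

theorem attw_pred {n : ℕ} (hn : 3 ≤ n) (L : ℕ → Lab) (a x y : Lab) :
    attw n L a x y (n - 1) = x := by
  have e : (n - 1) % (n + 1) = n - 1 := Nat.mod_eq_of_lt (by omega)
  simp only [attw, e]
  rw [if_neg (by omega), if_pos trivial]

theorem attw_zero {n : ℕ} (hn : 3 ≤ n) (L : ℕ → Lab) (a x y : Lab) :
    attw n L a x y 0 = y := by
  simp only [attw, Nat.zero_mod]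
  rw [if_neg (by omega), if_neg (by omega), if_pos trivial]

theorem attw_mid {n : ℕ} (L : ℕ → Lab) (a x y : Lab) {k : ℕ} (h0 : 0 < k) (h1 : k + 1 < n) :
    attw n L a x y k = L k := by
  have e : k % (n + 1) = k := Nat.mod_eq_of_lt (by omega)
  simp only [attw, e]
  rw [if_neg (by omega), if_neg (by omega), if_neg (by omega)]

theorem Gen.attach {n : ℕ} {L : ℕ → Lab} (h : Gen n L) {a x y : Lab}
    (ha : a = Lab.tip ∨ a = Lab.plus) (hv : RuleV (L (n - 1)) x) (hy : RuleY (L 0) y) :
    Gen (n + 1) (attw n L a x y) := by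
  have hn := h.three_le
  refine Gen.att n L _ h ?_ ?_ ?_ ?_ ?_
  · intro k
    simp only [attw, Nat.add_mod_right]
  · intro k h0 h1
    exact attw_mid L a x y h0 h1
  · rw [attw_n]; exact ha
  · rw [attw_pred hn]; exact hv
  · rw [attw_zero hn]; exact hy

/-- a possible change of the letter after the new one -/
def yl : Lab → Lab
  | Lab.tip => Lab.plus
  | Lab.plus => Lab.plus
  | Lab.flat => Lab.flat
  | Lab.neg _ _ => Lab.neg false false

theorem ruleY_yl {x : Lab} (h : x.sgn = 1 ∨ x.sgn = -1) : RuleY x (yl x) := by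
  cases x with
  | tip => exact RuleY.tp
  | plus => exact RuleY.pp
  | flat => rcases h with h | h <;> simp [Lab.sgn] at h
  | neg l r => exact RuleY.nn l r false (by simp)

theorem sgn_yl (x : Lab) : (yl x).sgn = x.sgn := by cases x <;> rfl

theorem ruleV_plus {x : Lab} (h : x.sgn = 1) (r : Bool) : RuleV x (Lab.neg false r) := by
  cases x with
  | tip => exact RuleV.tn false r
  | plus => exact RuleV.pn r
  | flat => simp [Lab.sgn] at h
  | neg l r => simp [Lab.sgn] at h

/-- first step: a letter `+` becomes `- +` -/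
theorem Good.stepA {n : ℕ} {t s : ℕ → ℤ} (h : Good n t) (ht0 : t 0 = 1 ∨ t 0 = -1)
    (ht1 : t (n - 1) = 1) (per : ∀ k, s (k + (n + 1)) = s k) (hmid : ∀ k, k + 1 < n → s k = t k)
    (hx : s (n - 1) = -1) (ha : s n = 1) : Good (n + 1) s := by
  obtain ⟨L, hL, hs⟩ := h
  have hn := hL.three_le
  have g := hL.attach (a := Lab.tip) (Or.inl rfl)
    (ruleV_plus (by rw [hs, ht1]) false) (ruleY_yl (by rw [hs]; exact ht0))
  refine ⟨_, g, ?_⟩
  have key : ∀ k < n + 1, (attw n L Lab.tip (Lab.neg false false) (yl (L 0)) k).sgn = s k := by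
    intro k hk
    by_cases h1 : k = n
    · rw [h1, attw_n, ha]; rfl
    by_cases h2 : k = n - 1
    · rw [h2, attw_pred hn, hx]; rfl
    by_cases h3 : k = 0
    · rw [h3, attw_zero hn, sgn_yl, hs, hmid 0 (by omega)]
    · rw [attw_mid L _ _ _ (by omega) (by omega), hs, hmid k (by omega)]
  intro k
  have e1 : (attw n L Lab.tip (Lab.neg false false) (yl (L 0)) k) =
      attw n L Lab.tip (Lab.neg false false) (yl (L 0)) (k % (n + 1)) := by
    simp only [attw, Nat.mod_mod]
  have e2 : s k = s (k % (n + 1)) := by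
    conv_lhs => rw [← Nat.mod_add_div k (n + 1)]
    exact per_mul s (n + 1) per _ _
  rw [e1, e2]
  exact key _ (Nat.mod_lt _ (by omega))

/-- second step: a letter `+` becomes `- + +` -/
theorem Good.stepB {m : ℕ} {t s : ℕ → ℤ} (h : Good m t) (ht0 : t 0 = 1 ∨ t 0 = -1)
    (ht1 : t (m - 1) = 1) (per : ∀ k, s (k + (m + 2)) = s k) (hmid : ∀ k, k + 1 < m → s k = t k)
    (hx : s (m - 1) = -1) (ha : s m = 1) (hb : s (m + 1) = 1) : Good (m + 2) s := by
  obtain ⟨L, hL, hs⟩ := h
  have hm := hL.three_le
  have g1 := hL.attach (a := Lab.tip) (Or.inl rfl)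
    (ruleV_plus (by rw [hs, ht1]) true) (ruleY_yl (by rw [hs]; exact ht0))
  set L1 := attw m L Lab.tip (Lab.neg false true) (yl (L 0)) with hL1
  have g2 := g1.rotk m
  have e20 : (fun k => L1 (k + m)) 0 = Lab.tip := by
    show L1 (0 + m) = Lab.tip
    rw [zero_add, hL1, attw_n]
  have e2m : (fun k => L1 (k + m)) (m + 1 - 1) = Lab.neg false true := by
    show L1 (m + 1 - 1 + m) = Lab.neg false true
    rw [show m + 1 - 1 + m = (m - 1) + (m + 1) by omega, g1.per, hL1, attw_pred hm]
  have g3 := g2.attach (a := Lab.tip) (x := Lab.neg false false) (y := Lab.plus) (Or.inl rfl)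
    (by have := RuleV.nn false; rwa [← e2m] at this) (by have := RuleY.tp; rwa [← e20] at this)
  set L3 := attw (m + 1) (fun k => L1 (k + m)) Lab.tip (Lab.neg false false) Lab.plus with hL3
  have g4 := g3.rotk 1
  refine ⟨_, g4, ?_⟩
  have key : ∀ k < m + 2, (L3 (k + 1)).sgn = s k := by
    intro k hk
    by_cases h1 : k = m + 1
    · rw [h1, show m + 1 + 1 = 0 + (m + 1 + 1) by omega, g3.per, hL3, attw_zero (by omega), hb]
      rfl
    by_cases h2 : k = m
    · rw [h2, hL3, attw_n, ha]; rfl
    by_cases h3 : k = m - 1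
    · rw [h3, show m - 1 + 1 = m + 1 - 1 by omega, hL3, attw_pred (by omega), hx]; rfl
    · rw [hL3, attw_mid _ _ _ _ (by omega) (by omega)]
      show (L1 (k + 1 + m)).sgn = s k
      rw [show k + 1 + m = k + (m + 1) by omega, g1.per]
      by_cases h4 : k = 0
      · rw [h4, hL1, attw_zero hm, sgn_yl, hs, hmid 0 (by omega)]
      · rw [hL1, attw_mid L _ _ _ (by omega) (by omega), hs, hmid k (by omega)]
  intro k
  show (L3 (k + 1)).sgn = s k
  have e1 : L3 (k + 1) = L3 (k % (m + 2) + 1) := by
    conv_lhs => rw [← Nat.mod_add_div k (m + 2)]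
    rw [show k % (m + 2) + (m + 2) * (k / (m + 2)) + 1 =
      (k % (m + 2) + 1) + (m + 1 + 1) * (k / (m + 2)) by ring]
    exact per_mul L3 (m + 1 + 1) g3.per _ _
  have e2 : s k = s (k % (m + 2)) := by
    conv_lhs => rw [← Nat.mod_add_div k (m + 2)]
    exact per_mul s (m + 2) per _ _
  rw [e1, e2]
  exact key _ (Nat.mod_lt _ (by omega))

theorem num_total {n : ℕ} (s : ℕ → ℤ) (hs : ∀ k, s k = 1 ∨ s k = -1) :
    num n s 1 + num n s (-1) = n := by
  rw [num_eq, num_eq, ← Finset.sum_add_distrib]
  have : ∀ k ∈ Finset.range n, ((if s k = 1 then 1 else 0) + (if s k = -1 then 1 else 0) : ℕ) = 1 := by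
    intro k _
    rcases hs k with h | h <;> simp [h]
  rw [Finset.sum_congr rfl this]
  simp

theorem num_succ (n : ℕ) (s : ℕ → ℤ) (x : ℤ) :
    num (n + 1) s x = num n s x + if s n = x then 1 else 0 := by
  rw [num_eq, num_eq, Finset.sum_range_succ]

theorem num_congr {n : ℕ} {s t : ℕ → ℤ} (x : ℤ) (h : ∀ k < n, s k = t k) :
    num n s x = num n t x := by
  rw [num_eq, num_eq]
  exact Finset.sum_congr rfl fun k hk => by rw [h k (Finset.mem_range.1 hk)]

theorem exists_neg {n : ℕ} {s : ℕ → ℤ} {x : ℤ} (h : 1 ≤ num n s x) : ∃ k < n, s k = x := by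
  unfold num at h
  obtain ⟨k, hk⟩ := Finset.card_pos.1 h
  rw [Finset.mem_filter, Finset.mem_range] at hk
  exact ⟨k, hk.1, hk.2⟩

/-- Without zeros the counting conditions suffice. -/
theorem gen_of_count {n : ℕ} (hn : 3 ≤ n) (s : ℕ → ℤ) (per : ∀ k, s (k + n) = s k)
    (hs : ∀ k, s k = 1 ∨ s k = -1) (h3 : 3 ≤ num n s 1) (hc : num n s 1 ≤ num n s (-1) + 3) :
    ∃ L, Gen n L ∧ ∀ k, (L k).sgn = s k := by
  show Good n s
  induction n using Nat.strong_induction_on generalizing s with
  | _ n ih =>
  have htot := num_total (n := n) s hs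
  by_cases hn3 : n = 3
  · subst hn3
    have h0 : num 3 s (-1) = 0 := by omega
    have hall : ∀ k < 3, s k = 1 := by
      intro k hk
      rcases hs k with h | h
      · exact h
      · exfalso
        have : 1 ≤ num 3 s (-1) := by
          unfold num
          exact Finset.card_pos.2 ⟨k, Finset.mem_filter.2 ⟨Finset.mem_range.2 hk, h⟩⟩
        omega
    refine ⟨fun _ => Lab.tip, Gen.base _ (fun _ => rfl) (fun _ => Or.inl rfl), fun k => ?_⟩
    have e2 : s k = s (k % 3) := by
      conv_lhs => rw [← Nat.mod_add_div k 3]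
      exact per_mul s 3 per _ _
    rw [e2, hall _ (Nat.mod_lt _ (by omega))]; rfl
  have hq : 1 ≤ num n s (-1) := by omega
  obtain ⟨m0, hm0, hm1⟩ := exists_neg hq
  by_cases hcase : num n s 1 ≤ num n s (-1) + 2
  · -- case A
    obtain ⟨i, hi1, hi2⟩ : ∃ i, s i = -1 ∧ s (i + 1) = 1 := by
      by_contra hcon
      push Not at hcon
      have hall : ∀ j, s (m0 + j) = -1 := by
        intro j
        induction j with
        | zero => exact hm1
        | succ j ihj =>
          have := hcon _ ihj
          rcases hs (m0 + (j + 1)) with h | h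
          · exact absurd h this
          · exact h
      obtain ⟨p0, hp0, hp1⟩ := exists_neg (n := n) (s := s) (x := 1) (by omega)
      have h1 := hall (p0 + n * m0 - m0)
      have h2 : m0 ≤ p0 + n * m0 := le_trans (Nat.le_mul_of_pos_left m0 (by omega)) (Nat.le_add_left _ _)
      rw [Nat.add_sub_cancel' h2, per_mul s n per, hp1] at h1
      exact absurd h1 (by decide)
    obtain ⟨m, rfl⟩ : ∃ m, n = m + 1 := ⟨n - 1, by omega⟩
    refine Good.unrot per (j := i + 2) ?_
    set s1 : ℕ → ℤ := fun k => s (k + (i + 2)) with hs1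
    have per1 : ∀ k, s1 (k + (m + 1)) = s1 k := by
      intro k
      show s (k + (m + 1) + (i + 2)) = s (k + (i + 2))
      rw [show k + (m + 1) + (i + 2) = (k + (i + 2)) + (m + 1) by omega, per]
    have hs1' : ∀ k, s1 k = 1 ∨ s1 k = -1 := fun k => hs _
    have n1 : num (m + 1) s1 1 = num (m + 1) s 1 := num_rot s per 1 (i + 2)
    have n2 : num (m + 1) s1 (-1) = num (m + 1) s (-1) := num_rot s per (-1) (i + 2)
    have hx : s1 (m - 1) = -1 := by
      show s (m - 1 + (i + 2)) = -1
      rw [show m - 1 + (i + 2) = i + (m + 1) by omega, per, hi1]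
    have ha : s1 m = 1 := by
      show s (m + (i + 2)) = 1
      rw [show m + (i + 2) = (i + 1) + (m + 1) by omega, per, hi2]
    -- the shorter word
    let t : ℕ → ℤ := fun k => if k % m = m - 1 then 1 else s1 (k % m)
    have hm : 3 ≤ m := by omega
    have tper : ∀ k, t (k + m) = t k := by
      intro k; simp only [t, Nat.add_mod_right]
    have ht : ∀ k, t k = 1 ∨ t k = -1 := by
      intro k; simp only [t]; split_ifs
      · exact Or.inl rfl
      · exact hs1' _
    have tk : ∀ k, k + 1 < m → t k = s1 k := by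
      intro k hk
      have e : k % m = k := Nat.mod_eq_of_lt (by omega)
      simp only [t, e]
      rw [if_neg (by omega)]
    have tl : t (m - 1) = 1 := by
      have e : (m - 1) % m = m - 1 := Nat.mod_eq_of_lt (by omega)
      simp only [t, e, if_true]
    obtain ⟨d, rfl⟩ : ∃ d, m = d + 1 := ⟨m - 1, by omega⟩
    simp only [Nat.add_sub_cancel] at hx tl
    have c1 : num (d + 1) t 1 = num d s1 1 + 1 := by
      rw [num_succ, num_congr 1 (fun k hk => tk k (by omega)), tl, if_pos rfl]
    have c2 : num (d + 1) t (-1) = num d s1 (-1) := by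
      rw [num_succ, num_congr (-1) (fun k hk => tk k (by omega)), tl, if_neg (by decide), add_zero]
    have c3 : num (d + 1 + 1) s1 1 = num d s1 1 + 1 := by
      rw [num_succ, num_succ, hx, ha, if_neg (by decide), if_pos rfl]
    have c4 : num (d + 1 + 1) s1 (-1) = num d s1 (-1) + 1 := by
      rw [num_succ, num_succ, hx, ha, if_pos rfl, if_neg (by decide)]
    have hg : Good (d + 1) t := ih (d + 1) (by omega) hm t tper ht (by omega) (by omega)
    refine Good.stepA hg (ht 0) (by simpa using tl) per1 (fun k hk => (tk k hk).symm) ?_ ha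
    simpa using hx
  · -- case B
    obtain ⟨i, hi1, hi2, hi3⟩ : ∃ i, s i = -1 ∧ s (i + 1) = 1 ∧ s (i + 2) = 1 := by
      by_contra hcon
      push Not at hcon
      have h1 : ∀ j, ¬ (s (m0 + j) = 1 ∧ s (m0 + j + 1) = 1) := by
        intro j
        induction j with
        | zero =>
          rintro ⟨h, _⟩
          rw [add_zero, hm1] at h
          exact absurd h (by decide)
        | succ j ihj =>
          rintro ⟨ha, hb⟩
          rcases hs (m0 + j) with h | h
          · exact ihj ⟨h, ha⟩
          · exact hcon _ h ha hb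
      have h2 : ∀ i, s i = 1 → s (i + 1) = -1 := by
        intro i hi
        rcases hs (i + 1) with h | h
        · exfalso
          have h2 : m0 ≤ i + n * m0 :=
            le_trans (Nat.le_mul_of_pos_left m0 (by omega)) (Nat.le_add_left _ _)
          refine h1 (i + n * m0 - m0) ⟨?_, ?_⟩
          · rw [Nat.add_sub_cancel' h2, per_mul s n per, hi]
          · rw [Nat.add_sub_cancel' h2, show i + n * m0 + 1 = (i + 1) + n * m0 by omega,
              per_mul s n per, h]
        · exact h
      have h3' : num n s 1 ≤ num n s (-1) := by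
        rw [← num_rot s per (-1) 1, num_eq, num_eq]
        refine Finset.sum_le_sum fun k _ => ?_
        by_cases hk : s k = 1
        · simp [hk, h2 k hk]
        · simp [hk]
      omega
    obtain ⟨m, rfl⟩ : ∃ m, n = m + 2 := ⟨n - 2, by omega⟩
    refine Good.unrot per (j := i + 3) ?_
    set s1 : ℕ → ℤ := fun k => s (k + (i + 3)) with hs1
    have per1 : ∀ k, s1 (k + (m + 2)) = s1 k := by
      intro k
      show s (k + (m + 2) + (i + 3)) = s (k + (i + 3))
      rw [show k + (m + 2) + (i + 3) = (k + (i + 3)) + (m + 2) by omega, per]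
    have hs1' : ∀ k, s1 k = 1 ∨ s1 k = -1 := fun k => hs _
    have n1 : num (m + 2) s1 1 = num (m + 2) s 1 := num_rot s per 1 (i + 3)
    have n2 : num (m + 2) s1 (-1) = num (m + 2) s (-1) := num_rot s per (-1) (i + 3)
    have hm : 3 ≤ m := by omega
    have hx : s1 (m - 1) = -1 := by
      show s (m - 1 + (i + 3)) = -1
      rw [show m - 1 + (i + 3) = i + (m + 2) by omega, per, hi1]
    have ha : s1 m = 1 := by
      show s (m + (i + 3)) = 1
      rw [show m + (i + 3) = (i + 1) + (m + 2) by omega, per, hi2]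
    have hb : s1 (m + 1) = 1 := by
      show s (m + 1 + (i + 3)) = 1
      rw [show m + 1 + (i + 3) = (i + 2) + (m + 2) by omega, per, hi3]
    let t : ℕ → ℤ := fun k => if k % m = m - 1 then 1 else s1 (k % m)
    have tper : ∀ k, t (k + m) = t k := by
      intro k; simp only [t, Nat.add_mod_right]
    have ht : ∀ k, t k = 1 ∨ t k = -1 := by
      intro k; simp only [t]; split_ifs
      · exact Or.inl rfl
      · exact hs1' _
    have tk : ∀ k, k + 1 < m → t k = s1 k := by
      intro k hk
      have e : k % m = k := Nat.mod_eq_of_lt (by omega)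
      simp only [t, e]
      rw [if_neg (by omega)]
    have tl : t (m - 1) = 1 := by
      have e : (m - 1) % m = m - 1 := Nat.mod_eq_of_lt (by omega)
      simp only [t, e, if_true]
    obtain ⟨d, rfl⟩ : ∃ d, m = d + 1 := ⟨m - 1, by omega⟩
    simp only [Nat.add_sub_cancel] at hx tl
    have c1 : num (d + 1) t 1 = num d s1 1 + 1 := by
      rw [num_succ, num_congr 1 (fun k hk => tk k (by omega)), tl, if_pos rfl]
    have c2 : num (d + 1) t (-1) = num d s1 (-1) := by
      rw [num_succ, num_congr (-1) (fun k hk => tk k (by omega)), tl, if_neg (by decide), add_zero]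
    have c3 : num (d + 1 + 2) s1 1 = num d s1 1 + 2 := by
      rw [num_succ, num_succ, num_succ, hx, ha, hb, if_neg (by decide), if_pos rfl]
    have c4 : num (d + 1 + 2) s1 (-1) = num d s1 (-1) + 1 := by
      rw [num_succ, num_succ, num_succ, hx, ha, hb, if_pos rfl, if_neg (by decide)]
    have hg : Good (d + 1) t := ih (d + 1) (by omega) hm t tper ht (by omega) (by omega)
    refine Good.stepB hg (ht 0) (by simpa using tl) per1 (fun k hk => (tk k hk).symm) ?_ ha hb
    simpa using hx

end Pool.Agent.SigPoly
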