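import Pool.Agent.SigPoly.EarRel
import Pool.Agent.SigPoly.Sub
import Pool.Agent.SigPoly.Tri
import Pool.Agent.SigPoly.Words

/-!
# How attached triangles arise
-/

namespace Pool.Agent.SigPoly

open Complex Set Filter Topology Pool.Agent.VisGraph

/-- Barycentric coordinates. -/
lemma bary (a b c z : ℂ) : (orient a b c : ℂ) * z =
    orient b c z * a + orient c a z * b + orient a b z * c := by
  apply Complex.ext
  · simp only [orient, cr, Complex.sub_re, Complex.sub_im, Complex.add_re, Complex.re_ofReal_mul]
    ring
  · simp only [orient, cr, Complex.sub_re, Complex.sub_im, Complex.add_im, Complex.im_ofReal_mul]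
    ring

lemma bary_edge {a b c z : ℂ} (h : 0 < orient a b c) (h0 : orient a b z = 0) :
    orient b c z / orient a b c + orient c a z / orient a b c = 1 ∧
    (orient b c z / orient a b c) • a + (orient c a z / orient a b c) • b = z := by
  have hs := orient_sum a b c z
  rw [h0, zero_add] at hs
  constructor
  · rw [← add_div, hs, div_self h.ne']
  · have hb := bary a b c z
    rw [h0] at hb
    have hD : (orient a b c : ℂ) ≠ 0 := by exact_mod_cast h.ne'
    simp only [Complex.real_smul]
    push_cast
    field_simp
    rw [hb]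
    push_cast
    ring

lemma seg_of_ctri {a b c z : ℂ} (h : 0 < orient a b c) (hz : z ∈ ctri a b c)
    (h0 : orient a b z = 0) : z ∈ segment ℝ a b :=
  ⟨_, _, div_nonneg hz.2.1 h.le, div_nonneg hz.2.2 h.le, (bary_edge h h0).1, (bary_edge h h0).2⟩

lemma openSeg_of {a b c z : ℂ} (h : 0 < orient a b c) (h0 : orient a b z = 0)
    (h1 : 0 < orient b c z) (h2 : 0 < orient c a z) : z ∈ openSegment ℝ a b :=
  ⟨_, _, div_pos h1 h, div_pos h2 h, (bary_edge h h0).1, (bary_edge h h0).2⟩

/-- Two sides of a triangle meet only in the common vertex. -/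
lemma seg_seg {a b c z : ℂ} (h : orient a b c ≠ 0) (h1 : z ∈ segment ℝ a b)
    (h2 : z ∈ segment ℝ b c) : z = b := by
  have h3 : z ∈ segment ℝ a b ∩ segment ℝ b c := ⟨h1, h2⟩
  rw [seg_inter_seg h] at h3
  exact h3

lemma orient_cyc3 (a b c : ℂ) : orient c a b = orient a b c := (orient_cyc c a b).symm

/-- A vertex is only on the two edges ending there. -/
lemma vertex_edge {n : ℕ} {p : ℕ → ℂ} (h : SP n p) {i k : ℕ} (h1 : i < k) (h2 : k + 1 < i + n)
    (hz : p i ∈ segment ℝ (p k) (p (k + 1))) : False := by
  by_cases h3 : k = i + 1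
  · subst h3
    have h4 : p i ∈ segment ℝ (p i) (p (i + 1)) ∩ segment ℝ (p (i + 1)) (p (i + 2)) :=
      ⟨left_mem_segment ℝ _ _, hz⟩
    rw [h.consec i] at h4
    exact h.ne_succ i h4
  · have h4 : p i ∈ segment ℝ (p i) (p (i + 1)) ∩ segment ℝ (p k) (p (k + 1)) :=
      ⟨left_mem_segment ℝ _ _, hz⟩
    rw [h.disj i k (by omega) h2] at h4
    exact h4

section disj

variable {n : ℕ} {p : ℕ → ℂ} {b : ℂ}

lemma insp_lt {k : ℕ} (hk : k < n) : insp n p b k = p k := by
  unfold insp
  rw [Nat.mod_eq_of_lt (by omega), if_neg (by omega)]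

lemma insp_n : insp n p b n = b := by
  unfold insp
  rw [Nat.mod_eq_of_lt (by omega), if_pos rfl]

lemma insp_per (k : ℕ) : insp n p b (k + (n + 1)) = insp n p b k := by
  unfold insp
  rw [Nat.add_mod_right]

lemma insp_succ : insp n p b (n + 1) = insp n p b 0 := by
  have := insp_per (n := n) (p := p) (b := b) 0
  rwa [zero_add] at this

/-- periodic functions: reduction to small indices -/
lemma per_mod_add {α : Type*} {m : ℕ} {f : ℕ → α} (per : ∀ k, f (k + m) = f k) (k j : ℕ) :
    f (k + j) = f (k % m + j) := by
  have e : k + j = (k % m + j) + m * (k / m) := by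
    have := Nat.mod_add_div k m
    omega
  rw [e, per_mul f m per]

end disj

/-- Conditions for simplicity need only be checked for small indices. -/
lemma SP_of_small {m : ℕ} {q : ℕ → ℂ} (hm : 3 ≤ m) (per : ∀ k, q (k + m) = q k)
    (inj : ∀ i j, i < j → j < m → q i ≠ q j)
    (consec : ∀ k < m, segment ℝ (q k) (q (k + 1)) ∩ segment ℝ (q (k + 1)) (q (k + 2)) = {q (k + 1)})
    (disj : ∀ i j, i + 1 < j → j < m → ¬ (i = 0 ∧ j + 1 = m) →
      segment ℝ (q i) (q (i + 1)) ∩ segment ℝ (q j) (q (j + 1)) = ∅) : SP m q := by
  have h0 : ∀ k, q k = q (k % m) := fun k => by simpa using per_mod_add per k 0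
  have hlt : ∀ k, k % m < m := fun k => Nat.mod_lt _ (by omega)
  -- the residue of `j` relative to that of `i`
  have hres : ∀ i j, i ≤ j → j < i + m →
      (j % m = i % m + (j - i) ∧ i % m + (j - i) < m) ∨
      (j % m + m = i % m + (j - i) ∧ m ≤ i % m + (j - i)) := by
    intro i j hij hj
    have h1 := hlt i
    have e : j % m = (i % m + (j - i)) % m := by
      rw [Nat.mod_add_mod]
      congr 1
      omega
    rcases lt_or_ge (i % m + (j - i)) m with h2 | h2
    · left
      rw [Nat.mod_eq_of_lt h2] at e
      exact ⟨e, h2⟩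
    · right
      have e2 : (i % m + (j - i)) % m = i % m + (j - i) - m := by
        rw [Nat.mod_eq_sub_mod h2]
        exact Nat.mod_eq_of_lt (by omega)
      omega
  refine ⟨hm, per, ?_, ?_, ?_⟩
  · intro i j hij hj
    rw [h0 i, h0 j]
    have h1 := hlt i
    have h2 := hlt j
    rcases hres i j hij.le hj with h3 | h3
    · exact inj _ _ (by omega) h2
    · exact (inj _ _ (by omega) h1).symm
  · intro k
    rw [h0 k, per_mod_add per k 1, per_mod_add per k 2]
    exact consec _ (hlt k)
  · intro i j hij hj
    rw [h0 i, h0 j, per_mod_add per i 1, per_mod_add per j 1]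
    have h1 := hlt i
    have h2 := hlt j
    rcases hres i j (by omega) (by omega) with h3 | h3
    · exact disj _ _ (by omega) h2 (by omega)
    · rw [inter_comm]
      exact disj _ _ (by omega) h1 (by omega)

/-- Attaching a triangle from outside. -/
theorem Ear.of_disj {n : ℕ} {p : ℕ → ℂ} (h : PP n p) {b : ℂ}
    (ori : 0 < orient (p (n - 1)) b (p 0))
    (disj : ∀ z ∈ ctri (p (n - 1)) b (p 0), z ∈ chain p 0 n → z ∈ segment ℝ (p (n - 1)) (p 0)) :
    Ear n p (insp n p b) := by
  have hn := h.three_le
  have hsp := h.sp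
  have hp : ∀ k < n, insp n p b k = p k := fun k hk => insp_lt hk
  have hb : insp n p b n = b := insp_n
  have hs : insp n p b (n + 1) = p 0 := by rw [insp_succ, hp 0 (by omega)]
  have hs2 : insp n p b (n + 2) = p 1 := by
    have := insp_per (n := n) (p := p) (b := b) 1
    rw [show 1 + (n + 1) = n + 2 by omega] at this
    rw [this, hp 1 (by omega)]
  have hpn : p n = p 0 := by simpa using hsp.per 0
  -- the new edges meet the old polygon only in the old endpoints
  have hvb : ∀ z ∈ segment ℝ (p (n - 1)) b, z ∈ chain p 0 n → z = p (n - 1) := by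
    intro z hz hzc
    have h1 := disj z (segment_sub_ctri ori hz) hzc
    rw [segment_symm] at h1
    refine seg_seg (a := p 0) (c := b) ?_ h1 hz
    rw [orient_cyc3]
    exact ori.ne'
  have hby : ∀ z ∈ segment ℝ b (p 0), z ∈ chain p 0 n → z = p 0 := by
    intro z hz hzc
    have h1 := disj z (by rw [← ctri_cyc]; exact segment_sub_ctri (by rw [orient_cyc]; exact ori) hz)
      hzc
    rw [segment_symm] at h1
    refine seg_seg (a := b) (c := p (n - 1)) ?_ hz h1
    rw [orient_cyc]
    exact ori.ne'
  have hvert : ∀ k < n, p k ∈ chain p 0 n := fun k hk => mid_mem_chain (Nat.zero_le _) hk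
  have hedge : ∀ k, k + 1 < n → segment ℝ (p k) (p (k + 1)) ⊆ chain p 0 n :=
    fun k hk z hz => ⟨k, Nat.zero_le _, by omega, hz⟩
  have hbn : ∀ k < n, p k ≠ b := by
    intro k hk he
    have h1 := hvb b (right_mem_segment ℝ _ _) (by rw [← he]; exact hvert k hk)
    rw [← h1] at ori
    simp [orient, cr] at ori
  have hq : SP (n + 1) (insp n p b) := by
    refine SP_of_small (by omega) insp_per ?_ ?_ ?_
    · intro i j hij hj
      rw [hp i (by omega)]
      rcases Nat.lt_succ_iff_lt_or_eq.1 hj with h1 | h1
      · rw [hp j h1]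
        exact hsp.inj i j hij (by omega)
      · rw [h1, hb]
        exact hbn i (by omega)
    · intro k hk
      rcases lt_trichotomy (k + 2) n with h1 | h1 | h1
      · rw [hp k (by omega), hp (k + 1) (by omega), hp (k + 2) h1]
        exact hsp.consec k
      · -- the edge before `v`, and `v b`
        have e1 : k + 1 = n - 1 := by omega
        rw [hp k (by omega), hp (k + 1) (by omega), h1, hb]
        apply Subset.antisymm
        · rintro z ⟨h2, h3⟩
          rw [e1] at h3 ⊢
          exact hvb z h3 (hedge k (by omega) h2)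
        · rintro z rfl
          exact ⟨right_mem_segment ℝ _ _, left_mem_segment ℝ _ _⟩
      · rcases Nat.lt_succ_iff_lt_or_eq.1 (show k < n + 1 from hk) with h2 | h2
        · have e1 : k = n - 1 := by omega
          have e2 : k + 1 = n := by omega
          rw [hp k h2, e2, hb, show k + 2 = n + 1 by omega, hs, e1]
          exact seg_inter_seg ori.ne'
        · rw [h2, hb, hs, hs2]
          apply Subset.antisymm
          · rintro z ⟨h3, h4⟩
            exact hby z h3 (hedge 0 (by omega) h4)
          · rintro z rfl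
            exact ⟨right_mem_segment ℝ _ _, left_mem_segment ℝ _ _⟩
    · intro i j hij hj hne
      rw [eq_empty_iff_forall_notMem]
      rintro z ⟨h1, h2⟩
      rw [hp i (by omega), hp (i + 1) (by omega)] at h1
      rcases lt_trichotomy (j + 1) n with h3 | h3 | h3
      · rw [hp j (by omega), hp (j + 1) h3] at h2
        have h4 : z ∈ segment ℝ (p i) (p (i + 1)) ∩ segment ℝ (p j) (p (j + 1)) := ⟨h1, h2⟩
        rw [hsp.disj i j hij (by omega)] at h4
        exact h4
      · rw [hp j (by omega), h3, hb, show j = n - 1 by omega] at h2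
        have h4 := hvb z h2 (hedge i (by omega) h1)
        rw [h4] at h1
        -- `v` is not on the edge `i`
        have h5 : p (n - 1) ∈ segment ℝ (p (i + n)) (p (i + n + 1)) := by
          rw [hsp.per, show i + n + 1 = i + 1 + n by omega, hsp.per]
          exact h1
        exact vertex_edge hsp (by omega) (by omega) h5
      · have e1 : j = n := by omega
        rw [e1, hb, hs] at h2
        have h4 := hby z h2 (hedge i (by omega) h1)
        rw [h4] at h1
        have h6 : i ≠ 0 := by
          rintro rfl
          exact hne ⟨rfl, by omega⟩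
        exact vertex_edge hsp (by omega) (by omega) h1
  have hpi := Real.pi_pos
  have hPP : PP (n + 1) (insp n p b) := by
    refine ⟨hq, ?_⟩
    obtain ⟨ε, U, J⟩ := jordan hq
    have hc := centroid_mem ori
    set c := (p (n - 1) + b + p 0) / 3 with hcdef
    have hin := tri_in hc
    have n1 : c ∉ segment ℝ (p (n - 1)) b := fun hh => hc.1.ne' (orient_eq_zero_of_mem hh)
    have n2 : c ∉ segment ℝ b (p 0) := fun hh => hc.2.1.ne' (orient_eq_zero_of_mem hh)
    have n3 : c ∉ segment ℝ (p 0) (p (n - 1)) := fun hh => hc.2.2.ne' (orient_eq_zero_of_mem hh)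
    have hcp : c ∉ chain p 0 n := by
      intro hh
      have := disj c (otri_sub_ctri _ _ _ hc) hh
      rw [segment_symm] at this
      exact n3 this
    have hcq : c ∉ chain (insp n p b) 0 (n + 1) := by
      rintro ⟨k, -, hk, hz⟩
      rcases lt_trichotomy (k + 1) n with h3 | h3 | h3
      · rw [hp k (by omega), hp (k + 1) h3] at hz
        exact hcp (hedge k h3 hz)
      · rw [hp k (by omega), h3, hb, show k = n - 1 by omega] at hz
        exact n1 hz
      · rw [show k = n by omega, hb, hs] at hz
        exact n2 hz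
    have hA : A (insp n p b) 0 (n + 1) c = A p 0 n c + 2 * Real.pi := by
      have e1 : A (insp n p b) 0 (n + 1) c = A (insp n p b) 0 (n - 1) c +
          ang c (p (n - 1)) b + ang c b (p 0) := by
        rw [← A_add (show 0 ≤ n - 1 by omega) (show n - 1 ≤ n + 1 by omega),
          ← A_add (show n - 1 ≤ n by omega) (show n ≤ n + 1 by omega), A_one, hb, hs]
        have e2 : A (insp n p b) (n - 1) n c = ang c (p (n - 1)) b := by
          have := A_one (p := insp n p b) (n - 1) c
          rw [show n - 1 + 1 = n by omega, hp (n - 1) (by omega), hb] at this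
          exact this
        rw [e2]
        ring
      have e3 : A (insp n p b) 0 (n - 1) c = A p 0 (n - 1) c := by
        unfold A
        refine Finset.sum_congr rfl fun k hk => ?_
        rw [Finset.mem_Ico] at hk
        rw [hp k (by omega), hp (k + 1) (by omega)]
      have e4 : A p 0 n c = A p 0 (n - 1) c + ang c (p (n - 1)) (p 0) := by
        rw [← A_add (show 0 ≤ n - 1 by omega) (show n - 1 ≤ n by omega)]
        have := A_one (p := p) (n - 1) c
        rw [show n - 1 + 1 = n by omega, hpn] at this
        rw [this]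
      have e5 := ang_swap n3
      rw [e1, e3, e4, e5, ← hin]
      ring
    have hU : ε = 1 := by
      have h1 : A p 0 n c = 2 * Real.pi ∨ A p 0 n c = 0 := by
        rcases h.A_cases hcp with h2 | h2
        · exact Or.inl h2.2
        · exact Or.inr h2.2
      have h2 : A (insp n p b) 0 (n + 1) c = 0 ∨
          A (insp n p b) 0 (n + 1) c = 2 * Real.pi * ε := by
        by_cases h3 : c ∈ U
        · exact Or.inl (J.W_out c h3)
        · exact Or.inr (J.W_in c h3 hcq)
      rcases J.eps with h3 | h3
      · exact h3
      · exfalso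
        rw [h3] at h2
        rw [hA] at h2
        rcases h1 with h1 | h1 <;> rcases h2 with h2 | h2 <;> rw [h1] at h2 <;> linarith
    rw [hU] at J
    exact ⟨U, J⟩
  refine ⟨h, hPP, hp, ?_, ?_⟩
  · rw [hb]
    exact ori
  · rw [hb]
    exact disj

/-- Cutting off a triangle along a diagonal. -/
theorem Ear.of_diag {n : ℕ} {q : ℕ → ℂ} (h : PP (n + 1) q) (hn : 3 ≤ n)
    (hd : Diag (n + 1) q (n - 1) 0) : Ear n (delp n q) q := by
  have hsp := h.sp
  have hd0 : Diag (n + 1) q 0 (n - 1) := hd.symm
  have hqn : q (n + 1) = q 0 := by simpa using hsp.per 0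
  have hp1 : PP n (delp n q) := by
    have h1 := sub_pp h hd0 (by omega) (by omega)
    have e1 : n - 1 - 0 + 1 = n := by omega
    have e2 : subp q 0 (n - 1) = delp n q := by
      funext k
      unfold subp delp
      rw [e1, zero_add]
    rwa [e1, e2] at h1
  have hd1 : Diag (n + 1) q (n - 1) (n + 1) := by
    unfold Diag
    rw [hqn]
    exact hd
  have e3 : n + 1 - (n - 1) + 1 = 3 := by omega
  have hT := sub_pp h hd1 (by omega) (by omega)
  have hTi := sub_ins h.sp hd1 (by omega) (by omega)
  rw [e3] at hT hTi
  have t0 : subp q (n - 1) (n + 1) 0 = q (n - 1) := by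
    unfold subp
    rw [Nat.zero_mod, add_zero]
  have t1 : subp q (n - 1) (n + 1) 1 = q n := by
    unfold subp
    rw [e3, show 1 % 3 = 1 from rfl, show n - 1 + 1 = n by omega]
  have t2 : subp q (n - 1) (n + 1) 2 = q 0 := by
    unfold subp
    rw [e3, show 2 % 3 = 2 from rfl, show n - 1 + 2 = n + 1 by omega, hqn]
  have t3 : subp q (n - 1) (n + 1) 3 = q (n - 1) := by
    unfold subp
    rw [e3, show 3 % 3 = 0 from rfl, add_zero]
  have ori := PP3_orient hT
  rw [t0, t1, t2] at ori
  have hdl : ∀ k < n, delp n q k = q k := by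
    intro k hk
    unfold delp
    rw [Nat.mod_eq_of_lt hk]
  have hdn : delp n q n = q 0 := by
    unfold delp
    rw [Nat.mod_self]
  have hotri : otri (q (n - 1)) (q n) (q 0) ⊆ Ins (n + 1) q := by
    refine Subset.trans ?_ hTi
    intro z hz
    have hin := tri_in hz
    have hzc : z ∉ chain (subp q (n - 1) (n + 1)) 0 3 := by
      refine notMem_chain3 hT.sp.per ?_ ?_ ?_
      · rw [t0, t1]
        exact hz.1.ne'
      · rw [t1, t2]
        exact hz.2.1.ne'
      · rw [t2, t0]
        exact hz.2.2.ne'
    refine ⟨hzc, ?_⟩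
    rw [A_three, t0, t1, t2, t3, hin]
    have := Real.pi_pos
    positivity
  refine ⟨hp1, h, fun k hk => (hdl k hk).symm, ?_, ?_⟩
  · rw [hdl _ (by omega), hdl _ (by omega)]
    exact ori
  · intro z hz hzc
    rw [hdl _ (by omega), hdl _ (by omega)] at hz ⊢
    obtain ⟨k, -, hk, hzk⟩ := hzc
    rw [hdl k hk] at hzk
    by_cases hk1 : k + 1 = n
    · rw [hk1, hdn, show k = n - 1 by omega] at hzk
      exact hzk
    · rw [hdl (k + 1) (by omega)] at hzk
      have hzq : z ∈ chain q 0 (n + 1) := ⟨k, Nat.zero_le _, by omega, hzk⟩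
      have hno : z ∉ otri (q (n - 1)) (q n) (q 0) := fun hh => (hotri hh).1 hzq
      by_cases g3 : orient (q 0) (q (n - 1)) z = 0
      · rw [segment_symm]
        refine seg_of_ctri (c := q n) (by rw [orient_cyc3]; exact ori) ?_ g3
        rw [ctri_cyc, ctri_cyc]
        exact hz
      · by_cases g1 : orient (q (n - 1)) (q n) z = 0
        · have h1 := seg_of_ctri ori hz g1
          -- on the edge `v b`
          by_cases hk2 : k = n - 2
          · have h2 := hsp.consec k
            rw [show k + 1 = n - 1 by omega, show k + 2 = n by omega] at h2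
            have h3 : z ∈ segment ℝ (q k) (q (n - 1)) ∩ segment ℝ (q (n - 1)) (q n) := by
              refine ⟨?_, h1⟩
              rw [show k + 1 = n - 1 by omega] at hzk
              exact hzk
            rw [h2] at h3
            rw [h3]
            exact left_mem_segment ℝ _ _
          · have h2 := hsp.disj k (n - 1) (by omega) (by omega)
            rw [show n - 1 + 1 = n by omega] at h2
            have h3 : z ∈ segment ℝ (q k) (q (k + 1)) ∩ segment ℝ (q (n - 1)) (q n) := ⟨hzk, h1⟩
            rw [h2] at h3
            exact absurd h3 (by simp)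
        · by_cases g2 : orient (q n) (q 0) z = 0
          · have h1 : z ∈ segment ℝ (q n) (q 0) := by
              refine seg_of_ctri (c := q (n - 1)) (by rw [orient_cyc]; exact ori) ?_ g2
              rw [ctri_cyc]
              exact hz
            by_cases hk2 : k = 0
            · subst hk2
              have h2 := hsp.consec n
              rw [hqn, show n + 2 = 1 + (n + 1) by omega, hsp.per] at h2
              have h3 : z ∈ segment ℝ (q n) (q 0) ∩ segment ℝ (q 0) (q 1) := ⟨h1, hzk⟩
              rw [h2] at h3
              rw [h3]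
              exact right_mem_segment ℝ _ _
            · have h2 := hsp.disj k n (by omega) (by omega)
              rw [hqn] at h2
              have h3 : z ∈ segment ℝ (q k) (q (k + 1)) ∩ segment ℝ (q n) (q 0) := ⟨hzk, h1⟩
              rw [h2] at h3
              exact absurd h3 (by simp)
          · exact absurd ⟨lt_of_le_of_ne hz.1 (Ne.symm g1), lt_of_le_of_ne hz.2.1 (Ne.symm g2),
              lt_of_le_of_ne hz.2.2 (Ne.symm g3)⟩ hno

/-- A quadrilateral consisting of two triangles with a common side. -/
theorem Ear.quad {n t : ℕ} {p q : ℕ → ℂ} (E : Ear n p q) (hb : NoDiag (n + 1) q n)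
    (ap : Apex n p (n - 1) t) :
    Real.pi ≤ aR n p (n - 1) + eta n p q ∨ Real.pi ≤ aL n p n + bet n p q := by
  by_contra hcon
  push Not at hcon
  obtain ⟨c1, c2⟩ := hcon
  have hn := E.hp.three_le
  have hsp := E.hp.sp
  have hpn : p n = p 0 := by simpa using hsp.per 0
  have hn1 : n - 1 + 1 = n := by omega
  have hpi := Real.pi_pos
  have o1 := E.ori
  have o2 := ap.ori
  have a1 := ap.aR
  have a2 := ap.aL
  rw [hn1, hpn] at o2 a1 a2
  have hsub := ap.sub
  rw [hn1, hpn] at hsub
  generalize hv : p (n - 1) = v at *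
  generalize hy : p 0 = y at *
  generalize hb' : q n = b at *
  generalize hz : p t = z0 at *
  have k1 := ne_of_orient o1.ne'
  have k2 := ne_of_orient o2.ne'
  unfold eta at c1
  unfold bet at c2
  rw [hv, hy, hb'] at c1 c2
  rw [a1] at c1
  rw [a2] at c2
  -- the angle at `v`
  have o3 : 0 < orient v b z0 := by
    have h1 : turn (b - v) (z0 - v) = turn (b - v) (y - v) + turn (y - v) (z0 - v) :=
      turn_add (sub_ne_zero.2 k1.1.symm) (sub_ne_zero.2 k1.2.2.symm)
        (sub_ne_zero.2 k2.2.2.symm) (by linarith)
    have h2 : turn (b - v) (z0 - v) < Real.pi := by rw [h1]; linarith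
    exact (turn_lt_pi (sub_ne_zero.2 k1.1.symm) (sub_ne_zero.2 k2.2.2.symm)).1 h2
  have o4 : 0 < orient y z0 b := by
    have h1 : turn (z0 - y) (b - y) = turn (z0 - y) (v - y) + turn (v - y) (b - y) :=
      turn_add (sub_ne_zero.2 k2.2.1.symm) (sub_ne_zero.2 k2.1)
        (sub_ne_zero.2 k1.2.1) (by linarith)
    have h2 : turn (z0 - y) (b - y) < Real.pi := by rw [h1]; linarith
    exact (turn_lt_pi (sub_ne_zero.2 k2.2.1.symm) (sub_ne_zero.2 k1.2.1)).1 h2
  -- the other diagonal of the quadrilateral
  apply hb (t % n)
  have ht : q (t % n) = z0 := by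
    rw [E.eq _ (Nat.mod_lt _ (by omega)), ← hz]
    have := per_mod_add hsp.per t 0
    simpa using this.symm
  unfold Diag
  rw [hb', ht]
  rintro x ⟨s, r, hs, hr, hsr, rfl⟩
  rw [E.ins_iff, hv, hy, hb']
  have e1 : orient v b (s • b + r • z0) = r * orient v b z0 := by
    rw [orient_comb hsr, orient_right]; ring
  have e2 : orient b y (s • b + r • z0) = r * orient b y z0 := by
    rw [orient_comb hsr, orient_left]; ring
  have e2' : orient b y z0 = orient y z0 b := by rw [← orient_cyc b y z0]
  have e3 : orient y z0 (s • b + r • z0) = s * orient y z0 b := by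
    rw [orient_comb hsr, orient_right]; ring
  have e4 : orient z0 v (s • b + r • z0) = s * orient z0 v b := by
    rw [orient_comb hsr, orient_left]; ring
  have e4' : orient z0 v b = orient v b z0 := by rw [← orient_cyc z0 v b]
  have f1 : 0 < orient v b (s • b + r • z0) := by rw [e1]; positivity
  have f2 : 0 < orient b y (s • b + r • z0) := by rw [e2, e2']; positivity
  have f3 : 0 < orient y z0 (s • b + r • z0) := by rw [e3]; positivity
  have f4 : 0 < orient z0 v (s • b + r • z0) := by rw [e4, e4']; positivity
  rcases lt_trichotomy (orient v y (s • b + r • z0)) 0 with h1 | h1 | h1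
  · right; right
    refine ⟨f1, f2, ?_⟩
    rw [orient_swap]
    linarith
  · right; left
    refine openSeg_of o2 h1 f3 f4
  · left
    exact hsub ⟨h1, f3, f4⟩

end Pool.Agent.SigPoly
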