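import Pool.Agent.SigPoly.Attach1
import Pool.Agent.SigPoly.EarMk

/-!
# Vertices on lines, and what is seen from near a vertex
-/

namespace Pool.Agent.SigPoly

open Complex Set Filter Topology Pool.Agent.VisGraph

variable {n : ℕ} {p : ℕ → ℂ}

lemma vertex_mem_chain (h : SP n p) (i k : ℕ) : p k ∈ chain p i (i + n) := by
  have hn := h.three_le
  rw [h.chain_per i, ← per_mod h.per k]
  exact ⟨k % n, Nat.zero_le _, Nat.mod_lt _ (by omega), left_mem_segment ℝ _ _⟩

/-- No vertex lies inside an edge. -/
lemma vertex_not_open (h : SP n p) (i k : ℕ) : p k ∉ openSegment ℝ (p i) (p (i + 1)) := by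
  intro hk
  have hn := h.three_le
  apply h.open_notMem hk
  have h1 := vertex_mem_chain h (i + 1) k
  obtain ⟨l, hl1, hl2, hz⟩ := h1
  by_cases hl : l + 1 < i + 1 + n
  · exact ⟨l, hl1, by omega, hz⟩
  · -- the last edge is the edge `i` itself
    have e : l = i + n := by omega
    -- then use the vertex itself: it is an endpoint of another edge
    obtain ⟨m, hm1, hm2, hm3⟩ : ∃ m, i + 1 ≤ m ∧ m < i + 1 + n ∧ p k = p m := by
      refine ⟨i + 1 + (k + n * (i + 1) - (i + 1)) % n, by omega, ?_, ?_⟩
      · have := Nat.mod_lt (k + n * (i + 1) - (i + 1)) (show 0 < n by omega)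
        omega
      · rw [← per_mod h.per k, ← per_mod h.per (i + 1 + _)]
        congr 1
        have e1 : i + 1 ≤ k + n * (i + 1) := by nlinarith
        rw [Nat.add_mod_mod, show i + 1 + (k + n * (i + 1) - (i + 1)) = k + n * (i + 1) by omega,
          Nat.add_mul_mod_self_left]
    by_cases hm : m = i + n
    · exfalso
      rw [hm3, hm, h.per] at hk
      exact h.ne_succ i (left_mem_openSegment_iff.1 hk)
    · rw [hm3]
      exact ⟨m, hm1, by omega, left_mem_segment ℝ _ _⟩

lemma vertex_seg (h : SP n p) {i k : ℕ} (hk : p k ∈ segment ℝ (p i) (p (i + 1))) :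
    p k = p i ∨ p k = p (i + 1) := by
  by_contra hcon
  push Not at hcon
  exact vertex_not_open h i k (mem_open_of_mem hk hcon.1 hcon.2)

lemma th_eq_pi_of {i : ℕ} (h : SP n p) (hm : p (i + 1) ∈ openSegment ℝ (p i) (p (i + 2))) :
    th n p (i + 1) = Real.pi := by
  have hn := h.three_le
  obtain ⟨t, ht0, ht1, ht⟩ := mem_open_iff.1 hm
  have hu : p (i + 2) - p (i + 1) ≠ 0 := sub_ne_zero.2 (h.ne_succ (i + 1)).symm
  have hw : p i - p (i + 1) ≠ 0 := sub_ne_zero.2 (h.ne_succ i)
  unfold th
  rw [show i + 1 + (n - 1) = i + n by omega, h.per, show i + 1 + 1 = i + 2 by ring,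
    turn_eq_pi hu hw]
  refine ⟨t / (1 - t), div_pos ht0 (by linarith), ?_⟩
  have h1 : (1 - (t : ℂ)) ≠ 0 := by
    have : (1 - t : ℝ) ≠ 0 := by linarith
    exact_mod_cast this
  rw [ht]
  push_cast
  field_simp
  ring

/-- If `b` is between `a` and `c` and `c'` is in `[b, c]` or so: order on lines. -/
lemma between_trans {a b c x : ℂ} (h1 : b ∈ openSegment ℝ a c) (h2 : x ∈ openSegment ℝ b c) :
    b ∈ openSegment ℝ a x := by
  obtain ⟨s, hs0, hs1, rfl⟩ := mem_open_iff.1 h1
  obtain ⟨t, ht0, ht1, rfl⟩ := mem_open_iff.1 h2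
  rw [mem_open_iff]
  have hd : 0 < s + t * (1 - s) := by nlinarith
  refine ⟨s / (s + t * (1 - s)), by positivity, ?_, ?_⟩
  · rw [div_lt_one hd]; nlinarith
  · have hd' : ((s : ℂ) + t * (1 - s)) ≠ 0 := by
      have : (s + t * (1 - s) : ℝ) ≠ 0 := hd.ne'
      exact_mod_cast this
    push_cast
    field_simp
    ring

lemma between_order {a b c x : ℂ} (hb : b ∈ openSegment ℝ a c) (hx : x ∈ segment ℝ a c)
    (hxa : x ≠ a) (hxb : x ≠ b) (hnot : x ∉ openSegment ℝ a b) : x ∈ segment ℝ b c ∧ x ≠ b := by
  refine ⟨?_, hxb⟩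
  obtain ⟨s, hs0, hs1, rfl⟩ := mem_open_iff.1 hb
  obtain ⟨t, ht0, ht1, rfl⟩ := mem_seg_iff.1 hx
  rcases lt_or_ge t s with h1 | h1
  · exfalso
    apply hnot
    have ht : 0 < t := by
      refine lt_of_le_of_ne ht0 ?_
      rintro rfl; apply hxa; simp
    rw [mem_open_iff]
    refine ⟨t / s, by positivity, by rw [div_lt_one hs0]; exact h1, ?_⟩
    have : (s : ℂ) ≠ 0 := by exact_mod_cast hs0.ne'
    push_cast
    field_simp
    ring
  · rw [mem_seg_iff]
    have hs : 0 < 1 - s := by linarith
    refine ⟨(t - s) / (1 - s), div_nonneg (by linarith) hs.le, ?_, ?_⟩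
    · rw [div_le_one hs]; linarith
    · have : (1 - (s : ℂ)) ≠ 0 := by
        have : (1 - s : ℝ) ≠ 0 := hs.ne'
        exact_mod_cast this
      push_cast
      field_simp
      ring

/-- Two edges at a vertex do not have the same direction. -/
lemma not_same_ray (h : SP n p) (i : ℕ) {w : ℂ} (h1 : p (i + 1) ∈ segment ℝ (p i) w)
    (h2 : p (i + (n - 1)) ∈ segment ℝ (p i) w) : False := by
  obtain ⟨s, hs0, hs1, hs⟩ := mem_seg_iff.1 h1
  obtain ⟨t, ht0, ht1, ht⟩ := mem_seg_iff.1 h2
  have hu : p (i + 1) - p i ≠ 0 := sub_ne_zero.2 (h.ne_succ i).symm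
  have hw : p (i + (n - 1)) - p i ≠ 0 := sub_ne_zero.2 (PP.prev_ne h i)
  have hs' : 0 < s := by
    refine lt_of_le_of_ne hs0 ?_
    rintro rfl; apply hu; rw [hs]; simp
  have ht' : 0 < t := by
    refine lt_of_le_of_ne ht0 ?_
    rintro rfl; apply hw; rw [ht]; simp
  have := PP.th_lt' h i
  unfold th at this
  have h3 : turn (p (i + 1) - p i) (p (i + (n - 1)) - p i) = 2 * Real.pi := by
    rw [turn_eq_two_pi hu hw]
    refine ⟨t / s, by positivity, ?_⟩
    have : (s : ℂ) ≠ 0 := by exact_mod_cast hs'.ne'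
    rw [hs, ht]
    push_cast
    field_simp
    ring
  linarith

/-- A non-flat vertex is not passed by a line of vertices along its previous edge. -/
lemma not_pass (h : SP n p) (g : GP n p) {i j : ℕ} (hf : th n p (i + 1) ≠ Real.pi)
    (hj : p (i + 1) ∈ openSegment ℝ (p i) (p j)) : False := by
  have hn := h.three_le
  have hij : p i ≠ p j := by
    intro e
    rw [e, openSegment_same] at hj
    exact h.ne_succ i (by rw [hj, e])
  rcases g i j (i + 1) hij hj with ⟨h1, h2⟩ | ⟨h1, h2⟩
  · set m := j + (n - 1) with hm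
    have hmj : p (m + 1) = p j := by rw [hm, idx_prev hn, h.per]
    have hmne : p m ≠ p j := by rw [← hmj]; exact h.ne_succ m
    by_cases e1 : p m = p (i + 1)
    · -- `j = i + 2`
      have e2 : p j = p (i + 2) := by
        -- indices agree modulo `n`
        have h5 : m % n = (i + 1) % n := by
          by_contra hne
          have e3 := e1
          rw [← per_mod h.per m, ← per_mod h.per (i + 1)] at e3
          have l1 := Nat.mod_lt m (show 0 < n by omega)
          have l2 := Nat.mod_lt (i + 1) (show 0 < n by omega)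
          rcases lt_or_gt_of_ne hne with h6 | h6
          · exact h.inj _ _ h6 (by omega) e3
          · exact h.inj _ _ h6 (by omega) e3.symm
        rw [← hmj, ← per_mod h.per (m + 1), ← per_mod h.per (i + 2)]
        congr 1
        rw [Nat.add_mod, h5, ← Nat.add_mod]
      rw [e2] at hj
      exact hf (th_eq_pi_of h hj)
    · have e0 : p m ≠ p i := by
        intro e
        -- then `p i, p j` is an edge and `p (i+1)` lies inside it
        have : p (i + 1) ∈ openSegment ℝ (p m) (p (m + 1)) := by rw [e, hmj]; exact hj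
        exact vertex_not_open h m (i + 1) this
      obtain ⟨h3, -⟩ := between_order hj h2 e0 e1 (vertex_not_open h i m)
      have h4 : p m ∈ openSegment ℝ (p (i + 1)) (p j) := mem_open_of_mem h3 e1 hmne
      have hne : p (i + 1) ≠ p j := by
        intro e
        rw [e] at hj
        exact hij (right_mem_openSegment_iff.1 hj)
      rcases g (i + 1) j m hne h4 with ⟨h5, -⟩ | ⟨h5, -⟩
      · have h6 : p (i + 1 + 1) ∈ openSegment ℝ (p (i + 1)) (p j) ∨ p (i + 1 + 1) = p j := by
          by_cases e3 : p (i + 1 + 1) = p j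
          · exact Or.inr e3
          · exact Or.inl (mem_open_of_mem h5 (h.ne_succ (i + 1)).symm e3)
        apply hf
        apply th_eq_pi_of h
        rcases h6 with h6 | h6
        · exact between_trans hj h6
        · rw [show i + 2 = i + 1 + 1 by ring, h6]; exact hj
      · rw [show i + 1 + (n - 1) = i + n by omega, h.per] at h5
        -- `p i` in `[p (i+1), p j]` but `p (i+1)` is strictly between
        obtain ⟨s, hs0, hs1, hs⟩ := mem_open_iff.1 hj
        obtain ⟨t, ht0, ht1, ht⟩ := mem_seg_iff.1 h5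
        have h7 : ((s * (1 - t) + t : ℝ) : ℂ) * (p j - p i) = 0 := by
          rw [hs] at ht
          push_cast
          linear_combination -ht
        rcases mul_eq_zero.1 h7 with h8 | h8
        · have h9 : s * (1 - t) + t = 0 := by exact_mod_cast h8
          nlinarith
        · exact hij (sub_eq_zero.1 h8).symm
  · exact not_same_ray h i (mem_seg_of hj) h1
where
  mem_seg_of {a b z : ℂ} (h : z ∈ openSegment ℝ a b) : z ∈ segment ℝ a b :=
    openSegment_subset_segment ℝ _ _ h

end Pool.Agent.SigPoly
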