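import Pool.Agent.SigPoly.Attach2

/-!
# What is seen from near a vertex
-/

namespace Pool.Agent.SigPoly

open Complex Set Filter Topology Pool.Agent.VisGraph

variable {n : ℕ} {p : ℕ → ℂ}

/-- Mirror image of `not_pass`. -/
lemma not_pass' (h : SP n p) (g : GP n p) {i j : ℕ} (hf : th n p i ≠ Real.pi)
    (hj : p i ∈ openSegment ℝ (p (i + 1)) (p j)) : False := by
  have hn := h.three_le
  have e2 : ∀ a, p ((n - 1) * ((n - 1) * a)) = p a := per_neg_neg (by omega) h.per
  refine not_pass (SP.mir h) (GP_mir h g) (i := (n - 1) * (i + 1)) (j := (n - 1) * j) ?_ ?_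
  · rw [th_mir h]
    have e1 : (n - 1) * (i + 1) + 1 = (n - 1) * i + n := by
      obtain ⟨m, rfl⟩ : ∃ m, n = m + 1 := ⟨n - 1, by omega⟩
      simp only [Nat.add_sub_cancel]; ring
    rw [e1, show (n - 1) * ((n - 1) * i + n) = (n - 1) * ((n - 1) * i) + n * (n - 1) by ring,
      per_add_mul (th_per h), per_neg_neg (by omega) (th_per h)]
    exact hf
  · have e1 : p ((n - 1) * ((n - 1) * (i + 1) + 1)) = p i := by
      have e1 : (n - 1) * (i + 1) + 1 = (n - 1) * i + n := by
        obtain ⟨m, rfl⟩ : ∃ m, n = m + 1 := ⟨n - 1, by omega⟩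
        simp only [Nat.add_sub_cancel]; ring
      rw [e1, show (n - 1) * ((n - 1) * i + n) = (n - 1) * ((n - 1) * i) + n * (n - 1) by ring,
        per_add_mul h.per, e2]
    simp only [mirp_apply, e2, e1]
    obtain ⟨t, ht0, ht1, ht⟩ := mem_open_iff.1 hj
    rw [mem_open_iff]
    refine ⟨t, ht0, ht1, ?_⟩
    conv_lhs => rw [ht]
    simp only [map_add, map_mul, map_sub, Complex.conj_ofReal]

/-- Admissible directions for a new vertex near `p (n - 1)`. -/
structure Dir (n : ℕ) (p : ℕ → ℂ) (d : ℂ) : Prop where
  pos : 0 < cr d (p 0 - p (n - 1))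
  sum : turn d (p 0 - p (n - 1)) + th n p (n - 1) < 2 * Real.pi
  cov : Real.pi ≤ aR n p (n - 1) + turn d (p 0 - p (n - 1))
  ext : th n p (n - 1) - aR n p (n - 1) < Real.pi
  hv : th n p (n - 1) ≠ Real.pi
  hy : th n p 0 ≠ Real.pi
  gen : ∀ j, p j ≠ p (n - 1) → cr d (p j - p (n - 1)) = 0 →
    (∃ c : ℝ, 0 < c ∧ p j = p (n - 1) - c * d) ∧ p (j + 1) ∈ segment ℝ (p j) (p (n - 1))

lemma mem_chain' {k : ℕ} {z : ℂ} {m : ℕ} (hk : k < m) (hz : z ∈ segment ℝ (p k) (p (k + 1))) :
    z ∈ chain p 0 m := ⟨k, Nat.zero_le _, hk, hz⟩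

lemma orient_affine {a b s t : ℂ} {μ : ℝ} :
    orient a b (s + μ * (t - s)) = (1 - μ) * orient a b s + μ * orient a b t := by
  simp only [orient, cr, Complex.sub_re, Complex.sub_im, Complex.add_re, Complex.add_im,
    Complex.mul_re, Complex.mul_im, Complex.ofReal_re, Complex.ofReal_im]; ring

lemma idx_facts (h : SP n p) : p (n - 1 + 1) = p 0 ∧ p (n - 1 + (n - 1)) = p (n - 2) ∧
    n - 2 + 1 = n - 1 := by
  have hn := h.three_le
  refine ⟨?_, ?_, by omega⟩
  · rw [show n - 1 + 1 = 0 + n by omega, h.per]
  · rw [show n - 1 + (n - 1) = n - 2 + n by omega, h.per]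

lemma Dir.ne {d : ℂ} (D : Dir n p d) : d ≠ 0 := by
  rintro rfl
  have := D.pos
  simp [cr] at this

lemma Dir.turn_x {d : ℂ} (h : SP n p) (D : Dir n p d) :
    turn d (p (n - 2) - p (n - 1)) = turn d (p 0 - p (n - 1)) + th n p (n - 1) := by
  obtain ⟨e1, e2, e3⟩ := idx_facts h
  have hu : p 0 - p (n - 1) ≠ 0 := by
    rw [← e1]; exact sub_ne_zero.2 (h.ne_succ (n - 1)).symm
  have hw : p (n - 2) - p (n - 1) ≠ 0 := by
    have := h.ne_succ (n - 2)
    rw [e3] at this
    exact sub_ne_zero.2 this
  have := D.sum
  unfold th at this ⊢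
  rw [e1, e2] at this ⊢
  exact turn_add D.ne hu hw this.le

/-- What one sees from a point near `p (n - 1)`. -/
lemma see_j (h : PP n p) (g : GP n p) {d : ℂ} (D : Dir n p d) {j : ℕ} (hj0 : 0 < j)
    (hj1 : j < n - 1) :
    ∀ᶠ ε : ℝ in 𝓝[>] 0,
      (∃ z ∈ openSegment ℝ (p (n - 1) + ε * d) (p j), z ∈ chain p 0 (n - 1)) ∨
      (th n p j ≤ turn (p (j + 1) - p j) (p (n - 1) + ε * d - p j)) := by
  have hs := h.sp
  have hn := hs.three_le
  obtain ⟨e1, e2, e3⟩ := idx_facts hs
  have hxv : p (n - 2) ≠ p (n - 1) := by
    have := hs.ne_succ (n - 2)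
    rwa [e3] at this
  have hyv : p 0 ≠ p (n - 1) := hs.inj 0 (n - 1) (by omega) (by omega)
  have hwv : p j ≠ p (n - 1) := hs.inj j (n - 1) hj1 (by omega)
  have hwy : p j ≠ p 0 := (hs.inj 0 j hj0 (by omega)).symm
  have hdx := D.turn_x hs
  have hηpos := turn_pos d (p 0 - p (n - 1))
  have haRle := aR_le h (n - 1)
  have hsum := D.sum
  have hcov := D.cov
  by_cases ha : cr d (p j - p (n - 1)) = 0
  · -- the vertex `p (n - 1)` is in between
    obtain ⟨⟨c, hc, hw⟩, -⟩ := D.gen j hwv ha
    filter_upwards [self_mem_nhdsWithin] with ε hε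
    have hε0 : 0 < ε := hε
    left
    refine ⟨p (n - 1), ?_, ⟨n - 2, Nat.zero_le _, by omega, ?_⟩⟩
    · rw [mem_open_iff]
      refine ⟨ε / (ε + c), by positivity, by rw [div_lt_one (by positivity)]; linarith, ?_⟩
      have h1 : ((ε : ℂ) + c) ≠ 0 := by
        have : (ε + c : ℝ) ≠ 0 := by positivity
        exact_mod_cast this
      rw [hw]
      push_cast
      field_simp
      ring
    · rw [e3]; exact right_mem_segment ℝ _ _
  by_cases hb2 : ∃ c : ℝ, 0 < c ∧ p j - p (n - 1) = c * (p (n - 2) - p (n - 1))
  · -- the vertex `p j` lies on the ray through the previous vertex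
    obtain ⟨c, hc, hw⟩ := hb2
    have hcrx : cr d (p (n - 2) - p (n - 1)) ≠ 0 := by
      intro h0
      apply ha
      rw [hw, cr_smul_right, h0, mul_zero]
    have hτ : Real.pi < turn d (p (n - 2) - p (n - 1)) := by
      refine lt_of_le_of_ne (by rw [hdx]; linarith) ?_
      intro h0
      obtain ⟨c', -, h1⟩ := (turn_eq_pi D.ne (sub_ne_zero.2 hxv)).1 h0.symm
      apply hcrx
      rw [h1, show (-(c' : ℂ)) = ((-c' : ℝ) : ℂ) by push_cast; ring, cr_smul_right, cr_self,
        mul_zero]
    have hcr : cr d (p (n - 2) - p (n - 1)) < 0 :=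
      (turn_gt_pi D.ne (sub_ne_zero.2 hxv)).1 ⟨hτ, by rw [hdx]; exact hsum⟩
    -- the following vertex
    have hnext : p (j + 1) ∈ segment ℝ (p (n - 1)) (p j) := by
      by_cases hwx : p j = p (n - 2)
      · have : j = n - 2 := by
          by_contra hne
          exact hs.inj j (n - 2) (by omega) (by omega) hwx
        rw [this, e3]
        exact left_mem_segment ℝ _ _
      · have hc1 : c ≠ 1 := by
          rintro rfl
          apply hwx
          rw [Complex.ofReal_one, one_mul] at hw
          exact sub_left_injective hw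
        rcases lt_or_gt_of_ne hc1 with hlt | hgt
        · exfalso
          apply vertex_not_open hs (n - 2) j
          rw [e3, openSegment_symm, mem_open_iff]
          exact ⟨c, hc, hlt, by rw [← hw]; ring⟩
        · have hx : p (n - 1 + (n - 1)) ∈ openSegment ℝ (p (n - 1)) (p j) := by
            rw [e2, mem_open_iff]
            refine ⟨1 / c, by positivity, by rw [div_lt_one hc]; exact hgt, ?_⟩
            have hcc : (c : ℂ) ≠ 0 := by exact_mod_cast hc.ne'
            rw [hw]
            push_cast
            field_simp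
            ring
          rcases g (n - 1) j _ hwv.symm hx with ⟨h1, -⟩ | ⟨-, h1⟩
          · exact (not_same_ray hs (n - 1) h1 (openSegment_subset_segment ℝ _ _ hx)).elim
          · exact h1
    obtain ⟨t, ht0, ht1, ht⟩ := mem_seg_iff.1 (by rwa [segment_symm] at hnext :
      p (j + 1) ∈ segment ℝ (p j) (p (n - 1)))
    have ht0' : 0 < t := by
      refine lt_of_le_of_ne ht0 ?_
      rintro rfl
      apply hs.ne_succ j
      rw [ht]; simp
    have hcr2 : cr (p (n - 1) - p j) d < 0 := by
      have : p (n - 1) - p j = ((-c : ℝ) : ℂ) * (p (n - 2) - p (n - 1)) := by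
        push_cast
        rw [neg_mul, ← hw]; ring
      rw [this, cr_smul_left, cr_swap]
      have : 0 < c * -cr d (p (n - 2) - p (n - 1)) := mul_pos hc (by linarith)
      linarith
    have hthin := turn_thin' (sub_ne_zero.2 hwv.symm) hcr2
      (δ := 2 * Real.pi - th n p j) (by linarith [h.th_lt j])
    have hne : ∀ᶠ ε : ℝ in 𝓝[>] 0, p (n - 1) + (ε : ℂ) * d ≠ p j :=
      (tendsto_add_smul _ d).eventually_ne hwv.symm
    filter_upwards [hthin, hne] with ε hε hε'
    right
    have e4 : p (j + 1) - p j = (t : ℂ) * (p (n - 1) - p j) := by rw [ht]; ring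
    have e5 := turn_smul (sub_ne_zero.2 hwv.symm) (sub_ne_zero.2 hε') ht0' one_pos
    rw [Complex.ofReal_one, one_mul] at e5
    rw [e4, e5, show p (n - 1) + (ε : ℂ) * d - p j = p (n - 1) - p j + ε * d by ring]
    linarith
  by_cases hb3 : ∀ z ∈ openSegment ℝ (p (n - 1)) (p j), z ∉ chain p 0 n
  · rcases chord_cases hs hb3 with h1 | h1
    · -- a diagonal
      have hd : Diag n p (n - 1) j := h1
      have hφ1 := aR_le_diag h hd
      have hφ2 := h.diag_turn hd
      unfold th at hφ2
      have hu : p 0 - p (n - 1) ≠ 0 := sub_ne_zero.2 hyv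
      have hsplit := turn_split (by rw [e1]; exact hu) (sub_ne_zero.2 hwv)
        (by rw [e2]; exact sub_ne_zero.2 hxv) hφ2
      have hthv : th n p (n - 1) = turn (p 0 - p (n - 1)) (p j - p (n - 1)) +
          turn (p j - p (n - 1)) (p (n - 2) - p (n - 1)) := by
        unfold th
        rw [hsplit, e1, e2]
      rw [e1] at hφ1
      have c1 : 0 < cr (p j - p (n - 1)) (p (n - 2) - p (n - 1)) := by
        rw [← turn_lt_pi (sub_ne_zero.2 hwv) (sub_ne_zero.2 hxv)]
        have := D.ext
        linarith
      have hwx := turn_pos (p j - p (n - 1)) (p (n - 2) - p (n - 1))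
      have hdw : turn d (p j - p (n - 1)) = turn d (p 0 - p (n - 1)) +
          turn (p 0 - p (n - 1)) (p j - p (n - 1)) :=
        turn_add D.ne hu (sub_ne_zero.2 hwv) (by linarith)
      have hτ : Real.pi < turn d (p j - p (n - 1)) := by
        refine lt_of_le_of_ne (by rw [hdw]; linarith) ?_
        intro h0
        obtain ⟨c', -, h1⟩ := (turn_eq_pi D.ne (sub_ne_zero.2 hwv)).1 h0.symm
        apply ha
        rw [h1, show (-(c' : ℂ)) = ((-c' : ℝ) : ℂ) by push_cast; ring, cr_smul_right, cr_self,
          mul_zero]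
      have c3 : 0 < cr (p j - p (n - 1)) d := by
        rw [cr_swap]
        have := (turn_gt_pi D.ne (sub_ne_zero.2 hwv)).1 ⟨hτ, by rw [hdw]; linarith⟩
        linarith
      have c2 : 0 < cr (p (n - 2) - p (n - 1)) d := by
        rw [cr_swap]
        have := (turn_gt_pi D.ne (sub_ne_zero.2 hxv)).1 ⟨by rw [hdx]; linarith,
          by rw [hdx]; exact hsum⟩
        linarith
      filter_upwards [cross_near c1 c2 c3] with ε hε
      obtain ⟨z, hz1, hz2⟩ := hε
      left
      refine ⟨z, hz1, n - 2, Nat.zero_le _, by omega, ?_⟩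
      rw [e3, segment_symm]
      exact openSegment_subset_segment ℝ _ _ hz2
    · -- outside
      have h2 := h.out_turn (i := j) (z := p (n - 1)) hwv.symm (fun z hz => by
        rw [openSegment_symm] at hz
        exact ⟨h1 z hz, hb3 z hz⟩)
      have hcont := continuousAt_turn (sub_ne_zero.2 (hs.ne_succ j).symm)
        (sub_ne_zero.2 hwv.symm) h2.2
      have hT : Tendsto (fun ε : ℝ => ((p (j + 1) - p j, p (n - 1) + (ε : ℂ) * d - p j) : ℂ × ℂ))
          (𝓝[>] 0) (𝓝 (p (j + 1) - p j, p (n - 1) - p j)) :=
        tendsto_const_nhds.prodMk_nhds ((tendsto_add_smul _ d).sub_const _)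
      have h3 := (hcont.tendsto.comp hT).eventually (lt_mem_nhds h2.1)
      filter_upwards [h3] with ε hε
      right
      exact le_of_lt hε
  · -- a crossing
    push Not at hb3
    obtain ⟨z, hz, hzc⟩ := hb3
    have hnov : ∀ m, p m ∉ openSegment ℝ (p (n - 1)) (p j) := by
      intro m hm
      rcases g (n - 1) j m hwv.symm hm with ⟨h1, -⟩ | ⟨h1, -⟩
      · have h2 : p (n - 1 + 1) ∈ openSegment ℝ (p (n - 1)) (p j) :=
          mem_open_of_mem h1 (by rw [e1]; exact hyv) (by rw [e1]; exact hwy.symm)
        refine not_pass hs g ?_ h2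
        rw [show n - 1 + 1 = 0 + n by omega, th_per hs]
        exact D.hy
      · apply hb2
        rw [e2] at h1
        obtain ⟨t, ht0, ht1, ht⟩ := mem_seg_iff.1 h1
        have ht0' : 0 < t := by
          refine lt_of_le_of_ne ht0 ?_
          rintro rfl
          apply hxv
          rw [ht]; simp
        refine ⟨1 / t, by positivity, ?_⟩
        have : (t : ℂ) ≠ 0 := by exact_mod_cast ht0'.ne'
        rw [ht]
        push_cast
        field_simp
        ring
    obtain ⟨k, -, hk, hzk⟩ := hzc
    have hzne : ∀ m, z ≠ p m := fun m e => hnov m (e ▸ hz)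
    have hzo := mem_open_of_mem hzk (hzne k) (hzne (k + 1))
    obtain ⟨r, hr0, hr1, hr⟩ := mem_open_iff.1 hz
    obtain ⟨μ, hμ0, hμ1, hμ⟩ := mem_open_iff.1 hzo
    have o1 : (1 - μ) * orient (p (n - 1)) (p j) (p k) +
        μ * orient (p (n - 1)) (p j) (p (k + 1)) = 0 := by
      rw [← orient_affine, ← hμ]
      exact orient_eq_zero_of_mem (openSegment_subset_segment ℝ _ _ hz)
    have o2 : (1 - r) * orient (p k) (p (k + 1)) (p (n - 1)) +
        r * orient (p k) (p (k + 1)) (p j) = 0 := by
      rw [← orient_affine, ← hr]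
      exact orient_eq_zero_of_mem hzk
    have hD : orient (p k) (p (k + 1)) (p j) - orient (p k) (p (k + 1)) (p (n - 1)) =
        orient (p (n - 1)) (p j) (p k) - orient (p (n - 1)) (p j) (p (k + 1)) := by
      simp only [orient, cr, Complex.sub_re, Complex.sub_im]; ring
    by_cases h0 : orient (p (n - 1)) (p j) (p k) = 0
    · exfalso
      have h0' : orient (p (n - 1)) (p j) (p (k + 1)) = 0 := by
        rw [h0, mul_zero, zero_add] at o1
        rcases mul_eq_zero.1 o1 with h2 | h2
        · linarith
        · exact h2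
      obtain ⟨s, hs'⟩ := cr_eq_zero (sub_ne_zero.2 hwv) h0
      obtain ⟨t, ht'⟩ := cr_eq_zero (sub_ne_zero.2 hwv) h0'
      have hwv' : p j - p (n - 1) ≠ 0 := sub_ne_zero.2 hwv
      have es : p k = p (n - 1) + s * (p j - p (n - 1)) := by rw [← hs']; ring
      have et : p (k + 1) = p (n - 1) + t * (p j - p (n - 1)) := by rw [← ht']; ring
      have hs01 : ¬ (0 < s ∧ s < 1) := fun hh => hnov k (mem_open_iff.2 ⟨s, hh.1, hh.2, es⟩)
      have ht01 : ¬ (0 < t ∧ t < 1) := fun hh =>
        hnov (k + 1) (mem_open_iff.2 ⟨t, hh.1, hh.2, et⟩)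
      have hrst : r = (1 - μ) * s + μ * t := by
        have h5 : ((r - ((1 - μ) * s + μ * t) : ℝ) : ℂ) * (p j - p (n - 1)) = 0 := by
          push_cast
          have h6 : p (n - 1) + (r : ℂ) * (p j - p (n - 1)) =
              p k + μ * (p (k + 1) - p k) := by rw [← hr, ← hμ]
          rw [es, et] at h6
          linear_combination h6
        rcases mul_eq_zero.1 h5 with h6 | h6
        · have : r - ((1 - μ) * s + μ * t) = 0 := by exact_mod_cast h6
          linarith
        · exact absurd h6 hwv'
      have hkk := hs.ne_succ k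
      -- both endpoints of `[v, w]` lie on the edge `k`
      have hcase : (s ≤ 0 ∧ 1 ≤ t) ∨ (t ≤ 0 ∧ 1 ≤ s) := by
        rcases le_or_gt s 0 with h6 | h6
        · left
          refine ⟨h6, ?_⟩
          by_contra hcon
          push Not at hcon
          have : t ≤ 0 := by
            by_contra h7
            push Not at h7
            exact ht01 ⟨h7, hcon⟩
          nlinarith
        · have h7 : 1 ≤ s := by
            by_contra hcon
            push Not at hcon
            exact hs01 ⟨h6, hcon⟩
          right
          refine ⟨?_, h7⟩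
          by_contra hcon
          push Not at hcon
          have : 1 ≤ t := by
            by_contra h8
            push Not at h8
            exact ht01 ⟨hcon, h8⟩
          nlinarith
      have hst : s ≠ t := by rcases hcase with h6 | h6 <;> intro h7 <;> linarith [h6.1, h6.2]
      have hstc : ((t : ℂ) - s) ≠ 0 := by
        have : (t - s : ℝ) ≠ 0 := sub_ne_zero.2 hst.symm
        exact_mod_cast this
      have hv1 : p (n - 1) ∈ segment ℝ (p k) (p (k + 1)) := by
        rw [mem_seg_iff]
        refine ⟨(0 - s) / (t - s), ?_, ?_, ?_⟩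
        · rcases hcase with h6 | h6
          · exact div_nonneg (by linarith) (by linarith)
          · exact div_nonneg_of_nonpos (by linarith) (by linarith)
        · rcases hcase with h6 | h6
          · rw [div_le_one (by linarith)]; linarith
          · rw [div_le_one_of_neg (by linarith)]; linarith
        · rw [es, et]
          push_cast
          field_simp
          ring
      have hw1 : p j ∈ segment ℝ (p k) (p (k + 1)) := by
        rw [mem_seg_iff]
        refine ⟨(1 - s) / (t - s), ?_, ?_, ?_⟩
        · rcases hcase with h6 | h6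
          · exact div_nonneg (by linarith) (by linarith)
          · exact div_nonneg_of_nonpos (by linarith) (by linarith)
        · rcases hcase with h6 | h6
          · rw [div_le_one (by linarith)]; linarith
          · rw [div_le_one_of_neg (by linarith)]; linarith
        · rw [es, et]
          push_cast
          field_simp
          ring
      rcases vertex_seg hs hv1 with h8 | h8
      · rcases vertex_seg hs hw1 with h9 | h9
        · exact hwv (h9.trans h8.symm)
        · -- k = n - 1
          have hk1 : k = n - 1 := by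
            by_contra hne
            rcases lt_or_gt_of_ne hne with h10 | h10
            · exact hs.inj k (n - 1) h10 (by omega) h8.symm
            · omega
          rw [hk1, e1] at h9
          exact hwy h9
      · rcases vertex_seg hs hw1 with h9 | h9
        · have hk1 : k = n - 2 := by
            by_contra hne
            rcases lt_or_gt_of_ne hne with h10 | h10
            · exact hs.inj (k + 1) (n - 1) (by omega) (by omega) h8.symm
            · have : k = n - 1 := by omega
              rw [this, e1] at h8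
              exact hyv h8.symm
          apply hb2
          refine ⟨1, one_pos, ?_⟩
          rw [h9, hk1]; simp
        · exact hwv (h9.trans h8.symm)
    · have hneg1 : orient (p (n - 1)) (p j) (p k) * orient (p (n - 1)) (p j) (p (k + 1)) < 0 := by
        have h5 : orient (p (n - 1)) (p j) (p (k + 1)) =
            -((1 - μ) / μ) * orient (p (n - 1)) (p j) (p k) := by
          field_simp
          linarith
        rw [h5]
        have h6 : 0 < (1 - μ) / μ := div_pos (by linarith) hμ0
        have h7 := mul_self_pos.2 h0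
        nlinarith
      have h0a : orient (p k) (p (k + 1)) (p (n - 1)) ≠ 0 := by
        intro h5
        rw [h5, mul_zero, zero_add] at o2
        have h6 : orient (p k) (p (k + 1)) (p j) = 0 := by
          rcases mul_eq_zero.1 o2 with h7 | h7
          · linarith
          · exact h7
        rw [h5, h6, sub_zero] at hD
        have h7 : orient (p (n - 1)) (p j) (p (k + 1)) = orient (p (n - 1)) (p j) (p k) := by
          linarith
        rw [h7] at o1
        apply h0
        linarith
      have hneg2 : orient (p k) (p (k + 1)) (p (n - 1)) * orient (p k) (p (k + 1)) (p j) < 0 := by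
        have h5 : orient (p k) (p (k + 1)) (p j) =
            -((1 - r) / r) * orient (p k) (p (k + 1)) (p (n - 1)) := by
          field_simp
          linarith
        rw [h5]
        have h6 : 0 < (1 - r) / r := div_pos (by linarith) hr0
        have h7 := mul_self_pos.2 h0a
        nlinarith
      have hkn : k < n - 1 := by
        by_contra hcon
        have hk1 : k = n - 1 := by omega
        apply h0a
        rw [hk1, orient_left]
      filter_upwards [cross_persist (d := d) hneg1 hneg2] with ε hε
      obtain ⟨z', hz1, hz2⟩ := hε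
      left
      exact ⟨z', hz1, k, Nat.zero_le _, hkn, openSegment_subset_segment ℝ _ _ hz2⟩

end Pool.Agent.SigPoly
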