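import Pool.Agent.SigPoly.Attach3

/-!
# Thin triangles
-/

namespace Pool.Agent.SigPoly

open Complex Set Filter Topology Pool.Agent.VisGraph

variable {n : ℕ} {p : ℕ → ℂ}

lemma Dir.orient_pos {d : ℂ} (D : Dir n p d) {ε : ℝ} (hε : 0 < ε) :
    0 < orient (p (n - 1)) (p (n - 1) + ε * d) (p 0) := by
  have : orient (p (n - 1)) (p (n - 1) + ε * d) (p 0) = ε * cr d (p 0 - p (n - 1)) := by
    simp only [orient, cr, Complex.sub_re, Complex.sub_im, Complex.add_re, Complex.add_im,
      Complex.mul_re, Complex.mul_im, Complex.ofReal_re, Complex.ofReal_im]; ring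
  rw [this]
  exact mul_pos hε D.pos

/-- The triangle with tip near `p (n - 1)` meets the edge `k` only in the base. -/
lemma thin_edge (h : PP n p) {d : ℂ} (D : Dir n p d) {k : ℕ} (hk : k < n) :
    ∀ᶠ ε : ℝ in 𝓝[>] 0, ∀ z ∈ ctri (p (n - 1)) (p (n - 1) + ε * d) (p 0),
      z ∈ segment ℝ (p k) (p (k + 1)) → z ∈ segment ℝ (p (n - 1)) (p 0) := by
  have hs := h.sp
  have hn := hs.three_le
  obtain ⟨e1, e2, e3⟩ := idx_facts hs
  have hxv : p (n - 2) ≠ p (n - 1) := by
    have := hs.ne_succ (n - 2)
    rwa [e3] at this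
  have hyv : p 0 ≠ p (n - 1) := hs.inj 0 (n - 1) (by omega) (by omega)
  by_cases hk1 : k = n - 1
  · filter_upwards with ε z _ hz
    rwa [hk1, e1] at hz
  by_cases hk2 : k = n - 2
  · filter_upwards [self_mem_nhdsWithin] with ε hε z hz hz2
    have hε0 : 0 < ε := hε
    rw [hk2, e3, segment_symm] at hz2
    obtain ⟨t, ht0, ht1, ht⟩ := mem_seg_iff.1 hz2
    rcases ht0.eq_or_lt with h0 | h0
    · rw [ht, ← h0]; simp only [Complex.ofReal_zero, zero_mul, add_zero]
      exact left_mem_segment ℝ _ _
    exfalso
    obtain ⟨h1, -, h3⟩ := hz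
    have f1 : orient (p (n - 1)) (p (n - 1) + ε * d) z =
        ε * t * cr d (p (n - 2) - p (n - 1)) := by
      rw [ht]
      simp only [orient, cr, Complex.sub_re, Complex.sub_im, Complex.add_re, Complex.add_im,
        Complex.mul_re, Complex.mul_im, Complex.ofReal_re, Complex.ofReal_im]; ring
    have f3 : orient (p 0) (p (n - 1)) z =
        -(t * cr (p 0 - p (n - 1)) (p (n - 2) - p (n - 1))) := by
      rw [ht]
      simp only [orient, cr, Complex.sub_re, Complex.sub_im, Complex.add_re, Complex.add_im,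
        Complex.mul_re, Complex.mul_im, Complex.ofReal_re, Complex.ofReal_im]; ring
    rw [f1] at h1
    rw [f3] at h3
    have g1 : 0 ≤ cr d (p (n - 2) - p (n - 1)) := by
      by_contra hcon
      push Not at hcon
      have : 0 < ε * t * -cr d (p (n - 2) - p (n - 1)) := by
        have : 0 < -cr d (p (n - 2) - p (n - 1)) := by linarith
        positivity
      linarith
    have g3 : cr (p 0 - p (n - 1)) (p (n - 2) - p (n - 1)) ≤ 0 := by
      by_contra hcon
      push Not at hcon
      have : 0 < t * cr (p 0 - p (n - 1)) (p (n - 2) - p (n - 1)) := by positivity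
      linarith
    have hdx := D.turn_x hs
    have hsum := D.sum
    have hηpos := turn_pos d (p 0 - p (n - 1))
    -- the turn from `d` to `x` is at most `π`
    have hle : turn d (p (n - 2) - p (n - 1)) ≤ Real.pi := by
      by_contra hcon
      push Not at hcon
      have := (turn_gt_pi D.ne (sub_ne_zero.2 hxv)).1 ⟨hcon, by rw [hdx]; exact hsum⟩
      linarith
    have hth : th n p (n - 1) < Real.pi := by linarith
    unfold th at hth
    rw [e1, e2, turn_lt_pi (sub_ne_zero.2 hyv) (sub_ne_zero.2 hxv)] at hth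
    linarith
  by_cases hk0 : k = 0
  · subst hk0
    have e0 : p (0 + (n - 1)) = p (n - 1) := by rw [Nat.zero_add]
    have hne1 : p (0 + 1) - p 0 ≠ 0 := sub_ne_zero.2 (hs.ne_succ 0).symm
    have hne2 : p (0 + (n - 1)) - p 0 ≠ 0 := by rw [e0]; exact sub_ne_zero.2 hyv.symm
    have hcr : cr (p (0 + 1) - p 0) (p (n - 1) - p 0) ≠ 0 := by
      intro h0
      have h1 := h.th_lt 0
      have h2 := D.hy
      have h3 := turn_lt_pi hne1 hne2
      have h4 := turn_gt_pi hne1 hne2
      rw [e0] at h3 h4
      unfold th at h1 h2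
      rw [e0] at h1 h2
      rcases lt_or_gt_of_ne h2 with h5 | h5
      · have := h3.1 h5
        linarith
      · have := h4.1 ⟨h5, h1⟩
        linarith
    rcases lt_or_gt_of_ne hcr with hneg | hpos
    · -- concave vertex
      have hev : ∀ᶠ ε : ℝ in 𝓝[>] 0, orient (p (n - 1) + ε * d) (p 0) (p (0 + 1)) < 0 := by
        have h1 : orient (p (n - 1)) (p 0) (p (0 + 1)) < 0 := by
          have : orient (p (n - 1)) (p 0) (p (0 + 1)) =
              cr (p (0 + 1) - p 0) (p (n - 1) - p 0) := by
            simp only [orient, cr, Complex.sub_re, Complex.sub_im]; ring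
          rw [this]; exact hneg
        exact (tendsto_add_smul (p (n - 1)) d).eventually
          ((continuous_orient1 (p 0) (p (0 + 1))).continuousAt.eventually_lt continuousAt_const h1)
      filter_upwards [hev, self_mem_nhdsWithin] with ε hε hε' z hz hz2
      obtain ⟨t, ht0, ht1, ht⟩ := mem_seg_iff.1 hz2
      rcases ht0.eq_or_lt with h0 | h0
      · rw [ht, ← h0]; simp only [Complex.ofReal_zero, zero_mul, add_zero]
        exact right_mem_segment ℝ _ _
      exfalso
      obtain ⟨-, h2, -⟩ := hz
      have f2 : orient (p (n - 1) + ε * d) (p 0) z =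
          t * orient (p (n - 1) + ε * d) (p 0) (p (0 + 1)) := by
        rw [ht]
        simp only [orient, cr, Complex.sub_re, Complex.sub_im, Complex.add_re, Complex.add_im,
          Complex.mul_re, Complex.mul_im, Complex.ofReal_re, Complex.ofReal_im]; ring
      rw [f2] at h2
      nlinarith
    · filter_upwards [self_mem_nhdsWithin] with ε hε z hz hz2
      obtain ⟨t, ht0, ht1, ht⟩ := mem_seg_iff.1 hz2
      rcases ht0.eq_or_lt with h0 | h0
      · rw [ht, ← h0]; simp only [Complex.ofReal_zero, zero_mul, add_zero]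
        exact right_mem_segment ℝ _ _
      exfalso
      obtain ⟨-, -, h3⟩ := hz
      have f3 : orient (p 0) (p (n - 1)) z =
          -(t * cr (p (0 + 1) - p 0) (p (n - 1) - p 0)) := by
        rw [ht]
        simp only [orient, cr, Complex.sub_re, Complex.sub_im, Complex.add_re, Complex.add_im,
          Complex.mul_re, Complex.mul_im, Complex.ofReal_re, Complex.ofReal_im]; ring
      rw [f3] at h3
      have : 0 < t * cr (p (0 + 1) - p 0) (p (n - 1) - p 0) := by positivity
      linarith
  -- an edge which is not adjacent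
  have hdisj : Disjoint (segment ℝ (p (n - 1)) (p 0)) (segment ℝ (p k) (p (k + 1))) := by
    rw [Set.disjoint_iff_inter_eq_empty, inter_comm]
    have := hs.disj k (n - 1) (by omega) (by omega)
    rwa [e1] at this
  obtain ⟨δ, hδ, hdd⟩ := hdisj.exists_cthickenings (isCompact_seg _ _) (isClosed_seg _ _)
  have hev : ∀ᶠ ε : ℝ in 𝓝[>] 0, ε * ‖d‖ < δ := by
    have h1 : Tendsto (fun ε : ℝ => ε * ‖d‖) (𝓝[>] 0) (𝓝 0) := by
      have h2 : Continuous fun ε : ℝ => ε * ‖d‖ := by fun_prop
      have := h2.tendsto 0
      rw [zero_mul] at this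
      exact this.mono_left nhdsWithin_le_nhds
    exact h1.eventually (gt_mem_nhds hδ)
  filter_upwards [hev, self_mem_nhdsWithin] with ε hε hε0 z hz hz2
  have hε1 : 0 < ε := hε0
  exfalso
  obtain ⟨α, β, γ, hα, hβ, hγ, hsum, hz3⟩ := ctri_comb (D.orient_pos hε1) hz
  have hz' : ((α + β : ℝ) : ℂ) * p (n - 1) + (γ : ℂ) * p 0 ∈ segment ℝ (p (n - 1)) (p 0) :=
    ⟨α + β, γ, by linarith, hγ, by linarith, by simp only [Complex.real_smul]⟩
  have hdist : dist z (((α + β : ℝ) : ℂ) * p (n - 1) + (γ : ℂ) * p 0) < δ := by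
    have e : z - (((α + β : ℝ) : ℂ) * p (n - 1) + (γ : ℂ) * p 0) = ((β * ε : ℝ) : ℂ) * d := by
      rw [hz3]; push_cast; ring
    rw [dist_eq_norm, e, norm_mul, Complex.norm_real, Real.norm_of_nonneg (by positivity)]
    have hβ1 : β ≤ 1 := by linarith
    calc β * ε * ‖d‖ ≤ 1 * ε * ‖d‖ := by gcongr
      _ < δ := by rw [one_mul]; exact hε
  exact Set.disjoint_left.1 hdd (Metric.mem_cthickening_of_dist_le z _ δ _ hz' hdist.le)
    (Metric.self_subset_cthickening _ hz2)

lemma thin_disj (h : PP n p) {d : ℂ} (D : Dir n p d) :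
    ∀ᶠ ε : ℝ in 𝓝[>] 0, ∀ z ∈ ctri (p (n - 1)) (p (n - 1) + ε * d) (p 0),
      z ∈ chain p 0 n → z ∈ segment ℝ (p (n - 1)) (p 0) := by
  have h1 : ∀ᶠ ε : ℝ in 𝓝[>] 0, ∀ k ∈ Finset.range n,
      ∀ z ∈ ctri (p (n - 1)) (p (n - 1) + ε * d) (p 0),
      z ∈ segment ℝ (p k) (p (k + 1)) → z ∈ segment ℝ (p (n - 1)) (p 0) := by
    rw [Filter.eventually_all_finset]
    intro k hk
    exact thin_edge h D (Finset.mem_range.1 hk)
  filter_upwards [h1] with ε hε z hz hzc
  obtain ⟨k, -, hk, hzk⟩ := hzc
  exact hε k (Finset.mem_range.2 hk) z hz hzk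

/-! ### The vertices of the new polygon -/

lemma insp_mod {b : ℂ} (k : ℕ) : insp n p b (k % (n + 1)) = insp n p b k :=
  per_mod (insp_per (n := n) (p := p) (b := b)) k

/-- No further diagonal. -/
lemma noDiag_near (h : PP n p) (g : GP n p) {d : ℂ} (D : Dir n p d) :
    ∀ᶠ ε : ℝ in 𝓝[>] 0, Ear n p (insp n p (p (n - 1) + ε * d)) →
      NoDiag (n + 1) (insp n p (p (n - 1) + ε * d)) n := by
  have hs := h.sp
  have hn := hs.three_le
  have h1 : ∀ᶠ ε : ℝ in 𝓝[>] 0, ∀ j ∈ Finset.Ioo 0 (n - 1),
      (∃ z ∈ openSegment ℝ (p (n - 1) + ε * d) (p j), z ∈ chain p 0 (n - 1)) ∨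
      (th n p j ≤ turn (p (j + 1) - p j) (p (n - 1) + ε * d - p j)) := by
    rw [Filter.eventually_all_finset]
    intro j hj
    rw [Finset.mem_Ioo] at hj
    exact see_j h g D hj.1 hj.2
  filter_upwards [h1] with ε hε E
  set q := insp n p (p (n - 1) + ε * d) with hq
  have hqn : q n = p (n - 1) + ε * d := insp_n
  intro j hj
  have hj' : Diag (n + 1) q n (j % (n + 1)) := by
    rw [diag_congr_right (insp_mod j)]; exact hj
  have hlt : j % (n + 1) < n + 1 := Nat.mod_lt _ (by omega)
  generalize j % (n + 1) = m at hj' hlt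
  by_cases hm : m = n
  · rw [hm] at hj'; exact not_diag_self E.hq.sp n hj'
  by_cases hm0 : m = 0
  · rw [hm0] at hj'
    have h9 : q (n + 1) = q 0 := by
      have := insp_per (n := n) (p := p) (b := p (n - 1) + ε * d) 0
      rwa [Nat.zero_add] at this
    exact not_diag_succ E.hq.sp n ((diag_congr_right h9).2 hj')
  by_cases hm1 : m = n - 1
  · rw [hm1] at hj'
    apply not_diag_succ E.hq.sp (n - 1)
    rw [show n - 1 + 1 = n by omega]
    exact hj'.symm
  have hqm : q m = p m := insp_lt (by omega)
  rcases hε m (Finset.mem_Ioo.2 ⟨by omega, by omega⟩) with ⟨z, hz1, hz2⟩ | h2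
  · have h3 := hj'
    unfold Diag at h3
    rw [hqn, hqm] at h3
    apply (h3 hz1).1
    obtain ⟨k, -, hk, hzk⟩ := hz2
    refine ⟨k, Nat.zero_le _, by omega, ?_⟩
    rw [show q k = p k from insp_lt (by omega), show q (k + 1) = p (k + 1) from insp_lt (by omega)]
    exact hzk
  · have h3 := E.hq.diag_turn hj'.symm
    rw [E.th_mid (by omega) (by omega), hqm, hqn,
      show q (m + 1) = p (m + 1) from insp_lt (by omega)] at h3
    linarith

/-- The vertices do not lie on new lines, except for the prolonged edge. -/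
lemma gp_near (h : PP n p) (g : GP n p) {d : ℂ} (D : Dir n p d) :
    ∀ᶠ ε : ℝ in 𝓝[>] 0, GP (n + 1) (insp n p (p (n - 1) + ε * d)) := by
  have hs := h.sp
  have hn := hs.three_le
  obtain ⟨e1, e2, e3⟩ := idx_facts hs
  have hd := D.ne
  -- (1) the new vertex is not between two old ones
  have h1 : ∀ i < n, ∀ j < n, ∀ᶠ ε : ℝ in 𝓝[>] 0,
      p (n - 1) + (ε : ℂ) * d ∉ openSegment ℝ (p i) (p j) := by
    intro i hi j hj
    by_cases hv : p (n - 1) ∈ segment ℝ (p i) (p j)
    · filter_upwards [self_mem_nhdsWithin] with ε hε hmem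
      have hε0 : 0 < ε := hε
      obtain ⟨s, hs0, hs1, hs'⟩ := mem_seg_iff.1 hv
      obtain ⟨t, ht0, ht1, ht⟩ := mem_open_iff.1 hmem
      have hεd : (ε : ℂ) * d = ((t - s : ℝ) : ℂ) * (p j - p i) := by
        push_cast
        linear_combination ht - hs'
      have hpar : ∀ m, (p m = p i ∨ p m = p j) → cr d (p m - p (n - 1)) = 0 := by
        intro m hm
        have h2 : ∃ c : ℝ, p m - p (n - 1) = c * (p j - p i) := by
          rcases hm with hm | hm
          · exact ⟨-s, by rw [hm, hs']; push_cast; ring⟩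
          · exact ⟨1 - s, by rw [hm, hs']; push_cast; ring⟩
        obtain ⟨c, hc⟩ := h2
        have h3 : cr ((ε : ℂ) * d) (p m - p (n - 1)) = 0 := by
          rw [hεd, hc, cr_smul_left, cr_smul_right, cr_self]; ring
        rw [cr_smul_left] at h3
        rcases mul_eq_zero.1 h3 with h4 | h4
        · linarith
        · exact h4
      -- all of `p i`, `p j` are on the other side
      have hneg : ∀ m, (p m = p i ∨ p m = p j) → ∃ c : ℝ, 0 ≤ c ∧ p m = p (n - 1) - c * d := by
        intro m hm
        by_cases hmv : p m = p (n - 1)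
        · exact ⟨0, le_rfl, by rw [hmv]; simp⟩
        · obtain ⟨⟨c, hc, hc'⟩, -⟩ := D.gen m hmv (hpar m hm)
          exact ⟨c, hc.le, hc'⟩
      obtain ⟨a, ha, ha'⟩ := hneg i (Or.inl rfl)
      obtain ⟨b, hb, hb'⟩ := hneg j (Or.inr rfl)
      rw [ha', hb'] at ht
      have h5 : ((ε + (1 - t) * a + t * b : ℝ) : ℂ) * d = 0 := by
        push_cast
        linear_combination ht
      rcases mul_eq_zero.1 h5 with h6 | h6
      · have h7 : ε + (1 - t) * a + t * b = 0 := by exact_mod_cast h6
        have : 0 ≤ (1 - t) * a := mul_nonneg (by linarith) ha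
        have : 0 ≤ t * b := mul_nonneg ht0.le hb
        linarith
      · exact hd h6
    · have h2 : ∀ᶠ z in 𝓝 (p (n - 1)), z ∉ segment ℝ (p i) (p j) :=
        (isClosed_seg _ _).isOpen_compl.mem_nhds hv
      filter_upwards [(tendsto_add_smul (p (n - 1)) d).eventually h2] with ε hε hmem
      exact hε (openSegment_subset_segment ℝ _ _ hmem)
  -- (2) an old vertex between the new one and an old one
  have h2 : ∀ k < n, ∀ j < n, ∀ᶠ ε : ℝ in 𝓝[>] 0,
      p k ∈ openSegment ℝ (p (n - 1) + (ε : ℂ) * d) (p j) →
        p j ≠ p (n - 1) ∧ cr d (p j - p (n - 1)) = 0 := by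
    intro k hk j hj
    by_cases hjv : p j = p (n - 1)
    · -- impossible near `p (n - 1)`
      by_cases hkv : p k = p (n - 1)
      · filter_upwards [self_mem_nhdsWithin] with ε hε hmem
        exfalso
        have hε0 : 0 < ε := hε
        rw [hkv, hjv] at hmem
        have := right_mem_openSegment_iff.1 hmem
        rw [add_eq_left] at this
        · rcases mul_eq_zero.1 this with h6 | h6
          · have : ε = 0 := by exact_mod_cast h6
            linarith
          · exact hd h6
      · have h3 : ∀ᶠ ε : ℝ in 𝓝[>] 0, dist (p (n - 1) + (ε : ℂ) * d) (p (n - 1)) <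
            dist (p k) (p (n - 1)) :=
          ((tendsto_add_smul (p (n - 1)) d).dist tendsto_const_nhds).eventually
            (gt_mem_nhds (by rw [dist_self]; exact dist_pos.2 hkv))
        filter_upwards [h3] with ε hε hmem
        exfalso
        rw [hjv] at hmem
        obtain ⟨t, ht0, ht1, ht⟩ := mem_open_iff.1 hmem
        have : dist (p k) (p (n - 1)) = (1 - t) * dist (p (n - 1) + (ε : ℂ) * d) (p (n - 1)) := by
          rw [dist_eq_norm, dist_eq_norm, ht]
          have : p (n - 1) + (ε : ℂ) * d + t * (p (n - 1) - (p (n - 1) + ε * d)) - p (n - 1) =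
              ((1 - t : ℝ) : ℂ) * (p (n - 1) + ε * d - p (n - 1)) := by push_cast; ring
          rw [this, norm_mul, Complex.norm_real, Real.norm_of_nonneg (by linarith)]
        have h4 : 0 ≤ dist (p (n - 1) + (ε : ℂ) * d) (p (n - 1)) := dist_nonneg
        nlinarith
    · by_cases hkj : p k = p j
      · have h3 : ∀ᶠ ε : ℝ in 𝓝[>] 0, p (n - 1) + (ε : ℂ) * d ≠ p j :=
          (tendsto_add_smul _ d).eventually_ne (fun e => hjv e.symm)
        filter_upwards [h3] with ε hε hmem
        rw [hkj] at hmem
        exact absurd (right_mem_openSegment_iff.1 hmem) hε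
      by_cases hkv : p k = p (n - 1)
      · filter_upwards [self_mem_nhdsWithin] with ε hε hmem
        have hε0 : 0 < ε := hε
        refine ⟨hjv, ?_⟩
        rw [hkv] at hmem
        obtain ⟨t, ht0, ht1, ht⟩ := mem_open_iff.1 hmem
        have h6 : (t : ℂ) * (p j - p (n - 1)) = ((-(ε * (1 - t)) : ℝ) : ℂ) * d := by
          push_cast
          linear_combination -ht
        have h7 : cr d ((t : ℂ) * (p j - p (n - 1))) = 0 := by
          rw [h6, cr_smul_right, cr_self, mul_zero]
        rw [cr_smul_right] at h7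
        rcases mul_eq_zero.1 h7 with h8 | h8
        · linarith
        · exact h8
      by_cases hks : p k ∈ segment ℝ (p (n - 1)) (p j)
      · filter_upwards [self_mem_nhdsWithin] with ε hε hmem
        have hε0 : 0 < ε := hε
        refine ⟨hjv, ?_⟩
        obtain ⟨t, ht0, ht1, ht⟩ := mem_open_iff.1 hmem
        obtain ⟨s, hs0, hs1, hs'⟩ := mem_seg_iff.1 hks
        have h6 : ((s - t : ℝ) : ℂ) * (p j - p (n - 1)) = ((ε * (1 - t) : ℝ) : ℂ) * d := by
          push_cast
          linear_combination ht - hs'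
        have h7 : cr d (((s - t : ℝ) : ℂ) * (p j - p (n - 1))) = 0 := by
          rw [h6, cr_smul_right, cr_self, mul_zero]
        rw [cr_smul_right] at h7
        rcases mul_eq_zero.1 h7 with h8 | h8
        · exfalso
          rw [h8] at h6
          simp only [Complex.ofReal_zero, zero_mul] at h6
          rcases mul_eq_zero.1 h6.symm with h9 | h9
          · have : ε * (1 - t) = 0 := by exact_mod_cast h9
            rcases mul_eq_zero.1 this with h10 | h10
            · linarith
            · linarith
          · exact hd h9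
        · exact h8
      · -- openness
        have h3 : ∀ᶠ b in 𝓝 (p (n - 1)), p k ∉ segment ℝ b (p j) := by
          have hcl : IsClosed {b : ℂ | p k ∈ segment ℝ b (p j)} := by
            have : {b : ℂ | p k ∈ segment ℝ b (p j)} =
                Prod.fst '' {x : ℂ × ℝ | x.2 ∈ Icc (0 : ℝ) 1 ∧
                  x.1 + (x.2 : ℂ) * (p j - x.1) = p k} := by
              ext b
              simp only [mem_ofPred_eq, mem_image, Prod.exists, exists_and_right, exists_eq_right,
                mem_seg_iff, mem_Icc]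
              constructor
              · rintro ⟨t, h0, h1, h2⟩; exact ⟨t, ⟨h0, h1⟩, h2.symm⟩
              · rintro ⟨t, ⟨h0, h1⟩, h2⟩; exact ⟨t, h0, h1, h2.symm⟩
            rw [this]
            have hc : IsClosed {x : ℂ × ℝ | x.1 + (x.2 : ℂ) * (p j - x.1) = p k} :=
              isClosed_eq (by fun_prop) continuous_const
            -- closed map: projection along the compact interval
            have : Prod.fst '' {x : ℂ × ℝ | x.2 ∈ Icc (0 : ℝ) 1 ∧
                x.1 + (x.2 : ℂ) * (p j - x.1) = p k} =
              Prod.fst '' {x : ℂ × Icc (0 : ℝ) 1 | x.1 + ((x.2 : ℝ) : ℂ) * (p j - x.1) = p k} := by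
              ext b
              simp only [mem_image, mem_ofPred_eq, Prod.exists, exists_and_right, exists_eq_right,
                Subtype.exists]
              constructor
              · rintro ⟨t, ht, h2⟩; exact ⟨t, ht, h2⟩
              · rintro ⟨t, ht, h2⟩; exact ⟨t, ht, h2⟩
            rw [this]
            exact isClosedMap_fst_of_compactSpace _ (isClosed_eq (by fun_prop) continuous_const)
          exact hcl.isOpen_compl.mem_nhds hks
        filter_upwards [(tendsto_add_smul (p (n - 1)) d).eventually h3] with ε hε hmem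
        exact absurd (openSegment_subset_segment ℝ _ _ hmem) hε
  have h1' : ∀ᶠ ε : ℝ in 𝓝[>] 0, ∀ i ∈ Finset.range n, ∀ j ∈ Finset.range n,
      p (n - 1) + (ε : ℂ) * d ∉ openSegment ℝ (p i) (p j) := by
    rw [Filter.eventually_all_finset]
    intro i hi
    rw [Filter.eventually_all_finset]
    intro j hj
    exact h1 i (Finset.mem_range.1 hi) j (Finset.mem_range.1 hj)
  have h2' : ∀ᶠ ε : ℝ in 𝓝[>] 0, ∀ k ∈ Finset.range n, ∀ j ∈ Finset.range n,
      p k ∈ openSegment ℝ (p (n - 1) + (ε : ℂ) * d) (p j) →
        p j ≠ p (n - 1) ∧ cr d (p j - p (n - 1)) = 0 := by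
    rw [Filter.eventually_all_finset]
    intro i hi
    rw [Filter.eventually_all_finset]
    intro j hj
    exact h2 i (Finset.mem_range.1 hi) j (Finset.mem_range.1 hj)
  filter_upwards [h1', h2', self_mem_nhdsWithin] with ε hε1 hε2 hε3
  have hε0 : 0 < ε := hε3
  set b := p (n - 1) + (ε : ℂ) * d with hb
  set q := insp n p b with hq
  -- the case that one end is the new vertex
  have key : ∀ j < n, ∀ k < n, p k ∈ openSegment ℝ b (p j) →
      (p (n - 1) ∈ segment ℝ b (p j) ∧ q (j + 1) ∈ segment ℝ b (p j)) := by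
    intro j hj k hk hmem
    obtain ⟨h3, h4⟩ := hε2 k (Finset.mem_range.2 hk) j (Finset.mem_range.2 hj) hmem
    obtain ⟨⟨c, hc, hw⟩, h5⟩ := D.gen j h3 h4
    have hv : p (n - 1) ∈ segment ℝ b (p j) := by
      rw [mem_seg_iff]
      refine ⟨ε / (ε + c), by positivity, by rw [div_le_one (by positivity)]; linarith, ?_⟩
      have h1 : ((ε : ℂ) + c) ≠ 0 := by
        have : (ε + c : ℝ) ≠ 0 := by positivity
        exact_mod_cast this
      rw [hw, hb]
      push_cast
      field_simp
      ring
    refine ⟨hv, ?_⟩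
    have hj1 : j ≠ n - 1 := by
      rintro rfl
      exact h3 rfl
    rw [show q (j + 1) = p (j + 1) from insp_lt (by omega)]
    exact (convex_segment b (p j)).segment_subset (right_mem_segment ℝ _ _) hv h5
  -- reduction to small indices
  have main : ∀ i ≤ n, ∀ j ≤ n, ∀ k ≤ n, q i ≠ q j → q k ∈ openSegment ℝ (q i) (q j) →
      (q (i + 1) ∈ segment ℝ (q i) (q j) ∧ q (j + n) ∈ segment ℝ (q i) (q j)) ∨
      (q (i + n) ∈ segment ℝ (q i) (q j) ∧ q (j + 1) ∈ segment ℝ (q i) (q j)) := by
    intro i hi j hj k hk hij hmem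
    have qn : q n = b := insp_n
    have ql : ∀ m < n, q m = p m := fun m hm => insp_lt hm
    have qnn : q (n + n) = p (n - 1) := by
      rw [show n + n = n - 1 + (n + 1) by omega, hq, insp_per, ← hq, ql _ (by omega)]
    by_cases hi' : i = n
    · have hjn : j < n := by
        rcases hj.lt_or_eq with h5 | h5
        · exact h5
        · exact absurd (by rw [hi', h5]) hij
      have hkn : k < n := by
        rcases hk.lt_or_eq with h5 | h5
        · exact h5
        · rw [h5, ← hi'] at hmem
          exact absurd (left_mem_openSegment_iff.1 hmem) hij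
      rw [hi', qn, ql j hjn, ql k hkn] at hmem
      obtain ⟨h3, h4⟩ := key j hjn k hkn hmem
      right
      rw [hi', qnn, qn, ql j hjn]
      exact ⟨h3, h4⟩
    by_cases hj' : j = n
    · have hkn : k < n := by
        rcases hk.lt_or_eq with h5 | h5
        · exact h5
        · rw [h5, ← hj'] at hmem
          exact absurd (right_mem_openSegment_iff.1 hmem) hij
      rw [hj', qn, ql i (by omega), ql k hkn, openSegment_symm] at hmem
      obtain ⟨h3, h4⟩ := key i (by omega) k hkn hmem
      left
      rw [hj', qnn, qn, ql i (by omega), segment_symm]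
      exact ⟨h4, h3⟩
    have hin : i < n := by omega
    have hjn : j < n := by omega
    have hkn : k < n := by
      rcases hk.lt_or_eq with h5 | h5
      · exact h5
      · rw [h5, qn, ql i hin, ql j hjn] at hmem
        exact absurd hmem (hε1 i (Finset.mem_range.2 hin) j (Finset.mem_range.2 hjn))
    rw [ql i hin, ql j hjn] at hij ⊢
    rw [ql i hin, ql j hjn, ql k hkn] at hmem
    -- `p 0` is not passed from `p (n-1)`, and conversely
    have pass1 : ∀ m < n, p m ≠ p (n - 1) → p 0 ∈ segment ℝ (p (n - 1)) (p m) → p m = p 0 := by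
      intro m hm hne h5
      by_contra h6
      have h7 : p (n - 1 + 1) ∈ openSegment ℝ (p (n - 1)) (p m) := by
        rw [e1]
        exact mem_open_of_mem h5 (hs.inj 0 (n - 1) (by omega) (by omega)) (Ne.symm h6)
      refine not_pass hs g ?_ h7
      rw [show n - 1 + 1 = 0 + n by omega, th_per hs]
      exact D.hy
    have pass2 : ∀ m < n, p m ≠ p 0 → p (n - 1) ∈ segment ℝ (p 0) (p m) → p m = p (n - 1) := by
      intro m hm hne h5
      by_contra h6
      have h7 : p (n - 1) ∈ openSegment ℝ (p (n - 1 + 1)) (p m) := by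
        rw [e1]
        exact mem_open_of_mem h5 (hs.inj 0 (n - 1) (by omega) (by omega)).symm (Ne.symm h6)
      exact not_pass' hs g D.hv h7
    have hedge : ∀ m m', p m = p (n - 1) → p m' = p 0 → ∀ k, p k ∉ openSegment ℝ (p m) (p m') := by
      intro m m' hm hm' k hk'
      rw [hm, hm', ← e1] at hk'
      exact vertex_not_open hs (n - 1) k hk'
    rcases g i j k hij hmem with ⟨h3, h4⟩ | ⟨h3, h4⟩
    · left
      constructor
      · by_cases h5 : i = n - 1
        · exfalso
          rw [h5, e1] at h3
          have h6 := pass1 j hjn (by rw [← h5]; exact hij.symm) h3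
          exact hedge i j (by rw [h5]) h6 k hmem
        · rw [ql (i + 1) (by omega)]; exact h3
      · by_cases h5 : j = 0
        · exfalso
          rw [h5, Nat.zero_add, segment_symm] at h4
          have h6 := pass2 i hin (by rw [← h5]; exact hij) h4
          exact hedge i j h6 (by rw [h5]) k hmem
        · have h6 : q (j + n) = p (j + (n - 1)) := by
            rw [show j + n = j - 1 + (n + 1) by omega, hq, insp_per, ← hq, ql _ (by omega),
              show j + (n - 1) = j - 1 + n by omega, hs.per]
          rw [h6]; exact h4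
    · right
      constructor
      · by_cases h5 : i = 0
        · exfalso
          rw [h5, Nat.zero_add] at h3
          have h6 := pass2 j hjn (by rw [← h5]; exact hij.symm) h3
          rw [openSegment_symm] at hmem
          exact hedge j i h6 (by rw [h5]) k hmem
        · have h6 : q (i + n) = p (i + (n - 1)) := by
            rw [show i + n = i - 1 + (n + 1) by omega, hq, insp_per, ← hq, ql _ (by omega),
              show i + (n - 1) = i - 1 + n by omega, hs.per]
          rw [h6]; exact h3
      · by_cases h5 : j = n - 1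
        · exfalso
          rw [h5, e1, segment_symm] at h4
          have h6 := pass1 i hin (by rw [← h5]; exact hij) h4
          rw [openSegment_symm] at hmem
          exact hedge j i (by rw [h5]) h6 k hmem
        · rw [ql (j + 1) (by omega)]; exact h4
  intro i j k hij hmem
  have r0 : ∀ m, q (m % (n + 1)) = q m := fun m => insp_mod m
  have r1 : ∀ m, q (m % (n + 1) + 1) = q (m + 1) := fun m =>
    per_mod (L := fun k => q (k + 1)) (fun k => by
      rw [show k + (n + 1) + 1 = k + 1 + (n + 1) by ring, hq, insp_per]) m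
  have r2 : ∀ m, q (m % (n + 1) + n) = q (m + n) := fun m =>
    per_mod (L := fun k => q (k + n)) (fun k => by
      rw [show k + (n + 1) + n = k + n + (n + 1) by ring, hq, insp_per]) m
  have := main (i % (n + 1)) (Nat.lt_succ_iff.1 (Nat.mod_lt _ (by omega))) (j % (n + 1))
    (Nat.lt_succ_iff.1 (Nat.mod_lt _ (by omega))) (k % (n + 1))
    (Nat.lt_succ_iff.1 (Nat.mod_lt _ (by omega))) (by rw [r0, r0]; exact hij)
    (by rw [r0, r0, r0]; exact hmem)
  rw [r0, r0, r1, r1, r2, r2] at this
  exact this

end Pool.Agent.SigPoly
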