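import Pool.Agent.SigPoly.Cone
import Pool.Agent.SigPoly.Words

/-!
# Invariance under rotation of the indices and under reflection
-/

namespace Pool.Agent.SigPoly

open Complex Set Filter Topology Pool.Agent.VisGraph

section basics

/-- Periodic functions take the same values at congruent arguments. -/
lemma per_congr {α : Type*} {n : ℕ} {L : ℕ → α} (per : ∀ k, L (k + n) = L k) {a b : ℕ}
    (h : a ≡ b [MOD n]) : L a = L b := by
  have h1 : ∀ k, L (k % n) = L k := by
    intro k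
    have h2 := per_mul L n per (k % n) (k / n)
    rw [Nat.mod_add_div] at h2
    exact h2.symm
  rw [← h1 a, ← h1 b, h]

lemma sp_congr {n : ℕ} {p : ℕ → ℂ} (h : SP n p) {a b : ℕ} (hab : a ≡ b [MOD n]) : p a = p b :=
  per_congr h.per hab

lemma sp_inj_mod {n : ℕ} {p : ℕ → ℂ} (h : SP n p) {a b : ℕ} (hab : p a = p b) :
    a ≡ b [MOD n] := by
  have hn := h.three_le
  by_contra hcon
  have ha := Nat.mod_lt a (show 0 < n by omega)
  have hb := Nat.mod_lt b (show 0 < n by omega)
  have e1 : p (a % n) = p a := sp_congr h (Nat.mod_modEq a n)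
  have e2 : p (b % n) = p b := sp_congr h (Nat.mod_modEq b n)
  rcases Nat.lt_or_gt_of_ne (show a % n ≠ b % n from hcon) with h1 | h1
  · exact h.inj _ _ h1 (by omega) (by rw [e1, e2, hab])
  · exact h.inj _ _ h1 (by omega) (by rw [e1, e2, hab])

lemma diag_of_eq {n : ℕ} {p : ℕ → ℂ} {i i' j j' : ℕ} (e : p i = p i') (e' : p j = p j') :
    Diag n p i j ↔ Diag n p i' j' := by
  unfold Diag; rw [e, e']

end basics

section per

lemma Ins_per {n : ℕ} {p : ℕ → ℂ} (h : SP n p) (i : ℕ) : p (i + n) = p i := h.per i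

lemma Diag.per_left {n : ℕ} {p : ℕ → ℂ} (h : SP n p) (i j : ℕ) :
    Diag n p (i + n) j ↔ Diag n p i j := by
  unfold Diag; rw [h.per]

lemma Diag.per_right {n : ℕ} {p : ℕ → ℂ} (h : SP n p) (i j : ℕ) :
    Diag n p i (j + n) ↔ Diag n p i j := by
  unfold Diag; rw [h.per]

lemma Diag.symm {n : ℕ} {p : ℕ → ℂ} {i j : ℕ} (h : Diag n p i j) : Diag n p j i := by
  unfold Diag at *; rwa [openSegment_symm]

lemma per_shift {n : ℕ} {p : ℕ → ℂ} (h : SP n p) (i m : ℕ) : p (i + n + m) = p (i + m) := by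
  rw [show i + n + m = i + m + n by ring, h.per]

lemma th_per {n : ℕ} {p : ℕ → ℂ} (h : SP n p) (i : ℕ) : th n p (i + n) = th n p i := by
  unfold th
  rw [per_shift h, per_shift h, h.per]

lemma aR_per {n : ℕ} {p : ℕ → ℂ} (h : SP n p) (i : ℕ) : aR n p (i + n) = aR n p i := by
  unfold aR
  simp only [per_shift h, h.per, Diag.per_left h]

lemma aL_per {n : ℕ} {p : ℕ → ℂ} (h : SP n p) (i : ℕ) : aL n p (i + n) = aL n p i := by
  unfold aL
  simp only [per_shift h, h.per, Diag.per_left h]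

end per

section rot

lemma SP.rot {n : ℕ} {p : ℕ → ℂ} (h : SP n p) : SP n (rotp p) where
  three_le := h.three_le
  per k := by
    show p (k + n + 1) = p (k + 1)
    rw [show k + n + 1 = k + 1 + n by ring, h.per]
  inj i j h1 h2 := h.inj (i + 1) (j + 1) (by omega) (by omega)
  consec k := h.consec (k + 1)
  disj i j h1 h2 := h.disj (i + 1) (j + 1) (by omega) (by omega)

lemma chain_rot_eq (p : ℕ → ℂ) (a c : ℕ) : chain (rotp p) a c = chain p (a + 1) (c + 1) := by
  ext z
  constructor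
  · rintro ⟨k, h1, h2, h3⟩
    exact ⟨k + 1, by omega, by omega, h3⟩
  · rintro ⟨k, h1, h2, h3⟩
    obtain ⟨m, rfl⟩ : ∃ m, k = m + 1 := ⟨k - 1, by omega⟩
    exact ⟨m, by omega, by omega, h3⟩

lemma chain_rot {n : ℕ} {p : ℕ → ℂ} (h : SP n p) : chain (rotp p) 0 n = chain p 0 n := by
  rw [chain_rot_eq, show 0 + 1 = 1 by rfl, show n + 1 = 1 + n by ring, h.chain_per]

lemma A_rot {n : ℕ} {p : ℕ → ℂ} (h : SP n p) (z : ℂ) : A (rotp p) 0 n z = A p 0 n z := by
  rw [← h.A_per 1]
  unfold A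
  rw [Finset.sum_Ico_eq_sum_range, Finset.sum_Ico_eq_sum_range]
  rw [show 1 + n - 1 = n by omega, show n - 0 = n by omega]
  refine Finset.sum_congr rfl fun k _ => ?_
  show ang z (p (0 + k + 1)) (p (0 + k + 1 + 1)) = _
  rw [show 0 + k + 1 = 1 + k by ring]

lemma Ins_rot {n : ℕ} {p : ℕ → ℂ} (h : SP n p) : Ins n (rotp p) = Ins n p := by
  unfold Ins
  simp only [chain_rot h, A_rot h]

lemma PP.rot {n : ℕ} {p : ℕ → ℂ} (h : PP n p) : PP n (rotp p) := by
  refine ⟨SP.rot h.sp, ?_⟩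
  obtain ⟨U, J⟩ := h.pos
  refine ⟨U, J.eps, J.isOpen, J.conn, J.unbdd, ?_, ?_, ?_, ?_, J.bdd, ?_⟩
  · rw [chain_rot h.sp]; exact J.sub
  · unfold reg
    rw [chain_rot h.sp]
    exact J.reg_eq
  · intro z hz
    rw [A_rot h.sp]
    exact J.W_out z hz
  · intro z hz hz'
    rw [A_rot h.sp]
    rw [chain_rot h.sp] at hz'
    exact J.W_in z hz hz'
  · rw [chain_rot h.sp]; exact J.clos

lemma Diag_rot {n : ℕ} {p : ℕ → ℂ} (h : SP n p) (i j : ℕ) :
    Diag n (rotp p) i j ↔ Diag n p (i + 1) (j + 1) := by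
  unfold Diag
  rw [Ins_rot h]
  rfl

lemma rotp_apply (p : ℕ → ℂ) (k : ℕ) : rotp p k = p (k + 1) := rfl

lemma th_rot {n : ℕ} {p : ℕ → ℂ} (_h : SP n p) (i : ℕ) : th n (rotp p) i = th n p (i + 1) := by
  unfold th
  simp only [rotp_apply]
  rw [show i + (n - 1) + 1 = i + 1 + (n - 1) by ring]

lemma aR_rot {n : ℕ} {p : ℕ → ℂ} (h : SP n p) (i : ℕ) : aR n (rotp p) i = aR n p (i + 1) := by
  have hn := h.three_le
  unfold aR
  congr 1
  ext x
  constructor
  · rintro ⟨j, h1, h2⟩
    refine ⟨j + 1, ?_, h2⟩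
    rcases h1 with h1 | h1
    · exact Or.inl ((Diag_rot h i j).1 h1)
    · right
      simp only [rotp_apply] at h1
      rw [h1, show i + (n - 1) + 1 = i + 1 + (n - 1) by ring]
  · rintro ⟨j, h1, h2⟩
    have e : p (j + (n - 1) + 1) = p j := by
      rw [show j + (n - 1) + 1 = j + n by omega, h.per]
    refine ⟨j + (n - 1), ?_, ?_⟩
    · rcases h1 with h1 | h1
      · left
        rw [Diag_rot h]
        exact (diag_of_eq rfl e).2 h1
      · right
        simp only [rotp_apply]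
        rw [e, h1, show i + (n - 1) + 1 = i + 1 + (n - 1) by ring]
    · simp only [rotp_apply]
      rw [e, h2]

lemma aL_rot {n : ℕ} {p : ℕ → ℂ} (h : SP n p) (i : ℕ) : aL n (rotp p) i = aL n p (i + 1) := by
  have hn := h.three_le
  unfold aL
  congr 1
  ext x
  constructor
  · rintro ⟨j, h1, h2⟩
    refine ⟨j + 1, ?_, ?_⟩
    · rcases h1 with h1 | h1
      · exact Or.inl ((Diag_rot h i j).1 h1)
      · exact Or.inr h1
    · simp only [rotp_apply] at h2
      rw [h2, show i + (n - 1) + 1 = i + 1 + (n - 1) by ring]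
  · rintro ⟨j, h1, h2⟩
    have e : p (j + (n - 1) + 1) = p j := by
      rw [show j + (n - 1) + 1 = j + n by omega, h.per]
    refine ⟨j + (n - 1), ?_, ?_⟩
    · rcases h1 with h1 | h1
      · left
        rw [Diag_rot h]
        exact (diag_of_eq rfl e).2 h1
      · right
        simp only [rotp_apply]
        rw [e, h1]
    · simp only [rotp_apply]
      rw [e, h2, show i + (n - 1) + 1 = i + 1 + (n - 1) by ring]

/-- The count does not change under a bijection of the indices modulo `n`. -/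
lemma Cnt_bij {n : ℕ} {p q : ℕ → ℂ} (hp : SP n p) (hn : 0 < n) (f g : ℕ → ℕ)
    (hfg : ∀ k, f (g k) ≡ k [MOD n]) (hgf : ∀ k, g (f k) ≡ k [MOD n])
    (hg : ∀ k l, k ≡ l [MOD n] → g k ≡ g l [MOD n])
    (hf : ∀ k l, k ≡ l [MOD n] → f k ≡ f l [MOD n])
    (hd : ∀ i j, Diag n q i j ↔ Diag n p (f i) (f j)) : Cnt n q = Cnt n p := by
  classical
  have hmod : ∀ k, p (k % n) = p k := fun k => sp_congr hp (Nat.mod_modEq k n)
  unfold Cnt
  refine Finset.card_bij' (fun x _ => (f x.1 % n, f x.2 % n)) (fun x _ => (g x.1 % n, g x.2 % n))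
    ?_ ?_ ?_ ?_
  · intro x hx
    rw [Finset.mem_filter, Finset.mem_product, Finset.mem_range, Finset.mem_range] at hx ⊢
    exact ⟨⟨Nat.mod_lt _ hn, Nat.mod_lt _ hn⟩,
      (diag_of_eq (hmod _) (hmod _)).2 ((hd _ _).1 hx.2)⟩
  · intro x hx
    rw [Finset.mem_filter, Finset.mem_product, Finset.mem_range, Finset.mem_range] at hx ⊢
    refine ⟨⟨Nat.mod_lt _ hn, Nat.mod_lt _ hn⟩, ?_⟩
    rw [hd]
    refine (diag_of_eq (sp_congr hp ?_) (sp_congr hp ?_)).2 hx.2
    · exact (hf _ _ (Nat.mod_modEq _ _)).trans (hfg _)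
    · exact (hf _ _ (Nat.mod_modEq _ _)).trans (hfg _)
  · intro x hx
    rw [Finset.mem_filter, Finset.mem_product, Finset.mem_range, Finset.mem_range] at hx
    refine Prod.ext ?_ ?_
    · have : g (f x.1 % n) ≡ x.1 [MOD n] := (hg _ _ (Nat.mod_modEq _ _)).trans (hgf _)
      exact Eq.trans this (Nat.mod_eq_of_lt hx.1.1)
    · have : g (f x.2 % n) ≡ x.2 [MOD n] := (hg _ _ (Nat.mod_modEq _ _)).trans (hgf _)
      exact Eq.trans this (Nat.mod_eq_of_lt hx.1.2)
  · intro x hx
    rw [Finset.mem_filter, Finset.mem_product, Finset.mem_range, Finset.mem_range] at hx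
    refine Prod.ext ?_ ?_
    · have : f (g x.1 % n) ≡ x.1 [MOD n] := (hf _ _ (Nat.mod_modEq _ _)).trans (hfg _)
      exact Eq.trans this (Nat.mod_eq_of_lt hx.1.1)
    · have : f (g x.2 % n) ≡ x.2 [MOD n] := (hf _ _ (Nat.mod_modEq _ _)).trans (hfg _)
      exact Eq.trans this (Nat.mod_eq_of_lt hx.1.2)

lemma Cnt_rot {n : ℕ} {p : ℕ → ℂ} (h : SP n p) : Cnt n (rotp p) = Cnt n p := by
  have hn := h.three_le
  refine Cnt_bij h (by omega) (fun k => k + 1) (fun k => k + (n - 1)) ?_ ?_ ?_ ?_ (Diag_rot h)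
  · intro k
    show k + (n - 1) + 1 ≡ k [MOD n]
    rw [show k + (n - 1) + 1 = k + n by omega]
    exact Nat.add_modEq_right
  · intro k
    show k + 1 + (n - 1) ≡ k [MOD n]
    rw [show k + 1 + (n - 1) = k + n by omega]
    exact Nat.add_modEq_right
  · intro k l hkl
    exact hkl.add_right _
  · intro k l hkl
    exact hkl.add_right _

lemma GP_rot {n : ℕ} {p : ℕ → ℂ} (_h : SP n p) (g : GP n p) : GP n (rotp p) := by
  intro i j k h1 h2
  have h3 := g (i + 1) (j + 1) (k + 1) h1 h2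
  simp only [rotp_apply]
  rw [show i + (n - 1) + 1 = i + 1 + (n - 1) by ring,
    show j + (n - 1) + 1 = j + 1 + (n - 1) by ring]
  exact h3

/-- `n` rotations are the identity. -/
lemma rot_iterate {n : ℕ} {p : ℕ → ℂ} (h : SP n p) : rotp^[n] p = p := by
  have h1 : ∀ m k, (rotp^[m] p) k = p (k + m) := by
    intro m
    induction m with
    | zero => intro k; rfl
    | succ m ih =>
      intro k
      rw [Function.iterate_succ_apply']
      show (rotp^[m] p) (k + 1) = _
      rw [ih, show k + 1 + m = k + (m + 1) by ring]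
  funext k
  rw [h1, h.per]

end rot

section conj

lemma mem_conj_image (S : Set ℂ) (z : ℂ) : z ∈ (starRingEnd ℂ) '' S ↔ (starRingEnd ℂ) z ∈ S := by
  constructor
  · rintro ⟨w, hw, rfl⟩
    rwa [Complex.conj_conj]
  · intro h
    exact ⟨_, h, Complex.conj_conj z⟩

lemma mem_conj_segment (a b z : ℂ) :
    z ∈ segment ℝ ((starRingEnd ℂ) a) ((starRingEnd ℂ) b) ↔ (starRingEnd ℂ) z ∈ segment ℝ a b := by
  constructor
  · rintro ⟨s, t, hs, ht, hst, rfl⟩
    refine ⟨s, t, hs, ht, hst, ?_⟩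
    simp [Complex.real_smul]
  · rintro ⟨s, t, hs, ht, hst, h⟩
    refine ⟨s, t, hs, ht, hst, ?_⟩
    have h2 := congrArg (starRingEnd ℂ) h
    rw [Complex.conj_conj] at h2
    rw [← h2]
    simp [Complex.real_smul]

lemma mem_conj_openSegment (a b z : ℂ) :
    z ∈ openSegment ℝ ((starRingEnd ℂ) a) ((starRingEnd ℂ) b) ↔
      (starRingEnd ℂ) z ∈ openSegment ℝ a b := by
  constructor
  · rintro ⟨s, t, hs, ht, hst, rfl⟩
    refine ⟨s, t, hs, ht, hst, ?_⟩
    simp [Complex.real_smul]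
  · rintro ⟨s, t, hs, ht, hst, h⟩
    refine ⟨s, t, hs, ht, hst, ?_⟩
    have h2 := congrArg (starRingEnd ℂ) h
    rw [Complex.conj_conj] at h2
    rw [← h2]
    simp [Complex.real_smul]

lemma conj_inj {a b : ℂ} : (starRingEnd ℂ) a = (starRingEnd ℂ) b ↔ a = b :=
  (starRingEnd ℂ).injective.eq_iff

/-- Angles change their sign under reflection. -/
lemma ang_conj {z u v : ℂ} (hz : z ∉ segment ℝ u v) :
    ang ((starRingEnd ℂ) z) ((starRingEnd ℂ) u) ((starRingEnd ℂ) v) = - ang z u v := by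
  unfold ang
  have h1 : ((starRingEnd ℂ) v - (starRingEnd ℂ) z) / ((starRingEnd ℂ) u - (starRingEnd ℂ) z) =
      (starRingEnd ℂ) ((v - z) / (u - z)) := by
    simp
  rw [h1, Complex.arg_conj, if_neg]
  have h2 := div_mem_slitPlane hz
  rw [Complex.mem_slitPlane_iff_arg] at h2
  exact h2.1

end conj

section mir

variable {n : ℕ} {p : ℕ → ℂ}

lemma neg_neg_mod (hn : 2 ≤ n) (k : ℕ) : (n - 1) * ((n - 1) * k) ≡ k [MOD n] := by
  obtain ⟨m, rfl⟩ : ∃ m, n = m + 2 := ⟨n - 2, by omega⟩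
  have e : (m + 2 - 1) * ((m + 2 - 1) * k) = k + (m + 2) * (m * k) := by
    rw [show m + 2 - 1 = m + 1 by omega]
    ring
  rw [e]
  simp

lemma neg_succ_mod (hn : 2 ≤ n) (k : ℕ) : (n - 1) * (k + 1) + 1 ≡ (n - 1) * k [MOD n] := by
  obtain ⟨m, rfl⟩ : ∃ m, n = m + 2 := ⟨n - 2, by omega⟩
  have e : (m + 2 - 1) * (k + 1) + 1 = (m + 2 - 1) * k + (m + 2) := by
    rw [show m + 2 - 1 = m + 1 by omega]
    ring
  rw [e]
  simp

lemma neg_prev_mod (hn : 2 ≤ n) (k : ℕ) :
    (n - 1) * (k + (n - 1)) ≡ (n - 1) * k + 1 [MOD n] := by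
  obtain ⟨m, rfl⟩ : ∃ m, n = m + 2 := ⟨n - 2, by omega⟩
  have e : (m + 2 - 1) * (k + (m + 2 - 1)) = (m + 2 - 1) * k + 1 + (m + 2) * m := by
    rw [show m + 2 - 1 = m + 1 by omega]
    ring
  rw [e]
  simp

/-- The index `(n - 1) * k` is `- k` modulo `n`; twice this is the identity. -/
lemma per_neg_neg {α : Type*} {n : ℕ} (hn : 2 ≤ n) {L : ℕ → α} (per : ∀ k, L (k + n) = L k)
    (k : ℕ) : L ((n - 1) * ((n - 1) * k)) = L k :=
  per_congr per (neg_neg_mod hn k)

/-- Vertices of the mirror image. -/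
lemma mirp_apply (n : ℕ) (p : ℕ → ℂ) (k : ℕ) :
    mirp n p k = (starRingEnd ℂ) (p ((n - 1) * k)) := rfl

lemma mir_inj (hn : 2 ≤ n) {a b : ℕ} (h : (n - 1) * a ≡ (n - 1) * b [MOD n]) : a ≡ b [MOD n] := by
  have h1 := h.mul_left (n - 1)
  exact ((neg_neg_mod hn a).symm.trans h1).trans (neg_neg_mod hn b)

lemma mir_edge (h : SP n p) (k : ℕ) : p ((n - 1) * k) = p ((n - 1) * (k + 1) + 1) :=
  (sp_congr h (neg_succ_mod (by have := h.three_le; omega) k)).symm

lemma SP.mir (h : SP n p) : SP n (mirp n p) := by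
  have hn := h.three_le
  refine ⟨hn, ?_, ?_, ?_, ?_⟩
  · intro k
    rw [mirp_apply, mirp_apply]
    congr 1
    rw [show (n - 1) * (k + n) = (n - 1) * k + n * (n - 1) by ring, per_mul p n h.per]
  · intro i j h1 h2 h3
    rw [mirp_apply, mirp_apply, conj_inj] at h3
    have h4 := mir_inj (by omega) (sp_inj_mod h h3)
    have h5 : i % n = j % n := h4
    have h6 : (j - i) % n = 0 := by
      have h7 := (Nat.modEq_iff_dvd' h1.le).1 h4
      exact Nat.mod_eq_zero_of_dvd h7
    rw [Nat.mod_eq_of_lt (by omega)] at h6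
    omega
  · intro k
    have e1 := mir_edge h (k + 1)
    have e0 : p ((n - 1) * k) = p ((n - 1) * (k + 2) + 2) := by
      refine sp_congr h ?_
      exact ((neg_succ_mod (by omega) (k + 1)).add_right 1 |>.trans
        (neg_succ_mod (by omega) k)).symm
    rw [mirp_apply, mirp_apply, mirp_apply, e0, e1]
    rw [show k + 1 + 1 = k + 2 by ring]
    have h1 := h.consec ((n - 1) * (k + 2))
    ext z
    rw [mem_inter_iff, mem_conj_segment, mem_conj_segment, mem_singleton_iff, segment_symm ℝ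
      (p ((n - 1) * (k + 2) + 2)), segment_symm ℝ (p ((n - 1) * (k + 2) + 1))
      (p ((n - 1) * (k + 2))), and_comm, ← mem_inter_iff, h1, mem_singleton_iff]
    constructor
    · intro h2
      rw [← h2, Complex.conj_conj]
    · rintro rfl
      rw [Complex.conj_conj]
  · intro i j h1 h2
    obtain ⟨d, rfl⟩ : ∃ d, j = i + d := ⟨j - i, by omega⟩
    have e1 := mir_edge h i
    have e2 := mir_edge h (i + d)
    have e3 : (n - 1) * (i + d + 1) = (n - 1) * (i + 1) + (n - d) + n * (d - 1) := by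
      obtain ⟨m, rfl⟩ : ∃ m, n = d + m := ⟨n - d, by omega⟩
      obtain ⟨c, rfl⟩ : ∃ c, d = c + 1 := ⟨d - 1, by omega⟩
      rw [show c + 1 + m - 1 = c + m by omega, show c + 1 + m - (c + 1) = m by omega,
        show c + 1 - 1 = c by omega]
      ring
    have e4 : p ((n - 1) * (i + d + 1)) = p ((n - 1) * (i + 1) + (n - d)) := by
      rw [e3, per_mul p n h.per]
    have e5 : p ((n - 1) * (i + d + 1) + 1) = p ((n - 1) * (i + 1) + (n - d) + 1) := by
      rw [e3, show (n - 1) * (i + 1) + (n - d) + n * (d - 1) + 1 =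
        (n - 1) * (i + 1) + (n - d) + 1 + n * (d - 1) by ring, per_mul p n h.per]
    rw [mirp_apply, mirp_apply, mirp_apply, mirp_apply, e1, e2, e4, e5]
    have h3 := h.disj ((n - 1) * (i + 1)) ((n - 1) * (i + 1) + (n - d)) (by omega) (by omega)
    ext z
    rw [mem_inter_iff, mem_conj_segment, mem_conj_segment, segment_symm ℝ
      (p ((n - 1) * (i + 1) + 1)), segment_symm ℝ (p ((n - 1) * (i + 1) + (n - d) + 1)),
      ← mem_inter_iff, h3]
    simp

lemma chain_mir (h : SP n p) : chain (mirp n p) 0 n = (starRingEnd ℂ) '' chain p 0 n := by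
  have hn := h.three_le
  have hm := SP.mir h
  ext z
  rw [mem_conj_image]
  constructor
  · rintro ⟨k, -, -, hz⟩
    rw [mirp_apply, mirp_apply, mir_edge h k, mem_conj_segment, segment_symm] at hz
    rw [← h.chain_per ((n - 1) * (k + 1))]
    exact ⟨_, le_rfl, by omega, hz⟩
  · rintro ⟨k, -, -, hz⟩
    set k' := (n - 1) * k + (n - 1) with hk'
    have e1 : p ((n - 1) * (k' + 1)) = p k := by
      refine sp_congr h ?_
      have h1 : (n - 1) * (k' + 1) ≡ (n - 1) * ((n - 1) * k) [MOD n] := by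
        refine Nat.ModEq.mul_left _ ?_
        rw [hk', show (n - 1) * k + (n - 1) + 1 = (n - 1) * k + n by omega]
        simp
      exact h1.trans (neg_neg_mod (by omega) k)
    have e2 : p ((n - 1) * k') = p (k + 1) := by
      rw [mir_edge h k']
      refine sp_congr h ?_
      exact (sp_inj_mod h e1).add_right 1
    rw [← hm.chain_per k']
    refine ⟨k', le_rfl, by omega, ?_⟩
    rw [mirp_apply, mirp_apply, e1, e2, mem_conj_segment, segment_symm]
    exact hz

lemma A_mir (h : SP n p) {z : ℂ} (hz : z ∉ chain p 0 n) :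
    A (mirp n p) 0 n ((starRingEnd ℂ) z) = A p 0 n z := by
  have hn := h.three_le
  have hoff : ∀ k, z ∉ segment ℝ (p k) (p (k + 1)) := by
    intro k hk
    apply hz
    rw [← h.chain_per k]
    exact ⟨k, le_rfl, by omega, hk⟩
  let f : ℕ → ℝ := fun a => ang z (p a) (p (a + 1))
  have hf : ∀ a, f (a + n) = f a := by
    intro a
    show ang z (p (a + n)) (p (a + n + 1)) = ang z (p a) (p (a + 1))
    rw [per_shift h, h.per]
  have h1 : ∀ k, ang ((starRingEnd ℂ) z) (mirp n p k) (mirp n p (k + 1)) =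
      f ((n - 1) * (k + 1)) := by
    intro k
    rw [mirp_apply, mirp_apply, mir_edge h k, ang_conj, ang_swap (hoff _), neg_neg]
    rw [segment_symm]
    exact hoff _
  unfold A
  rw [Finset.sum_congr rfl fun k _ => h1 k, Nat.Ico_zero_eq_range]
  obtain ⟨m, rfl⟩ : ∃ m, n = m + 1 := ⟨n - 1, by omega⟩
  have h2 := sum_mir f m hf
  have h3 := sum_rot1 (fun k => f (m * k)) (m + 1) (by
    intro k
    show f (m * (k + (m + 1))) = f (m * k)
    rw [mul_add, mul_comm m (m + 1), per_mul f (m + 1) hf])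
  rw [show m + 1 - 1 = m by omega]
  rw [h3, h2]

lemma Ins_mir (h : SP n p) : Ins n (mirp n p) = (starRingEnd ℂ) '' Ins n p := by
  ext z
  rw [mem_conj_image]
  unfold Ins
  rw [mem_ofPred_eq, mem_ofPred_eq, chain_mir h, mem_conj_image]
  constructor
  · rintro ⟨h1, h2⟩
    refine ⟨h1, ?_⟩
    have h3 := A_mir h h1
    rw [Complex.conj_conj] at h3
    rwa [← h3]
  · rintro ⟨h1, h2⟩
    refine ⟨h1, ?_⟩
    have h3 := A_mir h h1
    rw [Complex.conj_conj] at h3
    rwa [h3]

/-- A counterclockwise polygon has points inside. -/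
lemma PP.exists_ins (h : PP n p) : ∃ z, z ∈ Ins n p := by
  have h1 : (1 / 2 : ℝ) • p 0 + (1 / 2 : ℝ) • p (0 + 1) ∈ openSegment ℝ (p 0) (p (0 + 1)) :=
    ⟨1 / 2, 1 / 2, by norm_num, by norm_num, by norm_num, rfl⟩
  have h2 := h.left_ins 0 h1
  obtain ⟨ε, hε, h3⟩ := Metric.eventually_nhds_iff.1 h2
  have hq0 := orient_eq_zero_of_mem (openSegment_subset_segment ℝ _ _ h1)
  obtain ⟨y, hy, ho⟩ := exists_pos (h.sp.ne_succ 0) Metric.isOpen_ball
    (Metric.mem_ball_self hε) hq0.ge
  exact ⟨y, (h3 hy).1 ho⟩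

/-- The sign is determined by the angle of one point. -/
lemma PP_of_A {q : ℕ → ℂ} (h : SP n q) {z : ℂ} (hz : z ∉ chain q 0 n)
    (hA : A q 0 n z = 2 * Real.pi) : PP n q := by
  obtain ⟨ε, U, J⟩ := jordan h
  refine ⟨h, U, ?_⟩
  have hpi := Real.pi_pos
  have h1 : z ∉ U := by
    intro hU
    have := J.W_out z hU
    linarith
  have h2 := J.W_in z h1 hz
  have h3 : ε = 1 := by
    rcases J.eps with h4 | h4
    · exact h4
    · rw [h4, hA] at h2
      linarith
  rwa [h3] at J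

lemma PP.mir (h : PP n p) : PP n (mirp n p) := by
  obtain ⟨z, hz⟩ := h.exists_ins
  refine PP_of_A (SP.mir h.sp) (z := (starRingEnd ℂ) z) ?_ ?_
  · rw [chain_mir h.sp, mem_conj_image, Complex.conj_conj]
    exact hz.1
  · rw [A_mir h.sp hz.1]
    exact h.A_eq hz

lemma mirp_mirp (h : SP n p) : mirp n (mirp n p) = p := by
  funext k
  rw [mirp_apply, mirp_apply, Complex.conj_conj]
  exact per_neg_neg (by have := h.three_le; omega) h.per k

lemma Diag_mir (h : SP n p) (i j : ℕ) :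
    Diag n (mirp n p) i j ↔ Diag n p ((n - 1) * i) ((n - 1) * j) := by
  unfold Diag
  rw [Ins_mir h, mirp_apply, mirp_apply]
  constructor
  · intro h1 z hz
    have h2 := h1 ((mem_conj_openSegment _ _ _).2 (by rwa [Complex.conj_conj] :
      (starRingEnd ℂ) ((starRingEnd ℂ) z) ∈ openSegment ℝ _ _))
    rwa [mem_conj_image, Complex.conj_conj] at h2
  · intro h1 z hz
    rw [mem_conj_image]
    exact h1 ((mem_conj_openSegment _ _ _).1 hz)

lemma mir_next (h : SP n p) (i : ℕ) :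
    mirp n p (i + 1) = (starRingEnd ℂ) (p ((n - 1) * i + (n - 1))) := by
  rw [mirp_apply, mul_add, mul_one]

lemma mir_prev (h : SP n p) (i : ℕ) :
    mirp n p (i + (n - 1)) = (starRingEnd ℂ) (p ((n - 1) * i + 1)) := by
  rw [mirp_apply]
  congr 1
  exact sp_congr h (neg_prev_mod (by have := h.three_le; omega) i)

lemma turn_conj' {a b c : ℂ} (h1 : a ≠ c) (h2 : b ≠ c) :
    turn ((starRingEnd ℂ) a - (starRingEnd ℂ) c) ((starRingEnd ℂ) b - (starRingEnd ℂ) c) =
      turn (b - c) (a - c) := by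
  rw [← map_sub, ← map_sub]
  exact turn_conj (sub_ne_zero.2 h2) (sub_ne_zero.2 h1)

lemma th_mir (h : SP n p) (i : ℕ) : th n (mirp n p) i = th n p ((n - 1) * i) := by
  unfold th
  rw [mir_next h, mir_prev h, mirp_apply]
  exact turn_conj' (PP.prev_ne h _) (h.ne_succ _).symm

lemma Diag.ne_of (h : SP n p) {i j : ℕ} (hd : Diag n p i j) : p j ≠ p i := by
  intro e
  unfold Diag at hd
  rw [e, openSegment_same, singleton_subset_iff] at hd
  apply hd.1
  rw [← h.chain_per i]
  exact ⟨i, le_rfl, by have := h.three_le; omega, left_mem_segment ℝ _ _⟩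

lemma aR_mir (h : SP n p) (i : ℕ) : aR n (mirp n p) i = aL n p ((n - 1) * i) := by
  have hn := h.three_le
  unfold aR aL
  congr 1
  ext x
  constructor
  · rintro ⟨j, h1, h2⟩
    have h3 : Diag n p ((n - 1) * i) ((n - 1) * j) ∨
        p ((n - 1) * j) = p ((n - 1) * i + 1) := by
      rcases h1 with h1 | h1
      · exact Or.inl ((Diag_mir h i j).1 h1)
      · right
        rw [mir_prev h, mirp_apply, conj_inj] at h1
        exact h1
    refine ⟨(n - 1) * j, h3, ?_⟩
    rw [h2, mir_next h, mirp_apply, mirp_apply]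
    refine turn_conj' (PP.prev_ne h _) ?_
    rcases h3 with h3 | h3
    · exact Diag.ne_of h h3
    · rw [h3]
      exact (h.ne_succ _).symm
  · rintro ⟨j, h1, h2⟩
    have e : p ((n - 1) * ((n - 1) * j)) = p j := per_neg_neg (by omega) h.per j
    refine ⟨(n - 1) * j, ?_, ?_⟩
    · rcases h1 with h1 | h1
      · left
        rw [Diag_mir h]
        exact (diag_of_eq rfl e).2 h1
      · right
        rw [mir_prev h, mirp_apply, conj_inj, e]
        exact h1
    · rw [mir_next h, mirp_apply, mirp_apply, e, h2]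
      refine (turn_conj' (PP.prev_ne h _) ?_).symm
      rcases h1 with h1 | h1
      · exact Diag.ne_of h h1
      · rw [h1]
        exact (h.ne_succ _).symm

lemma aL_mir (h : SP n p) (i : ℕ) : aL n (mirp n p) i = aR n p ((n - 1) * i) := by
  have hn := h.three_le
  have h1 := aR_mir (SP.mir h) ((n - 1) * i)
  rw [mirp_mirp h] at h1
  rw [h1]
  exact (per_neg_neg (by omega) (aL_per (SP.mir h)) i).symm

lemma Cnt_mir (h : SP n p) : Cnt n (mirp n p) = Cnt n p := by
  have hn := h.three_le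
  refine Cnt_bij h (by omega) (fun k => (n - 1) * k) (fun k => (n - 1) * k) ?_ ?_ ?_ ?_
    (Diag_mir h)
  · exact fun k => neg_neg_mod (by omega) k
  · exact fun k => neg_neg_mod (by omega) k
  · exact fun k l hkl => hkl.mul_left _
  · exact fun k l hkl => hkl.mul_left _

lemma GP_mir (h : SP n p) (g : GP n p) : GP n (mirp n p) := by
  intro i j k h1 h2
  rw [mirp_apply, mirp_apply, mirp_apply, mem_conj_openSegment, Complex.conj_conj] at h2
  rw [mirp_apply, mirp_apply, Ne, conj_inj] at h1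
  have h3 := g _ _ _ h1 h2
  rw [mir_next h, mir_next h, mir_prev h, mir_prev h, mirp_apply, mirp_apply,
    mem_conj_segment, mem_conj_segment, mem_conj_segment, mem_conj_segment,
    Complex.conj_conj, Complex.conj_conj, Complex.conj_conj, Complex.conj_conj]
  rcases h3 with ⟨h4, h5⟩ | ⟨h4, h5⟩
  · exact Or.inr ⟨h4, h5⟩
  · exact Or.inl ⟨h4, h5⟩

lemma SP_conj (h : SP n p) : SP n (fun k => (starRingEnd ℂ) (p k)) := by
  refine ⟨h.three_le, fun k => by rw [h.per], ?_, ?_, ?_⟩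
  · intro i j h1 h2 h3
    exact h.inj i j h1 h2 (conj_inj.1 h3)
  · intro k
    ext z
    rw [mem_inter_iff, mem_conj_segment, mem_conj_segment, ← mem_inter_iff, h.consec,
      mem_singleton_iff, mem_singleton_iff]
    constructor
    · intro h2
      rw [← h2, Complex.conj_conj]
    · rintro rfl
      rw [Complex.conj_conj]
  · intro i j h1 h2
    ext z
    rw [mem_inter_iff, mem_conj_segment, mem_conj_segment, ← mem_inter_iff, h.disj i j h1 h2]
    simp

/-- Reflection without change of the order changes the orientation. -/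
lemma PP_or_conj (h : SP n p) : PP n p ∨ PP n (fun k => (starRingEnd ℂ) (p k)) := by
  have hpi := Real.pi_pos
  -- a point with non-zero angle
  have h1 : (1 / 2 : ℝ) • p 0 + (1 / 2 : ℝ) • p (0 + 1) ∈ openSegment ℝ (p 0) (p (0 + 1)) :=
    ⟨1 / 2, 1 / 2, by norm_num, by norm_num, by norm_num, rfl⟩
  obtain ⟨r, hr, hoff, hjump⟩ := h.edge_jump 0 h1
  have hq0 := orient_eq_zero_of_mem (openSegment_subset_segment ℝ _ _ h1)
  obtain ⟨y1, hy1, ho1⟩ := VisGraph.exists_neg (h.ne_succ 0) Metric.isOpen_ball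
    (Metric.mem_ball_self hr) hq0.le
  obtain ⟨y2, hy2, ho2⟩ := exists_pos (h.ne_succ 0) Metric.isOpen_ball
    (Metric.mem_ball_self hr) hq0.ge
  rw [Metric.mem_ball] at hy1 hy2
  have e1 := hjump y1 y2 hy1 hy2 ho1 ho2
  have hy1B := hoff y1 hy1 ho1.ne
  have hy2B := hoff y2 hy2 ho2.ne'
  obtain ⟨ε, U, J⟩ := jordan h
  rcases J.eps with he | he
  · left
    rw [he] at J
    exact ⟨h, U, J⟩
  · right
    have hex : ∃ z, z ∉ chain p 0 n ∧ A p 0 n z = -(2 * Real.pi) := by
      rw [he] at J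
      by_cases hU1 : y1 ∈ U
      · by_cases hU2 : y2 ∈ U
        · have h2 := J.W_out y1 hU1
          have h3 := J.W_out y2 hU2
          exfalso
          linarith
        · exact ⟨y2, hy2B, by rw [J.W_in y2 hU2 hy2B]; ring⟩
      · exact ⟨y1, hy1B, by rw [J.W_in y1 hU1 hy1B]; ring⟩
    obtain ⟨z, hz, hA⟩ := hex
    have hoff' : ∀ k, z ∉ segment ℝ (p k) (p (k + 1)) := by
      intro k hk
      apply hz
      rw [← h.chain_per k]
      exact ⟨k, le_rfl, by have := h.three_le; omega, hk⟩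
    refine PP_of_A (SP_conj h) (z := (starRingEnd ℂ) z) ?_ ?_
    · rintro ⟨k, -, -, hk⟩
      rw [mem_conj_segment, Complex.conj_conj] at hk
      exact hoff' k hk
    · unfold A at hA ⊢
      rw [Finset.sum_congr rfl fun k _ => ang_conj (hoff' k), Finset.sum_neg_distrib, hA, neg_neg]

end mir

end Pool.Agent.SigPoly
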