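import Pool.Agent.SigPoly.Tri
import Pool.Agent.SigPoly.Sym

/-!
# Small facts, and triangles as polygons
-/

namespace Pool.Agent.SigPoly

open Complex Set Filter Topology Pool.Agent.VisGraph

lemma per_add_mul {α : Type*} {n : ℕ} {L : ℕ → α} (per : ∀ k, L (k + n) = L k) (k m : ℕ) :
    L (k + n * m) = L k := by
  induction m with
  | zero => simp
  | succ m ih => rw [Nat.mul_succ, ← Nat.add_assoc, per, ih]

lemma per_mod {α : Type*} {n : ℕ} {L : ℕ → α} (per : ∀ k, L (k + n) = L k) (k : ℕ) :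
    L (k % n) = L k := by
  conv_rhs => rw [← Nat.mod_add_div k n]
  rw [per_add_mul per]

lemma openSegment_sub_chain {n : ℕ} {p : ℕ → ℂ} (h : SP n p) (i : ℕ) :
    segment ℝ (p i) (p (i + 1)) ⊆ chain p 0 n := by
  rw [← h.chain_per i]
  intro z hz
  exact ⟨i, le_rfl, by have := h.three_le; omega, hz⟩

lemma not_diag_succ {n : ℕ} {p : ℕ → ℂ} (h : SP n p) (i : ℕ) : ¬ Diag n p i (i + 1) := by
  intro hd
  have hm : (1 / 2 : ℝ) • p i + (1 / 2 : ℝ) • p (i + 1) ∈ openSegment ℝ (p i) (p (i + 1)) :=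
    ⟨1 / 2, 1 / 2, by norm_num, by norm_num, by norm_num, rfl⟩
  exact (hd hm).1 (openSegment_sub_chain h i (openSegment_subset_segment ℝ _ _ hm))

lemma not_diag_self {n : ℕ} {p : ℕ → ℂ} (h : SP n p) (i : ℕ) : ¬ Diag n p i i := by
  intro hd
  have hm : p i ∈ openSegment ℝ (p i) (p i) := by rw [openSegment_same]; rfl
  exact (hd hm).1 (openSegment_sub_chain h i (left_mem_segment ℝ _ _))

lemma diag_congr_right {n : ℕ} {p : ℕ → ℂ} {i j j' : ℕ} (e : p j = p j') :
    Diag n p i j ↔ Diag n p i j' := by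
  unfold Diag; rw [e]

lemma noDiag_three {p : ℕ → ℂ} (h : SP 3 p) (i : ℕ) : NoDiag 3 p i := by
  intro j hd
  obtain ⟨m, hm, hm'⟩ : ∃ m, m < 3 ∧ p j = p (i + m) := by
    refine ⟨(j + 2 * i) % 3, Nat.mod_lt _ (by norm_num), ?_⟩
    rw [← per_mod h.per j, ← per_mod h.per (i + _)]
    congr 1
    omega
  rw [diag_congr_right hm'] at hd
  interval_cases m
  · exact not_diag_self h i hd
  · exact not_diag_succ h i hd
  · apply not_diag_succ h (i + 2)
    rw [show i + 2 + 1 = i + 3 by ring, Diag.per_right h]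
    exact hd.symm

lemma cnt_three {p : ℕ → ℂ} (h : SP 3 p) : Cnt 3 p = 0 := by
  classical
  unfold Cnt
  rw [Finset.card_eq_zero, Finset.filter_eq_empty_iff]
  intro x _ hx
  exact noDiag_three h _ _ hx

lemma th_three {p : ℕ → ℂ} (h : PP 3 p) (i : ℕ) : th 3 p i < Real.pi := by
  have ho := PP3_orient h
  rw [← orient3 h.sp.per i] at ho
  have hne := ne_of_orient ho.ne'
  unfold th
  rw [turn_lt_pi (sub_ne_zero.2 hne.1.symm) (sub_ne_zero.2 hne.2.2.symm)]
  exact ho

lemma gp_three {p : ℕ → ℂ} (h : PP 3 p) : GP 3 p := by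
  intro i j k hij hk
  exfalso
  have hlt : ∀ a b c : ℕ, a < b → b < a + 3 → c % 3 ≠ a % 3 → c % 3 ≠ b % 3 →
      orient (p a) (p b) (p c) ≠ 0 := by
    intro a b c hab hb hc1 hc2
    have ho := (PP3_orient h).ne'
    have hb' : b = a + 1 ∨ b = a + 2 := by omega
    rcases hb' with rfl | rfl
    · rw [← orient3 h.sp.per a] at ho
      have : p c = p (a + 2) := by
        rw [← per_mod h.sp.per c, ← per_mod h.sp.per (a + 2)]
        congr 1
        omega
      rw [this]; exact ho
    · rw [← orient3 h.sp.per a] at ho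
      have : p c = p (a + 1) := by
        rw [← per_mod h.sp.per c, ← per_mod h.sp.per (a + 1)]
        congr 1
        omega
      rw [this, ← orient_cyc, orient_swap]
      exact neg_ne_zero.2 (by rw [orient_cyc]; exact ho)
  have hmod : i % 3 ≠ j % 3 := by
    intro e
    apply hij
    rw [← per_mod h.sp.per i, ← per_mod h.sp.per j, e]
  have hki : k % 3 ≠ i % 3 := by
    intro e
    have : p k = p i := by rw [← per_mod h.sp.per i, ← per_mod h.sp.per k, e]
    rw [this] at hk
    exact hij (left_mem_openSegment_iff.1 hk)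
  have hkj : k % 3 ≠ j % 3 := by
    intro e
    have : p k = p j := by rw [← per_mod h.sp.per j, ← per_mod h.sp.per k, e]
    rw [this] at hk
    exact hij (right_mem_openSegment_iff.1 hk)
  have h0 := orient_eq_zero_of_mem (openSegment_subset_segment ℝ _ _ hk)
  have hjj : p j = p (i + (j + 2 * i) % 3) := by
    rw [← per_mod h.sp.per j, ← per_mod h.sp.per (i + _)]
    congr 1
    omega
  rw [hjj] at h0
  exact hlt i (i + (j + 2 * i) % 3) k (by omega) (by omega) hki (by omega) h0

lemma exists_triangle : ∃ p : ℕ → ℂ, PP 3 p := by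
  refine ⟨fun k => if k % 3 = 0 then 0 else if k % 3 = 1 then 1 else I, PP3_of_orient ?_ ?_⟩
  · intro k
    simp only [Nat.add_mod_right]
  · simp [orient, cr]

end Pool.Agent.SigPoly
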