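import Pool.Agent.SigPoly.Cone
import Pool.Agent.VisGraph.Defs

/-!
# Signatures of simple polygons: directions at a vertex
-/

namespace Pool.Agent.SigPoly

open Complex Set Filter Topology Pool.Agent.VisGraph

lemma cr_lin (u w : ℂ) (α β : ℝ) :
    cr u ((α : ℂ) * w + (β : ℂ) * u) = α * cr u w := by
  simp only [cr, Complex.add_re, Complex.add_im, Complex.mul_re, Complex.mul_im,
    Complex.ofReal_re, Complex.ofReal_im]
  ring

lemma cr_lin' (u w : ℂ) (α β : ℝ) :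
    cr ((α : ℂ) * w + (β : ℂ) * u) w = β * cr u w := by
  simp only [cr, Complex.add_re, Complex.add_im, Complex.mul_re, Complex.mul_im,
    Complex.ofReal_re, Complex.ofReal_im]
  ring

lemma cr_swap (u w : ℂ) : cr w u = - cr u w := by
  simp only [cr]; ring

lemma ne_zero_of_cr {u v : ℂ} (h : cr u v ≠ 0) : v ≠ 0 := by
  rintro rfl
  simp [cr] at h

/-- A direction between the two edges of a convex vertex. -/
lemma turn_mid_lt {u w : ℂ} (hu : u ≠ 0) (hw : w ≠ 0) (h : turn u w < Real.pi) {α β : ℝ}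
    (hα : 0 < α) (hβ : 0 < β) :
    (α : ℂ) * w + (β : ℂ) * u ≠ 0 ∧ turn u ((α : ℂ) * w + (β : ℂ) * u) < turn u w := by
  have hcr := (turn_lt_pi hu hw).1 h
  have h1 : 0 < cr u ((α : ℂ) * w + (β : ℂ) * u) := by rw [cr_lin]; positivity
  have h2 : 0 < cr ((α : ℂ) * w + (β : ℂ) * u) w := by rw [cr_lin']; positivity
  have hv := ne_zero_of_cr h1.ne'
  refine ⟨hv, ?_⟩
  have h3 := (turn_lt_pi hu hv).2 h1
  have h4 := (turn_lt_pi hv hw).2 h2
  rw [turn_add hu hv hw (by linarith)]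
  have := turn_pos ((α : ℂ) * w + (β : ℂ) * u) w
  linarith

/-- A direction between the two edges of a concave vertex, on the outer side. -/
lemma turn_mid_gt {u w : ℂ} (hu : u ≠ 0) (hw : w ≠ 0) (h : Real.pi < turn u w)
    (h' : turn u w < 2 * Real.pi) {α β : ℝ} (hα : 0 < α) (hβ : 0 < β) :
    (α : ℂ) * w + (β : ℂ) * u ≠ 0 ∧ turn u w < turn u ((α : ℂ) * w + (β : ℂ) * u) ∧
      turn u ((α : ℂ) * w + (β : ℂ) * u) < 2 * Real.pi := by
  have hcr := (turn_gt_pi hu hw).1 ⟨h, h'⟩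
  have h1 : cr u ((α : ℂ) * w + (β : ℂ) * u) < 0 := by rw [cr_lin]; nlinarith
  have h2 : 0 < cr w ((α : ℂ) * w + (β : ℂ) * u) := by
    rw [cr_swap, cr_lin']; nlinarith
  have hv := ne_zero_of_cr h1.ne
  obtain ⟨h3, h4⟩ := (turn_gt_pi hu hv).2 h1
  have h5 := (turn_lt_pi hw hv).2 h2
  refine ⟨hv, ?_, h4⟩
  have h6 := turn_pos w ((α : ℂ) * w + (β : ℂ) * u)
  rcases le_or_gt (turn u w + turn w ((α : ℂ) * w + (β : ℂ) * u)) (2 * Real.pi) with h7 | h7
  · rw [turn_add hu hw hv h7]; linarith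
  · have := turn_add' hu hw hv h7
    linarith

/-- The points of a short segment between the two edges at a vertex. -/
lemma mem_small {a u w : ℂ} {r : ℝ} (hr : 0 < r) (hu : u ≠ 0) :
    ∃ δ > 0, ∀ s t : ℝ, 0 < s → s < δ → 0 < t → t < δ →
      ∀ z ∈ openSegment ℝ ((s : ℂ) * (a + w) + (1 - s) * a) ((t : ℂ) * (a + u) + (1 - t) * a),
        ∃ α β : ℝ, 0 < α ∧ 0 < β ∧ z = a + ((α : ℂ) * w + (β : ℂ) * u) ∧ dist z a < r := by
  have hup := norm_pos_iff.2 hu
  have hden : 0 < ‖u‖ + ‖w‖ := by positivity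
  refine ⟨r / (‖u‖ + ‖w‖), by positivity, ?_⟩
  rintro s t hs hs' ht ht' z ⟨x, y, hx, hy, hxy, rfl⟩
  refine ⟨x * s, y * t, by positivity, by positivity, ?_, ?_⟩
  · have : x = 1 - y := by linarith
    subst this
    simp only [Complex.real_smul]
    push_cast
    ring
  · have e : x • ((s : ℂ) * (a + w) + (1 - s) * a) + y • ((t : ℂ) * (a + u) + (1 - t) * a) - a =
        ((x * s : ℝ) : ℂ) * w + ((y * t : ℝ) : ℂ) * u := by
      have : x = 1 - y := by linarith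
      subst this
      simp only [Complex.real_smul]
      push_cast
      ring
    rw [dist_eq_norm, e]
    have h1 : ‖((x * s : ℝ) : ℂ) * w + ((y * t : ℝ) : ℂ) * u‖ ≤ x * s * ‖w‖ + y * t * ‖u‖ := by
      refine (norm_add_le _ _).trans ?_
      rw [norm_mul, norm_mul, Complex.norm_real, Complex.norm_real, Real.norm_of_nonneg
        (by positivity), Real.norm_of_nonneg (by positivity)]
    rw [lt_div_iff₀ hden] at hs' ht'
    have hw0 := norm_nonneg w
    have h2 : x * s * ‖w‖ ≤ x * (s * (‖u‖ + ‖w‖)) := by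
      rw [mul_assoc]
      apply mul_le_mul_of_nonneg_left _ hx.le
      apply mul_le_mul_of_nonneg_left _ hs.le
      linarith
    have h3 : y * t * ‖u‖ ≤ y * (t * (‖u‖ + ‖w‖)) := by
      rw [mul_assoc]
      apply mul_le_mul_of_nonneg_left _ hy.le
      apply mul_le_mul_of_nonneg_left _ ht.le
      linarith
    have h4 : x * (s * (‖u‖ + ‖w‖)) < x * r := mul_lt_mul_of_pos_left hs' hx
    have h5 : y * (t * (‖u‖ + ‖w‖)) < y * r := mul_lt_mul_of_pos_left ht' hy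
    calc ‖((x * s : ℝ) : ℂ) * w + ((y * t : ℝ) : ℂ) * u‖ ≤ x * s * ‖w‖ + y * t * ‖u‖ := h1
      _ < x * r + y * r := by linarith
      _ = r := by rw [← add_mul, hxy, one_mul]

/-- Small segments at a vertex, for periodic sequences. -/
def SmallIn (n : ℕ) (p : ℕ → ℂ) (i : ℕ) (S : Set ℂ) : Prop :=
  ∃ δ > 0, ∀ a b : ℝ, 0 < a → a < δ → 0 < b → b < δ →
    openSegment ℝ ((a : ℂ) * p (i + (n - 1)) + (1 - a) * p i)
      ((b : ℂ) * p (i + 1) + (1 - b) * p i) ⊆ S

lemma smallIn_convex {n : ℕ} {p : ℕ → ℂ} (h : PP n p) (i : ℕ) (ht : th n p i < Real.pi) :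
    SmallIn n p i (Ins n p) := by
  have hs := h.sp
  obtain ⟨r, hr, hcone⟩ := h.cone_ball i
  have hu : p (i + 1) - p i ≠ 0 := sub_ne_zero.2 (hs.ne_succ i).symm
  have hw : p (i + (n - 1)) - p i ≠ 0 := sub_ne_zero.2 (PP.prev_ne hs i)
  obtain ⟨δ, hδ, H⟩ := mem_small (a := p i) (w := p (i + (n - 1)) - p i) hr hu
  refine ⟨δ, hδ, ?_⟩
  intro a b ha ha' hb hb' z hz
  obtain ⟨α, β, hα, hβ, hz', hd⟩ := H a b ha ha' hb hb' z (by
    simpa only [add_sub_cancel] using hz)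
  obtain ⟨h1, h2⟩ := turn_mid_lt hu hw ht hα hβ
  have e : z - p i = (α : ℂ) * (p (i + (n - 1)) - p i) + (β : ℂ) * (p (i + 1) - p i) := by
    rw [hz']; ring
  have hne : z ≠ p i := by
    rw [← sub_ne_zero, e]; exact h1
  refine (hcone z hne hd).1 ?_
  rw [e]
  exact h2

lemma smallIn_concave {n : ℕ} {p : ℕ → ℂ} (h : PP n p) (i : ℕ) (ht : Real.pi < th n p i) :
    SmallIn n p i {z | z ∉ Ins n p ∧ z ∉ chain p 0 n} := by
  have hs := h.sp
  obtain ⟨r, hr, hcone⟩ := h.cone_ball i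
  have hu : p (i + 1) - p i ≠ 0 := sub_ne_zero.2 (hs.ne_succ i).symm
  have hw : p (i + (n - 1)) - p i ≠ 0 := sub_ne_zero.2 (PP.prev_ne hs i)
  obtain ⟨δ, hδ, H⟩ := mem_small (a := p i) (w := p (i + (n - 1)) - p i) hr hu
  refine ⟨δ, hδ, ?_⟩
  intro a b ha ha' hb hb' z hz
  obtain ⟨α, β, hα, hβ, hz', hd⟩ := H a b ha ha' hb hb' z (by
    simpa only [add_sub_cancel] using hz)
  obtain ⟨h1, h2, h3⟩ := turn_mid_gt hu hw ht (h.th_lt i) hα hβ
  have e : z - p i = (α : ℂ) * (p (i + (n - 1)) - p i) + (β : ℂ) * (p (i + 1) - p i) := by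
    rw [hz']; ring
  have hne : z ≠ p i := by
    rw [← sub_ne_zero, e]; exact h1
  refine (hcone z hne hd).2 ?_ ?_
  · rw [e]; exact h2
  · rw [e]; exact h3

lemma smallIn_disjoint {n : ℕ} {p : ℕ → ℂ} {i : ℕ} {S T : Set ℂ} (h1 : SmallIn n p i S)
    (h2 : SmallIn n p i T) : (S ∩ T).Nonempty := by
  obtain ⟨δ, hδ, h1⟩ := h1
  obtain ⟨η, hη, h2⟩ := h2
  have hm : 0 < min δ η / 2 := by positivity
  have hm1 : min δ η / 2 < δ := by
    have := min_le_left δ η
    linarith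
  have hm2 : min δ η / 2 < η := by
    have := min_le_right δ η
    linarith
  have k1 := h1 _ _ hm hm1 hm hm1
  have k2 := h2 _ _ hm hm2 hm hm2
  have hz : (1 / 2 : ℝ) • ((((min δ η / 2 : ℝ) : ℂ)) * p (i + (n - 1)) +
    (1 - ((min δ η / 2 : ℝ) : ℂ)) * p i) + (1 / 2 : ℝ) •
    (((min δ η / 2 : ℝ) : ℂ) * p (i + 1) + (1 - ((min δ η / 2 : ℝ) : ℂ)) * p i) ∈
    openSegment ℝ ((((min δ η / 2 : ℝ) : ℂ)) * p (i + (n - 1)) +
    (1 - ((min δ η / 2 : ℝ) : ℂ)) * p i)
    (((min δ η / 2 : ℝ) : ℂ) * p (i + 1) + (1 - ((min δ η / 2 : ℝ) : ℂ)) * p i) :=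
    ⟨1 / 2, 1 / 2, by norm_num, by norm_num, by norm_num, rfl⟩
  exact ⟨_, k1 hz, k2 hz⟩

/-- Collinearity at a vertex. -/
lemma collinear_iff_cr {a b c : ℂ} (hb : b ≠ a) :
    Collinear ℝ {c, a, b} ↔ cr (b - a) (c - a) = 0 := by
  rw [collinear_iff_of_mem (p₀ := a) (by simp)]
  constructor
  · rintro ⟨v, hv⟩
    obtain ⟨s, hs⟩ := hv b (by simp)
    obtain ⟨t, ht⟩ := hv c (by simp)
    rw [hs, ht]
    simp only [vadd_eq_add, add_sub_cancel_right, cr, Complex.real_smul, Complex.mul_re,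
      Complex.mul_im, Complex.ofReal_re, Complex.ofReal_im]
    ring
  · intro h
    refine ⟨b - a, ?_⟩
    have hu : b - a ≠ 0 := sub_ne_zero.2 hb
    have hn : normSq (b - a) ≠ 0 := (normSq_pos.2 hu).ne'
    intro x hx
    simp only [mem_insert_iff, mem_singleton_iff] at hx
    rcases hx with rfl | rfl | rfl
    · have him : ((x - a) / (b - a)).im = 0 := by
        rw [Complex.div_im]
        have h' : (b - a).re * (x - a).im - (b - a).im * (x - a).re = 0 := h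
        field_simp
        linarith
      refine ⟨((x - a) / (b - a)).re, ?_⟩
      have e : (((x - a) / (b - a)).re : ℂ) = (x - a) / (b - a) := by
        apply Complex.ext
        · simp
        · rw [Complex.ofReal_im, him]
      rw [Complex.real_smul, e, div_mul_cancel₀ _ hu]
      simp
    · exact ⟨0, by simp⟩
    · exact ⟨1, by simp⟩

lemma proper_iff {n : ℕ} {p : ℕ → ℂ} (h : PP n p) (i : ℕ) :
    ¬ Collinear ℝ {p (i + (n - 1)), p i, p (i + 1)} ↔ th n p i ≠ Real.pi := by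
  have hs := h.sp
  have hu : p (i + 1) - p i ≠ 0 := sub_ne_zero.2 (hs.ne_succ i).symm
  have hw : p (i + (n - 1)) - p i ≠ 0 := sub_ne_zero.2 (PP.prev_ne hs i)
  rw [collinear_iff_cr (hs.ne_succ i).symm, not_iff_not]
  constructor
  · intro h0
    rcases lt_trichotomy (th n p i) Real.pi with h1 | h1 | h1
    · have := (turn_lt_pi hu hw).1 h1
      linarith
    · exact h1
    · have := (turn_gt_pi hu hw).1 ⟨h1, h.th_lt i⟩
      linarith
  · intro h0
    obtain ⟨c, -, hc⟩ := (turn_eq_pi hu hw).1 h0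
    rw [hc]
    simp only [cr, Complex.mul_re, Complex.mul_im, Complex.neg_re, Complex.neg_im,
      Complex.ofReal_re, Complex.ofReal_im]
    ring

end Pool.Agent.SigPoly
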