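import Pool.Agent.SigPoly.Words

/-!
# The combinatorial criterion, and its equivalence with the grammar
-/

namespace Pool.Agent.SigPoly

/-- `T` is a triangulation of a convex `n`-gon with vertices `0, …, n - 1`: a set of `n - 3`
pairwise non-crossing diagonals; the diagonal joining `a < b` is the pair `(a, b)`. -/
structure IsTriangulation (n : ℕ) (T : Finset (ℕ × ℕ)) : Prop where
  diag : ∀ d ∈ T, d.1 + 2 ≤ d.2 ∧ d.2 < n ∧ ¬ (d.1 = 0 ∧ d.2 = n - 1)
  noncrossing : ∀ d ∈ T, ∀ e ∈ T, ¬ (d.1 < e.1 ∧ e.1 < d.2 ∧ d.2 < e.2)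
  card : T.card = n - 3

/-- The vertices `a` and `b` are joined by a side of the `n`-gon or by a diagonal in `T`. -/
def Joined (n : ℕ) (T : Finset (ℕ × ℕ)) (a b : ℕ) : Prop :=
  b = a + 1 ∨ a = b + 1 ∨ (a = 0 ∧ b = n - 1) ∨ (b = 0 ∧ a = n - 1) ∨ (a, b) ∈ T ∨ (b, a) ∈ T

/-- The other endpoint of the diagonal `d`, seen from its endpoint `v`. -/
def other (d : ℕ × ℕ) (v : ℕ) : ℕ := if d.1 = v then d.2 else d.1

/-- The criterion: there are a triangulation of the convex `n`-gon and an assignment of each of its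
diagonals to one of its two endpoints such that a vertex of sign `1` gets no diagonal, a vertex of
sign `0` gets one and is on no other diagonal, and a vertex of sign `-1` gets exactly one, or
exactly two which are consecutive sides of a triangle of the triangulation. -/
def Criterion (n : ℕ) (s : ℕ → ℤ) : Prop :=
  ∃ T : Finset (ℕ × ℕ), IsTriangulation n T ∧ ∃ w : ℕ × ℕ → ℕ,
    (∀ d ∈ T, w d = d.1 ∨ w d = d.2) ∧
    ∀ v < n,
      (s v = 1 ∧ ∀ d ∈ T, w d ≠ v) ∨
      (s v = 0 ∧ ∃ d ∈ T, w d = v ∧ ∀ e ∈ T, (e.1 = v ∨ e.2 = v) → e = d) ∨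
      (s v = -1 ∧ ((∃ d ∈ T, ∀ e ∈ T, w e = v ↔ e = d) ∨
        ∃ d ∈ T, ∃ e ∈ T, d ≠ e ∧ (∀ f ∈ T, w f = v ↔ f = d ∨ f = e) ∧
          Joined n T (other d v) (other e v)))

namespace Cr

open Finset

/-- diagonals; `W a b` means that the diagonal joining `a` and `b` is assigned to `a` -/
def Dg (W : ℕ → ℕ → Prop) (a b : ℕ) : Prop := W a b ∨ W b a

/-- next vertex -/
def nx (n a : ℕ) : ℕ := if a + 1 < n then a + 1 else 0

/-- previous vertex -/
def pv (n a : ℕ) : ℕ := if a = 0 then n - 1 else a - 1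

/-- mirror image -/
def ng (n a : ℕ) : ℕ := if a = 0 then 0 else n - a

/-- joined by a side or a diagonal -/
def Jn (n : ℕ) (W : ℕ → ℕ → Prop) (a b : ℕ) : Prop := nx n a = b ∨ nx n b = a ∨ Dg W a b

/-- assigned non-crossing diagonals -/
structure AT (n : ℕ) (W : ℕ → ℕ → Prop) : Prop where
  lt : ∀ a b, W a b → a < n ∧ b < n
  ex : ∀ a b, W a b → ¬ W b a
  irr : ∀ a b, W a b → nx n a ≠ b ∧ nx n b ≠ a
  cross : ∀ a b c d, a < b → b < c → c < d → Dg W a c → ¬ Dg W b d

/-- number of diagonals -/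
noncomputable def cnt (n : ℕ) (W : ℕ → ℕ → Prop) : ℕ := by
  classical
  exact ((range n ×ˢ range n).filter fun x => W x.1 x.2).card

/-- consistency of a label at the vertex `v` with neighbours `p` (before) and `q` (after) -/
def LC (n : ℕ) (W : ℕ → ℕ → Prop) (v p q : ℕ) : Lab → Prop
  | Lab.tip => ∀ z, ¬ Dg W v z
  | Lab.plus => ∀ z, ¬ W v z
  | Lab.flat => ∃ z, W v z ∧ ∀ u, Dg W v u → u = z
  | Lab.neg l r => (∃ z, (∀ u, W v u ↔ u = z) ∧ (l = true → Jn n W z p) ∧
        (r = true → Jn n W z q)) ∨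
      (l = false ∧ r = false ∧ ∃ z z', z ≠ z' ∧ (∀ u, W v u ↔ u = z ∨ u = z') ∧ Jn n W z z')

theorem nx_spec (n a : ℕ) : (a + 1 < n ∧ nx n a = a + 1) ∨ (¬ a + 1 < n ∧ nx n a = 0) := by
  unfold nx; split_ifs with h
  · exact Or.inl ⟨h, rfl⟩
  · exact Or.inr ⟨h, rfl⟩

theorem pv_spec (n a : ℕ) : (a = 0 ∧ pv n a = n - 1) ∨ (a ≠ 0 ∧ pv n a = a - 1) := by
  unfold pv; split_ifs with h
  · exact Or.inl ⟨h, rfl⟩
  · exact Or.inr ⟨h, rfl⟩

theorem ng_spec (n a : ℕ) : (a = 0 ∧ ng n a = 0) ∨ (a ≠ 0 ∧ ng n a = n - a) := by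
  unfold ng; split_ifs with h
  · exact Or.inl ⟨h, rfl⟩
  · exact Or.inr ⟨h, rfl⟩

theorem Dg.symm {W : ℕ → ℕ → Prop} {a b : ℕ} (h : Dg W a b) : Dg W b a := Or.symm h

theorem Jn.symm {n : ℕ} {W : ℕ → ℕ → Prop} {a b : ℕ} (h : Jn n W a b) : Jn n W b a := by
  rcases h with h | h | h
  · exact Or.inr (Or.inl h)
  · exact Or.inl h
  · exact Or.inr (Or.inr h.symm)

theorem AT.dlt {n : ℕ} {W : ℕ → ℕ → Prop} (h : AT n W) {a b : ℕ} (hd : Dg W a b) :
    a < n ∧ b < n := by
  rcases hd with hd | hd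
  · exact h.lt _ _ hd
  · exact (h.lt _ _ hd).symm

theorem AT.dirr {n : ℕ} {W : ℕ → ℕ → Prop} (h : AT n W) {a b : ℕ} (hd : Dg W a b) :
    nx n a ≠ b ∧ nx n b ≠ a ∧ a ≠ b := by
  rcases hd with hd | hd
  · refine ⟨(h.irr _ _ hd).1, (h.irr _ _ hd).2, ?_⟩
    rintro rfl
    exact h.ex _ _ hd hd
  · refine ⟨(h.irr _ _ hd).2, (h.irr _ _ hd).1, ?_⟩
    rintro rfl
    exact h.ex _ _ hd hd

theorem LC.mir {n : ℕ} {W : ℕ → ℕ → Prop} {v p q : ℕ} {x : Lab} (h : LC n W v p q x) :
    LC n W v q p x.mir := by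
  cases x with
  | tip => exact h
  | plus => exact h
  | flat => exact h
  | neg l r =>
    rcases h with ⟨z, h1, h2, h3⟩ | ⟨h1, h2, h3⟩
    · exact Or.inl ⟨z, h1, h3, h2⟩
    · exact Or.inr ⟨h2, h1, h3⟩

/-! ### Transport by rotations and reflections -/

structure Iso (n : ℕ) (f g : ℕ → ℕ) : Prop where
  fl : ∀ a < n, f a < n
  gl : ∀ a < n, g a < n
  fg : ∀ a < n, f (g a) = a
  gf : ∀ a < n, g (f a) = a
  side : ∀ a < n, ∀ b < n, (nx n a = b ∨ nx n b = a) ↔ (nx n (f a) = f b ∨ nx n (f b) = f a)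
  cr : ∀ D : ℕ → ℕ → Prop, (∀ a b, D a b → D b a) →
    (∀ a b c d, a < b → b < c → c < d → D a c → ¬ D b d) →
    ∀ a b c d, a < b → b < c → c < d → d < n → D (f a) (f c) → ¬ D (f b) (f d)

/-- transported relation -/
def tr (n : ℕ) (f : ℕ → ℕ) (W : ℕ → ℕ → Prop) : ℕ → ℕ → Prop :=
  fun a b => a < n ∧ b < n ∧ W (f a) (f b)

theorem tr_dg {n : ℕ} {f : ℕ → ℕ} {W : ℕ → ℕ → Prop} {a b : ℕ} :
    Dg (tr n f W) a b ↔ a < n ∧ b < n ∧ Dg W (f a) (f b) := by
  unfold Dg tr
  tauto

theorem iso_rot {n : ℕ} (hn : 3 ≤ n) : Iso n (nx n) (pv n) where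
  fl a ha := by have := nx_spec n a; omega
  gl a ha := by have := pv_spec n a; omega
  fg a ha := by have := pv_spec n a; have := nx_spec n (pv n a); omega
  gf a ha := by have := nx_spec n a; have := pv_spec n (nx n a); omega
  side a ha b hb := by
    have := nx_spec n a; have := nx_spec n b
    have := nx_spec n (nx n a); have := nx_spec n (nx n b)
    omega
  cr D hs hD a b c d hab hbc hcd hd h1 h2 := by
    have ea : nx n a = a + 1 := by unfold nx; rw [if_pos (by omega)]
    have eb : nx n b = b + 1 := by unfold nx; rw [if_pos (by omega)]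
    have ec : nx n c = c + 1 := by unfold nx; rw [if_pos (by omega)]
    rw [ea, ec] at h1
    rw [eb] at h2
    by_cases hd' : d + 1 < n
    · have ed : nx n d = d + 1 := by unfold nx; rw [if_pos hd']
      rw [ed] at h2
      exact hD (a + 1) (b + 1) (c + 1) (d + 1) (by omega) (by omega) (by omega) h1 h2
    · have ed : nx n d = 0 := by unfold nx; rw [if_neg hd']
      rw [ed] at h2
      exact hD 0 (a + 1) (b + 1) (c + 1) (by omega) (by omega) (by omega) (hs _ _ h2) h1

theorem iso_mir {n : ℕ} (hn : 3 ≤ n) : Iso n (ng n) (ng n) where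
  fl a ha := by have := ng_spec n a; omega
  gl a ha := by have := ng_spec n a; omega
  fg a ha := by have := ng_spec n a; have := ng_spec n (ng n a); omega
  gf a ha := by have := ng_spec n a; have := ng_spec n (ng n a); omega
  side a ha b hb := by
    have := nx_spec n a; have := nx_spec n b
    have := ng_spec n a; have := ng_spec n b
    have := nx_spec n (ng n a); have := nx_spec n (ng n b)
    omega
  cr D hs hD a b c d hab hbc hcd hd h1 h2 := by
    have eb : ng n b = n - b := by unfold ng; rw [if_neg (by omega)]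
    have ec : ng n c = n - c := by unfold ng; rw [if_neg (by omega)]
    have ed : ng n d = n - d := by unfold ng; rw [if_neg (by omega)]
    rw [ec] at h1
    rw [eb, ed] at h2
    by_cases ha : a = 0
    · have ea : ng n a = 0 := by unfold ng; rw [if_pos ha]
      rw [ea] at h1
      exact hD 0 (n - d) (n - c) (n - b) (by omega) (by omega) (by omega) h1 (hs _ _ h2)
    · have ea : ng n a = n - a := by unfold ng; rw [if_neg ha]
      rw [ea] at h1
      exact hD (n - d) (n - c) (n - b) (n - a) (by omega) (by omega) (by omega) (hs _ _ h2)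
        (hs _ _ h1)

theorem tr_at {n : ℕ} {f g : ℕ → ℕ} (hf : Iso n f g) {W : ℕ → ℕ → Prop} (h : AT n W) :
    AT n (tr n f W) where
  lt a b hab := ⟨hab.1, hab.2.1⟩
  ex a b hab hba := h.ex _ _ hab.2.2 hba.2.2
  irr a b hab := by
    have h1 := h.irr _ _ hab.2.2
    have h2 := hf.side a hab.1 b hab.2.1
    constructor
    · intro h3
      rcases h2.1 (Or.inl h3) with h4 | h4
      · exact h1.1 h4
      · exact h1.2 h4
    · intro h3
      rcases h2.1 (Or.inr h3) with h4 | h4
      · exact h1.1 h4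
      · exact h1.2 h4
  cross a b c d hab hbc hcd h1 h2 := by
    rw [tr_dg] at h1 h2
    exact hf.cr (Dg W) (fun _ _ h => h.symm) h.cross a b c d hab hbc hcd h2.2.1 h1.2.2 h2.2.2

theorem tr_cnt {n : ℕ} {f g : ℕ → ℕ} (hf : Iso n f g) (W : ℕ → ℕ → Prop) :
    cnt n (tr n f W) = cnt n W := by
  classical
  unfold cnt
  refine card_nbij' (fun x => (f x.1, f x.2)) (fun x => (g x.1, g x.2)) ?_ ?_ ?_ ?_
  · rintro ⟨a, b⟩ hx
    simp only [coe_filter, mem_product, mem_range, Set.mem_ofPred_eq] at hx ⊢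
    exact ⟨⟨hf.fl _ hx.1.1, hf.fl _ hx.1.2⟩, hx.2.2.2⟩
  · rintro ⟨a, b⟩ hx
    simp only [coe_filter, mem_product, mem_range, Set.mem_ofPred_eq] at hx ⊢
    refine ⟨⟨hf.gl _ hx.1.1, hf.gl _ hx.1.2⟩, hf.gl _ hx.1.1, hf.gl _ hx.1.2, ?_⟩
    rw [hf.fg _ hx.1.1, hf.fg _ hx.1.2]
    exact hx.2
  · rintro ⟨a, b⟩ hx
    simp only [coe_filter, mem_product, mem_range, Set.mem_ofPred_eq] at hx
    simp only [hf.gf _ hx.1.1, hf.gf _ hx.1.2]
  · rintro ⟨a, b⟩ hx
    simp only [coe_filter, mem_product, mem_range, Set.mem_ofPred_eq] at hx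
    simp only [hf.fg _ hx.1.1, hf.fg _ hx.1.2]

theorem tr_jn {n : ℕ} {f g : ℕ → ℕ} (hf : Iso n f g) {W : ℕ → ℕ → Prop} {a b : ℕ} (ha : a < n)
    (hb : b < n) : Jn n (tr n f W) a b ↔ Jn n W (f a) (f b) := by
  have h2 := hf.side a ha b hb
  unfold Jn
  rw [tr_dg, ← or_assoc, ← or_assoc, h2]
  constructor
  · rintro (h | h)
    · exact Or.inl h
    · exact Or.inr h.2.2
  · rintro (h | h)
    · exact Or.inl h
    · exact Or.inr ⟨ha, hb, h⟩

theorem tr_lc {n : ℕ} {f g : ℕ → ℕ} (hf : Iso n f g) {W : ℕ → ℕ → Prop} (h : AT n W)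
    {v p q : ℕ} (hv : v < n) (hp : p < n) (hq : q < n) {x : Lab}
    (hx : LC n W (f v) (f p) (f q) x) : LC n (tr n f W) v p q x := by
  have key : ∀ u, tr n f W v u → ∀ z, (∀ u, W (f v) u → u = z) → u = g z := by
    intro u hu z hz
    rw [← hz _ hu.2.2, hf.gf _ hu.2.1]
  cases x with
  | tip =>
    intro z hz
    rw [tr_dg] at hz
    exact hx _ hz.2.2
  | plus =>
    intro z hz
    exact hx _ hz.2.2
  | flat =>
    obtain ⟨z, hz, hz'⟩ := hx
    have hzn := (h.lt _ _ hz).2
    refine ⟨g z, ⟨hv, hf.gl _ hzn, by rw [hf.fg _ hzn]; exact hz⟩, ?_⟩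
    intro u hu
    rw [tr_dg] at hu
    rw [← hz' _ hu.2.2, hf.gf _ hu.2.1]
  | neg l r =>
    rcases hx with ⟨z, h1, h2, h3⟩ | ⟨h1, h2, z, z', h3, h4, h5⟩
    · have hzn := (h.lt _ _ ((h1 z).2 rfl)).2
      refine Or.inl ⟨g z, ?_, ?_, ?_⟩
      · intro u
        constructor
        · intro hu
          rw [← (h1 _).1 hu.2.2, hf.gf _ hu.2.1]
        · rintro rfl
          exact ⟨hv, hf.gl _ hzn, by rw [hf.fg _ hzn]; exact (h1 z).2 rfl⟩
      · intro hl
        rw [tr_jn hf (hf.gl _ hzn) hp, hf.fg _ hzn]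
        exact h2 hl
      · intro hl
        rw [tr_jn hf (hf.gl _ hzn) hq, hf.fg _ hzn]
        exact h3 hl
    · have hzn := (h.lt _ _ ((h4 z).2 (Or.inl rfl))).2
      have hzn' := (h.lt _ _ ((h4 z').2 (Or.inr rfl))).2
      refine Or.inr ⟨h1, h2, g z, g z', ?_, ?_, ?_⟩
      · intro he
        apply h3
        rw [← hf.fg _ hzn, he, hf.fg _ hzn']
      · intro u
        constructor
        · intro hu
          rcases (h4 _).1 hu.2.2 with h6 | h6
          · left; rw [← h6, hf.gf _ hu.2.1]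
          · right; rw [← h6, hf.gf _ hu.2.1]
        · rintro (rfl | rfl)
          · exact ⟨hv, hf.gl _ hzn, by rw [hf.fg _ hzn]; exact (h4 z).2 (Or.inl rfl)⟩
          · exact ⟨hv, hf.gl _ hzn', by rw [hf.fg _ hzn']; exact (h4 z').2 (Or.inr rfl)⟩
      · rw [tr_jn hf (hf.gl _ hzn) (hf.gl _ hzn'), hf.fg _ hzn, hf.fg _ hzn']
        exact h5

/-- neighbours are joined at a vertex without diagonals -/
def EE (n : ℕ) (W : ℕ → ℕ → Prop) : Prop :=
  ∀ v < n, (∀ z, ¬ Dg W v z) → Jn n W (pv n v) (nx n v)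

/-- labelled assigned triangulation -/
structure PL (n : ℕ) (W : ℕ → ℕ → Prop) (L : ℕ → Lab) : Prop where
  at' : AT n W
  cnt : cnt n W = n - 3
  lc : ∀ v < n, LC n W v (pv n v) (nx n v) (L v)

theorem pv_lt {n : ℕ} {a : ℕ} (h : a < n) : pv n a < n := by unfold pv; split_ifs <;> omega

theorem nx_lt {n : ℕ} {a : ℕ} (h : a < n) : nx n a < n := by unfold nx; split_ifs <;> omega

theorem ng_lt {n : ℕ} {a : ℕ} (h : a < n) : ng n a < n := by unfold ng; split_ifs <;> omega

theorem L_nx {n : ℕ} {L : ℕ → Lab} (per : ∀ k, L (k + n) = L k) {k : ℕ} (hk : k < n) :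
    L (nx n k) = L (k + 1) := by
  unfold nx
  split_ifs with h
  · rfl
  · have : k + 1 = 0 + n := by omega
    rw [this, per]

theorem L_ng {n : ℕ} {L : ℕ → Lab} (per : ∀ k, L (k + n) = L k) {k : ℕ} (hk : k < n) :
    L (ng n k) = L ((n - 1) * k) := by
  unfold ng
  split_ifs with h
  · rw [h, Nat.mul_zero]
  · have e : (n - 1) * k = (n - k) + n * (k - 1) := by
      obtain ⟨j, rfl⟩ : ∃ j, k = j + 1 := ⟨k - 1, by omega⟩
      obtain ⟨d, rfl⟩ : ∃ d, n = j + 1 + 1 + d := ⟨n - (j + 1 + 1), by omega⟩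
      rw [show j + 1 + 1 + d - 1 = j + 1 + d by omega,
        show j + 1 + 1 + d - (j + 1) = d + 1 by omega, show j + 1 - 1 = j by omega]
      ring
    rw [e, per_mul L n per]

theorem PL.rot {n : ℕ} {W : ℕ → ℕ → Prop} {L : ℕ → Lab} (hn : 3 ≤ n)
    (per : ∀ k, L (k + n) = L k) (h : PL n W L) :
    PL n (tr n (nx n) W) (fun k => L (k + 1)) where
  at' := tr_at (iso_rot hn) h.at'
  cnt := by rw [tr_cnt (iso_rot hn), h.cnt]
  lc v hv := by
    refine tr_lc (iso_rot hn) h.at' hv (pv_lt hv) (nx_lt hv) ?_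
    have h1 := h.lc (nx n v) (nx_lt hv)
    rw [L_nx per hv] at h1
    have h2 : pv n (nx n v) = nx n (pv n v) := by
      rw [(iso_rot hn).gf _ hv, (iso_rot hn).fg _ hv]
    rw [← h2]
    exact h1

theorem PL.mir {n : ℕ} {W : ℕ → ℕ → Prop} {L : ℕ → Lab} (hn : 3 ≤ n)
    (per : ∀ k, L (k + n) = L k) (h : PL n W L) :
    PL n (tr n (ng n) W) (fun k => (L ((n - 1) * k)).mir) where
  at' := tr_at (iso_mir hn) h.at'
  cnt := by rw [tr_cnt (iso_mir hn), h.cnt]
  lc v hv := by
    refine tr_lc (iso_mir hn) h.at' hv (pv_lt hv) (nx_lt hv) ?_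
    have h1 := h.lc (ng n v) (ng_lt hv)
    rw [L_ng per hv] at h1
    have h2 : pv n (ng n v) = ng n (nx n v) := by
      have := ng_spec n v; have := nx_spec n v
      have := pv_spec n (ng n v); have := ng_spec n (nx n v)
      omega
    have h3 : nx n (ng n v) = ng n (pv n v) := by
      have := ng_spec n v; have := pv_spec n v
      have := nx_spec n (ng n v); have := ng_spec n (pv n v)
      omega
    rw [h2, h3] at h1
    exact h1.mir

theorem pv_nx {n v : ℕ} (hn : 3 ≤ n) (hv : v < n) : pv n (nx n v) = nx n (pv n v) := by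
  rw [(iso_rot hn).gf _ hv, (iso_rot hn).fg _ hv]

theorem pv_ng {n v : ℕ} (hn : 3 ≤ n) (hv : v < n) : pv n (ng n v) = ng n (nx n v) := by
  have := ng_spec n v; have := nx_spec n v
  have := pv_spec n (ng n v); have := ng_spec n (nx n v)
  omega

theorem nx_ng {n v : ℕ} (hn : 3 ≤ n) (hv : v < n) : nx n (ng n v) = ng n (pv n v) := by
  have := ng_spec n v; have := pv_spec n v
  have := nx_spec n (ng n v); have := ng_spec n (pv n v)
  omega

theorem tr_nod {n : ℕ} {f g : ℕ → ℕ} (hf : Iso n f g) {W : ℕ → ℕ → Prop} (h : AT n W) {v : ℕ}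
    (hv : v < n) : (∀ z, ¬ Dg (tr n f W) v z) ↔ ∀ z, ¬ Dg W (f v) z := by
  constructor
  · intro h1 z hz
    have hzn := (h.dlt hz).2
    refine h1 (g z) ?_
    rw [tr_dg, hf.fg _ hzn]
    exact ⟨hv, hf.gl _ hzn, hz⟩
  · intro h1 z hz
    rw [tr_dg] at hz
    exact h1 _ hz.2.2

theorem EE.rot {n : ℕ} {W : ℕ → ℕ → Prop} (hn : 3 ≤ n) (hW : AT n W) (h : EE n W) :
    EE n (tr n (nx n) W) := by
  intro v hv hz
  rw [tr_jn (iso_rot hn) (pv_lt hv) (nx_lt hv), ← pv_nx hn hv]
  rw [tr_nod (iso_rot hn) hW hv] at hz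
  exact h _ (nx_lt hv) hz

theorem EE.mir {n : ℕ} {W : ℕ → ℕ → Prop} (hn : 3 ≤ n) (hW : AT n W) (h : EE n W) :
    EE n (tr n (ng n) W) := by
  intro v hv hz
  rw [tr_jn (iso_mir hn) (pv_lt hv) (nx_lt hv), ← pv_ng hn hv, ← nx_ng hn hv]
  rw [tr_nod (iso_mir hn) hW hv] at hz
  exact (h _ (ng_lt hv) hz).symm

/-! ### Attaching a vertex -/

/-- attach the vertex `n`; the new diagonal is assigned to `n - 1` -/
def att (n : ℕ) (W : ℕ → ℕ → Prop) : ℕ → ℕ → Prop := fun a b => W a b ∨ (a = n - 1 ∧ b = 0)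

theorem att_dg {n : ℕ} {W : ℕ → ℕ → Prop} {a b : ℕ} :
    Dg (att n W) a b ↔ Dg W a b ∨ (a = n - 1 ∧ b = 0) ∨ (b = n - 1 ∧ a = 0) := by
  unfold Dg att
  tauto

theorem att_at {n : ℕ} {W : ℕ → ℕ → Prop} (hn : 3 ≤ n) (h : AT n W) : AT (n + 1) (att n W) where
  lt a b hab := by
    rcases hab with hab | hab
    · have := h.lt _ _ hab
      omega
    · omega
  ex a b hab hba := by
    rcases hab with hab | hab
    · rcases hba with hba | hba
      · exact h.ex _ _ hab hba
      · have h1 := (h.irr _ _ hab).2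
        rw [hba.1, hba.2] at h1
        have := nx_spec n (n - 1)
        omega
    · rcases hba with hba | hba
      · have h1 := (h.irr _ _ hba).2
        rw [hab.1, hab.2] at h1
        have := nx_spec n (n - 1)
        omega
      · omega
  irr a b hab := by
    have := nx_spec (n + 1) a
    have := nx_spec (n + 1) b
    rcases hab with hab | hab
    · have h0 := h.lt _ _ hab
      have h1 := h.irr _ _ hab
      have := nx_spec n a
      have := nx_spec n b
      omega
    · omega
  cross a b c d hab hbc hcd h1 h2 := by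
    rw [att_dg] at h1 h2
    have h3 : Dg W b d := by
      rcases h2 with h2 | h2 | h2
      · exact h2
      · omega
      · omega
    have h4 := h.dlt h3
    have h5 : Dg W a c := by
      rcases h1 with h1 | h1 | h1
      · exact h1
      · omega
      · omega
    exact h.cross a b c d hab hbc hcd h5 h3

theorem not_last {n : ℕ} {W : ℕ → ℕ → Prop} (hn : 3 ≤ n) (h : AT n W) : ¬ Dg W (n - 1) 0 := by
  intro h1
  have h2 := (h.dirr h1).1
  have := nx_spec n (n - 1)
  omega

theorem att_cnt {n : ℕ} {W : ℕ → ℕ → Prop} (hn : 3 ≤ n) (h : AT n W) :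
    cnt (n + 1) (att n W) = cnt n W + 1 := by
  classical
  unfold cnt
  have h1 : ((range (n + 1) ×ˢ range (n + 1)).filter fun x => att n W x.1 x.2)
      = insert (n - 1, 0) ((range n ×ˢ range n).filter fun x => W x.1 x.2) := by
    ext ⟨a, b⟩
    rw [mem_insert, mem_filter, mem_filter, mem_product, mem_product, mem_range, mem_range,
      mem_range, mem_range, Prod.mk.injEq]
    constructor
    · rintro ⟨h1, h2 | h2⟩
      · exact Or.inr ⟨h.lt _ _ h2, h2⟩
      · exact Or.inl h2
    · rintro (h2 | h2)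
      · exact ⟨by omega, Or.inr h2⟩
      · exact ⟨by omega, Or.inl h2.2⟩
  rw [h1, card_insert_of_notMem]
  intro h2
  simp only [mem_filter, mem_product, mem_range] at h2
  exact not_last hn h (Or.inl h2.2)

theorem att_jn {n : ℕ} {W : ℕ → ℕ → Prop} (hn : 3 ≤ n) {a b : ℕ} (ha : a < n) (hb : b < n) :
    Jn (n + 1) (att n W) a b ↔ Jn n W a b := by
  unfold Jn
  rw [att_dg]
  have := nx_spec n a
  have := nx_spec n b
  have := nx_spec (n + 1) a
  have := nx_spec (n + 1) b
  constructor
  · rintro (h | h | h | h | h)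
    · left; omega
    · right; left; omega
    · right; right; exact h
    · left; omega
    · right; left; omega
  · rintro (h | h | h)
    · by_cases h' : a + 1 < n
      · left; omega
      · right; right; right; left; omega
    · by_cases h' : b + 1 < n
      · right; left; omega
      · right; right; right; right; omega
    · right; right; left; exact h

theorem att_lc {n : ℕ} {W : ℕ → ℕ → Prop} (hn : 3 ≤ n) (h : AT n W) {v p q : ℕ}
    (h1 : v ≠ n - 1) (h0 : v ≠ 0) (hp : p < n) (hq : q < n) {x : Lab} :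
    LC (n + 1) (att n W) v p q x ↔ LC n W v p q x := by
  have e1 : ∀ z, att n W v z ↔ W v z := by
    intro z
    unfold att
    constructor
    · rintro (h | h)
      · exact h
      · omega
    · exact Or.inl
  have e2 : ∀ z, Dg (att n W) v z ↔ Dg W v z := by
    intro z
    rw [att_dg]
    constructor
    · rintro (h | h)
      · exact h
      · omega
    · exact Or.inl
  cases x with
  | tip =>
    show (∀ z, ¬ Dg (att n W) v z) ↔ ∀ z, ¬ Dg W v z
    simp only [e2]
  | plus =>
    show (∀ z, ¬ att n W v z) ↔ ∀ z, ¬ W v z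
    simp only [e1]
  | flat =>
    show (∃ z, att n W v z ∧ ∀ u, Dg (att n W) v u → u = z) ↔ ∃ z, W v z ∧ ∀ u, Dg W v u → u = z
    simp only [e1, e2]
  | neg l r =>
    unfold LC
    simp only [e1]
    constructor
    · rintro (⟨z, h2, h3, h4⟩ | ⟨h2, h3, z, z', h4, h5, h6⟩)
      · have hz := (h.lt _ _ ((h2 z).2 rfl)).2
        rw [att_jn hn hz hp] at h3
        rw [att_jn hn hz hq] at h4
        exact Or.inl ⟨z, h2, h3, h4⟩
      · have hz := (h.lt _ _ ((h5 z).2 (Or.inl rfl))).2
        have hz' := (h.lt _ _ ((h5 z').2 (Or.inr rfl))).2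
        rw [att_jn hn hz hz'] at h6
        exact Or.inr ⟨h2, h3, z, z', h4, h5, h6⟩
    · rintro (⟨z, h2, h3, h4⟩ | ⟨h2, h3, z, z', h4, h5, h6⟩)
      · have hz := (h.lt _ _ ((h2 z).2 rfl)).2
        rw [← att_jn hn hz hp] at h3
        rw [← att_jn hn hz hq] at h4
        exact Or.inl ⟨z, h2, h3, h4⟩
      · have hz := (h.lt _ _ ((h5 z).2 (Or.inl rfl))).2
        have hz' := (h.lt _ _ ((h5 z').2 (Or.inr rfl))).2
        rw [← att_jn hn hz hz'] at h6
        exact Or.inr ⟨h2, h3, z, z', h4, h5, h6⟩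

theorem att_zero {n : ℕ} {W : ℕ → ℕ → Prop} (hn : 3 ≤ n) {z : ℕ} : att n W 0 z ↔ W 0 z := by
  unfold att
  constructor
  · rintro (h | h)
    · exact h
    · omega
  · exact Or.inl

theorem att_last {n : ℕ} {W : ℕ → ℕ → Prop} {z : ℕ} : att n W (n - 1) z ↔ W (n - 1) z ∨ z = 0 := by
  unfold att
  simp

theorem att_new {n : ℕ} {W : ℕ → ℕ → Prop} (hn : 3 ≤ n) (h : AT n W) (z : ℕ) :
    ¬ Dg (att n W) n z := by
  rw [att_dg]
  rintro (h1 | h1 | h1)
  · have := (h.dlt h1).1
    omega
  · omega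
  · omega

theorem lcY {n : ℕ} {W : ℕ → ℕ → Prop} (hn : 3 ≤ n) (h : AT n W) {y y' : Lab}
    (hy : LC n W 0 (n - 1) 1 y) (hr : RuleY y y') : LC (n + 1) (att n W) 0 n 1 y' := by
  cases hr with
  | tp =>
    intro z hz
    rw [att_zero hn] at hz
    exact hy z (Or.inl hz)
  | pp =>
    intro z hz
    rw [att_zero hn] at hz
    exact hy z hz
  | nn l r r' hrr =>
    unfold LC
    simp only [att_zero hn]
    rcases hy with ⟨z, h2, h3, h4⟩ | ⟨h2, h3, z, z', h4, h5, h6⟩
    · have hz := (h.lt _ _ ((h2 z).2 rfl)).2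
      refine Or.inl ⟨z, h2, fun h5 => absurd h5 (by simp), fun h5 => ?_⟩
      rw [att_jn hn hz (by omega)]
      exact h4 (hrr h5)
    · have hz := (h.lt _ _ ((h5 z).2 (Or.inl rfl))).2
      have hz' := (h.lt _ _ ((h5 z').2 (Or.inr rfl))).2
      rw [← att_jn hn hz hz'] at h6
      refine Or.inr ⟨by trivial, ?_, z, z', h4, h5, h6⟩
      cases r'
      · rfl
      · rw [hrr rfl] at h3
        exact absurd h3 (by simp)

theorem lcV {n : ℕ} {W : ℕ → ℕ → Prop} (hn : 3 ≤ n) (h : AT n W) (hE : EE n W) {x x' : Lab}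
    (hx : LC n W (n - 1) (n - 2) 0 x) (hr : RuleV x x') :
    LC (n + 1) (att n W) (n - 1) (n - 2) n x' := by
  have hJ : Jn (n + 1) (att n W) 0 n := by
    right; left
    have := nx_spec (n + 1) n
    omega
  cases hr with
  | tf =>
    refine ⟨0, att_last.2 (Or.inr rfl), ?_⟩
    intro u hu
    rw [att_dg] at hu
    rcases hu with hu | hu | hu
    · exact absurd hu (hx u)
    · exact hu.2
    · omega
  | tn l r =>
    refine Or.inl ⟨0, ?_, ?_, fun _ => hJ⟩
    · intro u
      rw [att_last]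
      constructor
      · rintro (h1 | h1)
        · exact absurd (Or.inl h1) (hx u)
        · exact h1
      · exact Or.inr
    · intro _
      rw [att_jn hn (by omega) (by omega)]
      have h1 := hE (n - 1) (by omega) hx
      have := pv_spec n (n - 1)
      have := nx_spec n (n - 1)
      rw [show pv n (n - 1) = n - 2 by omega, show nx n (n - 1) = 0 by omega] at h1
      exact h1.symm
  | pn r =>
    refine Or.inl ⟨0, ?_, fun h5 => absurd h5 (by simp), fun _ => hJ⟩
    intro u
    rw [att_last]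
    constructor
    · rintro (h1 | h1)
      · exact absurd h1 (hx u)
      · exact h1
    · exact Or.inr
  | nn l =>
    rcases hx with ⟨z, h2, h3, h4⟩ | ⟨h2, h3, z, z', h4, h5, h6⟩
    · have hz := (h.lt _ _ ((h2 z).2 rfl)).2
      refine Or.inr ⟨rfl, rfl, z, 0, ?_, ?_, ?_⟩
      · rintro rfl
        exact not_last hn h (Or.inl ((h2 0).2 rfl))
      · intro u
        rw [att_last, h2]
      · rw [att_jn hn hz (by omega)]
        exact h4 rfl
    · exact absurd h3 (by simp)

theorem EE.att {n : ℕ} {W : ℕ → ℕ → Prop} (hn : 3 ≤ n) (h : EE n W) :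
    EE (n + 1) (att n W) := by
  intro v hv hz
  have hv0 : v ≠ 0 := by
    rintro rfl
    exact hz (n - 1) (att_dg.2 (Or.inr (Or.inr ⟨rfl, rfl⟩)))
  have hv1 : v ≠ n - 1 := by
    rintro rfl
    exact hz 0 (att_dg.2 (Or.inr (Or.inl ⟨rfl, rfl⟩)))
  have e1 := pv_spec (n + 1) v
  have e2 := nx_spec (n + 1) v
  have e3 := pv_spec n v
  have e4 := nx_spec n v
  by_cases hvn : v = n
  · right; right
    rw [show pv (n + 1) v = n - 1 by omega, show nx (n + 1) v = 0 by omega, att_dg]
    exact Or.inr (Or.inl ⟨rfl, rfl⟩)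
  · have h1 := h v (by omega) (fun z h5 => hz z (att_dg.2 (Or.inl h5)))
    rw [show pv (n + 1) v = pv n v by omega, show nx (n + 1) v = nx n v by omega,
      att_jn hn (pv_lt (by omega)) (nx_lt (by omega))]
    exact h1

theorem PL.att {n : ℕ} {W : ℕ → ℕ → Prop} {L L' : ℕ → Lab} (hn : 3 ≤ n) (h : PL n W L)
    (hE : EE n W) (mid : ∀ k, 0 < k → k + 1 < n → L' k = L k)
    (new : L' n = Lab.tip ∨ L' n = Lab.plus)
    (hv : RuleV (L (n - 1)) (L' (n - 1))) (hy : RuleY (L 0) (L' 0)) :
    PL (n + 1) (att n W) L' where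
  at' := att_at hn h.at'
  cnt := by
    rw [att_cnt hn h.at', h.cnt]
    omega
  lc v hvn := by
    have e1 := pv_spec (n + 1) v
    have e2 := nx_spec (n + 1) v
    have e3 := pv_spec n v
    have e4 := nx_spec n v
    rcases eq_or_ne v n with rfl | h1
    · rcases new with h2 | h2
      · rw [h2]
        exact att_new hn h.at'
      · rw [h2]
        intro z hz
        exact att_new hn h.at' z (Or.inl hz)
    · rcases eq_or_ne v 0 with rfl | h0
      · have h3 := h.lc 0 (by omega)
        rw [show pv n 0 = n - 1 by omega, show nx n 0 = 1 by omega] at h3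
        rw [show pv (n + 1) 0 = n by omega, show nx (n + 1) 0 = 1 by omega]
        exact lcY hn h.at' h3 hy
      · rcases eq_or_ne v (n - 1) with rfl | h2
        · have h3 := h.lc (n - 1) (by omega)
          rw [show pv n (n - 1) = n - 2 by omega, show nx n (n - 1) = 0 by omega] at h3
          rw [show pv (n + 1) (n - 1) = n - 2 by omega, show nx (n + 1) (n - 1) = n by omega]
          exact lcV hn h.at' hE h3 hv
        · have h3 := h.lc v (by omega)
          rw [show pv (n + 1) v = pv n v by omega, show nx (n + 1) v = nx n v by omega,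
            att_lc hn h.at' h2 h0 (pv_lt (by omega)) (nx_lt (by omega)), mid v (by omega) (by omega)]
          exact h3

theorem PL_of_gen {n : ℕ} {L : ℕ → Lab} (h : Gen n L) : ∃ W, PL n W L ∧ EE n W := by
  induction h with
  | base L per h =>
    refine ⟨fun _ _ => False, ⟨⟨fun _ _ h => h.elim, fun _ _ h => h.elim, fun _ _ h => h.elim,
      fun _ _ _ _ _ _ _ h => (or_self_iff.1 h).elim⟩, ?_, ?_⟩, ?_⟩
    · unfold cnt
      simp
    · intro v _
      rcases h v with h1 | h1
      · rw [h1]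
        exact fun z hz => or_self_iff.1 hz
      · rw [h1]
        exact fun z hz => hz
    · intro v hv _
      have e1 := pv_spec 3 v
      have e2 := nx_spec 3 v
      have e3 := nx_spec 3 (nx 3 v)
      right; left
      omega
  | rot n L hg ih =>
    obtain ⟨W, h1, h2⟩ := ih
    exact ⟨_, h1.rot hg.three_le hg.per, h2.rot hg.three_le h1.at'⟩
  | mir n L hg ih =>
    obtain ⟨W, h1, h2⟩ := ih
    exact ⟨_, h1.mir hg.three_le hg.per, h2.mir hg.three_le h1.at'⟩
  | att n L L' hg per mid new hv hy ih =>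
    obtain ⟨W, h1, h2⟩ := ih
    exact ⟨_, h1.att hg.three_le h2 mid new hv hy, h2.att hg.three_le⟩

/-! ### Ears -/

theorem cnt_empty {n : ℕ} {W : ℕ → ℕ → Prop} (h : ∀ a b, ¬ W a b) : cnt n W = 0 := by
  classical
  unfold cnt
  rw [card_eq_zero, filter_eq_empty_iff]
  intro x _
  exact h _ _

theorem empty_three {W : ℕ → ℕ → Prop} (h : AT 3 W) (a b : ℕ) : ¬ W a b := by
  intro hab
  have h1 := h.lt _ _ hab
  have h2 := h.dirr (Or.inl hab)
  have := nx_spec 3 a
  have := nx_spec 3 b
  omega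

/-- a vertex without diagonals next to a shortest diagonal -/
theorem exists_free {n : ℕ} {W : ℕ → ℕ → Prop} (h : AT n W) (hne : ∃ a b, W a b) :
    ∃ i, 1 ≤ i ∧ i + 1 < n ∧ ∀ z, ¬ Dg W i z := by
  classical
  have hex : ∃ l, ∃ a, Dg W a (a + l) := by
    obtain ⟨a, b, hab⟩ := hne
    rcases le_total a b with h1 | h1
    · exact ⟨b - a, a, by rw [show a + (b - a) = b by omega]; exact Or.inl hab⟩
    · exact ⟨a - b, b, by rw [show b + (a - b) = a by omega]; exact Or.inr hab⟩
  obtain ⟨a, ha⟩ := Nat.find_spec hex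
  have hmin : ∀ m, m < Nat.find hex → ∀ c, ¬ Dg W c (c + m) := by
    intro m hm c hc
    exact Nat.find_min hex hm ⟨c, hc⟩
  generalize Nat.find hex = l at ha hmin
  have h1 := h.dlt ha
  have h2 := h.dirr ha
  have e1 := nx_spec n a
  refine ⟨a + 1, by omega, by omega, ?_⟩
  intro z hz
  have h3 := h.dlt hz
  have h4 := h.dirr hz
  have e2 := nx_spec n (a + 1)
  have e3 := nx_spec n z
  rcases lt_trichotomy z a with h5 | h5 | h5
  · exact h.cross z a (a + 1) (a + l) h5 (by omega) (by omega) hz.symm ha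
  · omega
  · rcases lt_or_ge (a + l) z with h6 | h6
    · exact h.cross a (a + 1) (a + l) z (by omega) (by omega) h6 ha hz
    · refine hmin (z - (a + 1)) (by omega) (a + 1) ?_
      rw [show a + 1 + (z - (a + 1)) = z by omega]
      exact hz

/-- the number of diagonals, and the existence of ears -/
theorem ear_aux (n : ℕ) (hn : 3 ≤ n) : ∀ W : ℕ → ℕ → Prop, AT n W →
    cnt n W ≤ n - 3 ∧ (cnt n W = n - 3 → 4 ≤ n →
      ∃ i < n, (∀ z, ¬ Dg W i z) ∧ Dg W (pv n i) (nx n i)) := by
  classical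
  induction n, hn using Nat.le_induction with
  | base =>
    intro W h
    rw [cnt_empty (empty_three h)]
    exact ⟨by omega, fun _ h4 => by omega⟩
  | succ n hn ih =>
    intro W h
    by_cases hne : ∃ a b, W a b
    · obtain ⟨i, hi1, hi2, hi⟩ := exists_free h hne
      have ep := pv_spec (n + 1) i
      have en := nx_spec (n + 1) i
      have hp : pv (n + 1) i = i - 1 := by omega
      have hx : nx (n + 1) i = i + 1 := by omega
      let σ : ℕ → ℕ := fun x => if x < i then x else x + 1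
      let τ : ℕ → ℕ := fun x => if x < i then x else x - 1
      have hσ : ∀ x, (x < i ∧ σ x = x) ∨ (i ≤ x ∧ σ x = x + 1) := by
        intro x
        show (x < i ∧ (if x < i then x else x + 1) = x) ∨
          (i ≤ x ∧ (if x < i then x else x + 1) = x + 1)
        split_ifs with h1
        · exact Or.inl ⟨h1, rfl⟩
        · exact Or.inr ⟨by omega, rfl⟩
      have hτ : ∀ x, (x < i ∧ τ x = x) ∨ (i ≤ x ∧ τ x = x - 1) := by
        intro x
        show (x < i ∧ (if x < i then x else x - 1) = x) ∨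
          (i ≤ x ∧ (if x < i then x else x - 1) = x - 1)
        split_ifs with h1
        · exact Or.inl ⟨h1, rfl⟩
        · exact Or.inr ⟨by omega, rfl⟩
      have hστ : ∀ x, x ≠ i → σ (τ x) = x := by
        intro x hx'
        have := hτ x
        have := hσ (τ x)
        omega
      let W2 : ℕ → ℕ → Prop := fun a b => W (σ a) (σ b) ∧ nx n a ≠ b ∧ nx n b ≠ a
      have hW2 : AT n W2 := by
        refine ⟨?_, ?_, ?_, ?_⟩
        · rintro a b ⟨h1, -⟩
          have := h.lt _ _ h1
          have := hσ a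
          have := hσ b
          omega
        · rintro a b ⟨h1, -⟩ ⟨h2, -⟩
          exact h.ex _ _ h1 h2
        · rintro a b ⟨-, h1⟩
          exact h1
        · intro a b c d hab hbc hcd h1 h2
          have h1' : Dg W (σ a) (σ c) := by
            rcases h1 with h1 | h1
            · exact Or.inl h1.1
            · exact Or.inr h1.1
          have h2' : Dg W (σ b) (σ d) := by
            rcases h2 with h2 | h2
            · exact Or.inl h2.1
            · exact Or.inr h2.1
          have := hσ a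
          have := hσ b
          have := hσ c
          have := hσ d
          exact h.cross (σ a) (σ b) (σ c) (σ d) (by omega) (by omega) (by omega) h1' h2'
      have hne_i : ∀ a b, W a b → a ≠ i ∧ b ≠ i := by
        intro a b hab
        constructor
        · rintro rfl
          exact hi b (Or.inl hab)
        · rintro rfl
          exact hi a (Or.inr hab)
      have hside : ∀ a b, W a b → nx n (τ a) = τ b → a = i - 1 ∧ b = i + 1 := by
        intro a b hab hs
        have h1 := h.lt _ _ hab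
        have h2 := h.dirr (Or.inl hab)
        have h3 := hne_i _ _ hab
        have := nx_spec (n + 1) a
        have := nx_spec (n + 1) b
        have := nx_spec n (τ a)
        have := hτ a
        have := hτ b
        omega
      have hside' : ∀ a b, W a b → nx n (τ b) = τ a → a = i + 1 ∧ b = i - 1 := by
        intro a b hab hs
        have h1 := h.lt _ _ hab
        have h2 := h.dirr (Or.inl hab)
        have h3 := hne_i _ _ hab
        have := nx_spec (n + 1) a
        have := nx_spec (n + 1) b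
        have := nx_spec n (τ b)
        have := hτ a
        have := hτ b
        omega
      obtain ⟨hle, -⟩ := ih W2 hW2
      -- the pairs other than the diagonal which cuts off `i`
      have hS : ((((range (n + 1) ×ˢ range (n + 1)).filter fun x => W x.1 x.2).filter
          fun x => ¬ (x = (i - 1, i + 1) ∨ x = (i + 1, i - 1))).card) ≤ cnt n W2 := by
        unfold cnt
        refine card_le_card_of_injOn (fun x => (τ x.1, τ x.2)) ?_ ?_
        · rintro ⟨a, b⟩ hx'
          simp only [coe_filter, mem_filter, mem_product, mem_range, Set.mem_ofPred_eq,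
            Prod.mk.injEq] at hx' ⊢
          obtain ⟨⟨⟨ha, hb⟩, hab⟩, hP⟩ := hx'
          have h3 := hne_i _ _ hab
          have := hτ a
          have := hτ b
          refine ⟨⟨by omega, by omega⟩, ?_, ?_, ?_⟩
          · rw [hστ a h3.1, hστ b h3.2]
            exact hab
          · intro h4
            exact hP (Or.inl (hside a b hab h4))
          · intro h4
            exact hP (Or.inr (hside' a b hab h4))
        · rintro ⟨a, b⟩ hx' ⟨c, d⟩ hy' hxy
          simp only [coe_filter, mem_filter, mem_product, mem_range, Set.mem_ofPred_eq,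
            Prod.mk.injEq] at hx' hy' hxy
          have h3 := hne_i _ _ hx'.1.2
          have h4 := hne_i _ _ hy'.1.2
          rw [Prod.mk.injEq]
          constructor
          · rw [← hστ a h3.1, hxy.1, hστ c h4.1]
          · rw [← hστ b h3.2, hxy.2, hστ d h4.2]
      have hP : ((((range (n + 1) ×ˢ range (n + 1)).filter fun x => W x.1 x.2).filter
          fun x => (x = (i - 1, i + 1) ∨ x = (i + 1, i - 1))).card) ≤ 1 := by
        rw [card_le_one]
        rintro ⟨a, b⟩ hx' ⟨c, d⟩ hy'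
        simp only [mem_filter, mem_product, mem_range, Prod.mk.injEq] at hx' hy' ⊢
        obtain ⟨⟨-, hab⟩, h1⟩ := hx'
        obtain ⟨⟨-, hcd⟩, h2⟩ := hy'
        rcases h1 with ⟨rfl, rfl⟩ | ⟨rfl, rfl⟩
        · rcases h2 with h2 | ⟨rfl, rfl⟩
          · exact ⟨h2.1.symm, h2.2.symm⟩
          · exact absurd hcd (h.ex _ _ hab)
        · rcases h2 with ⟨rfl, rfl⟩ | h2
          · exact absurd hcd (h.ex _ _ hab)
          · exact ⟨h2.1.symm, h2.2.symm⟩
      have hP0 : ¬ Dg W (i - 1) (i + 1) →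
          ((((range (n + 1) ×ˢ range (n + 1)).filter fun x => W x.1 x.2).filter
          fun x => (x = (i - 1, i + 1) ∨ x = (i + 1, i - 1))).card) = 0 := by
        intro hD
        rw [card_eq_zero, filter_eq_empty_iff]
        rintro ⟨a, b⟩ hx' h1
        simp only [mem_filter, mem_product, mem_range, Prod.mk.injEq] at hx' h1
        rcases h1 with ⟨rfl, rfl⟩ | ⟨rfl, rfl⟩
        · exact hD (Or.inl hx'.2)
        · exact hD (Or.inr hx'.2)
      have hsum := card_filter_add_card_filter_not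
        (s := (range (n + 1) ×ˢ range (n + 1)).filter fun x => W x.1 x.2)
        (fun x => (x = (i - 1, i + 1) ∨ x = (i + 1, i - 1)))
      have hc : cnt (n + 1) W =
        ((range (n + 1) ×ˢ range (n + 1)).filter fun x => W x.1 x.2).card := rfl
      rw [← hc] at hsum
      refine ⟨by omega, fun h1 _ => ⟨i, by omega, hi, ?_⟩⟩
      rw [hp, hx]
      by_contra hD
      have := hP0 hD
      omega
    · rw [cnt_empty (fun a b hab => hne ⟨a, b, hab⟩)]
      exact ⟨by omega, fun h1 _ => by omega⟩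

/-! ### Removing a vertex -/

theorem removal {n : ℕ} {W : ℕ → ℕ → Prop} (hn : 3 ≤ n) (h : AT (n + 1) W)
    (hnew : ∀ z, ¬ Dg W n z) (hW : W (n - 1) 0) : ∃ W', AT n W' ∧ W = att n W' := by
  refine ⟨fun a b => W a b ∧ ¬ (a = n - 1 ∧ b = 0), ⟨?_, ?_, ?_, ?_⟩, ?_⟩
  · rintro a b ⟨h1, -⟩
    have h2 := h.lt _ _ h1
    have h3 : a ≠ n := by
      rintro rfl
      exact hnew b (Or.inl h1)
    have h4 : b ≠ n := by
      rintro rfl
      exact hnew a (Or.inr h1)
    omega
  · rintro a b ⟨h1, -⟩ ⟨h2, -⟩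
    exact h.ex _ _ h1 h2
  · rintro a b ⟨h1, h2⟩
    have h3 := h.irr _ _ h1
    have h4 := h.lt _ _ h1
    have h5 : a ≠ n := by
      rintro rfl
      exact hnew b (Or.inl h1)
    have h6 : b ≠ n := by
      rintro rfl
      exact hnew a (Or.inr h1)
    have e1 := nx_spec n a
    have e2 := nx_spec n b
    have e3 := nx_spec (n + 1) a
    have e4 := nx_spec (n + 1) b
    constructor
    · intro h7
      omega
    · intro h7
      have h8 : b = n - 1 ∧ a = 0 := by omega
      rw [h8.1, h8.2] at h1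
      exact h.ex _ _ hW h1
  · intro a b c d hab hbc hcd h1 h2
    refine h.cross a b c d hab hbc hcd ?_ ?_
    · rcases h1 with h1 | h1
      · exact Or.inl h1.1
      · exact Or.inr h1.1
    · rcases h2 with h2 | h2
      · exact Or.inl h2.1
      · exact Or.inr h2.1
  · funext a b
    unfold att
    apply propext
    constructor
    · intro h1
      by_cases h2 : a = n - 1 ∧ b = 0
      · exact Or.inr h2
      · exact Or.inl ⟨h1, h2⟩
    · rintro (h1 | h1)
      · exact h1.1
      · rw [h1.1, h1.2]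
        exact hW

theorem exY {n : ℕ} {W : ℕ → ℕ → Prop} (hn : 3 ≤ n) (h : AT n W) {y' : Lab}
    (hy : LC (n + 1) (att n W) 0 n 1 y') : ∃ y, LC n W 0 (n - 1) 1 y ∧ RuleY y y' := by
  cases y' with
  | tip => exact absurd (att_dg.2 (Or.inr (Or.inr ⟨rfl, rfl⟩))) (hy (n - 1))
  | plus =>
    refine ⟨Lab.plus, ?_, RuleY.pp⟩
    intro z hz
    exact hy z ((att_zero hn).2 hz)
  | flat =>
    obtain ⟨z, h1, h2⟩ := hy
    rw [att_zero hn] at h1
    have h3 := h2 (n - 1) (att_dg.2 (Or.inr (Or.inr ⟨rfl, rfl⟩)))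
    rw [← h3] at h1
    exact absurd (Or.inr h1) (not_last hn h)
  | neg l r =>
    unfold LC at hy
    simp only [att_zero hn] at hy
    rcases hy with ⟨z, h2, h3, h4⟩ | ⟨h2, h3, z, z', h4, h5, h6⟩
    · have hz := (h.lt _ _ ((h2 z).2 rfl)).2
      have hl : l = false := by
        cases l
        · rfl
        · exfalso
          have h5 : Dg W 0 z := Or.inl ((h2 z).2 rfl)
          have h6 := h.dirr h5
          rcases h3 rfl with h7 | h7 | h7
          · have := nx_spec (n + 1) z
            have := nx_spec n z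
            omega
          · have := nx_spec (n + 1) n
            omega
          · exact att_new hn h z h7.symm
      subst hl
      refine ⟨Lab.neg false r, Or.inl ⟨z, h2, fun h5 => absurd h5 (by simp), ?_⟩,
        RuleY.nn false r r id⟩
      intro h5
      rw [← att_jn hn hz (by omega)]
      exact h4 h5
    · have hz := (h.lt _ _ ((h5 z).2 (Or.inl rfl))).2
      have hz' := (h.lt _ _ ((h5 z').2 (Or.inr rfl))).2
      rw [att_jn hn hz hz'] at h6
      subst h2
      exact ⟨Lab.neg false r, Or.inr ⟨rfl, h3, z, z', h4, h5, h6⟩, RuleY.nn false r r id⟩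

theorem exV {n : ℕ} {W : ℕ → ℕ → Prop} (hn : 3 ≤ n) (h : AT n W) {x' : Lab}
    (hx : LC (n + 1) (att n W) (n - 1) (n - 2) n x') :
    ∃ x, LC n W (n - 1) (n - 2) 0 x ∧ RuleV x x' := by
  have hnl := not_last hn h
  cases x' with
  | tip => exact absurd (att_dg.2 (Or.inr (Or.inl ⟨rfl, rfl⟩))) (hx 0)
  | plus => exact absurd (att_last.2 (Or.inr rfl)) (hx 0)
  | flat =>
    obtain ⟨z, h1, h2⟩ := hx
    have hz : 0 = z := h2 0 (att_dg.2 (Or.inr (Or.inl ⟨rfl, rfl⟩)))
    subst hz
    refine ⟨Lab.tip, ?_, RuleV.tf⟩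
    intro u hu
    have h3 := h2 u (att_dg.2 (Or.inl hu))
    rw [h3] at hu
    exact hnl hu
  | neg l r =>
    rcases hx with ⟨z, h2, h3, h4⟩ | ⟨h2, h3, z, z', h4, h5, h6⟩
    · have hz : 0 = z := (h2 0).1 (att_last.2 (Or.inr rfl))
      subst hz
      have hno : ∀ u, ¬ W (n - 1) u := by
        intro u hu
        have h5 := (h2 u).1 (att_last.2 (Or.inl hu))
        rw [h5] at hu
        exact hnl (Or.inl hu)
      by_cases hD : ∀ u, ¬ Dg W (n - 1) u
      · exact ⟨Lab.tip, hD, RuleV.tn l r⟩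
      · obtain ⟨u, hu⟩ : ∃ u, Dg W (n - 1) u := by
          by_contra hcon
          exact hD fun u hu => hcon ⟨u, hu⟩
        have hl : l = false := by
          cases l
          · rfl
          · exfalso
            have h5 := h.dlt hu
            have h6 := h.dirr hu
            have hu0 : u ≠ 0 := by
              rintro rfl
              exact hnl hu
            have e1 := nx_spec n u
            have e2 := nx_spec n (n - 1)
            have h7 := h3 rfl
            rw [att_jn hn (by omega) (by omega)] at h7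
            rcases h7 with h7 | h7 | h7
            · have := nx_spec n 0
              omega
            · have := nx_spec n (n - 2)
              omega
            · refine h.cross 0 u (n - 2) (n - 1) (by omega) (by omega) (by omega) h7 hu.symm
        subst hl
        exact ⟨Lab.plus, hno, RuleV.pn r⟩
    · subst h2
      subst h3
      have h0 : 0 = z ∨ 0 = z' := (h5 0).1 (att_last.2 (Or.inr rfl))
      have key : ∀ z, z ≠ 0 → (∀ u, att n W (n - 1) u ↔ u = z ∨ u = 0) →
          Jn (n + 1) (att n W) z 0 → LC n W (n - 1) (n - 2) 0 (Lab.neg false true) := by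
        intro z hz0 h7 h8
        have hWz : W (n - 1) z := by
          rcases att_last.1 ((h7 z).2 (Or.inl rfl)) with h9 | h9
          · exact h9
          · exact absurd h9 hz0
        refine Or.inl ⟨z, ?_, fun h5 => absurd h5 (by simp), fun _ => ?_⟩
        · intro u
          constructor
          · intro hu
            rcases (h7 u).1 (att_last.2 (Or.inl hu)) with h9 | h9
            · exact h9
            · rw [h9] at hu
              exact absurd (Or.inl hu) hnl
          · rintro rfl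
            exact hWz
        · rw [← att_jn hn (h.lt _ _ hWz).2 (by omega)]
          exact h8
      rcases h0 with h0 | h0
      · subst h0
        refine ⟨Lab.neg false true, key z' (Ne.symm h4) ?_ h6.symm, RuleV.nn false⟩
        intro u
        rw [h5]
        exact or_comm
      · subst h0
        exact ⟨Lab.neg false true, key z h4 h5 h6, RuleV.nn false⟩

theorem gen_core {n : ℕ} {W : ℕ → ℕ → Prop} {L' : ℕ → Lab} (hn : 3 ≤ n)
    (ih : ∀ W L, (∀ k, L (k + n) = L k) → PL n W L → Gen n L)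
    (per : ∀ k, L' (k + (n + 1)) = L' k) (hL : PL (n + 1) W L') (hnew : ∀ z, ¬ Dg W n z)
    (hW : W (n - 1) 0) : Gen (n + 1) L' := by
  obtain ⟨W, hat, rfl⟩ := removal hn hL.at' hnew hW
  have e1 := pv_spec (n + 1) 0
  have e2 := nx_spec (n + 1) 0
  have e3 := pv_spec (n + 1) (n - 1)
  have e4 := nx_spec (n + 1) (n - 1)
  have hy0 := hL.lc 0 (by omega)
  rw [show pv (n + 1) 0 = n by omega, show nx (n + 1) 0 = 1 by omega] at hy0
  have hx0 := hL.lc (n - 1) (by omega)
  rw [show pv (n + 1) (n - 1) = n - 2 by omega, show nx (n + 1) (n - 1) = n by omega] at hx0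
  obtain ⟨y, hy, hry⟩ := exY hn hat hy0
  obtain ⟨x, hx, hrx⟩ := exV hn hat hx0
  let lab : ℕ → Lab := fun k => if k = n - 1 then x else if k = 0 then y else L' k
  let L : ℕ → Lab := fun k => lab (k % n)
  have perL : ∀ k, L (k + n) = L k := by
    intro k
    show lab ((k + n) % n) = lab (k % n)
    rw [Nat.add_mod_right]
  have hLlt : ∀ k < n, L k = lab k := by
    intro k hk
    show lab (k % n) = lab k
    rw [Nat.mod_eq_of_lt hk]
  have hL1 : L (n - 1) = x := by
    rw [hLlt _ (by omega)]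
    show (if n - 1 = n - 1 then x else if n - 1 = 0 then y else L' (n - 1)) = x
    rw [if_pos rfl]
  have hL0 : L 0 = y := by
    rw [hLlt _ (by omega)]
    show (if 0 = n - 1 then x else if 0 = 0 then y else L' 0) = y
    rw [if_neg (by omega), if_pos rfl]
  have hLm : ∀ k, 0 < k → k + 1 < n → L' k = L k := by
    intro k h0 h1
    rw [hLlt _ (by omega)]
    show L' k = if k = n - 1 then x else if k = 0 then y else L' k
    rw [if_neg (by omega), if_neg (by omega)]
  have hPL : PL n W L := by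
    refine ⟨hat, ?_, ?_⟩
    · have h1 := att_cnt hn hat
      rw [hL.cnt] at h1
      omega
    · intro v hv
      have f1 := pv_spec n v
      have f2 := nx_spec n v
      have f3 := pv_spec (n + 1) v
      have f4 := nx_spec (n + 1) v
      rcases eq_or_ne v 0 with rfl | h0
      · rw [show pv n 0 = n - 1 by omega, show nx n 0 = 1 by omega, hL0]
        exact hy
      · rcases eq_or_ne v (n - 1) with rfl | h2
        · rw [show pv n (n - 1) = n - 2 by omega, show nx n (n - 1) = 0 by omega, hL1]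
          exact hx
        · have h3 := hL.lc v (by omega)
          rw [show pv (n + 1) v = pv n v by omega, show nx (n + 1) v = nx n v by omega,
            att_lc hn hat h2 h0 (pv_lt (by omega)) (nx_lt (by omega)),
            hLm v (by omega) (by omega)] at h3
          exact h3
  refine Gen.att n L L' (ih W L perL hPL) per hLm ?_ (by rw [hL1]; exact hrx)
    (by rw [hL0]; exact hry)
  have h1 := hL.lc n (by omega)
  have hno : ∀ z, ¬ att n W n z := fun z hz => att_new hn hat z (Or.inl hz)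
  generalize L' n = lab' at h1 ⊢
  cases lab' with
  | tip => exact Or.inl rfl
  | plus => exact Or.inr rfl
  | flat =>
    obtain ⟨z, hz, -⟩ := h1
    exact absurd hz (hno z)
  | neg l r =>
    rcases h1 with ⟨z, h2, -⟩ | ⟨-, -, z, z', -, h2, -⟩
    · exact absurd ((h2 z).2 rfl) (hno z)
    · exact absurd ((h2 z).2 (Or.inl rfl)) (hno z)

theorem gen_unrot {n : ℕ} {L : ℕ → Lab} (hn : 3 ≤ n) (per : ∀ k, L (k + n) = L k)
    (h : Gen n (fun k => L (k + 1))) : Gen n L := by
  have h1 := h.rotk (n - 1)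
  have e : (fun k => (fun k => L (k + 1)) (k + (n - 1))) = L := by
    funext k
    show L (k + (n - 1) + 1) = L k
    rw [show k + (n - 1) + 1 = k + n by omega, per]
  rwa [e] at h1

theorem gen_ear {n : ℕ} (hn : 3 ≤ n)
    (ih : ∀ W L, (∀ k, L (k + n) = L k) → PL n W L → Gen n L) (i : ℕ) :
    ∀ (W : ℕ → ℕ → Prop) (L' : ℕ → Lab), (∀ k, L' (k + (n + 1)) = L' k) → PL (n + 1) W L' →
      i < n + 1 → (∀ z, ¬ Dg W i z) → W (pv (n + 1) i) (nx (n + 1) i) → Gen (n + 1) L' := by
  have hlast : ∀ (W : ℕ → ℕ → Prop) (L' : ℕ → Lab), (∀ k, L' (k + (n + 1)) = L' k) →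
      PL (n + 1) W L' → (∀ z, ¬ Dg W n z) → W (pv (n + 1) n) (nx (n + 1) n) →
      Gen (n + 1) L' := by
    intro W L' per hL h1 h2
    have e1 := pv_spec (n + 1) n
    have e2 := nx_spec (n + 1) n
    rw [show pv (n + 1) n = n - 1 by omega, show nx (n + 1) n = 0 by omega] at h2
    exact gen_core hn ih per hL h1 h2
  have hn1 : 3 ≤ n + 1 := by omega
  have step : ∀ (W : ℕ → ℕ → Prop) (L' : ℕ → Lab), (∀ k, L' (k + (n + 1)) = L' k) →
      PL (n + 1) W L' → ∀ j < n + 1, (∀ z, ¬ Dg W (nx (n + 1) j) z) →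
      W (pv (n + 1) (nx (n + 1) j)) (nx (n + 1) (nx (n + 1) j)) →
      PL (n + 1) (tr (n + 1) (nx (n + 1)) W) (fun k => L' (k + 1)) ∧
      (∀ z, ¬ Dg (tr (n + 1) (nx (n + 1)) W) j z) ∧
      tr (n + 1) (nx (n + 1)) W (pv (n + 1) j) (nx (n + 1) j) := by
    intro W L' per hL j hj h1 h2
    refine ⟨hL.rot hn1 per, ?_, pv_lt hj, nx_lt hj, ?_⟩
    · rw [tr_nod (iso_rot hn1) hL.at' hj]
      exact h1
    · rw [← pv_nx hn1 hj]
      exact h2
  induction i with
  | zero =>
    intro W L' per hL _ h1 h2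
    have e1 := nx_spec (n + 1) n
    have e : nx (n + 1) n = 0 := by omega
    obtain ⟨g1, g2, g3⟩ := step W L' per hL n (by omega) (by rw [e]; exact h1)
      (by rw [e]; exact h2)
    exact gen_unrot hn1 per (hlast _ _ (fun k => by
      show L' (k + (n + 1) + 1) = L' (k + 1)
      rw [show k + (n + 1) + 1 = (k + 1) + (n + 1) by omega, per]) g1 g2 g3)
  | succ i ihi =>
    intro W L' per hL hi h1 h2
    have e1 := nx_spec (n + 1) i
    have e : nx (n + 1) i = i + 1 := by omega
    obtain ⟨g1, g2, g3⟩ := step W L' per hL i (by omega) (by rw [e]; exact h1)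
      (by rw [e]; exact h2)
    exact gen_unrot hn1 per (ihi _ _ (fun k => by
      show L' (k + (n + 1) + 1) = L' (k + 1)
      rw [show k + (n + 1) + 1 = (k + 1) + (n + 1) by omega, per]) g1 (by omega) g2 g3)

theorem gen_unmir {n : ℕ} {L : ℕ → Lab} (hn : 3 ≤ n) (per : ∀ k, L (k + n) = L k)
    (h : Gen n (fun k => (L ((n - 1) * k)).mir)) : Gen n L := by
  have h1 := Gen.mir _ _ h
  have e : (fun k => ((fun k => (L ((n - 1) * k)).mir) ((n - 1) * k)).mir) = L := by
    funext k
    show ((L ((n - 1) * ((n - 1) * k))).mir).mir = L k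
    have e1 : (n - 1) * ((n - 1) * k) = k + n * ((n - 2) * k) := by
      obtain ⟨d, rfl⟩ : ∃ d, n = d + 2 := ⟨n - 2, by omega⟩
      rw [show d + 2 - 1 = d + 1 by omega, show d + 2 - 2 = d by omega]
      ring
    rw [e1, per_mul L n per]
    cases L k <;> rfl
  rwa [e] at h1

theorem gen_of_PL (n : ℕ) (hn : 3 ≤ n) : ∀ (W : ℕ → ℕ → Prop) (L : ℕ → Lab),
    (∀ k, L (k + n) = L k) → PL n W L → Gen n L := by
  induction n, hn using Nat.le_induction with
  | base =>
    intro W L per h
    refine Gen.base L per ?_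
    intro k
    have h1 := h.lc (k % 3) (Nat.mod_lt _ (by omega))
    have e : L k = L (k % 3) := by
      conv_lhs => rw [← Nat.mod_add_div k 3]
      rw [per_mul L 3 per]
    rw [e]
    have hno := empty_three h.at'
    generalize L (k % 3) = lab at h1 ⊢
    cases lab with
    | tip => exact Or.inl rfl
    | plus => exact Or.inr rfl
    | flat =>
      obtain ⟨z, hz, -⟩ := h1
      exact absurd hz (hno _ z)
    | neg l r =>
      rcases h1 with ⟨z, h2, -⟩ | ⟨-, -, z, z', -, h2, -⟩
      · exact absurd ((h2 z).2 rfl) (hno _ z)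
      · exact absurd ((h2 z).2 (Or.inl rfl)) (hno _ z)
  | succ n hn ih =>
    intro W L per h
    have hn1 : 3 ≤ n + 1 := by omega
    obtain ⟨i, hi, h1, h2⟩ := (ear_aux (n + 1) hn1 W h.at').2 h.cnt (by omega)
    rcases h2 with h2 | h2
    · exact gen_ear hn ih i W L per h hi h1 h2
    · refine gen_unmir hn1 per ?_
      refine gen_ear hn ih (ng (n + 1) i) _ _ ?_ (h.mir hn1 per) (ng_lt hi) ?_ ?_
      · intro k
        show (L ((n + 1 - 1) * (k + (n + 1)))).mir = (L ((n + 1 - 1) * k)).mir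
        rw [Nat.mul_add, Nat.mul_comm (n + 1 - 1) (n + 1), per_mul L (n + 1) per]
      · rw [tr_nod (iso_mir hn1) h.at' (ng_lt hi), (iso_mir hn1).fg _ hi]
        exact h1
      · refine ⟨pv_lt (ng_lt hi), nx_lt (ng_lt hi), ?_⟩
        rw [pv_ng hn1 hi, nx_ng hn1 hi, (iso_mir hn1).fg _ (nx_lt hi),
          (iso_mir hn1).fg _ (pv_lt hi)]
        exact h2

/-! ### Comparison with triangulations -/

/-- the ordered pair -/
def pr (a b : ℕ) : ℕ × ℕ := if a < b then (a, b) else (b, a)

theorem pr_spec (a b : ℕ) : (a < b ∧ pr a b = (a, b)) ∨ (b ≤ a ∧ pr a b = (b, a)) := by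
  unfold pr
  split_ifs with h
  · exact Or.inl ⟨h, rfl⟩
  · exact Or.inr ⟨by omega, rfl⟩

theorem other_fst (d : ℕ × ℕ) : other d d.1 = d.2 := by
  unfold other
  rw [if_pos rfl]

theorem other_snd {d : ℕ × ℕ} (h : d.1 < d.2) : other d d.2 = d.1 := by
  unfold other
  rw [if_neg (by omega)]

structure Br (n : ℕ) (T : Finset (ℕ × ℕ)) (w : ℕ × ℕ → ℕ) (W : ℕ → ℕ → Prop) : Prop where
  lt : ∀ d ∈ T, d.1 < d.2 ∧ d.2 < n
  hw : ∀ d ∈ T, w d = d.1 ∨ w d = d.2
  iff : ∀ a b, W a b ↔ (a < b ∧ (a, b) ∈ T ∧ w (a, b) = a) ∨ (b < a ∧ (b, a) ∈ T ∧ w (b, a) = a)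

section Br

variable {n : ℕ} {T : Finset (ℕ × ℕ)} {w : ℕ × ℕ → ℕ} {W : ℕ → ℕ → Prop}

theorem Br.p1 (h : Br n T w W) {v z : ℕ} (hz : W v z) :
    pr v z ∈ T ∧ w (pr v z) = v ∧ other (pr v z) v = z := by
  rcases (h.iff v z).1 hz with ⟨h1, h2, h3⟩ | ⟨h1, h2, h3⟩
  · have e : pr v z = (v, z) := by
      have := pr_spec v z
      rcases this with h4 | h4
      · exact h4.2
      · omega
    rw [e]
    exact ⟨h2, h3, other_fst (v, z)⟩
  · have e : pr v z = (z, v) := by
      have := pr_spec v z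
      rcases this with h4 | h4
      · omega
      · exact h4.2
    rw [e]
    exact ⟨h2, h3, other_snd (d := (z, v)) h1⟩

theorem Br.p2 (h : Br n T w W) {d : ℕ × ℕ} (hd : d ∈ T) :
    W (w d) (other d (w d)) ∧ d = pr (w d) (other d (w d)) := by
  have hlt := h.lt d hd
  rcases h.hw d hd with h1 | h1
  · rw [h1, other_fst]
    refine ⟨(h.iff _ _).2 (Or.inl ⟨hlt.1, hd, h1⟩), ?_⟩
    rcases pr_spec d.1 d.2 with h2 | h2
    · rw [h2.2]
    · omega
  · rw [h1, other_snd hlt.1]
    refine ⟨(h.iff _ _).2 (Or.inr ⟨hlt.1, hd, h1⟩), ?_⟩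
    rcases pr_spec d.2 d.1 with h2 | h2
    · omega
    · rw [h2.2]

theorem Br.dg (h : Br n T w W) {a b : ℕ} :
    Dg W a b ↔ (a < b ∧ (a, b) ∈ T) ∨ (b < a ∧ (b, a) ∈ T) := by
  unfold Dg
  rw [h.iff, h.iff]
  constructor
  · rintro ((h1 | h1) | (h1 | h1))
    · exact Or.inl ⟨h1.1, h1.2.1⟩
    · exact Or.inr ⟨h1.1, h1.2.1⟩
    · exact Or.inr ⟨h1.1, h1.2.1⟩
    · exact Or.inl ⟨h1.1, h1.2.1⟩
  · rintro (h1 | h1)
    · rcases h.hw _ h1.2 with h2 | h2
      · exact Or.inl (Or.inl ⟨h1.1, h1.2, h2⟩)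
      · exact Or.inr (Or.inr ⟨h1.1, h1.2, h2⟩)
    · rcases h.hw _ h1.2 with h2 | h2
      · exact Or.inr (Or.inl ⟨h1.1, h1.2, h2⟩)
      · exact Or.inl (Or.inr ⟨h1.1, h1.2, h2⟩)

theorem Br.p3 (h : Br n T w W) {d : ℕ × ℕ} (hd : d ∈ T) {v : ℕ} (hv : d.1 = v ∨ d.2 = v) :
    Dg W v (other d v) ∧ d = pr v (other d v) := by
  have hlt := h.lt d hd
  rw [h.dg]
  rcases hv with rfl | rfl
  · rw [other_fst]
    refine ⟨Or.inl ⟨hlt.1, hd⟩, ?_⟩
    rcases pr_spec d.1 d.2 with h2 | h2
    · rw [h2.2]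
    · omega
  · rw [other_snd hlt.1]
    refine ⟨Or.inr ⟨hlt.1, hd⟩, ?_⟩
    rcases pr_spec d.2 d.1 with h2 | h2
    · omega
    · rw [h2.2]

theorem Br.p4 (h : Br n T w W) {v z : ℕ} (hz : Dg W v z) :
    pr v z ∈ T ∧ ((pr v z).1 = v ∨ (pr v z).2 = v) ∧ other (pr v z) v = z := by
  rcases h.dg.1 hz with h1 | h1
  · have e : pr v z = (v, z) := by
      rcases pr_spec v z with h4 | h4
      · exact h4.2
      · omega
    rw [e]
    exact ⟨h1.2, Or.inl rfl, other_fst (v, z)⟩
  · have e : pr v z = (z, v) := by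
      rcases pr_spec v z with h4 | h4
      · omega
      · exact h4.2
    rw [e]
    exact ⟨h1.2, Or.inr rfl, other_snd (d := (z, v)) h1.1⟩

theorem Br.card (h : Br n T w W) : T.card = cnt n W := by
  classical
  unfold cnt
  symm
  refine card_nbij' (fun x => pr x.1 x.2) (fun d => (w d, other d (w d))) ?_ ?_ ?_ ?_
  · rintro ⟨a, b⟩ hx
    simp only [coe_filter, mem_product, mem_range, Set.mem_ofPred_eq, mem_coe] at hx ⊢
    exact (h.p1 hx.2).1
  · intro d hd
    have hd' : d ∈ T := hd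
    have h1 := (h.p2 hd').1
    have h2 := h.lt d hd'
    simp only [coe_filter, mem_product, mem_range, Set.mem_ofPred_eq]
    refine ⟨?_, h1⟩
    rcases h.hw d hd' with h3 | h3
    · rw [h3, other_fst]
      omega
    · rw [h3, other_snd h2.1]
      omega
  · rintro ⟨a, b⟩ hx
    simp only [coe_filter, mem_product, mem_range, Set.mem_ofPred_eq] at hx
    have h1 := h.p1 hx.2
    simp only [h1.2.1, h1.2.2]
  · intro d hd
    exact (h.p2 hd).2.symm

theorem Br.joined (h : Br n T w W) {a b : ℕ} (ha : a < n) (hb : b < n) :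
    Joined n T a b ↔ Jn n W a b := by
  have e1 := nx_spec n a
  have e2 := nx_spec n b
  unfold Joined Jn
  rw [h.dg]
  constructor
  · rintro (h1 | h1 | h1 | h1 | h1 | h1)
    · left; omega
    · right; left; omega
    · right; left; omega
    · left; omega
    · right; right; left; exact ⟨(h.lt _ h1).1, h1⟩
    · right; right; right; exact ⟨(h.lt _ h1).1, h1⟩
  · rintro (h1 | h1 | h1 | h1)
    · by_cases h2 : b = a + 1
      · exact Or.inl h2
      · right; right; right; left; omega
    · by_cases h2 : a = b + 1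
      · exact Or.inr (Or.inl h2)
      · right; right; left; omega
    · right; right; right; right; left; exact h1.2
    · right; right; right; right; right; exact h1.2

theorem Br.b1 (h : Br n T w W) {v : ℕ} : (∀ d ∈ T, w d ≠ v) ↔ ∀ z, ¬ W v z := by
  constructor
  · intro h1 z hz
    have h2 := h.p1 hz
    exact h1 _ h2.1 h2.2.1
  · rintro h1 d hd rfl
    exact h1 _ (h.p2 hd).1

theorem Br.b2 (h : Br n T w W) {v : ℕ} :
    (∃ d ∈ T, w d = v ∧ ∀ e ∈ T, (e.1 = v ∨ e.2 = v) → e = d) ↔
      ∃ z, W v z ∧ ∀ u, Dg W v u → u = z := by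
  constructor
  · rintro ⟨d, hd, rfl, h2⟩
    refine ⟨_, (h.p2 hd).1, ?_⟩
    intro u hu
    have h3 := h.p4 hu
    rw [← h3.2.2, h2 _ h3.1 h3.2.1]
  · rintro ⟨z, h1, h2⟩
    have h3 := h.p1 h1
    refine ⟨_, h3.1, h3.2.1, ?_⟩
    intro e he hev
    have h4 := h.p3 he hev
    rw [h4.2, h2 _ h4.1]

theorem Br.b3 (h : Br n T w W) (hA : AT n W) {v p q : ℕ} :
    ((∃ d ∈ T, ∀ e ∈ T, w e = v ↔ e = d) ∨
        ∃ d ∈ T, ∃ e ∈ T, d ≠ e ∧ (∀ f ∈ T, w f = v ↔ f = d ∨ f = e) ∧
          Joined n T (other d v) (other e v)) ↔ LC n W v p q (Lab.neg false false) := by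
  have hinj : ∀ z z', W v z → W v z' → pr v z = pr v z' → z = z' := by
    intro z z' h1 h2 h3
    rw [← (h.p1 h1).2.2, ← (h.p1 h2).2.2, h3]
  constructor
  · rintro (⟨d, hd, h1⟩ | ⟨d, hd, e, he, hde, h1, h2⟩)
    · have hdv : w d = v := (h1 d hd).2 rfl
      have h2 := h.p2 hd
      rw [hdv] at h2
      refine Or.inl ⟨other d v, ?_, fun h5 => absurd h5 (by simp), fun h5 => absurd h5 (by simp)⟩
      intro u
      constructor
      · intro hu
        have h3 := h.p1 hu
        have h4 := (h1 _ h3.1).1 h3.2.1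
        rw [← h3.2.2, h4]
      · rintro rfl
        exact h2.1
    · have hdv : w d = v := (h1 d hd).2 (Or.inl rfl)
      have hev : w e = v := (h1 e he).2 (Or.inr rfl)
      have h3 := h.p2 hd
      rw [hdv] at h3
      have h4 := h.p2 he
      rw [hev] at h4
      have hz := (hA.lt _ _ h3.1).2
      have hz' := (hA.lt _ _ h4.1).2
      refine Or.inr ⟨rfl, rfl, other d v, other e v, ?_, ?_, (h.joined hz hz').1 h2⟩
      · intro h5
        apply hde
        rw [h3.2, h4.2, h5]
      · intro u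
        constructor
        · intro hu
          have h5 := h.p1 hu
          rcases (h1 _ h5.1).1 h5.2.1 with h6 | h6
          · left; rw [← h5.2.2, h6]
          · right; rw [← h5.2.2, h6]
        · rintro (rfl | rfl)
          · exact h3.1
          · exact h4.1
  · rintro (⟨z, h1, -, -⟩ | ⟨-, -, z, z', h1, h2, h3⟩)
    · have h2 := h.p1 ((h1 z).2 rfl)
      refine Or.inl ⟨_, h2.1, ?_⟩
      intro e he
      constructor
      · rintro rfl
        have h3 := h.p2 he
        rw [h3.2, (h1 _).1 h3.1, h2.2.1]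
      · rintro rfl
        exact h2.2.1
    · have h4 := (h2 z).2 (Or.inl rfl)
      have h5 := (h2 z').2 (Or.inr rfl)
      have h6 := h.p1 h4
      have h7 := h.p1 h5
      refine Or.inr ⟨pr v z, h6.1, pr v z', h7.1, ?_, ?_, ?_⟩
      · intro h8
        exact h1 (hinj _ _ h4 h5 h8)
      · intro f hf
        constructor
        · intro h9
          have h8 := h.p2 hf
          rw [h9] at h8
          rcases (h2 _).1 h8.1 with h10 | h10
          · left; rw [h8.2, h10]
          · right; rw [h8.2, h10]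
        · rintro (rfl | rfl)
          · exact h6.2.1
          · exact h7.2.1
      · rw [h6.2.2, h7.2.2, h.joined (hA.lt _ _ h4).2 (hA.lt _ _ h5).2]
        exact h3

end Br

end Cr

open Cr Finset in
theorem criterion_of_gen {n : ℕ} {L : ℕ → Lab} (h : Gen n L) :
    Criterion n (fun k => (L k).sgn) := by
  classical
  obtain ⟨W, hW, -⟩ := PL_of_gen h
  have hA := hW.at'
  let T : Finset (ℕ × ℕ) := (range n ×ˢ range n).filter fun x => x.1 < x.2 ∧ Dg W x.1 x.2
  let w : ℕ × ℕ → ℕ := fun d => if W d.1 d.2 then d.1 else d.2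
  have hT : ∀ d, d ∈ T ↔ (d.1 < n ∧ d.2 < n) ∧ d.1 < d.2 ∧ Dg W d.1 d.2 := by
    intro d
    rw [mem_filter, mem_product, mem_range, mem_range]
  have hB : Br n T w W := by
    refine ⟨?_, ?_, ?_⟩
    · intro d hd
      rw [hT] at hd
      exact ⟨hd.2.1, hd.1.2⟩
    · intro d _
      show (if W d.1 d.2 then d.1 else d.2) = d.1 ∨ (if W d.1 d.2 then d.1 else d.2) = d.2
      split_ifs
      · exact Or.inl rfl
      · exact Or.inr rfl
    · intro a b
      rw [hT, hT]
      show W a b ↔ (a < b ∧ ((a < n ∧ b < n) ∧ a < b ∧ Dg W a b) ∧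
        (if W a b then a else b) = a) ∨ (b < a ∧ ((b < n ∧ a < n) ∧ b < a ∧ Dg W b a) ∧
        (if W b a then b else a) = a)
      constructor
      · intro hab
        have h1 := hA.lt _ _ hab
        have h2 := hA.dirr (Or.inl hab)
        rcases Nat.lt_or_gt_of_ne h2.2.2 with h3 | h3
        · exact Or.inl ⟨h3, ⟨h1, h3, Or.inl hab⟩, by rw [if_pos hab]⟩
        · exact Or.inr ⟨h3, ⟨h1.symm, h3, Or.inr hab⟩, by rw [if_neg (hA.ex _ _ hab)]⟩
      · rintro (⟨h1, ⟨-, -, h2⟩, h3⟩ | ⟨h1, ⟨-, -, h2⟩, h3⟩)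
        · by_contra h4
          rw [if_neg h4] at h3
          omega
        · rcases h2 with h2 | h2
          · rw [if_pos h2] at h3
            omega
          · exact h2
  refine ⟨T, ⟨?_, ?_, ?_⟩, w, hB.hw, ?_⟩
  · intro d hd
    rw [hT] at hd
    have h1 := hA.dirr hd.2.2
    have := nx_spec n d.1
    have := nx_spec n d.2
    omega
  · intro d hd e he hde
    rw [hT] at hd he
    exact hA.cross d.1 e.1 d.2 e.2 hde.1 hde.2.1 hde.2.2 hd.2.2 he.2.2
  · rw [hB.card]
    exact hW.cnt
  · intro v hv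
    have h1 := hW.lc v hv
    show ((L v).sgn = 1 ∧ _) ∨ ((L v).sgn = 0 ∧ _) ∨ ((L v).sgn = -1 ∧ _)
    generalize L v = lab at h1
    cases lab with
    | tip =>
      refine Or.inl ⟨rfl, hB.b1.2 ?_⟩
      intro z hz
      exact h1 z (Or.inl hz)
    | plus => exact Or.inl ⟨rfl, hB.b1.2 h1⟩
    | flat => exact Or.inr (Or.inl ⟨rfl, hB.b2.2 h1⟩)
    | neg l r =>
      refine Or.inr (Or.inr ⟨rfl, (hB.b3 hA (p := pv n v) (q := nx n v)).2 ?_⟩)
      rcases h1 with ⟨z, h2, -⟩ | ⟨-, -, h2⟩
      · exact Or.inl ⟨z, h2, fun h5 => absurd h5 (by simp), fun h5 => absurd h5 (by simp)⟩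
      · exact Or.inr ⟨rfl, rfl, h2⟩

open Cr Finset in
theorem gen_of_criterion {n : ℕ} (hn : 3 ≤ n) (s : ℕ → ℤ) (per : ∀ k, s (k + n) = s k)
    (h : Criterion n s) : ∃ L, Gen n L ∧ ∀ k, (L k).sgn = s k := by
  classical
  obtain ⟨T, hT, w, hw, hs⟩ := h
  let W : ℕ → ℕ → Prop := fun a b =>
    (a < b ∧ (a, b) ∈ T ∧ w (a, b) = a) ∨ (b < a ∧ (b, a) ∈ T ∧ w (b, a) = a)
  have hB : Br n T w W := by
    refine ⟨?_, hw, fun _ _ => Iff.rfl⟩
    intro d hd
    have := hT.diag d hd
    omega
  have hdT : ∀ a b, a < b → Dg W a b → (a, b) ∈ T := by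
    intro a b hab h1
    rcases hB.dg.1 h1 with h2 | h2
    · exact h2.2
    · omega
  have hA : AT n W := by
    refine ⟨?_, ?_, ?_, ?_⟩
    · rintro a b (⟨h1, h2, h3⟩ | ⟨h1, h2, h3⟩)
      · have h4 := hT.diag _ h2
        simp only at h4
        omega
      · have h4 := hT.diag _ h2
        simp only at h4
        omega
    · rintro a b (⟨h1, h2, h3⟩ | ⟨h1, h2, h3⟩) (⟨h4, h5, h6⟩ | ⟨h4, h5, h6⟩)
      · omega
      · omega
      · omega
      · omega
    · have key : ∀ a b, (a, b) ∈ T → nx n a ≠ b ∧ nx n b ≠ a := by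
        intro a b hab
        have h4 := hT.diag _ hab
        simp only at h4
        have := nx_spec n a
        have := nx_spec n b
        omega
      rintro a b (⟨h1, h2, h3⟩ | ⟨h1, h2, h3⟩)
      · exact key a b h2
      · exact (key b a h2).symm
    · intro a b c d hab hbc hcd h1 h2
      exact hT.noncrossing _ (hdT a c (by omega) h1) _ (hdT b d (by omega) h2) ⟨hab, hbc, hcd⟩
  have hs3 : ∀ k, s k = 1 ∨ s k = 0 ∨ s k = -1 := by
    intro k
    have e : s k = s (k % n) := by
      conv_lhs => rw [← Nat.mod_add_div k n]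
      rw [per_mul s n per]
    rw [e]
    rcases hs (k % n) (Nat.mod_lt _ (by omega)) with h1 | h1 | h1
    · exact Or.inl h1.1
    · exact Or.inr (Or.inl h1.1)
    · exact Or.inr (Or.inr h1.1)
  let L : ℕ → Lab := fun k =>
    if s k = 1 then Lab.plus else if s k = 0 then Lab.flat else Lab.neg false false
  have hL1 : ∀ k, s k = 1 → L k = Lab.plus := by
    intro k hk
    show (if s k = 1 then Lab.plus else if s k = 0 then Lab.flat else Lab.neg false false) = _
    rw [if_pos hk]
  have hL0 : ∀ k, s k = 0 → L k = Lab.flat := by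
    intro k hk
    show (if s k = 1 then Lab.plus else if s k = 0 then Lab.flat else Lab.neg false false) = _
    rw [if_neg (by omega), if_pos hk]
  have hLn : ∀ k, s k = -1 → L k = Lab.neg false false := by
    intro k hk
    show (if s k = 1 then Lab.plus else if s k = 0 then Lab.flat else Lab.neg false false) = _
    rw [if_neg (by omega), if_neg (by omega)]
  have perL : ∀ k, L (k + n) = L k := by
    intro k
    show (if s (k + n) = 1 then Lab.plus else if s (k + n) = 0 then Lab.flat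
      else Lab.neg false false) = (if s k = 1 then Lab.plus else if s k = 0 then Lab.flat
      else Lab.neg false false)
    rw [per]
  refine ⟨L, gen_of_PL n hn W L perL ⟨hA, ?_, ?_⟩, ?_⟩
  · rw [← hB.card]
    exact hT.card
  · intro v hv
    rcases hs v hv with h1 | h1 | h1
    · rw [hL1 v h1.1]
      exact hB.b1.1 h1.2
    · rw [hL0 v h1.1]
      exact hB.b2.1 h1.2
    · rw [hLn v h1.1]
      exact (hB.b3 hA).1 h1.2
  · intro k
    rcases hs3 k with h1 | h1 | h1
    · rw [hL1 k h1, h1]; rfl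
    · rw [hL0 k h1, h1]; rfl
    · rw [hLn k h1, h1]; rfl

end Pool.Agent.SigPoly
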