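import Pool.Agent.SigPoly.Attach
import Pool.Agent.SigPoly.Basic3

/-!
# The words of the grammar are realised by polygons
-/

namespace Pool.Agent.SigPoly

open Complex Set Filter Topology Pool.Agent.VisGraph

/-- A polygon realising a labelled word. -/
structure Rea (n : ℕ) (p : ℕ → ℂ) (L : ℕ → Lab) : Prop where
  pp : PP n p
  cnt : Cnt n p = 2 * (n - 3)
  gp : GP n p
  per : ∀ k, L (k + n) = L k
  lab : ∀ i, LabOK n p i (L i)

lemma NoDiag_per {n : ℕ} {p : ℕ → ℂ} (h : SP n p) (i : ℕ) : NoDiag n p (i + n) ↔ NoDiag n p i := by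
  unfold NoDiag
  simp only [Diag.per_left h]

lemma LabOK_per {n : ℕ} {p : ℕ → ℂ} (h : SP n p) (i : ℕ) (x : Lab) :
    LabOK n p (i + n) x ↔ LabOK n p i x := by
  cases x <;> simp only [LabOK, th_per h, aR_per h, aL_per h, NoDiag_per h]

lemma labOK_of_lt {n : ℕ} {p : ℕ → ℂ} (h : SP n p) {L : ℕ → Lab} (per : ∀ k, L (k + n) = L k)
    (H : ∀ i < n, LabOK n p i (L i)) (i : ℕ) : LabOK n p i (L i) := by
  induction i using Nat.strong_induction_on with
  | _ i ih =>
    by_cases hi : i < n
    · exact H i hi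
    · have h3 := h.three_le
      obtain ⟨j, rfl⟩ := Nat.exists_eq_add_of_le (not_lt.1 hi)
      rw [Nat.add_comm n j, per, LabOK_per h]
      exact ih j (by omega)

lemma Rea.rot {n : ℕ} {p : ℕ → ℂ} {L : ℕ → Lab} (h : Rea n p L) :
    Rea n (rotp p) (fun k => L (k + 1)) := by
  have hs := h.pp.sp
  refine ⟨h.pp.rot, by rw [Cnt_rot hs]; exact h.cnt, GP_rot hs h.gp, ?_, ?_⟩
  · intro k
    rw [show k + n + 1 = k + 1 + n by ring, h.per]
  · intro i
    have := h.lab (i + 1)
    revert this
    generalize L (i + 1) = x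
    cases x <;> simp only [LabOK, th_rot hs, aR_rot hs, aL_rot hs]
    · rintro ⟨h1, h2⟩
      exact ⟨h1, fun j hj => h2 (j + 1) ((Diag_rot hs i j).1 hj)⟩
    · exact id
    · exact id
    · exact id

lemma Rea.mir {n : ℕ} {p : ℕ → ℂ} {L : ℕ → Lab} (h : Rea n p L) :
    Rea n (mirp n p) (fun k => (L ((n - 1) * k)).mir) := by
  have hs := h.pp.sp
  refine ⟨h.pp.mir, by rw [Cnt_mir hs]; exact h.cnt, GP_mir hs h.gp, ?_, ?_⟩
  · intro k
    rw [show (n - 1) * (k + n) = (n - 1) * k + n * (n - 1) by ring, per_add_mul h.per]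
  · intro i
    have := h.lab ((n - 1) * i)
    revert this
    generalize L ((n - 1) * i) = x
    cases x <;> simp only [LabOK, Lab.mir, th_mir hs, aR_mir hs, aL_mir hs]
    · rintro ⟨h1, h2⟩
      exact ⟨h1, fun j hj => h2 _ ((Diag_mir hs i j).1 hj)⟩
    · exact id
    · exact id
    · tauto

/-- The new label of the vertex `p 0` is correct if the new triangle is thin. -/
lemma labY {n : ℕ} {p : ℕ → ℂ} {x x' : Lab} (hy : RuleY x x') (h : LabOK n p 0 x) :
    ∃ δ > 0, ∀ q, Ear n p q → NoDiag (n + 1) q n → bet n p q < δ → LabOK (n + 1) q 0 x' := by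
  cases hy with
  | tp =>
    refine ⟨Real.pi - th n p 0, by linarith [h.1], fun q E hb hlt => ?_⟩
    simp only [LabOK]
    rw [E.th_y]; linarith
  | pp =>
    simp only [LabOK] at h
    refine ⟨Real.pi - th n p 0, by linarith, fun q E hb hlt => ?_⟩
    simp only [LabOK]
    rw [E.th_y]; linarith
  | nn l r r' hr =>
    obtain ⟨h1, h2, h3⟩ := h
    by_cases hr' : r' = true
    · have h4 := h3 (hr hr')
      refine ⟨Real.pi - (th n p 0 - aR n p 0), by linarith, fun q E hb hlt => ?_⟩
      have hpos := turn_pos (p (n - 1) - p 0) (q n - p 0)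
      refine ⟨?_, by simp, fun _ => ?_⟩
      · rw [E.th_y]; unfold bet; linarith
      · rw [E.th_y, E.aR_y hb]; linarith
    · refine ⟨1, one_pos, fun q E hb hlt => ?_⟩
      have hpos := turn_pos (p (n - 1) - p 0) (q n - p 0)
      refine ⟨?_, by simp, fun h => absurd h hr'⟩
      rw [E.th_y]; unfold bet; linarith

lemma labY_ne {n : ℕ} {p : ℕ → ℂ} {x x' : Lab} (hy : RuleY x x') (h : LabOK n p 0 x) :
    th n p 0 ≠ Real.pi := by
  cases hy with
  | tp => exact h.1.ne
  | pp => exact h.ne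
  | nn l r r' hr => exact h.1.ne'

/-- Assembling the polygon with one more vertex. -/
lemma Rea.glue {n : ℕ} {p q : ℕ → ℂ} {L L' : ℕ → Lab} (h : Rea n p L)
    (per : ∀ k, L' (k + (n + 1)) = L' k)
    (mid : ∀ k, 0 < k → k + 1 < n → L' k = L k) (new : L' n = Lab.tip ∨ L' n = Lab.plus)
    (E : Ear n p q) (g : GP (n + 1) q) (hb : NoDiag (n + 1) q n)
    (hv : LabOK (n + 1) q (n - 1) (L' (n - 1))) (hy : LabOK (n + 1) q 0 (L' 0)) :
    Rea (n + 1) q L' := by
  have hn := h.pp.three_le
  refine ⟨E.hq, ?_, g, per, ?_⟩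
  · rw [E.cnt_eq hb, h.cnt]; omega
  · apply labOK_of_lt E.hq.sp per
    intro i hi
    by_cases h0 : i = 0
    · rw [h0]; exact hy
    by_cases h1 : i = n
    · subst h1
      have hsum := E.sum_angles
      have e1 := turn_pos (q i - p (i - 1)) (p 0 - p (i - 1))
      have e2 := turn_pos (p (i - 1) - p 0) (q i - p 0)
      have : th (i + 1) q i < Real.pi := by
        rw [E.th_b]; unfold eta bet at hsum; linarith
      rcases new with h2 | h2
      · rw [h2]; exact ⟨this, hb⟩
      · rw [h2]; exact this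
    by_cases h2 : i = n - 1
    · rw [h2]; exact hv
    rw [mid i (by omega) (by omega)]
    have := h.lab i
    revert this
    generalize L i = x
    have e1 := E.th_mid (k := i) (by omega) (by omega)
    have e2 := E.aR_mid (k := i) (by omega) (by omega) hb
    have e3 := E.aL_mid (k := i) (by omega) (by omega) hb
    cases x <;> simp only [LabOK, e1, e2, e3]
    · rintro ⟨h3, h4⟩
      refine ⟨h3, fun j hj => ?_⟩
      have hj' : Diag (n + 1) q i (j % (n + 1)) := by
        rw [diag_congr_right (per_mod E.hq.sp.per j)]; exact hj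
      have hlt : j % (n + 1) < n + 1 := Nat.mod_lt _ (by omega)
      by_cases h5 : j % (n + 1) = n
      · rw [h5] at hj'
        exact hb i hj'.symm
      · rw [E.diag_iff (by omega) (by omega) (by omega) (by omega)] at hj'
        exact h4 _ hj'
    · exact id
    · exact id
    · exact id

theorem rea_of_gen {n : ℕ} {L : ℕ → Lab} (h : Gen n L) : ∃ p, Rea n p L := by
  induction h with
  | base L per hL =>
    obtain ⟨p, hp⟩ := exists_triangle
    refine ⟨p, hp, by rw [cnt_three hp.sp], gp_three hp, per, ?_⟩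
    intro i
    rcases hL i with h1 | h1
    · rw [h1]; exact ⟨th_three hp i, noDiag_three hp.sp i⟩
    · rw [h1]; exact th_three hp i
  | rot n L h ih =>
    obtain ⟨p, hp⟩ := ih
    exact ⟨_, hp.rot⟩
  | mir n L h ih =>
    obtain ⟨p, hp⟩ := ih
    exact ⟨_, hp.mir⟩
  | att n L L' h per mid new hv hy ih =>
    obtain ⟨p, hp⟩ := ih
    have hn := hp.pp.three_le
    obtain ⟨δ, hδ, hδ'⟩ := labY hy (hp.lab 0)
    have hy0 := labY_ne hy (hp.lab 0)
    have hlv := hp.lab (n - 1)
    generalize hx : L (n - 1) = x at hv hlv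
    generalize hx' : L' (n - 1) = x' at hv
    -- the case of a flat vertex
    cases hv with
    | tf =>
      obtain ⟨b, E, g, hb, hlt, hth⟩ := attach_flat hp.pp hp.gp hlv.1 hlv.2 hy0 hδ
      refine ⟨_, hp.glue per mid new E g hb ?_ (hδ' _ E hb hlt)⟩
      rw [hx']
      simp only [LabOK]
      rw [E.th_v]; exact hth
    | tn l r =>
      have hal := aL_of_noDiag hp.pp hlv.2
      have hap := aR_pos hp.pp (n - 1)
      obtain ⟨b, E, g, hb, hlt, hth⟩ := attach_neg hp.pp hp.gp hlv.1.ne hy0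
        (by linarith [hlv.1]) hδ
      refine ⟨_, hp.glue per mid new E g hb ?_ (hδ' _ E hb hlt)⟩
      have hle := aR_le hp.pp (n - 1)
      have hsum := E.sum_angles
      have e1 := turn_pos (p (n - 1) - p 0) ((insp n p b) n - p 0)
      have e2 := turn_pos (p 0 - (insp n p b) n) (p (n - 1) - (insp n p b) n)
      unfold bet gam at hsum
      rw [hx']
      refine ⟨?_, fun _ => ?_, fun _ => ?_⟩
      · rw [E.th_v]; linarith
      · rw [E.th_v, E.aL_v hb, hal]; linarith
      · rw [E.th_v, E.aR_v hb]; linarith [hlv.1]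
    | pn r =>
      have hap := aR_pos hp.pp (n - 1)
      simp only [LabOK] at hlv
      obtain ⟨b, E, g, hb, hlt, hth⟩ := attach_neg hp.pp hp.gp hlv.ne hy0
        (by linarith) hδ
      refine ⟨_, hp.glue per mid new E g hb ?_ (hδ' _ E hb hlt)⟩
      have hle := aR_le hp.pp (n - 1)
      rw [hx']
      refine ⟨?_, by simp, fun _ => ?_⟩
      · rw [E.th_v]; linarith
      · rw [E.th_v, E.aR_v hb]; linarith
    | nn l =>
      obtain ⟨h1, h2, h3⟩ := hlv
      have h4 := h3 rfl
      obtain ⟨b, E, g, hb, hlt, hth⟩ := attach_neg hp.pp hp.gp h1.ne' hy0 h4 hδ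
      refine ⟨_, hp.glue per mid new E g hb ?_ (hδ' _ E hb hlt)⟩
      have hle := aR_le hp.pp (n - 1)
      rw [hx']
      refine ⟨?_, by simp, by simp⟩
      rw [E.th_v]; linarith

end Pool.Agent.SigPoly
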