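import Pool.Agent.SigPoly.Nec
import Pool.Agent.SigPoly.Suff
import Pool.Agent.SigPoly.Crit
import Pool.Agent.SigPoly.BridgeA

/-!
# Signatures of simple polygons: the notions of the problem

The plane is `ℂ`; a polygon with `n` vertices is a map `P : ZMod n → ℂ`;
`Pool.Agent.VisGraph.IsSimplePolygon P` says that `n ≥ 3`, the vertices are distinct, consecutive
edges meet exactly in the common vertex, and other distinct edges are disjoint;
`boundary P` is the union of the edges.
-/

namespace Pool.Agent.SigPoly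

open Complex Set Filter Topology
open Pool.Agent.VisGraph (IsSimplePolygon boundary SP chain)

/-- The inside of the polygon `P`: the points off `P` whose connected component in the complement
of `P` is bounded. -/
def inside {n : ℕ} (P : ZMod n → ℂ) : Set ℂ :=
  {z | z ∉ boundary P ∧ Bornology.IsBounded (connectedComponentIn (boundary P)ᶜ z)}

/-- The outside of the polygon `P`. -/
def outside {n : ℕ} (P : ZMod n → ℂ) : Set ℂ :=
  {z | z ∉ boundary P ∧ ¬ Bornology.IsBounded (connectedComponentIn (boundary P)ᶜ z)}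

/-- The segment from `P i` to `P j` is a diagonal: it meets the polygon exactly in its endpoints
and its relative interior lies inside. -/
def IsDiagonal {n : ℕ} (P : ZMod n → ℂ) (i j : ZMod n) : Prop :=
  segment ℝ (P i) (P j) ∩ boundary P = {P i, P j} ∧ openSegment ℝ (P i) (P j) ⊆ inside P

/-- The set of all diagonals, as unordered pairs of vertices. -/
def diagonals {n : ℕ} (P : ZMod n → ℂ) : Set (Sym2 (ZMod n)) :=
  {d | ∃ i j, d = s(i, j) ∧ IsDiagonal P i j}

/-- The vertex `P j` is proper: its two edges are not collinear. -/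
def IsProper {n : ℕ} (P : ZMod n → ℂ) (j : ZMod n) : Prop :=
  ¬ Collinear ℝ {P (j - 1), P j, P (j + 1)}

/-- For all small positive `a` and `b` the open segment between the points `a P (j-1) + (1-a) P j`
and `b P (j+1) + (1-b) P j` lies in the set `S`. -/
def SmallSegmentsIn {n : ℕ} (P : ZMod n → ℂ) (j : ZMod n) (S : Set ℂ) : Prop :=
  ∃ δ > 0, ∀ a b : ℝ, 0 < a → a < δ → 0 < b → b < δ →
    openSegment ℝ ((a : ℂ) * P (j - 1) + (1 - a) * P j) ((b : ℂ) * P (j + 1) + (1 - b) * P j) ⊆ S

/-- `σ` is the signature of `P`. -/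
def HasSignature {n : ℕ} (P : ZMod n → ℂ) (σ : ZMod n → ℤ) : Prop :=
  ∀ j, (σ j = 0 ∧ ¬ IsProper P j) ∨ (σ j = 1 ∧ IsProper P j ∧ SmallSegmentsIn P j (inside P)) ∨
    (σ j = -1 ∧ IsProper P j ∧ SmallSegmentsIn P j (outside P))

/-- The periodic function belonging to a map on `ZMod n`. -/
def perf {n : ℕ} {α : Type*} (f : ZMod n → α) : ℕ → α := fun k => f (k : ZMod n)

/-! ### The problem's notions for periodic sequences -/

lemma natCast_ne' {n : ℕ} {i j : ℕ} (h1 : i < j) (h2 : j < i + n) :
    (i : ZMod n) ≠ (j : ZMod n) := by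
  intro h
  rw [ZMod.natCast_eq_natCast_iff] at h
  have h3 := (Nat.modEq_iff_dvd' h1.le).1 h
  have h4 := Nat.le_of_dvd (by omega) h3
  omega

/-- A simple polygon indexed by `ZMod n` as a periodic sequence. -/
lemma sp_perf {n : ℕ} {P : ZMod n → ℂ} (hP : IsSimplePolygon P) : SP n (perf P) := by
  have hn := hP.three_le
  refine ⟨hn, ?_, ?_, ?_, ?_⟩
  · intro k
    show P ((k + n : ℕ) : ZMod n) = P (k : ZMod n)
    rw [Nat.cast_add, ZMod.natCast_self, add_zero]
  · intro i j h1 h2 h3
    exact natCast_ne' h1 h2 (hP.injective h3)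
  · intro k
    have := hP.consecutive (k : ZMod n)
    simpa [perf] using this
  · intro i j h1 h2
    have := hP.disjoint (i : ZMod n) (j : ZMod n) ?_ ?_ ?_
    · simpa [perf] using this
    · exact (natCast_ne' (by omega) (by omega)).symm
    · have h3 := (natCast_ne' (n := n) (i := i + 1) (j := j) (by omega) (by omega)).symm
      simpa using h3
    · have h3 := (natCast_ne' (n := n) (i := j + 1) (j := i + n) (by omega) (by omega)).symm
      simpa using h3

lemma simple_of_sp {n : ℕ} {P : ZMod n → ℂ} (h : SP n (perf P)) : IsSimplePolygon P := by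
  have hn := h.three_le
  have : NeZero n := ⟨by omega⟩
  refine ⟨hn, ?_, ?_, ?_⟩
  · intro i j hij
    by_contra hne
    have hv : i.val ≠ j.val := fun e => hne (ZMod.val_injective n e)
    have hi := ZMod.val_lt i
    have hj := ZMod.val_lt j
    rcases lt_or_gt_of_ne hv with h1 | h1
    · apply h.inj i.val j.val h1 (by omega)
      simpa [perf] using hij
    · apply h.inj j.val i.val h1 (by omega)
      simpa [perf] using hij.symm
  · intro i
    have := h.consec i.val
    simpa [perf] using this
  · intro i j h1 h2 h3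
    have hi := ZMod.val_lt i
    have hj := ZMod.val_lt j
    have hii : ((i.val : ℕ) : ZMod n) = i := ZMod.natCast_zmod_val i
    have hjj : ((j.val : ℕ) : ZMod n) = j := ZMod.natCast_zmod_val j
    have hv : i.val ≠ j.val := fun e => h1 (ZMod.val_injective n e.symm)
    rcases lt_or_gt_of_ne hv with h4 | h4
    · have h5 : i.val + 1 ≠ j.val := by
        intro e
        apply h2
        rw [← hjj, ← e]
        push_cast
        rw [hii]
      have h6 : j.val + 1 ≠ i.val + n := by
        intro e
        apply h3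
        have e' := congrArg (fun k : ℕ => (k : ZMod n)) e
        simp only [Nat.cast_add, Nat.cast_one, ZMod.natCast_self, add_zero] at e'
        rw [hii, hjj] at e'
        exact e'.symm
      have := h.disj i.val j.val (by omega) (by omega)
      simpa [perf] using this
    · have h5 : j.val + 1 ≠ i.val := by
        intro e
        apply h3
        rw [← hii, ← e]
        push_cast
        rw [hjj]
      have h6 : i.val + 1 ≠ j.val + n := by
        intro e
        apply h2
        have e' := congrArg (fun k : ℕ => (k : ZMod n)) e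
        simp only [Nat.cast_add, Nat.cast_one, ZMod.natCast_self, add_zero] at e'
        rw [hii, hjj] at e'
        exact e'.symm
      have := h.disj j.val i.val (by omega) (by omega)
      rw [Set.inter_comm]
      simpa [perf] using this

lemma boundary_eq {n : ℕ} [NeZero n] (P : ZMod n → ℂ) : boundary P = chain (perf P) 0 n := by
  ext z
  simp only [boundary, mem_iUnion, chain, mem_ofPred_eq]
  constructor
  · rintro ⟨i, hi⟩
    refine ⟨i.val, Nat.zero_le _, ZMod.val_lt i, ?_⟩
    simpa [perf] using hi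
  · rintro ⟨k, -, -, hz⟩
    exact ⟨(k : ZMod n), by simpa [perf] using hz⟩

lemma inside_eq {n : ℕ} [NeZero n] {P : ZMod n → ℂ} (h : SP n (perf P)) :
    inside P = Ins n (perf P) := by
  obtain ⟨ε, U, J⟩ := VisGraph.jordan h
  rw [ins_eq J]
  unfold inside
  rw [boundary_eq]
  have hr := J.reg_eq
  unfold VisGraph.reg at hr
  ext z
  constructor
  · rintro ⟨h1, h2⟩
    refine ⟨?_, h1⟩
    have : z ∈ Uᶜ := by
      rw [← hr]
      exact Or.inr ⟨h1, h2⟩
    exact this
  · rintro ⟨h1, h2⟩
    refine ⟨h2, ?_⟩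
    have h3 : z ∈ Uᶜ := h1
    rw [← hr] at h3
    rcases h3 with h3 | h3
    · exact absurd h3 h2
    · exact h3.2

lemma outside_eq {n : ℕ} [NeZero n] {P : ZMod n → ℂ} (h : SP n (perf P)) :
    outside P = {z | z ∉ Ins n (perf P) ∧ z ∉ chain (perf P) 0 n} := by
  rw [← inside_eq h, ← boundary_eq]
  ext z
  simp only [outside, inside, mem_ofPred_eq]
  tauto

lemma isDiagonal_iff {n : ℕ} [NeZero n] {P : ZMod n → ℂ} (h : SP n (perf P)) (i j : ℕ) :
    IsDiagonal P (i : ZMod n) (j : ZMod n) ↔ Diag n (perf P) i j := by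
  unfold IsDiagonal Diag
  rw [inside_eq h]
  constructor
  · rintro ⟨-, h2⟩
    exact h2
  · intro h2
    refine ⟨?_, h2⟩
    have hv : ∀ k : ℕ, perf P k ∈ boundary P := by
      intro k
      rw [boundary_eq, ← h.chain_per k]
      exact ⟨k, le_rfl, by have := h.three_le; omega, left_mem_segment ℝ _ _⟩
    apply Set.Subset.antisymm
    · rintro z ⟨h3, h4⟩
      rw [← insert_endpoints_openSegment] at h3
      rcases h3 with rfl | rfl | h3
      · exact Or.inl rfl
      · exact Or.inr rfl
      · exfalso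
        rw [boundary_eq] at h4
        exact (h2 h3).1 h4
    · rintro z (rfl | rfl)
      · exact ⟨left_mem_segment ℝ _ _, hv i⟩
      · exact ⟨right_mem_segment ℝ _ _, hv j⟩

lemma perf_val {n : ℕ} [NeZero n] {α : Type*} (f : ZMod n → α) (j : ZMod n) :
    perf f j.val = f j := by
  simp [perf]

/-- The graph of all diagonals. -/
def dgraph {n : ℕ} [NeZero n] {P : ZMod n → ℂ} (h : SP n (perf P)) : SimpleGraph (ZMod n) where
  Adj i j := IsDiagonal P i j
  symm := ⟨by
    intro i j hij
    rw [← ZMod.natCast_zmod_val i, ← ZMod.natCast_zmod_val j] at hij ⊢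
    rw [isDiagonal_iff h] at hij ⊢
    exact hij.symm⟩
  loopless := ⟨by
    intro i hi
    rw [← ZMod.natCast_zmod_val i, isDiagonal_iff h] at hi
    unfold Diag at hi
    rw [openSegment_same, singleton_subset_iff] at hi
    apply hi.1
    rw [← h.chain_per i.val]
    exact ⟨i.val, le_rfl, by have := h.three_le; omega, left_mem_segment ℝ _ _⟩⟩

lemma diagonals_ncard {n : ℕ} [NeZero n] {P : ZMod n → ℂ} (h : SP n (perf P)) :
    2 * (diagonals P).ncard = Cnt n (perf P) := by
  classical
  have e1 : diagonals P = ((dgraph h).edgeFinset : Set (Sym2 (ZMod n))) := by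
    ext d
    rw [SimpleGraph.coe_edgeFinset]
    induction d using Sym2.ind with
    | _ x y =>
      rw [SimpleGraph.mem_edgeSet]
      constructor
      · rintro ⟨i, j, hij, hd⟩
        rw [Sym2.eq_iff] at hij
        rcases hij with ⟨rfl, rfl⟩ | ⟨rfl, rfl⟩
        · exact hd
        · exact SimpleGraph.Adj.symm (G := dgraph h) hd
      · intro hd
        exact ⟨x, y, rfl, hd⟩
  rw [e1, Set.ncard_coe_finset, SimpleGraph.two_mul_card_edgeFinset]
  unfold Cnt
  refine Finset.card_bij' (fun x _ => (x.1.val, x.2.val))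
    (fun x _ => ((x.1 : ZMod n), (x.2 : ZMod n))) ?_ ?_ ?_ ?_
  · rintro ⟨i, j⟩ hij
    rw [Finset.mem_filter] at hij ⊢
    refine ⟨?_, ?_⟩
    · rw [Finset.mem_product, Finset.mem_range, Finset.mem_range]
      exact ⟨ZMod.val_lt i, ZMod.val_lt j⟩
    · have h2 : IsDiagonal P i j := hij.2
      show Diag n (perf P) i.val j.val
      rw [← isDiagonal_iff h, ZMod.natCast_zmod_val, ZMod.natCast_zmod_val]
      exact h2
  · rintro ⟨i, j⟩ hij
    rw [Finset.mem_filter] at hij ⊢
    refine ⟨Finset.mem_univ _, ?_⟩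
    exact (isDiagonal_iff h i j).2 hij.2
  · rintro ⟨i, j⟩ _
    simp
  · rintro ⟨i, j⟩ hij
    rw [Finset.mem_filter, Finset.mem_product, Finset.mem_range, Finset.mem_range] at hij
    simp only [Prod.mk.injEq]
    exact ⟨ZMod.val_natCast_of_lt hij.1.1, ZMod.val_natCast_of_lt hij.1.2⟩

lemma perf_prev {n : ℕ} [NeZero n] {α : Type*} (f : ZMod n → α) (i : ℕ) :
    f ((i : ZMod n) - 1) = perf f (i + (n - 1)) := by
  unfold perf
  congr 1
  have hn : 1 ≤ n := Nat.one_le_iff_ne_zero.2 (NeZero.ne n)
  rw [Nat.cast_add, Nat.cast_sub hn, ZMod.natCast_self]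
  ring

lemma perf_next {n : ℕ} {α : Type*} (f : ZMod n → α) (i : ℕ) :
    f ((i : ZMod n) + 1) = perf f (i + 1) := by
  simp [perf]

lemma small_iff {n : ℕ} [NeZero n] (P : ZMod n → ℂ) (i : ℕ) (S : Set ℂ) :
    SmallSegmentsIn P (i : ZMod n) S ↔ SmallIn n (perf P) i S := by
  unfold SmallSegmentsIn SmallIn
  rw [perf_prev P, perf_next P]
  rfl

lemma isProper_iff {n : ℕ} [NeZero n] {P : ZMod n → ℂ} (h : PP n (perf P)) (i : ℕ) :
    IsProper P (i : ZMod n) ↔ th n (perf P) i ≠ Real.pi := by
  unfold IsProper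
  rw [← proper_iff h, perf_prev P, perf_next P]
  rfl

/-- The signature in terms of the interior angles. -/
lemma hasSignature_iff {n : ℕ} [NeZero n] {P : ZMod n → ℂ} (h : PP n (perf P))
    (σ : ZMod n → ℤ) : HasSignature P σ ↔ ∀ i : ℕ,
      (σ i = 0 ∧ th n (perf P) i = Real.pi) ∨ (σ i = 1 ∧ th n (perf P) i < Real.pi) ∨
        (σ i = -1 ∧ Real.pi < th n (perf P) i) := by
  have key : ∀ i : ℕ, th n (perf P) i < Real.pi → SmallSegmentsIn P (i : ZMod n) (inside P) := by
    intro i hi
    rw [small_iff, inside_eq h.sp]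
    exact smallIn_convex h i hi
  have key' : ∀ i : ℕ, Real.pi < th n (perf P) i →
      SmallSegmentsIn P (i : ZMod n) (outside P) := by
    intro i hi
    rw [small_iff, outside_eq h.sp]
    exact smallIn_concave h i hi
  have excl : ∀ i : ℕ, SmallSegmentsIn P (i : ZMod n) (inside P) →
      SmallSegmentsIn P (i : ZMod n) (outside P) → False := by
    intro i h1 h2
    rw [small_iff] at h1 h2
    obtain ⟨z, hz1, hz2⟩ := smallIn_disjoint h1 h2
    exact hz2.2 hz1.2
  constructor
  · intro H i
    rcases H (i : ZMod n) with ⟨h1, h2⟩ | ⟨h1, h2, h3⟩ | ⟨h1, h2, h3⟩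
    · left
      refine ⟨h1, ?_⟩
      by_contra h4
      exact h2 ((isProper_iff h i).2 h4)
    · right; left
      refine ⟨h1, ?_⟩
      rcases lt_trichotomy (th n (perf P) i) Real.pi with h4 | h4 | h4
      · exact h4
      · exact absurd h4 ((isProper_iff h i).1 h2)
      · exact (excl i h3 (key' i h4)).elim
    · right; right
      refine ⟨h1, ?_⟩
      rcases lt_trichotomy (th n (perf P) i) Real.pi with h4 | h4 | h4
      · exact (excl i (key i h4) h3).elim
      · exact absurd h4 ((isProper_iff h i).1 h2)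
      · exact h4
  · intro H j
    have hj : ((j.val : ℕ) : ZMod n) = j := ZMod.natCast_zmod_val j
    have Hj := H j.val
    rw [← hj]
    rw [hj] at Hj ⊢
    rw [← hj]
    rcases H j.val with ⟨h1, h2⟩ | ⟨h1, h2⟩ | ⟨h1, h2⟩
    · exact Or.inl ⟨h1, fun h3 => (isProper_iff h _).1 h3 h2⟩
    · exact Or.inr (Or.inl ⟨h1, (isProper_iff h _).2 h2.ne, key _ h2⟩)
    · exact Or.inr (Or.inr ⟨h1, (isProper_iff h _).2 h2.ne', key' _ h2⟩)

/-! ### Both directions -/

/-- The labels of a counterclockwise polygon with the minimum number of diagonals. -/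
lemma gen_of_pp {n : ℕ} [NeZero n] {P : ZMod n → ℂ} (h : PP n (perf P)) {σ : ZMod n → ℤ}
    (hσ : HasSignature P σ) (hc : (diagonals P).ncard = n - 3) :
    ∃ L, Gen n L ∧ ∀ k, (L k).sgn = perf σ k := by
  classical
  have hc' : Cnt n (perf P) = 2 * (n - 3) := by rw [← diagonals_ncard h.sp, hc]
  rw [hasSignature_iff h] at hσ
  let L : ℕ → Lab := fun k =>
    if perf σ k = 0 then Lab.flat else if perf σ k = 1 then Lab.plus else Lab.neg false false
  have hper : ∀ k, perf σ (k + n) = perf σ k := by
    intro k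
    simp [perf]
  refine ⟨L, (phi h hc').gen L ?_ ?_, ?_⟩
  · intro k
    simp only [L, hper]
  · intro i
    rcases hσ i with ⟨h1, h2⟩ | ⟨h1, h2⟩ | ⟨h1, h2⟩
    · have : L i = Lab.flat := by simp [L, perf, h1]
      rw [this]
      exact h2
    · have : L i = Lab.plus := by simp [L, perf, h1]
      rw [this]
      exact h2
    · have : L i = Lab.neg false false := by simp [L, perf, h1]
      rw [this]
      exact ⟨h2.le, by simp, by simp⟩
  · intro k
    rcases hσ k with ⟨h1, -⟩ | ⟨h1, -⟩ | ⟨h1, -⟩
    · simp [L, perf, h1, Lab.sgn]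
    · simp [L, perf, h1, Lab.sgn]
    · simp [L, perf, h1, Lab.sgn]

section reverse

variable {n : ℕ} [NeZero n] {P : ZMod n → ℂ}

/-- The polygon traversed backwards. -/
def revP (P : ZMod n → ℂ) : ZMod n → ℂ := fun j => P (-j)

omit [NeZero n] in
lemma boundary_rev (P : ZMod n → ℂ) : boundary (revP P) = boundary P := by
  ext z
  simp only [boundary, mem_iUnion, revP]
  constructor
  · rintro ⟨i, hi⟩
    refine ⟨-(i + 1), ?_⟩
    rw [segment_symm]
    rwa [show -(i + 1) + 1 = -i by ring]
  · rintro ⟨i, hi⟩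
    refine ⟨-(i + 1), ?_⟩
    rw [segment_symm, show -(-(i + 1) + 1) = i by ring, neg_neg]
    exact hi

omit [NeZero n] in
lemma inside_rev (P : ZMod n → ℂ) : inside (revP P) = inside P := by
  unfold inside; rw [boundary_rev]

omit [NeZero n] in
lemma outside_rev (P : ZMod n → ℂ) : outside (revP P) = outside P := by
  unfold outside; rw [boundary_rev]

omit [NeZero n] in
lemma hasSignature_rev {σ : ZMod n → ℤ} (h : HasSignature P σ) :
    HasSignature (revP P) fun j => σ (-j) := by
  have e1 : ∀ j : ZMod n, -(j - 1) = -j + 1 := fun j => by ring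
  have e2 : ∀ j : ZMod n, -(j + 1) = -j - 1 := fun j => by ring
  have hp : ∀ j, IsProper (revP P) j ↔ IsProper P (-j) := by
    intro j
    unfold IsProper revP
    rw [e1, e2]
    have : ({P (-j + 1), P (-j), P (-j - 1)} : Set ℂ) = {P (-j - 1), P (-j), P (-j + 1)} := by
      ext z
      simp only [mem_insert_iff, mem_singleton_iff]
      tauto
    rw [this]
  have hs : ∀ j S, SmallSegmentsIn P (-j) S → SmallSegmentsIn (revP P) j S := by
    rintro j S ⟨δ, hδ, H⟩
    refine ⟨δ, hδ, ?_⟩
    intro a b ha ha' hb hb'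
    have := H b a hb hb' ha ha'
    unfold revP
    rw [e1, e2, openSegment_symm]
    exact this
  intro j
  rcases h (-j) with ⟨h1, h2⟩ | ⟨h1, h2, h3⟩ | ⟨h1, h2, h3⟩
  · exact Or.inl ⟨h1, fun h3 => h2 ((hp j).1 h3)⟩
  · refine Or.inr (Or.inl ⟨h1, (hp j).2 h2, ?_⟩)
    rw [inside_rev]
    exact hs j _ h3
  · refine Or.inr (Or.inr ⟨h1, (hp j).2 h2, ?_⟩)
    rw [outside_rev]
    exact hs j _ h3

omit [NeZero n] in
lemma diagonals_rev (P : ZMod n → ℂ) : (diagonals (revP P)).ncard = (diagonals P).ncard := by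
  have hd : ∀ i j, IsDiagonal (revP P) i j ↔ IsDiagonal P (-i) (-j) := by
    intro i j
    unfold IsDiagonal
    rw [boundary_rev, inside_rev]
    rfl
  have e : diagonals (revP P) = Sym2.map (fun j : ZMod n => -j) '' diagonals P := by
    ext d
    constructor
    · rintro ⟨i, j, rfl, hij⟩
      refine ⟨s(-i, -j), ⟨-i, -j, rfl, (hd i j).1 hij⟩, ?_⟩
      simp
    · rintro ⟨_, ⟨i, j, rfl, hij⟩, rfl⟩
      refine ⟨-i, -j, by simp, (hd _ _).2 ?_⟩
      rwa [neg_neg, neg_neg]
  rw [e]
  exact Set.ncard_image_of_injective _ (Sym2.map.injective neg_injective)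

lemma cast_mir (k : ℕ) : (((n - 1) * k : ℕ) : ZMod n) = -(k : ZMod n) := by
  have hn : 1 ≤ n := Nat.one_le_iff_ne_zero.2 (NeZero.ne n)
  rw [Nat.cast_mul, Nat.cast_sub hn, ZMod.natCast_self]
  push_cast
  ring

end reverse

theorem main_iff {n : ℕ} (hn : 3 ≤ n) (σ : ZMod n → ℤ) :
    (∃ P : ZMod n → ℂ, IsSimplePolygon P ∧ HasSignature P σ ∧ (diagonals P).ncard = n - 3) ↔
      ∃ L, Gen n L ∧ ∀ k, (L k).sgn = perf σ k := by
  have : NeZero n := ⟨by omega⟩
  constructor
  · rintro ⟨P, hP, hσ, hc⟩
    have hsp := sp_perf hP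
    rcases PP_or_conj hsp with h | h
    · exact gen_of_pp h hσ hc
    · have h2 := h.mir
      have e : mirp n (fun k => (starRingEnd ℂ) (perf P k)) = perf (revP P) := by
        funext k
        show (starRingEnd ℂ) ((starRingEnd ℂ) (P (((n - 1) * k : ℕ) : ZMod n))) = P (-(k : ZMod n))
        rw [Complex.conj_conj, cast_mir]
      rw [e] at h2
      obtain ⟨L, hL, hk⟩ := gen_of_pp h2 (hasSignature_rev hσ) ((diagonals_rev P).trans hc)
      refine ⟨_, hL.mir, ?_⟩
      intro k
      have e2 : ∀ x : Lab, x.mir.sgn = x.sgn := by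
        intro x
        cases x <;> rfl
      rw [e2, hk]
      show σ (-(((n - 1) * k : ℕ) : ZMod n)) = σ (k : ZMod n)
      rw [cast_mir, neg_neg]
  · rintro ⟨L, hL, hk⟩
    obtain ⟨p, hp⟩ := rea_of_gen hL
    have hs := hp.pp.sp
    let P : ZMod n → ℂ := fun j => p j.val
    have eP : perf P = p := by
      funext k
      show p (k : ZMod n).val = p k
      rw [ZMod.val_natCast]
      have key : ∀ q r : ℕ, p (r + n * q) = p r := by
        intro q r
        induction q with
        | zero => simp
        | succ q ih => rw [Nat.mul_succ, ← Nat.add_assoc, hs.per, ih]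
      conv_rhs => rw [← Nat.mod_add_div k n, key]
    have hpp : PP n (perf P) := by rw [eP]; exact hp.pp
    refine ⟨P, simple_of_sp hpp.sp, ?_, ?_⟩
    · rw [hasSignature_iff hpp]
      intro i
      have h1 := hp.lab i
      have h2 := hk i
      rw [eP]
      change (L i).sgn = σ i at h2
      cases hL : L i with
      | tip =>
        rw [hL] at h1 h2
        exact Or.inr (Or.inl ⟨h2.symm, h1.1⟩)
      | plus =>
        rw [hL] at h1 h2
        exact Or.inr (Or.inl ⟨h2.symm, h1⟩)
      | flat =>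
        rw [hL] at h1 h2
        exact Or.inl ⟨h2.symm, h1⟩
      | neg l r =>
        rw [hL] at h1 h2
        exact Or.inr (Or.inr ⟨h2.symm, h1.1⟩)
    · have h1 := diagonals_ncard hpp.sp
      rw [eP, hp.cnt] at h1
      omega

end Pool.Agent.SigPoly
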