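import Pool.Agent.SigPoly.Turn

/-!
# The polygon near a vertex
-/

namespace Pool.Agent.SigPoly

open Complex Set Filter Topology Pool.Agent.VisGraph

lemma PP.three_le {n : ℕ} {p : ℕ → ℂ} (h : PP n p) : 3 ≤ n := h.sp.three_le

/-- Inside and outside, in terms of the set `U` of the Jordan curve theorem. -/
lemma ins_eq {n : ℕ} {p : ℕ → ℂ} {ε : ℝ} {U : Set ℂ} (J : JData n p ε U) :
    Ins n p = {z | z ∉ U ∧ z ∉ chain p 0 n} := by
  ext z
  constructor
  · rintro ⟨h1, h2⟩
    exact ⟨fun hU => h2 (J.W_out z hU), h1⟩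
  · rintro ⟨h1, h2⟩
    refine ⟨h2, ?_⟩
    rw [J.W_in z h1 h2]
    exact J.ne_zero

lemma PP.isOpen_ins {n : ℕ} {p : ℕ → ℂ} (_h : SP n p) : IsOpen (Ins n p) := by
  rw [isOpen_iff_mem_nhds]
  rintro z ⟨h1, h2⟩
  have e1 : ∀ᶠ y in 𝓝 z, y ∉ chain p 0 n := (isClosed_chain p 0 n).isOpen_compl.mem_nhds h1
  have e2 : ∀ᶠ y in 𝓝 z, A p 0 n y ≠ 0 := (continuousAt_A h1).eventually_ne h2
  filter_upwards [e1, e2] with y hy1 hy2
  exact ⟨hy1, hy2⟩

lemma PP.A_eq {n : ℕ} {p : ℕ → ℂ} (h : PP n p) {z : ℂ} (hz : z ∈ Ins n p) :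
    A p 0 n z = 2 * Real.pi := by
  obtain ⟨U, J⟩ := h.pos
  have := hz
  rw [ins_eq J] at this
  rw [J.W_in z this.1 this.2, mul_one]

lemma PP.A_cases {n : ℕ} {p : ℕ → ℂ} (h : PP n p) {z : ℂ} (hz : z ∉ chain p 0 n) :
    (z ∈ Ins n p ∧ A p 0 n z = 2 * Real.pi) ∨ (z ∉ Ins n p ∧ A p 0 n z = 0) := by
  by_cases h1 : z ∈ Ins n p
  · exact Or.inl ⟨h1, h.A_eq h1⟩
  · right
    refine ⟨h1, ?_⟩
    by_contra h2
    exact h1 ⟨hz, h2⟩

/-- A point near the interior of an edge, to its left. -/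
lemma PP.left_ins {n : ℕ} {p : ℕ → ℂ} (h : PP n p) (i : ℕ) {q : ℂ}
    (hq : q ∈ openSegment ℝ (p i) (p (i + 1))) :
    ∀ᶠ z in 𝓝 q, (0 < orient (p i) (p (i + 1)) z → z ∈ Ins n p) ∧
      (orient (p i) (p (i + 1)) z < 0 → z ∉ Ins n p ∧ z ∉ chain p 0 n) := by
  obtain ⟨r, hr, hoff, hjump⟩ := h.sp.edge_jump i hq
  have hpi := Real.pi_pos
  have hq0 := orient_eq_zero_of_mem (openSegment_subset_segment ℝ _ _ hq)
  obtain ⟨y1, hy1, ho1⟩ := exists_neg (h.sp.ne_succ i) Metric.isOpen_ball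
    (Metric.mem_ball_self hr) hq0.le
  obtain ⟨y2, hy2, ho2⟩ := exists_pos (h.sp.ne_succ i) Metric.isOpen_ball
    (Metric.mem_ball_self hr) hq0.ge
  have hball : ∀ᶠ z in 𝓝 q, dist z q < r := Metric.ball_mem_nhds q hr
  filter_upwards [hball] with z hz
  constructor
  · intro ho
    have h1 := hjump y1 z hy1 hz ho1 ho
    rcases h.A_cases (hoff z hz ho.ne') with ⟨h2, -⟩ | ⟨-, h2⟩
    · exact h2
    · rcases h.A_cases (hoff y1 hy1 ho1.ne) with ⟨-, h3⟩ | ⟨-, h3⟩
      · rw [h2, h3] at h1; linarith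
      · rw [h2, h3] at h1; linarith
  · intro ho
    refine ⟨?_, hoff z hz ho.ne⟩
    have h1 := hjump z y2 hz hy2 ho ho2
    rcases h.A_cases (hoff z hz ho.ne) with ⟨-, h2⟩ | ⟨h2, -⟩
    · rcases h.A_cases (hoff y2 hy2 ho2.ne') with ⟨-, h3⟩ | ⟨-, h3⟩
      · rw [h2, h3] at h1; linarith
      · rw [h2, h3] at h1; linarith
    · exact h2

lemma idx_prev {n : ℕ} (hn : 3 ≤ n) (i : ℕ) : i + (n - 1) + 1 = i + n := by omega

lemma PP.prev_ne {n : ℕ} {p : ℕ → ℂ} (h : SP n p) (i : ℕ) : p (i + (n - 1)) ≠ p i := by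
  have hn := h.three_le
  have := h.ne_succ (i + (n - 1))
  rwa [idx_prev hn, h.per] at this

lemma PP.prev_edge {n : ℕ} {p : ℕ → ℂ} (h : SP n p) (i : ℕ) :
    segment ℝ (p (i + (n - 1))) (p i) ∩ segment ℝ (p i) (p (i + 1)) = {p i} := by
  have hn := h.three_le
  have := h.consec (i + (n - 1))
  rwa [show i + (n - 1) + 2 = i + 1 + n by omega, idx_prev hn, h.per, h.per] at this

lemma PP.th_lt' {n : ℕ} {p : ℕ → ℂ} (h : SP n p) (i : ℕ) : th n p i < 2 * Real.pi := by
  refine lt_of_le_of_ne (turn_le _ _) ?_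
  intro h0
  have hu : p (i + 1) - p i ≠ 0 := sub_ne_zero.2 (h.ne_succ i).symm
  have hw : p (i + (n - 1)) - p i ≠ 0 := sub_ne_zero.2 (PP.prev_ne h i)
  obtain ⟨c, hc, h1⟩ := (turn_eq_two_pi hu hw).1 h0
  -- a common point of both edges
  set t : ℝ := min 1 c with ht
  have ht0 : 0 < t := lt_min one_pos hc
  have hp1 : p i + (t : ℂ) * (p (i + 1) - p i) ∈ segment ℝ (p i) (p (i + 1)) := by
    refine ⟨1 - t, t, by have := min_le_left 1 c; linarith, ht0.le, by ring, ?_⟩
    simp only [Complex.real_smul]; push_cast; ring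
  have hp2 : p i + (t : ℂ) * (p (i + 1) - p i) ∈ segment ℝ (p (i + (n - 1))) (p i) := by
    have hle : t / c ≤ 1 := by rw [div_le_one hc]; exact min_le_right _ _
    refine ⟨t / c, 1 - t / c, by positivity, by linarith, by ring, ?_⟩
    have hcc : (c : ℂ) ≠ 0 := by exact_mod_cast hc.ne'
    have e : p (i + (n - 1)) = p i + c * (p (i + 1) - p i) := by rw [← h1]; ring
    rw [e]
    simp only [Complex.real_smul]; push_cast; field_simp; ring
  have h3 : p i + (t : ℂ) * (p (i + 1) - p i) ∈ ({p i} : Set ℂ) := by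
    rw [← PP.prev_edge h i]; exact ⟨hp2, hp1⟩
  rw [mem_singleton_iff, add_eq_left, mul_eq_zero] at h3
  rcases h3 with h3 | h3
  · exact ht0.ne' (by exact_mod_cast h3)
  · exact hu h3

lemma PP.th_lt {n : ℕ} {p : ℕ → ℂ} (h : PP n p) (i : ℕ) : th n p i < 2 * Real.pi :=
  PP.th_lt' h.sp i

/-- The polygon near the vertex `p i` consists of two edges. -/
lemma PP.local {n : ℕ} {p : ℕ → ℂ} (h : SP n p) (i : ℕ) :
    ∃ r > 0, r ≤ ‖p (i + 1) - p i‖ ∧ r ≤ ‖p (i + (n - 1)) - p i‖ ∧
      ∀ z, dist z (p i) < r → z ∈ chain p 0 n →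
        z ∈ segment ℝ (p i) (p (i + 1)) ∨ z ∈ segment ℝ (p (i + (n - 1))) (p i) := by
  have hn := h.three_le
  have hu : p (i + 1) - p i ≠ 0 := sub_ne_zero.2 (h.ne_succ i).symm
  have hw : p (i + (n - 1)) - p i ≠ 0 := sub_ne_zero.2 (PP.prev_ne h i)
  have h1 : p i ∉ chain p (i + 1) (i + (n - 1)) := by
    rintro ⟨k, hk1, hk2, hz⟩
    by_cases hk : k = i + 1
    · subst hk
      have := h.consec i
      have h2 : p i ∈ segment ℝ (p i) (p (i + 1)) ∩ segment ℝ (p (i + 1)) (p (i + 2)) :=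
        ⟨left_mem_segment ℝ _ _, hz⟩
      rw [this] at h2
      exact h.ne_succ i h2
    · have h2 : p i ∈ segment ℝ (p i) (p (i + 1)) ∩ segment ℝ (p k) (p (k + 1)) :=
        ⟨left_mem_segment ℝ _ _, hz⟩
      rw [h.disj i k (by omega) (by omega)] at h2
      exact h2
  obtain ⟨r0, hr0, hball⟩ := Metric.mem_nhds_iff.1
    ((isClosed_chain p (i + 1) (i + (n - 1))).isOpen_compl.mem_nhds h1)
  refine ⟨min r0 (min ‖p (i + 1) - p i‖ ‖p (i + (n - 1)) - p i‖), ?_, ?_, ?_, ?_⟩
  · exact lt_min hr0 (lt_min (norm_pos_iff.2 hu) (norm_pos_iff.2 hw))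
  · exact (min_le_right _ _).trans (min_le_left _ _)
  · exact (min_le_right _ _).trans (min_le_right _ _)
  · intro z hz hzc
    rw [← h.chain_per i, chain_union (show i ≤ i + 1 by omega) (show i + 1 ≤ i + n by omega),
      chain_union (show i + 1 ≤ i + (n - 1) by omega) (show i + (n - 1) ≤ i + n by omega),
      chain_one] at hzc
    rcases hzc with h2 | h2 | h2
    · exact Or.inl h2
    · exact absurd h2 (hball (lt_of_lt_of_le hz (min_le_left _ _)))
    · right
      obtain ⟨k, hk1, hk2, hz2⟩ := h2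
      have hk : k = i + (n - 1) := by omega
      rw [hk, idx_prev hn, h.per] at hz2
      exact hz2

/-- Points of the following edge: direction `2π`. -/
lemma turn_of_mem_edge {a b z : ℂ} (hab : a ≠ b) (hz : z ≠ a) (h : z ∈ segment ℝ a b) :
    turn (b - a) (z - a) = 2 * Real.pi := by
  obtain ⟨s, t, hs, ht, hst, rfl⟩ := h
  have hs' : s = 1 - t := by linarith
  have e : s • a + t • b - a = (t : ℂ) * (b - a) := by
    rw [hs']; simp only [Complex.real_smul]; push_cast; ring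
  have ht0 : 0 < t := by
    refine lt_of_le_of_ne ht ?_
    rintro rfl
    apply hz
    rw [hs']; simp
  rw [e, turn_eq_two_pi (sub_ne_zero.2 hab.symm)
    (mul_ne_zero (by exact_mod_cast ht0.ne') (sub_ne_zero.2 hab.symm))]
  exact ⟨t, ht0, rfl⟩

lemma turn_of_mem_edge' {a b c z : ℂ} (hab : a ≠ b) (hac : a ≠ c) (hz : z ≠ a)
    (h : z ∈ segment ℝ a c) : turn (b - a) (z - a) = turn (b - a) (c - a) := by
  obtain ⟨s, t, hs, ht, hst, rfl⟩ := h
  have hs' : s = 1 - t := by linarith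
  have e : s • a + t • c - a = (t : ℂ) * (c - a) := by
    rw [hs']; simp only [Complex.real_smul]; push_cast; ring
  have ht0 : 0 < t := by
    refine lt_of_le_of_ne ht ?_
    rintro rfl
    apply hz
    rw [hs']; simp
  rw [e]
  have := turn_smul (sub_ne_zero.2 hab.symm) (sub_ne_zero.2 hac.symm) one_pos ht0
  rw [Complex.ofReal_one, one_mul] at this
  exact this

/-- Points seen from `p i` under a given angle. -/
noncomputable def polar (a u : ℂ) (s φ : ℝ) : ℂ := a + s * Complex.exp (φ * I) * u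

lemma polar_sub (a u : ℂ) (s φ : ℝ) : polar a u s φ - a = s * Complex.exp (φ * I) * u := by
  unfold polar; ring

lemma turn_polar {a u : ℂ} (hu : u ≠ 0) {s φ : ℝ} (hs : 0 < s) (h0 : 0 < φ)
    (h1 : φ ≤ 2 * Real.pi) : turn u (polar a u s φ - a) = φ :=
  turn_unique hu hs h0 h1 (polar_sub a u s φ)

lemma dist_polar (a u : ℂ) {s φ : ℝ} (hs : 0 < s) : dist (polar a u s φ) a = s * ‖u‖ := by
  rw [dist_eq_norm, polar_sub, norm_mul, norm_mul, Complex.norm_exp_ofReal_mul_I, mul_one,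
    Complex.norm_real, Real.norm_of_nonneg hs.le]

lemma polar_ne {a u : ℂ} (hu : u ≠ 0) {s φ : ℝ} (hs : 0 < s) : polar a u s φ ≠ a := by
  intro h
  have := dist_polar a u (φ := φ) hs
  rw [h, dist_self] at this
  have h2 := norm_pos_iff.2 hu
  have : 0 < s * ‖u‖ := by positivity
  linarith

lemma eq_polar {a u z : ℂ} (hu : u ≠ 0) (hz : z ≠ a) :
    ∃ s > 0, s * ‖u‖ = dist z a ∧ z = polar a u s (turn u (z - a)) := by
  obtain ⟨c, hc, h⟩ := turn_spec hu (sub_ne_zero.2 hz)
  have e : z = polar a u c (turn u (z - a)) := by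
    unfold polar
    rw [← h]; ring
  refine ⟨c, hc, ?_, e⟩
  conv_rhs => rw [e]
  exact (dist_polar a u hc).symm

lemma orient_polar (a b : ℂ) (s φ : ℝ) :
    orient a b (polar a (b - a) s φ) = s * normSq (b - a) * Real.sin φ := by
  unfold orient
  rw [polar_sub, cr_exp]

lemma continuous_polar (a u : ℂ) : Continuous fun x : ℝ × ℝ => polar a u x.1 x.2 := by
  unfold polar
  fun_prop

lemma isPreconnected_sector (a u : ℂ) (R φ1 φ2 : ℝ) :
    IsPreconnected ((fun x : ℝ × ℝ => polar a u x.1 x.2) '' (Ioo 0 R ×ˢ Ioo φ1 φ2)) :=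
  (isPreconnected_Ioo.prod isPreconnected_Ioo).image _ (continuous_polar a u).continuousOn

/-- The polygon near the vertex `p i`. -/
theorem PP.cone_ball {n : ℕ} {p : ℕ → ℂ} (h : PP n p) (i : ℕ) :
    ∃ r > 0, ∀ z, z ≠ p i → dist z (p i) < r →
      (turn (p (i + 1) - p i) (z - p i) < th n p i → z ∈ Ins n p) ∧
      (th n p i < turn (p (i + 1) - p i) (z - p i) →
        turn (p (i + 1) - p i) (z - p i) < 2 * Real.pi → z ∉ Ins n p ∧ z ∉ chain p 0 n) := by
  have hs := h.sp
  have hpi := Real.pi_pos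
  have hu : p (i + 1) - p i ≠ 0 := sub_ne_zero.2 (hs.ne_succ i).symm
  have hup := norm_pos_iff.2 hu
  have hthlt := h.th_lt i
  have hth0 : 0 < th n p i := turn_pos _ _
  obtain ⟨r, hr, hru, hrw, hloc⟩ := PP.local hs i
  set u := p (i + 1) - p i with hudef
  set R := r / ‖u‖ with hR
  have hR0 : 0 < R := by positivity
  have hR1 : R ≤ 1 := by rw [hR, div_le_one hup]; exact hru
  have hoff : ∀ s φ, 0 < s → s < R → 0 < φ → φ < 2 * Real.pi → φ ≠ th n p i →
      polar (p i) u s φ ∉ chain p 0 n := by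
    intro s φ hs0 hsR h0 h1 h2 hc
    have hd : dist (polar (p i) u s φ) (p i) < r := by
      rw [dist_polar _ _ hs0]
      have := (lt_div_iff₀ hup).1 hsR
      exact this
    have hne := polar_ne (a := p i) hu (φ := φ) hs0
    have ht := turn_polar (a := p i) hu hs0 h0 h1.le
    rcases hloc _ hd hc with h3 | h3
    · have := turn_of_mem_edge (hs.ne_succ i) hne h3
      rw [← hudef, ht] at this
      linarith
    · rw [segment_symm] at h3
      have := turn_of_mem_edge' (b := p (i + 1)) (hs.ne_succ i) (PP.prev_ne hs i).symm hne h3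
      rw [← hudef, ht] at this
      exact h2 this
  -- a sector has constant winding number
  have hconst : ∀ φ1 φ2, 0 ≤ φ1 → φ2 ≤ 2 * Real.pi →
      (∀ φ, φ1 < φ → φ < φ2 → φ ≠ th n p i) →
      ∀ s φ s' φ', 0 < s → s < R → φ1 < φ → φ < φ2 → 0 < s' → s' < R → φ1 < φ' → φ' < φ2 →
        A p 0 n (polar (p i) u s φ) = A p 0 n (polar (p i) u s' φ') := by
    intro φ1 φ2 h1 h2 h3 s φ s' φ' a1 a2 a3 a4 b1 b2 b3 b4
    have hoff' : ∀ z ∈ (fun x : ℝ × ℝ => polar (p i) u x.1 x.2) '' (Ioo 0 R ×ˢ Ioo φ1 φ2),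
        z ∉ chain p 0 n := by
      rintro _ ⟨⟨s, φ⟩, ⟨⟨c1, c2⟩, c3, c4⟩, rfl⟩
      exact hoff s φ c1 c2 (by simp only at c3; linarith) (by simp only at c4; linarith)
        (h3 φ c3 c4)
    exact const_of_preconnected (isPreconnected_sector (p i) u R φ1 φ2)
      (fun z hz => (continuousAt_A (hoff' z hz)).continuousWithinAt)
      (fun z hz => hs.W_int (hoff' z hz))
      ⟨(s, φ), ⟨⟨a1, a2⟩, a3, a4⟩, rfl⟩ ⟨(s', φ'), ⟨⟨b1, b2⟩, b3, b4⟩, rfl⟩
  -- a point of the edge
  set s0 := R / 2 with hs0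
  have hs0' : 0 < s0 := by positivity
  have hs0R : s0 < R := by rw [hs0]; linarith
  have hq : p i + (s0 : ℂ) * u ∈ openSegment ℝ (p i) (p (i + 1)) := by
    refine ⟨1 - s0, s0, by linarith, hs0', by ring, ?_⟩
    simp only [Complex.real_smul, hudef]; push_cast; ring
  have hleft := h.left_ins i hq
  have hcont : Continuous fun φ : ℝ => polar (p i) u s0 φ := by
    unfold polar; fun_prop
  have hN : 0 < s0 * normSq (p (i + 1) - p i) := by
    have := normSq_pos.2 hu
    rw [hudef] at this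
    positivity
  refine ⟨r, hr, fun z hz hzr => ?_⟩
  obtain ⟨s, hs1, hs2, hs3⟩ := eq_polar hu hz
  have hsR : s < R := by
    rw [hR, lt_div_iff₀ hup, hs2]; exact hzr
  have htp := turn_pos u (z - p i)
  constructor
  · intro hlt
    -- a point with small angle which is inside
    have hT : Tendsto (fun φ : ℝ => polar (p i) u s0 φ) (𝓝[>] 0) (𝓝 (p i + (s0 : ℂ) * u)) := by
      have h1 := hcont.tendsto 0
      have e : polar (p i) u s0 0 = p i + (s0 : ℂ) * u := by
        unfold polar; simp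
      rw [e] at h1
      exact h1.mono_left nhdsWithin_le_nhds
    have h2 := hT.eventually hleft
    have h3 : ∀ᶠ φ : ℝ in 𝓝[>] 0, φ ∈ Ioo 0 (min (th n p i) Real.pi) :=
      Ioo_mem_nhdsGT (lt_min hth0 hpi)
    obtain ⟨φ, h4, h5⟩ := (h2.and h3).exists
    have h6 := h4.1 (by
      rw [orient_polar]
      exact mul_pos hN (Real.sin_pos_of_pos_of_lt_pi h5.1
        (lt_of_lt_of_le h5.2 (min_le_right _ _))))
    have h7 := hconst 0 (th n p i) le_rfl hthlt.le (fun φ _ h => h.ne) s (turn u (z - p i)) s0 φ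
      hs1 hsR htp hlt hs0' hs0R h5.1 (lt_of_lt_of_le h5.2 (min_le_left _ _))
    rw [← hs3, h.A_eq h6] at h7
    refine ⟨?_, by rw [h7]; positivity⟩
    rw [hs3]
    exact hoff _ _ hs1 hsR htp (by linarith) hlt.ne
  · intro hgt hlt
    have hT : Tendsto (fun φ : ℝ => polar (p i) u s0 φ) (𝓝[<] (2 * Real.pi))
        (𝓝 (p i + (s0 : ℂ) * u)) := by
      have h1 := hcont.tendsto (2 * Real.pi)
      have e : polar (p i) u s0 (2 * Real.pi) = p i + (s0 : ℂ) * u := by
        unfold polar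
        have : (((2 * Real.pi : ℝ) : ℂ) * I) = 2 * Real.pi * I := by push_cast; ring
        rw [this, Complex.exp_two_pi_mul_I, mul_one]
      rw [e] at h1
      exact h1.mono_left nhdsWithin_le_nhds
    have h2 := hT.eventually hleft
    have h3 : ∀ᶠ φ : ℝ in 𝓝[<] (2 * Real.pi), φ ∈ Ioo (max (th n p i) Real.pi) (2 * Real.pi) :=
      Ioo_mem_nhdsLT (max_lt hthlt (by linarith))
    obtain ⟨φ, h4, h5⟩ := (h2.and h3).exists
    have h5' : Real.pi < φ := lt_of_le_of_lt (le_max_right _ _) h5.1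
    have h6 := h4.2 (by
      rw [orient_polar]
      have : Real.sin φ < 0 := by
        have h8 : 0 < Real.sin (φ - Real.pi) :=
          Real.sin_pos_of_pos_of_lt_pi (by linarith) (by linarith [h5.2])
        rw [Real.sin_sub_pi] at h8
        linarith
      exact mul_neg_of_pos_of_neg hN this)
    have h7 := hconst (th n p i) (2 * Real.pi) hth0.le le_rfl (fun φ h _ => h.ne') s
      (turn u (z - p i)) s0 φ
      hs1 hsR hgt hlt hs0' hs0R (lt_of_le_of_lt (le_max_left _ _) h5.1) h5.2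
    have h8 : z ∉ chain p 0 n := by
      rw [hs3]
      exact hoff _ _ hs1 hsR htp hlt hgt.ne'
    refine ⟨?_, h8⟩
    rintro ⟨-, h9⟩
    apply h9
    rw [← hs3] at h7
    rw [h7]
    rcases h.A_cases h6.2 with ⟨h10, -⟩ | ⟨-, h10⟩
    · exact absurd h10 h6.1
    · exact h10

/-- A point of the open segment close to its first endpoint. -/
lemma exists_near {a z : ℂ} (hz : z ≠ a) {r : ℝ} (hr : 0 < r) :
    ∃ t : ℝ, 0 < t ∧ t < 1 ∧ dist (a + t * (z - a)) a < r ∧
      a + t * (z - a) ∈ openSegment ℝ a z := by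
  have hd : 0 < dist z a := dist_pos.2 hz
  refine ⟨min (1 / 2) (r / (2 * dist z a)), by positivity,
    lt_of_le_of_lt (min_le_left _ _) (by norm_num), ?_, ?_⟩
  · rw [dist_eq_norm, add_sub_cancel_left, norm_mul, Complex.norm_real,
      Real.norm_of_nonneg (by positivity), ← dist_eq_norm]
    calc min (1 / 2) (r / (2 * dist z a)) * dist z a
        ≤ r / (2 * dist z a) * dist z a :=
          mul_le_mul_of_nonneg_right (min_le_right _ _) hd.le
      _ = r / 2 := by field_simp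
      _ < r := by linarith
  · have h1 : min (1 / 2) (r / (2 * dist z a)) < 1 :=
      lt_of_le_of_lt (min_le_left _ _) (by norm_num)
    refine ⟨1 - min (1 / 2) (r / (2 * dist z a)), min (1 / 2) (r / (2 * dist z a)),
      by linarith, by positivity, by ring, ?_⟩
    simp only [Complex.real_smul]; push_cast; ring

lemma turn_ray {a b z : ℂ} (hab : a ≠ b) (hz : z ≠ a) {t : ℝ} (ht : 0 < t) :
    turn (b - a) (a + t * (z - a) - a) = turn (b - a) (z - a) := by
  rw [add_sub_cancel_left]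
  have := turn_smul (sub_ne_zero.2 hab.symm) (sub_ne_zero.2 hz) one_pos ht
  rw [Complex.ofReal_one, one_mul] at this
  exact this

lemma near_ne {a z : ℂ} (hz : z ≠ a) {t : ℝ} (ht : 0 < t) : a + t * (z - a) ≠ a := by
  intro h
  rw [add_eq_left, mul_eq_zero] at h
  rcases h with h | h
  · exact ht.ne' (by exact_mod_cast h)
  · exact hz (sub_eq_zero.1 h)

/-- A point in the direction of an edge and close to `a` lies on the edge. -/
lemma mem_edge_of_dir {a b z : ℂ} {c : ℝ} (hab : a ≠ b) (hc : 0 < c)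
    (h : z - a = c * (b - a)) (hd : dist z a < ‖b - a‖) : z ∈ segment ℝ a b := by
  have hn := norm_pos_iff.2 (sub_ne_zero.2 hab.symm)
  rw [dist_eq_norm, h, norm_mul, Complex.norm_real, Real.norm_of_nonneg hc.le] at hd
  have hc1 : c < 1 := by
    by_contra hcon
    push Not at hcon
    nlinarith
  refine ⟨1 - c, c, by linarith, hc.le, by ring, ?_⟩
  have : z = a + c * (b - a) := by rw [← h]; ring
  rw [this]
  simp only [Complex.real_smul]; push_cast; ring

/-- Directions outside of the interior angle do not lead inside (edges included). -/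
theorem PP.not_ins {n : ℕ} {p : ℕ → ℂ} (h : PP n p) (i : ℕ) {z : ℂ} (hz : z ≠ p i)
    (hφ : th n p i ≤ turn (p (i + 1) - p i) (z - p i)) :
    ∃ w ∈ openSegment ℝ (p i) z, w ∉ Ins n p := by
  have hs := h.sp
  have hn := hs.three_le
  obtain ⟨r, hr, hcone⟩ := h.cone_ball i
  have hu : p (i + 1) - p i ≠ 0 := sub_ne_zero.2 (hs.ne_succ i).symm
  have hw : p (i + (n - 1)) - p i ≠ 0 := sub_ne_zero.2 (PP.prev_ne hs i)
  have hR : 0 < min r (min ‖p (i + 1) - p i‖ ‖p (i + (n - 1)) - p i‖) :=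
    lt_min hr (lt_min (norm_pos_iff.2 hu) (norm_pos_iff.2 hw))
  obtain ⟨t, ht0, ht1, htd, htm⟩ := exists_near hz hR
  refine ⟨_, htm, ?_⟩
  have hne := near_ne hz ht0
  have hturn := turn_ray (b := p (i + 1)) (hs.ne_succ i) hz ht0
  have hsub1 : segment ℝ (p i) (p (i + 1)) ⊆ chain p 0 n := by
    rw [← hs.chain_per i]
    intro y hy
    exact ⟨i, le_rfl, by omega, hy⟩
  have hsub2 : segment ℝ (p i) (p (i + (n - 1))) ⊆ chain p 0 n := by
    rw [← hs.chain_per i, segment_symm]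
    intro y hy
    refine ⟨i + (n - 1), by omega, by omega, ?_⟩
    rw [idx_prev hn, hs.per]
    exact hy
  rcases hφ.lt_or_eq with h1 | h1
  · rcases (turn_le (p (i + 1) - p i) (z - p i)).lt_or_eq with h2 | h2
    · exact ((hcone _ hne (lt_of_lt_of_le htd (min_le_left _ _))).2 (by rw [hturn]; exact h1)
        (by rw [hturn]; exact h2)).1
    · rintro ⟨h3, -⟩
      apply h3
      apply hsub1
      rw [← hturn] at h2
      obtain ⟨c, hc, h4⟩ := (turn_eq_two_pi hu (sub_ne_zero.2 hne)).1 h2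
      exact mem_edge_of_dir (hs.ne_succ i) hc h4 (lt_of_lt_of_le htd
        ((min_le_right _ _).trans (min_le_left _ _)))
  · rintro ⟨h3, -⟩
    apply h3
    apply hsub2
    rw [← hturn] at h1
    obtain ⟨c, hc, h4⟩ := turn_spec hu hw
    obtain ⟨d, hd, h5⟩ := turn_spec hu (sub_ne_zero.2 hne)
    have h6 : p i + t * (z - p i) - p i = ((d / c : ℝ) : ℂ) * (p (i + (n - 1)) - p i) := by
      rw [h5, h4, ← h1]
      have hcc : (c : ℂ) ≠ 0 := by exact_mod_cast hc.ne'
      unfold th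
      push_cast
      field_simp
    exact mem_edge_of_dir (PP.prev_ne hs i).symm (by positivity) h6 (lt_of_lt_of_le htd
        ((min_le_right _ _).trans (min_le_right _ _)))

/-- A diagonal starts into the interior angle. -/
theorem PP.diag_turn {n : ℕ} {p : ℕ → ℂ} (h : PP n p) {i j : ℕ} (hd : Diag n p i j) :
    turn (p (i + 1) - p i) (p j - p i) < th n p i := by
  by_contra hcon
  push Not at hcon
  have hne : p j ≠ p i := by
    intro e
    unfold Diag at hd
    rw [e, openSegment_same, singleton_subset_iff] at hd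
    apply hd.1
    rw [← h.sp.chain_per i]
    exact ⟨i, le_rfl, by have := h.three_le; omega, left_mem_segment ℝ _ _⟩
  obtain ⟨w, hw, hw'⟩ := h.not_ins i hne hcon
  exact hw' (hd hw)

/-- A segment from `p i` whose interior avoids the polygon but which starts outside. -/
theorem PP.out_turn {n : ℕ} {p : ℕ → ℂ} (h : PP n p) {i : ℕ} {z : ℂ} (hz : z ≠ p i)
    (hd : ∀ w ∈ openSegment ℝ (p i) z, w ∉ Ins n p ∧ w ∉ chain p 0 n) :
    th n p i < turn (p (i + 1) - p i) (z - p i) ∧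
      turn (p (i + 1) - p i) (z - p i) < 2 * Real.pi := by
  have hs := h.sp
  have hn := hs.three_le
  obtain ⟨r, hr, hcone⟩ := h.cone_ball i
  have hu : p (i + 1) - p i ≠ 0 := sub_ne_zero.2 (hs.ne_succ i).symm
  have hw : p (i + (n - 1)) - p i ≠ 0 := sub_ne_zero.2 (PP.prev_ne hs i)
  have hR : 0 < min r (min ‖p (i + 1) - p i‖ ‖p (i + (n - 1)) - p i‖) :=
    lt_min hr (lt_min (norm_pos_iff.2 hu) (norm_pos_iff.2 hw))
  obtain ⟨t, ht0, ht1, htd, htm⟩ := exists_near hz hR
  have hne := near_ne hz ht0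
  have hturn := turn_ray (b := p (i + 1)) (hs.ne_succ i) hz ht0
  obtain ⟨hd1, hd2⟩ := hd _ htm
  have hsub1 : segment ℝ (p i) (p (i + 1)) ⊆ chain p 0 n := by
    rw [← hs.chain_per i]
    intro y hy
    exact ⟨i, le_rfl, by omega, hy⟩
  have hsub2 : segment ℝ (p i) (p (i + (n - 1))) ⊆ chain p 0 n := by
    rw [← hs.chain_per i, segment_symm]
    intro y hy
    refine ⟨i + (n - 1), by omega, by omega, ?_⟩
    rw [idx_prev hn, hs.per]
    exact hy
  constructor
  · by_contra hcon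
    push Not at hcon
    rcases hcon.lt_or_eq with h1 | h1
    · exact hd1 ((hcone _ hne (lt_of_lt_of_le htd (min_le_left _ _))).1 (by rw [hturn]; exact h1))
    · apply hd2
      apply hsub2
      rw [← hturn] at h1
      obtain ⟨c, hc, h4⟩ := turn_spec hu hw
      obtain ⟨d, hd, h5⟩ := turn_spec hu (sub_ne_zero.2 hne)
      have h6 : p i + t * (z - p i) - p i = ((d / c : ℝ) : ℂ) * (p (i + (n - 1)) - p i) := by
        rw [h5, h4, h1]
        have hcc : (c : ℂ) ≠ 0 := by exact_mod_cast hc.ne'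
        unfold th
        push_cast
        field_simp
      exact mem_edge_of_dir (PP.prev_ne hs i).symm (by positivity) h6 (lt_of_lt_of_le htd
          ((min_le_right _ _).trans (min_le_right _ _)))
  · refine lt_of_le_of_ne (turn_le _ _) ?_
    intro h2
    apply hd2
    apply hsub1
    rw [← hturn] at h2
    obtain ⟨c, hc, h4⟩ := (turn_eq_two_pi hu (sub_ne_zero.2 hne)).1 h2
    exact mem_edge_of_dir (hs.ne_succ i) hc h4 (lt_of_lt_of_le htd
      ((min_le_right _ _).trans (min_le_left _ _)))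

/-- A segment between two vertices which avoids the polygon is a diagonal, or lies outside. -/
theorem chord_cases {n : ℕ} {p : ℕ → ℂ} (h : SP n p) {a b : ℂ}
    (hd : ∀ w ∈ openSegment ℝ a b, w ∉ chain p 0 n) :
    openSegment ℝ a b ⊆ Ins n p ∨ ∀ w ∈ openSegment ℝ a b, w ∉ Ins n p := by
  by_cases h1 : ∃ w ∈ openSegment ℝ a b, w ∈ Ins n p
  · left
    obtain ⟨w, hw, hw'⟩ := h1
    intro z hz
    refine ⟨hd z hz, ?_⟩
    rw [const_of_preconnected (convex_openSegment a b).isPreconnected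
      (fun z hz => (continuousAt_A (hd z hz)).continuousWithinAt)
      (fun z hz => h.W_int (hd z hz)) hz hw]
    exact hw'.2
  · right
    push Not at h1
    exact h1

end Pool.Agent.SigPoly
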