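import Pool.Agent.VisGraph.Chord

/-!
# Simple polygons with the minimum number of diagonals: internal notions

A polygon with `n` vertices is a function `p : ℕ → ℂ` of period `n` (structure `SP n p` of
`Pool.Agent.VisGraph`).  `PP n p` says that it is simple and counterclockwise.
-/

namespace Pool.Agent.SigPoly

open Complex Set Filter Topology Pool.Agent.VisGraph

/-- The counterclockwise turning angle, in `(0, 2π]`, from the direction `u` to the
direction `v`. -/
noncomputable def turn (u v : ℂ) : ℝ := toIocMod Real.two_pi_pos 0 (Complex.arg (v / u))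

/-- Simple, counterclockwise polygons. -/
structure PP (n : ℕ) (p : ℕ → ℂ) : Prop where
  sp : SP n p
  pos : ∃ U, JData n p 1 U

/-- The points inside. -/
def Ins (n : ℕ) (p : ℕ → ℂ) : Set ℂ := {z | z ∉ chain p 0 n ∧ A p 0 n z ≠ 0}

/-- The diagonals (an equivalent short form: the open segment lies inside). -/
def Diag (n : ℕ) (p : ℕ → ℂ) (i j : ℕ) : Prop := openSegment ℝ (p i) (p j) ⊆ Ins n p

/-- The interior angle at `p i`, for counterclockwise polygons. -/
noncomputable def th (n : ℕ) (p : ℕ → ℂ) (i : ℕ) : ℝ :=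
  turn (p (i + 1) - p i) (p (i + (n - 1)) - p i)

/-- The angle at `p i` between the following edge and the next diagonal (or the previous edge). -/
noncomputable def aR (n : ℕ) (p : ℕ → ℂ) (i : ℕ) : ℝ :=
  sInf {x | ∃ j, (Diag n p i j ∨ p j = p (i + (n - 1))) ∧ x = turn (p (i + 1) - p i) (p j - p i)}

/-- The angle at `p i` between the last diagonal (or the following edge) and the previous edge. -/
noncomputable def aL (n : ℕ) (p : ℕ → ℂ) (i : ℕ) : ℝ :=
  sInf {x | ∃ j, (Diag n p i j ∨ p j = p (i + 1)) ∧
    x = turn (p j - p i) (p (i + (n - 1)) - p i)}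

open Classical in
/-- Twice the number of diagonals. -/
noncomputable def Cnt (n : ℕ) (p : ℕ → ℂ) : ℕ :=
  ((Finset.range n ×ˢ Finset.range n).filter fun x => Diag n p x.1 x.2).card

/-- No diagonal starts at `p i`. -/
def NoDiag (n : ℕ) (p : ℕ → ℂ) (i : ℕ) : Prop := ∀ j, ¬ Diag n p i j

/-- Closed counterclockwise triangle. -/
def ctri (a b c : ℂ) : Set ℂ := {z | 0 ≤ orient a b z ∧ 0 ≤ orient b c z ∧ 0 ≤ orient c a z}

/-- Open counterclockwise triangle. -/
def otri (a b c : ℂ) : Set ℂ := {z | 0 < orient a b z ∧ 0 < orient b c z ∧ 0 < orient c a z}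

/-- Rotation of the indices. -/
def rotp (p : ℕ → ℂ) : ℕ → ℂ := fun k => p (k + 1)

/-- The mirror image, traversed backwards, so that counterclockwise polygons stay
counterclockwise. -/
noncomputable def mirp (n : ℕ) (p : ℕ → ℂ) : ℕ → ℂ := fun k => (starRingEnd ℂ) (p ((n - 1) * k))

/-- Insertion of one vertex, after the vertex `p (n - 1)` and before `p n = p 0`. -/
noncomputable def insp (n : ℕ) (p : ℕ → ℂ) (b : ℂ) : ℕ → ℂ := fun k =>
  if k % (n + 1) = n then b else p (k % (n + 1))

/-- Removal of the vertex with index `n` of an `n + 1`-gon. -/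
def delp (n : ℕ) (q : ℕ → ℂ) : ℕ → ℂ := fun k => q (k % n)

/-- `q` arises from `p` by attaching the triangle `p (n - 1)`, `q n`, `p 0` from outside. -/
structure Ear (n : ℕ) (p q : ℕ → ℂ) : Prop where
  hp : PP n p
  hq : PP (n + 1) q
  eq : ∀ k < n, q k = p k
  ori : 0 < orient (p (n - 1)) (q n) (p 0)
  disj : ∀ z ∈ ctri (p (n - 1)) (q n) (p 0), z ∈ chain p 0 n → z ∈ segment ℝ (p (n - 1)) (p 0)

/-- Weak general position: a vertex between two other vertices occurs only on an edge which is
subdivided by flat vertices. -/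
def GP (n : ℕ) (p : ℕ → ℂ) : Prop := ∀ i j k, p i ≠ p j → p k ∈ openSegment ℝ (p i) (p j) →
  (p (i + 1) ∈ segment ℝ (p i) (p j) ∧ p (j + (n - 1)) ∈ segment ℝ (p i) (p j)) ∨
  (p (i + (n - 1)) ∈ segment ℝ (p i) (p j) ∧ p (j + 1) ∈ segment ℝ (p i) (p j))

/-- `p t` is the apex of the triangle (of the triangulation by all diagonals) over the edge
`p i, p (i + 1)`. -/
structure Apex (n : ℕ) (p : ℕ → ℂ) (i t : ℕ) : Prop where
  ori : 0 < orient (p i) (p (i + 1)) (p t)
  sub : otri (p i) (p (i + 1)) (p t) ⊆ Ins n p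
  aR : aR n p i = turn (p (i + 1) - p i) (p t - p i)
  aL : aL n p (i + 1) = turn (p t - p (i + 1)) (p i - p (i + 1))

/-! ### The labels and the grammar -/

/-- Labels of vertices.  `tip`: convex, no diagonal; `plus`: convex; `flat`; `neg l r`: concave;
`l` (resp. `r`) says that a further triangle may be attached to the edge before (resp. after)
the vertex such that the new diagonal is covered at this vertex. -/
inductive Lab : Type
  | tip : Lab
  | plus : Lab
  | flat : Lab
  | neg (l r : Bool) : Lab
  deriving DecidableEq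

/-- Change of the label of the vertex before the new vertex, if it covers the new diagonal. -/
inductive RuleV : Lab → Lab → Prop
  | tf : RuleV Lab.tip Lab.flat
  | tn (l r : Bool) : RuleV Lab.tip (Lab.neg l r)
  | pn (r : Bool) : RuleV Lab.plus (Lab.neg false r)
  | nn (l : Bool) : RuleV (Lab.neg l true) (Lab.neg false false)

/-- Change of the label of the vertex after the new vertex, if it does not cover the new
diagonal. -/
inductive RuleY : Lab → Lab → Prop
  | tp : RuleY Lab.tip Lab.plus
  | pp : RuleY Lab.plus Lab.plus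
  | nn (l r r' : Bool) (h : r' = true → r = true) : RuleY (Lab.neg l r) (Lab.neg false r')

/-- Mirror image of a label. -/
def Lab.mir : Lab → Lab
  | Lab.tip => Lab.tip
  | Lab.plus => Lab.plus
  | Lab.flat => Lab.flat
  | Lab.neg l r => Lab.neg r l

/-- The grammar of labelled words (words are functions of period `n`). -/
inductive Gen : ℕ → (ℕ → Lab) → Prop
  | base (L : ℕ → Lab) (per : ∀ k, L (k + 3) = L k)
      (h : ∀ k, L k = Lab.tip ∨ L k = Lab.plus) : Gen 3 L
  | rot (n : ℕ) (L : ℕ → Lab) (h : Gen n L) : Gen n (fun k => L (k + 1))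
  | mir (n : ℕ) (L : ℕ → Lab) (h : Gen n L) : Gen n (fun k => (L ((n - 1) * k)).mir)
  | att (n : ℕ) (L L' : ℕ → Lab) (h : Gen n L) (per : ∀ k, L' (k + (n + 1)) = L' k)
      (mid : ∀ k, 0 < k → k + 1 < n → L' k = L k) (new : L' n = Lab.tip ∨ L' n = Lab.plus)
      (hv : RuleV (L (n - 1)) (L' (n - 1))) (hy : RuleY (L 0) (L' 0)) : Gen (n + 1) L'

/-- Geometric meaning of the labels (strict version). -/
def LabOK (n : ℕ) (p : ℕ → ℂ) (i : ℕ) : Lab → Prop
  | Lab.tip => th n p i < Real.pi ∧ NoDiag n p i
  | Lab.plus => th n p i < Real.pi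
  | Lab.flat => th n p i = Real.pi
  | Lab.neg l r => Real.pi < th n p i ∧ (l = true → th n p i - aL n p i < Real.pi) ∧
      (r = true → th n p i - aR n p i < Real.pi)

/-- Geometric meaning of the labels (weak version: flat vertices may carry the label `neg`). -/
def LabW (n : ℕ) (p : ℕ → ℂ) (i : ℕ) : Lab → Prop
  | Lab.tip => th n p i < Real.pi ∧ NoDiag n p i
  | Lab.plus => th n p i < Real.pi
  | Lab.flat => th n p i = Real.pi
  | Lab.neg l r => Real.pi ≤ th n p i ∧ (l = true → th n p i - aL n p i < Real.pi) ∧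
      (r = true → th n p i - aR n p i < Real.pi)

end Pool.Agent.SigPoly
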