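import Pool.Agent.SigPoly.Sym
import Pool.Agent.SigPoly.Tri
import Pool.Agent.SigPoly.Angles

/-!
# Triangle geometry used for attached triangles
-/

namespace Pool.Agent.SigPoly

open Complex Set Filter Topology Pool.Agent.VisGraph

lemma er_bary (a b c z : ℂ) : (orient a b c : ℂ) * z =
    orient b c z * a + orient c a z * b + orient a b z * c := by
  apply Complex.ext
  · simp only [orient, cr, Complex.sub_re, Complex.sub_im, Complex.add_re, Complex.re_ofReal_mul]
    ring
  · simp only [orient, cr, Complex.sub_re, Complex.sub_im, Complex.add_im, Complex.im_ofReal_mul]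
    ring

lemma er_seg {a b c z : ℂ} (h : 0 < orient a b c) (hz : z ∈ ctri a b c)
    (h0 : orient a b z = 0) : z ∈ segment ℝ a b := by
  have hs := orient_sum a b c z
  rw [h0, zero_add] at hs
  refine ⟨orient b c z / orient a b c, orient c a z / orient a b c, div_nonneg hz.2.1 h.le,
    div_nonneg hz.2.2 h.le, ?_, ?_⟩
  · rw [← add_div, hs, div_self h.ne']
  · have hb := er_bary a b c z
    rw [h0] at hb
    have hD : (orient a b c : ℂ) ≠ 0 := by exact_mod_cast h.ne'
    simp only [Complex.real_smul]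
    push_cast
    field_simp
    rw [hb]
    push_cast
    ring

/-- A point in the interior of a side: strictly positive for the two other sides. -/
lemma er_open {a b c z : ℂ} (h : 0 < orient a b c) (hz : z ∈ openSegment ℝ a b) :
    orient a b z = 0 ∧ 0 < orient b c z ∧ 0 < orient c a z := by
  refine ⟨orient_eq_zero_of_mem (openSegment_subset_segment ℝ _ _ hz), ?_, ?_⟩
  · obtain ⟨s, t, hs, ht, hst, rfl⟩ := hz
    rw [orient_comb hst, orient_cyc, orient_left, mul_zero, add_zero]
    exact mul_pos hs h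
  · obtain ⟨s, t, hs, ht, hst, rfl⟩ := hz
    rw [orient_comb hst, orient_right, mul_zero, zero_add, ← orient_cyc]
    exact mul_pos ht h

/-- Points of the closed triangle are limits of points of the open triangle. -/
lemma er_closure {a b c z : ℂ} (h : 0 < orient a b c) (hz : z ∈ ctri a b c) {O : Set ℂ}
    (hO : IsOpen O) (hzO : z ∈ O) : ∃ w ∈ O, w ∈ otri a b c := by
  have h1 : Continuous fun t : ℝ => (1 - t) • z + t • ((a + b + c) / 3) := by fun_prop
  have h2 : ∀ᶠ t : ℝ in 𝓝 0, (1 - t) • z + t • ((a + b + c) / 3) ∈ O := by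
    apply h1.continuousAt.eventually_mem
    apply hO.mem_nhds
    simpa using hzO
  have h3 : ∀ᶠ t : ℝ in 𝓝[>] 0, (1 - t) • z + t • ((a + b + c) / 3) ∈ O ∧ t ∈ Ioo (0 : ℝ) 1 :=
    (h2.filter_mono nhdsWithin_le_nhds).and (Ioo_mem_nhdsGT one_pos)
  obtain ⟨t, ht, ht0, ht1⟩ := h3.exists
  refine ⟨_, ht, ?_⟩
  have hc := centroid_mem h
  have key : ∀ u v : ℂ, 0 ≤ orient u v z → 0 < orient u v ((a + b + c) / 3) →
      0 < orient u v ((1 - t) • z + t • ((a + b + c) / 3)) := by
    intro u v hu hv
    rw [orient_comb (by ring)]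
    have h4 : 0 ≤ (1 - t) * orient u v z := mul_nonneg (by linarith) hu
    have h5 := mul_pos ht0 hv
    linarith
  exact ⟨key _ _ hz.1 hc.1, key _ _ hz.2.1 hc.2.1, key _ _ hz.2.2 hc.2.2⟩

/-- A segment which starts at a vertex of a triangle in a direction inside the angle there. -/
lemma er_cone {a b c x : ℂ} (h : 0 < orient a b c) (h1 : 0 < orient a b x)
    (h2 : 0 < orient c a x) : ∃ z ∈ openSegment ℝ a x, z ∈ otri a b c := by
  have hcont : Continuous fun t : ℝ => orient b c ((1 - t) • a + t • x) := by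
    have := continuous_orient b c
    exact this.comp (by fun_prop)
  have h3 : ∀ᶠ t : ℝ in 𝓝 0, 0 < orient b c ((1 - t) • a + t • x) := by
    apply hcont.continuousAt.eventually (lt_mem_nhds ?_)
    simp only [sub_zero, one_smul, zero_smul, add_zero]
    rw [orient_cyc]
    exact h
  have h4 : ∀ᶠ t : ℝ in 𝓝[>] 0, 0 < orient b c ((1 - t) • a + t • x) ∧ t ∈ Ioo (0 : ℝ) 1 :=
    (h3.filter_mono nhdsWithin_le_nhds).and (Ioo_mem_nhdsGT one_pos)
  obtain ⟨t, ht, ht0, ht1⟩ := h4.exists
  refine ⟨(1 - t) • a + t • x, ⟨1 - t, t, by linarith, ht0, by ring, rfl⟩, ?_, ht, ?_⟩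
  · rw [orient_comb (by ring), orient_left, mul_zero, zero_add]
    exact mul_pos ht0 h1
  · rw [orient_comb (by ring), orient_right, mul_zero, zero_add]
    exact mul_pos ht0 h2

/-- A segment from inside the triangle `a b c` to a point not in it, on the inner side of `c a`,
meets one of the sides `a b` and `b c`. -/
lemma er_exit {a b c z x : ℂ} (h : 0 < orient a b c) (h1 : 0 < orient a b z)
    (h2 : 0 < orient b c z) (h3 : 0 ≤ orient c a z) (hx : x ∉ ctri a b c)
    (hx3 : 0 ≤ orient c a x) :
    ∃ w ∈ openSegment ℝ z x, w ∈ segment ℝ a b ∨ w ∈ segment ℝ b c := by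
  -- linear functions along the segment
  have key : ∀ (u v u' v' : ℂ), 0 < orient u v z → orient u v x < 0 → 0 < orient u' v' z →
      (0 ≤ orient u' v' x ∨ orient u v z / (orient u v z - orient u v x) ≤
        orient u' v' z / (orient u' v' z - orient u' v' x)) →
      ∃ w ∈ openSegment ℝ z x, orient u v w = 0 ∧ 0 ≤ orient u' v' w ∧ 0 ≤ orient c a w := by
    intro u v u' v' k1 k2 k3 k4
    set F := orient u v z with hF
    set G := orient u v x with hG
    have hd : 0 < F - G := by linarith
    have ht0 : 0 < F / (F - G) := by positivity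
    have ht1 : F / (F - G) < 1 := by rw [div_lt_one hd]; linarith
    refine ⟨(1 - F / (F - G)) • z + (F / (F - G)) • x, ⟨1 - F / (F - G), F / (F - G),
      by linarith, ht0, by ring, rfl⟩, ?_, ?_, ?_⟩
    · rw [orient_comb (by ring), ← hF, ← hG]
      field_simp
      ring
    · rw [orient_comb (by ring)]
      rcases k4 with k4 | k4
      · have := mul_nonneg ht0.le k4
        have h5 : 0 ≤ (1 - F / (F - G)) * orient u' v' z := mul_nonneg (by linarith) k3.le
        linarith
      · rcases le_or_gt 0 (orient u' v' x) with k5 | k5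
        · have := mul_nonneg ht0.le k5
          have h5 : 0 ≤ (1 - F / (F - G)) * orient u' v' z := mul_nonneg (by linarith) k3.le
          linarith
        · have hd' : 0 < orient u' v' z - orient u' v' x := by linarith
          rw [le_div_iff₀ hd'] at k4
          nlinarith
    · rw [orient_comb (by ring)]
      have := mul_nonneg ht0.le hx3
      have h5 : 0 ≤ (1 - F / (F - G)) * orient c a z := mul_nonneg (by linarith) h3
      linarith
  have hor : orient a b x < 0 ∨ orient b c x < 0 := by
    by_contra hcon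
    push Not at hcon
    exact hx ⟨hcon.1, hcon.2, hx3⟩
  have fin1 : ∀ w, w ∈ openSegment ℝ z x → orient a b w = 0 → 0 ≤ orient b c w →
      0 ≤ orient c a w → ∃ w ∈ openSegment ℝ z x, w ∈ segment ℝ a b ∨ w ∈ segment ℝ b c :=
    fun w hw k1 k2 k3 => ⟨w, hw, Or.inl (er_seg h ⟨k1.ge, k2, k3⟩ k1)⟩
  have fin2 : ∀ w, w ∈ openSegment ℝ z x → orient b c w = 0 → 0 ≤ orient a b w →
      0 ≤ orient c a w → ∃ w ∈ openSegment ℝ z x, w ∈ segment ℝ a b ∨ w ∈ segment ℝ b c :=
    fun w hw k1 k2 k3 => ⟨w, hw, Or.inr (er_seg (c := a) (by rw [orient_cyc]; exact h)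
      ⟨k1.ge, k3, k2⟩ k1)⟩
  rcases le_or_gt 0 (orient a b x) with k1 | k1
  · have k2 : orient b c x < 0 := by
      rcases hor with k | k
      · exact absurd k1 (not_le.2 k)
      · exact k
    obtain ⟨w, hw, w1, w2, w3⟩ := key b c a b h2 k2 h1 (Or.inl k1)
    exact fin2 w hw w1 w2 w3
  · rcases le_or_gt 0 (orient b c x) with k2 | k2
    · obtain ⟨w, hw, w1, w2, w3⟩ := key a b b c h1 k1 h2 (Or.inl k2)
      exact fin1 w hw w1 w2 w3
    · rcases le_total (orient a b z / (orient a b z - orient a b x))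
        (orient b c z / (orient b c z - orient b c x)) with k3 | k3
      · obtain ⟨w, hw, w1, w2, w3⟩ := key a b b c h1 k1 h2 (Or.inr k3)
        exact fin1 w hw w1 w2 w3
      · obtain ⟨w, hw, w1, w2, w3⟩ := key b c a b h2 k2 h1 (Or.inr k3)
        exact fin2 w hw w1 w2 w3

/-- Sub-segments of open segments. -/
lemma er_sub {a c z w : ℂ} (hz : z ∈ openSegment ℝ a c) (hw : w ∈ openSegment ℝ z c) :
    w ∈ openSegment ℝ a c := by
  obtain ⟨s, t, hs, ht, hst, rfl⟩ := hz
  obtain ⟨s', t', hs', ht', hst', rfl⟩ := hw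
  refine ⟨s' * s, s' * t + t', by positivity, by positivity, ?_, ?_⟩
  · calc s' * s + (s' * t + t') = s' * (s + t) + t' := by ring
      _ = 1 := by rw [hst, mul_one, hst']
  · simp only [Complex.real_smul]; push_cast; ring

end Pool.Agent.SigPoly
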