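import Pool.Agent.SigPoly.EarGeo

/-!
# Attaching a triangle to a polygon: relations between the two polygons
-/

namespace Pool.Agent.SigPoly

open Complex Set Filter Topology Pool.Agent.VisGraph

/-- The three angles of the attached triangle `p (n - 1)`, `q n`, `p 0`. -/
noncomputable def eta (n : ℕ) (p q : ℕ → ℂ) : ℝ := turn (q n - p (n - 1)) (p 0 - p (n - 1))
noncomputable def bet (n : ℕ) (p q : ℕ → ℂ) : ℝ := turn (p (n - 1) - p 0) (q n - p 0)
noncomputable def gam (n : ℕ) (p q : ℕ → ℂ) : ℝ := turn (p 0 - q n) (p (n - 1) - q n)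

namespace Ear

variable {n : ℕ} {p q : ℕ → ℂ} (E : Ear n p q)

include E

lemma sum_angles : eta n p q + bet n p q + gam n p q = Real.pi := by
  have h := turn_triangle E.ori
  unfold eta bet gam
  linarith

lemma n3 : 3 ≤ n := E.hp.three_le

lemma pn : p n = p 0 := by simpa using E.hp.sp.per 0

lemma qn1 : q (n + 1) = p 0 := by
  have := E.hq.sp.per 0
  rw [zero_add] at this
  rw [this, E.eq 0 (by have := E.n3; omega)]

/-- periodicity of `q` -/
lemma q_add (k : ℕ) (hk : k < n) : q (k + (n + 1)) = p k := by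
  rw [E.hq.sp.per, E.eq k hk]

lemma chain_common : chain q 0 (n - 1) = chain p 0 (n - 1) := by
  have hn := E.n3
  ext z
  constructor
  · rintro ⟨k, h0, h1, hz⟩
    rw [E.eq k (by omega), E.eq (k + 1) (by omega)] at hz
    exact ⟨k, h0, h1, hz⟩
  · rintro ⟨k, h0, h1, hz⟩
    rw [← E.eq k (by omega), ← E.eq (k + 1) (by omega)] at hz
    exact ⟨k, h0, h1, hz⟩

lemma chain_p : chain p 0 n = chain p 0 (n - 1) ∪ segment ℝ (p (n - 1)) (p 0) := by
  have hn := E.n3
  have h1 := chain_one (p := p) (n - 1)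
  rw [show n - 1 + 1 = n by omega, E.pn] at h1
  rw [← h1]
  exact chain_union (by omega) (by omega)

lemma chain_q : chain q 0 (n + 1) = chain p 0 (n - 1) ∪
    (segment ℝ (p (n - 1)) (q n) ∪ segment ℝ (q n) (p 0)) := by
  have hn := E.n3
  have h1 := chain_one (p := q) (n - 1)
  rw [show n - 1 + 1 = n by omega, E.eq (n - 1) (by omega)] at h1
  have h2 := chain_one (p := q) n
  rw [E.qn1] at h2
  rw [← E.chain_common, ← h1, ← h2, ← chain_union (show n - 1 ≤ n by omega) (by omega)]
  exact chain_union (by omega) (by omega)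

/-- The common part of the boundary and the triangle have only two common points. -/
lemma common_ctri {z : ℂ} (hz : z ∈ chain p 0 (n - 1)) (hc : z ∈ ctri (p (n - 1)) (q n) (p 0)) :
    z = p (n - 1) ∨ z = p 0 := by
  have hn := E.n3
  have h1 : z ∈ segment ℝ (p (n - 1)) (p 0) := E.disj z hc (by rw [E.chain_p]; exact Or.inl hz)
  obtain ⟨k, -, hk, hzk⟩ := hz
  have hpn : segment ℝ (p (n - 1)) (p (n - 1 + 1)) = segment ℝ (p (n - 1)) (p 0) := by
    rw [show n - 1 + 1 = n by omega, E.pn]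
  by_cases h2 : k = 0
  · right
    subst h2
    have h3 := E.hp.sp.consec (n - 1)
    rw [hpn, show n - 1 + 1 = 0 + n by omega, show n - 1 + 2 = 1 + n by omega, E.hp.sp.per,
      E.hp.sp.per] at h3
    have h4 : z ∈ segment ℝ (p (n - 1)) (p 0) ∩ segment ℝ (p 0) (p 1) := ⟨h1, hzk⟩
    rw [h3] at h4
    exact h4
  · by_cases h3 : k + 1 = n - 1
    · left
      have h4 := E.hp.sp.consec k
      rw [show k + 2 = n - 1 + 1 by omega, h3, hpn] at h4
      rw [h3] at hzk
      have h5 : z ∈ segment ℝ (p k) (p (n - 1)) ∩ segment ℝ (p (n - 1)) (p 0) := ⟨hzk, h1⟩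
      rw [h4] at h5
      exact h5
    · exfalso
      have h4 := E.hp.sp.disj k (n - 1) (by omega) (by omega)
      rw [hpn] at h4
      have h5 : z ∈ segment ℝ (p k) (p (k + 1)) ∩ segment ℝ (p (n - 1)) (p 0) := ⟨hzk, h1⟩
      rw [h4] at h5
      exact h5

/-- The winding numbers. -/
lemma A_q (z : ℂ) : A q 0 (n + 1) z = A p 0 (n - 1) z + ang z (p (n - 1)) (q n) +
    ang z (q n) (p 0) := by
  have hn := E.n3
  have h1 := A_one (p := q) (n - 1) z
  rw [show n - 1 + 1 = n by omega, E.eq (n - 1) (by omega)] at h1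
  have h2 := A_one (p := q) n z
  rw [E.qn1] at h2
  have h3 : A q 0 (n - 1) z = A p 0 (n - 1) z := by
    unfold A
    refine Finset.sum_congr rfl fun k hk => ?_
    rw [Finset.mem_Ico] at hk
    rw [E.eq k (by omega), E.eq (k + 1) (by omega)]
  rw [← A_add (show 0 ≤ n - 1 by omega) (show n - 1 ≤ n + 1 by omega),
    ← A_add (show n - 1 ≤ n by omega) (show n ≤ n + 1 by omega), h1, h2, h3]
  ring

lemma A_p (z : ℂ) : A p 0 n z = A p 0 (n - 1) z + ang z (p (n - 1)) (p 0) := by
  have hn := E.n3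
  have h1 := A_one (p := p) (n - 1) z
  rw [show n - 1 + 1 = n by omega, E.pn] at h1
  rw [← A_add (show 0 ≤ n - 1 by omega) (show n - 1 ≤ n by omega), h1]

lemma A_rel {z : ℂ} (hz : z ∉ segment ℝ (p 0) (p (n - 1))) : A q 0 (n + 1) z = A p 0 n z +
    (ang z (p (n - 1)) (q n) + ang z (q n) (p 0) + ang z (p 0) (p (n - 1))) := by
  have h1 := ang_swap hz
  rw [E.A_q, E.A_p, h1]
  ring

lemma seg_vb {z : ℂ} (hz : z ∈ segment ℝ (p (n - 1)) (q n)) :
    z ∈ ctri (p (n - 1)) (q n) (p 0) := segment_sub_ctri E.ori hz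

lemma seg_by {z : ℂ} (hz : z ∈ segment ℝ (q n) (p 0)) :
    z ∈ ctri (p (n - 1)) (q n) (p 0) := by
  rw [← ctri_cyc]; exact segment_sub_ctri (by rw [orient_cyc]; exact E.ori) hz

lemma seg_yv {z : ℂ} (hz : z ∈ segment ℝ (p 0) (p (n - 1))) :
    z ∈ ctri (p (n - 1)) (q n) (p 0) := by
  rw [← ctri_cyc, ← ctri_cyc]
  exact segment_sub_ctri (by rw [orient_cyc, orient_cyc]; exact E.ori) hz

/-- Points of the open triangle are on neither polygon, and have winding number `2π` for `q`
and `0` for `p`. -/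
lemma otri_spec {z : ℂ} (hz : z ∈ otri (p (n - 1)) (q n) (p 0)) :
    z ∈ Ins (n + 1) q ∧ z ∉ Ins n p ∧ z ∉ chain p 0 n := by
  obtain ⟨z1, z2, z3⟩ := hz
  have n1 : z ∉ segment ℝ (p (n - 1)) (q n) := fun hh => z1.ne' (orient_eq_zero_of_mem hh)
  have n2 : z ∉ segment ℝ (q n) (p 0) := fun hh => z2.ne' (orient_eq_zero_of_mem hh)
  have n3 : z ∉ segment ℝ (p 0) (p (n - 1)) := fun hh => z3.ne' (orient_eq_zero_of_mem hh)
  have hC : z ∉ chain p 0 (n - 1) := by
    intro hh
    rcases E.common_ctri hh (otri_sub_ctri _ _ _ ⟨z1, z2, z3⟩) with rfl | rfl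
    · exact n3 (right_mem_segment ℝ _ _)
    · exact n3 (left_mem_segment ℝ _ _)
  have hq : z ∉ chain q 0 (n + 1) := by
    rw [E.chain_q]
    rintro (h | h | h)
    · exact hC h
    · exact n1 h
    · exact n2 h
  have hp : z ∉ chain p 0 n := by
    rw [E.chain_p]
    rintro (h | h)
    · exact hC h
    · rw [segment_symm] at h; exact n3 h
  have hA := E.A_rel n3
  rw [tri_in ⟨z1, z2, z3⟩] at hA
  have hpi := Real.pi_pos
  rcases E.hp.A_cases hp with ⟨h1, h2⟩ | ⟨h1, h2⟩
  · rcases E.hq.A_cases hq with ⟨h3, h4⟩ | ⟨h3, h4⟩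
    · rw [h2, h4] at hA; linarith
    · rw [h2, h4] at hA; linarith
  · rcases E.hq.A_cases hq with ⟨h3, h4⟩ | ⟨h3, h4⟩
    · exact ⟨h3, h1, hp⟩
    · rw [h2, h4] at hA; linarith

lemma ctri_notMem_ins {z : ℂ} (hz : z ∈ ctri (p (n - 1)) (q n) (p 0)) : z ∉ Ins n p := by
  intro hin
  obtain ⟨w, hw, hw'⟩ := er_closure E.ori hz (PP.isOpen_ins E.hp.sp) hin
  exact (E.otri_spec hw').2.1 hw

lemma open_vy {z : ℂ} (hz : z ∈ openSegment ℝ (p (n - 1)) (p 0)) : z ∈ Ins (n + 1) q := by
  rw [openSegment_symm] at hz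
  obtain ⟨z3, z1, z2⟩ := er_open (a := p 0) (b := p (n - 1)) (c := q n)
    (by rw [← orient_cyc]; exact E.ori) hz
  have hc : z ∈ ctri (p (n - 1)) (q n) (p 0) := ⟨z1.le, z2.le, z3.ge⟩
  have n1 : z ∉ segment ℝ (p (n - 1)) (q n) := fun hh => z1.ne' (orient_eq_zero_of_mem hh)
  have n2 : z ∉ segment ℝ (q n) (p 0) := fun hh => z2.ne' (orient_eq_zero_of_mem hh)
  have hq : z ∉ chain q 0 (n + 1) := by
    rw [E.chain_q]
    rintro (h | h | h)
    · rcases E.common_ctri h hc with rfl | rfl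
      · exact n1 (left_mem_segment ℝ _ _)
      · exact n2 (right_mem_segment ℝ _ _)
    · exact n1 h
    · exact n2 h
  refine ⟨hq, ?_⟩
  intro hA
  have hopen : IsOpen {w | w ∉ chain q 0 (n + 1)} := (isClosed_chain q 0 (n + 1)).isOpen_compl
  have hpi := Real.pi_pos
  have h1 : ∀ᶠ w in 𝓝 z, A q 0 (n + 1) w < Real.pi := by
    apply (continuousAt_A hq).eventually (gt_mem_nhds ?_)
    rw [hA]; exact hpi
  obtain ⟨O, hO1, hO2, hO3⟩ := mem_nhds_iff.1 h1
  obtain ⟨w, hw, hw'⟩ := er_closure E.ori hc hO2 hO3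
  have h2 := E.hq.A_eq (E.otri_spec hw').1
  have h3 : A q 0 (n + 1) w < Real.pi := hO1 hw
  linarith

lemma ins_iff (z : ℂ) : z ∈ Ins (n + 1) q ↔ z ∈ Ins n p ∨
    z ∈ openSegment ℝ (p (n - 1)) (p 0) ∨ z ∈ otri (p (n - 1)) (q n) (p 0) := by
  constructor
  · intro hz
    have hzq := hz.1
    rw [E.chain_q] at hzq
    simp only [mem_union, not_or] at hzq
    obtain ⟨hC, n1, n2⟩ := hzq
    by_cases hc : z ∈ ctri (p (n - 1)) (q n) (p 0)
    · by_cases hs : z ∈ segment ℝ (p (n - 1)) (p 0)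
      · right; left
        rw [← insert_endpoints_openSegment] at hs
        rcases hs with h | h | h
        · exact absurd (h ▸ left_mem_segment ℝ _ _) n1
        · exact absurd (h ▸ right_mem_segment ℝ _ _) n2
        · exact h
      · right; right
        refine ⟨lt_of_le_of_ne hc.1 ?_, lt_of_le_of_ne hc.2.1 ?_, lt_of_le_of_ne hc.2.2 ?_⟩
        · intro h0
          exact n1 (er_seg E.ori hc h0.symm)
        · intro h0
          exact n2 (er_seg (c := p (n - 1)) (by rw [orient_cyc]; exact E.ori)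
            (by rw [ctri_cyc]; exact hc) h0.symm)
        · intro h0
          apply hs
          rw [segment_symm]
          exact er_seg (c := q n) (by rw [orient_cyc, orient_cyc]; exact E.ori)
            (by rw [ctri_cyc, ctri_cyc]; exact hc) h0.symm
    · left
      have n3 : z ∉ segment ℝ (p 0) (p (n - 1)) := fun hh => hc (E.seg_yv hh)
      have hA := E.A_rel n3
      rw [tri_out E.ori hc, add_zero] at hA
      refine ⟨?_, by rw [← hA]; exact hz.2⟩
      rw [E.chain_p]
      rintro (h | h)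
      · exact hC h
      · rw [segment_symm] at h; exact n3 h
  · rintro (hz | hz | hz)
    · by_cases hc : z ∈ ctri (p (n - 1)) (q n) (p 0)
      · exact absurd hz (E.ctri_notMem_ins hc)
      · have n3 : z ∉ segment ℝ (p 0) (p (n - 1)) := fun hh => hc (E.seg_yv hh)
        have hA := E.A_rel n3
        rw [tri_out E.ori hc, add_zero] at hA
        refine ⟨?_, by rw [hA]; exact hz.2⟩
        have h1 := hz.1
        rw [E.chain_p] at h1
        rw [E.chain_q]
        simp only [mem_union, not_or] at h1 ⊢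
        exact ⟨h1.1, fun h => hc (E.seg_vb h), fun h => hc (E.seg_by h)⟩
    · exact E.open_vy hz
    · exact (E.otri_spec hz).1

lemma diag_base : Diag (n + 1) q (n - 1) 0 := by
  have hn := E.n3
  intro z hz
  rw [E.eq (n - 1) (by omega), E.eq 0 (by omega)] at hz
  exact E.open_vy hz

lemma vertex_common {i : ℕ} (hi : i < n) : p i ∈ chain p 0 (n - 1) := by
  have hn := E.n3
  by_cases h : i = n - 1
  · rw [h]; exact right_mem_chain (by omega)
  · exact mid_mem_chain (by omega) (by omega)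

lemma p_inj {i j : ℕ} (hi : i < n) (hj : j < n) (h : p i = p j) : i = j := by
  rcases lt_trichotomy i j with h1 | h1 | h1
  · exact absurd h (E.hp.sp.inj i j h1 (by omega))
  · exact h1
  · exact absurd h.symm (E.hp.sp.inj j i h1 (by omega))

/-- the key fact: an inner segment which meets the triangle leaves it through the side
from `p (n - 1)` to `p 0`. -/
lemma exit_side {a c z : ℂ} (hs : openSegment ℝ a c ⊆ Ins (n + 1) q)
    (hz : z ∈ openSegment ℝ a c)
    (hz' : z ∈ openSegment ℝ (p (n - 1)) (p 0) ∨ z ∈ otri (p (n - 1)) (q n) (p 0))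
    (hc : c ∉ ctri (p (n - 1)) (q n) (p 0)) : orient (p 0) (p (n - 1)) c < 0 := by
  by_contra hcon
  push Not at hcon
  have hz3 : 0 < orient (p (n - 1)) (q n) z ∧ 0 < orient (q n) (p 0) z ∧
      0 ≤ orient (p 0) (p (n - 1)) z := by
    rcases hz' with h | h
    · rw [openSegment_symm] at h
      obtain ⟨z3, z1, z2⟩ := er_open (a := p 0) (b := p (n - 1)) (c := q n)
        (by rw [← orient_cyc]; exact E.ori) h
      exact ⟨z1, z2, z3.ge⟩
    · exact ⟨h.1, h.2.1, h.2.2.le⟩
  obtain ⟨w, hw, hw'⟩ := er_exit E.ori hz3.1 hz3.2.1 hz3.2.2 hc hcon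
  have h1 := (hs (er_sub hz hw)).1
  rw [E.chain_q] at h1
  exact h1 (Or.inr hw')

lemma diag_iff {i j : ℕ} (hi : i < n) (hj : j < n) (h1 : ¬ (i = 0 ∧ j = n - 1))
    (h2 : ¬ (i = n - 1 ∧ j = 0)) : Diag (n + 1) q i j ↔ Diag n p i j := by
  unfold Diag
  rw [E.eq i hi, E.eq j hj]
  constructor
  · intro hs z hz
    have hij : i ≠ j := by
      rintro rfl
      rw [openSegment_same, singleton_subset_iff] at hs
      apply hs.1
      rw [E.chain_q]
      exact Or.inl (E.vertex_common hi)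
    rcases (E.ins_iff z).1 (hs hz) with h | h
    · exact h
    · exfalso
      have hz3 : 0 ≤ orient (p 0) (p (n - 1)) z := by
        rcases h with h | h
        · rw [openSegment_symm] at h
          exact (orient_eq_zero_of_mem (openSegment_subset_segment ℝ _ _ h)).ge
        · exact h.2.2.le
      have hvy : ∀ k < n, p k ∈ ctri (p (n - 1)) (q n) (p 0) → k = n - 1 ∨ k = 0 := by
        intro k hk hc
        rcases E.common_ctri (E.vertex_common hk) hc with h | h
        · exact Or.inl (E.p_inj hk (by omega) h)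
        · exact Or.inr (E.p_inj hk (by omega) h)
      have h0v : ∀ k, k = n - 1 ∨ k = 0 → orient (p 0) (p (n - 1)) (p k) = 0 := by
        rintro k (rfl | rfl)
        · exact orient_right _ _
        · exact orient_left _ _
      have hi' : p i ∈ ctri (p (n - 1)) (q n) (p 0) ∨ orient (p 0) (p (n - 1)) (p i) < 0 := by
        by_cases hc : p i ∈ ctri (p (n - 1)) (q n) (p 0)
        · exact Or.inl hc
        · right
          rw [openSegment_symm] at hs hz
          exact E.exit_side hs hz h hc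
      have hj' : p j ∈ ctri (p (n - 1)) (q n) (p 0) ∨ orient (p 0) (p (n - 1)) (p j) < 0 := by
        by_cases hc : p j ∈ ctri (p (n - 1)) (q n) (p 0)
        · exact Or.inl hc
        · exact Or.inr (E.exit_side hs hz h hc)
      obtain ⟨s, t, hs0, ht0, hst, rfl⟩ := hz
      rw [orient_comb hst] at hz3
      rcases hi' with hi' | hi' <;> rcases hj' with hj' | hj'
      · have a1 := hvy i hi hi'
        have a2 := hvy j hj hj'
        omega
      · rw [h0v i (hvy i hi hi'), mul_zero, zero_add] at hz3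
        nlinarith
      · rw [h0v j (hvy j hj hj'), mul_zero, add_zero] at hz3
        nlinarith
      · nlinarith
  · intro hs z hz
    exact (E.ins_iff z).2 (Or.inl (hs hz))

/-! ### Angles -/

lemma vb_ne : q n - p (n - 1) ≠ 0 := sub_ne_zero.2 (ne_of_orient E.ori.ne').1.symm
lemma vy_ne : p 0 - p (n - 1) ≠ 0 := sub_ne_zero.2 (ne_of_orient E.ori.ne').2.2.symm
lemma yv_ne : p (n - 1) - p 0 ≠ 0 := sub_ne_zero.2 (ne_of_orient E.ori.ne').2.2
lemma yb_ne : q n - p 0 ≠ 0 := sub_ne_zero.2 (ne_of_orient E.ori.ne').2.1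
lemma bv_ne : p (n - 1) - q n ≠ 0 := sub_ne_zero.2 (ne_of_orient E.ori.ne').1
lemma by_ne : p 0 - q n ≠ 0 := sub_ne_zero.2 (ne_of_orient E.ori.ne').2.1.symm

lemma p_ne {i j : ℕ} (hi : i < n) (hj : j < n) (h : i ≠ j) : p i - p j ≠ 0 :=
  sub_ne_zero.2 fun h' => h (E.p_inj hi hj h')

lemma eta_lt : eta n p q < Real.pi := (turn_lt_pi E.vb_ne E.vy_ne).2 E.ori

lemma bet_lt : bet n p q < Real.pi := by
  refine (turn_lt_pi E.yv_ne E.yb_ne).2 ?_
  have h := E.ori
  rw [← orient_cyc, ← orient_cyc] at h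
  exact h

omit E in
lemma eta_pos : 0 < eta n p q := turn_pos _ _

omit E in
lemma bet_pos : 0 < bet n p q := turn_pos _ _

/-- No edge of `p` meets the open triangle. -/
lemma edge_otri {k : ℕ} {z : ℂ} (hz : z ∈ segment ℝ (p k) (p (k + 1))) :
    z ∉ otri (p (n - 1)) (q n) (p 0) := by
  intro h
  apply (E.otri_spec h).2.2
  rw [← E.hp.sp.chain_per k]
  exact ⟨k, le_rfl, by have := E.n3; omega, hz⟩

lemma th_v_q : th (n + 1) q (n - 1) = turn (q n - p (n - 1)) (p (n - 2) - p (n - 1)) := by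
  have hn := E.n3
  unfold th
  rw [show n - 1 + 1 = n by omega, show n - 1 + (n + 1 - 1) = n - 2 + (n + 1) by omega,
    E.q_add _ (by omega), E.eq (n - 1) (by omega)]

lemma th_v_p : th n p (n - 1) = turn (p 0 - p (n - 1)) (p (n - 2) - p (n - 1)) := by
  have hn := E.n3
  unfold th
  rw [show n - 1 + 1 = n by omega, show n - 1 + (n - 1) = n - 2 + n by omega,
    E.hp.sp.per, E.pn]

lemma th_y_q : th (n + 1) q 0 = turn (p 1 - p 0) (q n - p 0) := by
  have hn := E.n3
  unfold th
  rw [show 0 + (n + 1 - 1) = n by omega, show 0 + 1 = 1 by rfl, E.eq 0 (by omega),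
    E.eq 1 (by omega)]

omit E in
lemma th_y_p : th n p 0 = turn (p 1 - p 0) (p (n - 1) - p 0) := by
  unfold th
  rw [zero_add, zero_add]

lemma th_v : th (n + 1) q (n - 1) = th n p (n - 1) + eta n p q := by
  have hn := E.n3
  have hx : p (n - 2) - p (n - 1) ≠ 0 := E.p_ne (by omega) (by omega) (by omega)
  rw [E.th_v_q, E.th_v_p]
  unfold eta
  rcases le_or_gt (turn (q n - p (n - 1)) (p 0 - p (n - 1)) +
    turn (p 0 - p (n - 1)) (p (n - 2) - p (n - 1))) (2 * Real.pi) with h | h
  · rw [turn_add E.vb_ne E.vy_ne hx h, add_comm]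
  · exfalso
    have h1 := turn_add' E.vb_ne E.vy_ne hx h
    have h2 := E.hp.th_lt (n - 1)
    rw [E.th_v_p] at h2
    have h3 := E.eta_lt
    unfold eta at h3
    have h4 : turn (q n - p (n - 1)) (p (n - 2) - p (n - 1)) <
        turn (q n - p (n - 1)) (p 0 - p (n - 1)) := by linarith
    have h5 := turn_split E.vb_ne hx E.vy_ne h4
    have h6 := turn_pos (q n - p (n - 1)) (p (n - 2) - p (n - 1))
    have h7 : 0 < orient (p (n - 1)) (q n) (p (n - 2)) :=
      (turn_lt_pi E.vb_ne hx).1 (by linarith)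
    have h8 : 0 < orient (p (n - 1)) (p (n - 2)) (p 0) :=
      (turn_lt_pi hx E.vy_ne).1 (by linarith)
    rw [orient_cyc (p 0)] at h8
    obtain ⟨z, hz, hz'⟩ := er_cone E.ori h7 h8
    refine E.edge_otri (k := n - 2) ?_ hz'
    rw [show n - 2 + 1 = n - 1 by omega, segment_symm]
    exact openSegment_subset_segment ℝ _ _ hz

lemma th_y : th (n + 1) q 0 = th n p 0 + bet n p q := by
  have hn := E.n3
  have hx : p 1 - p 0 ≠ 0 := E.p_ne (by omega) (by omega) (by omega)
  rw [E.th_y_q, th_y_p]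
  unfold bet
  rcases le_or_gt (turn (p 1 - p 0) (p (n - 1) - p 0) +
    turn (p (n - 1) - p 0) (q n - p 0)) (2 * Real.pi) with h | h
  · exact turn_add hx E.yv_ne E.yb_ne h
  · exfalso
    have h2 := E.hp.th_lt 0
    rw [th_y_p] at h2
    have h3 := E.bet_lt
    unfold bet at h3
    have h4 := turn_swap hx E.yv_ne h2
    have h5 : turn (p (n - 1) - p 0) (p 1 - p 0) < turn (p (n - 1) - p 0) (q n - p 0) := by
      linarith
    have h6 := turn_split E.yv_ne hx E.yb_ne h5
    have h7 := turn_pos (p 1 - p 0) (q n - p 0)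
    have h9 := turn_pos (p (n - 1) - p 0) (p 1 - p 0)
    have h8 : 0 < orient (p 0) (p (n - 1)) (p 1) := (turn_lt_pi E.yv_ne hx).1 (by linarith)
    have h10 : 0 < orient (p 0) (p 1) (q n) := (turn_lt_pi hx E.yb_ne).1 (by linarith)
    rw [orient_cyc (q n)] at h10
    obtain ⟨z, hz, hz'⟩ := er_cone (a := p 0) (b := p (n - 1)) (c := q n)
      (by rw [← orient_cyc]; exact E.ori) h8 h10
    rw [← otri_cyc] at hz'
    refine E.edge_otri (k := 0) ?_ hz'
    exact openSegment_subset_segment ℝ _ _ hz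

lemma th_b : th (n + 1) q n = gam n p q := by
  have hn := E.n3
  unfold th gam
  rw [show n + (n + 1 - 1) = n - 1 + (n + 1) by omega, E.q_add _ (by omega), E.qn1]

lemma th_mid {k : ℕ} (h0 : 0 < k) (h1 : k + 1 < n) : th (n + 1) q k = th n p k := by
  unfold th
  rw [show k + (n + 1 - 1) = k - 1 + (n + 1) by omega, E.q_add _ (by omega),
    show k + (n - 1) = k - 1 + n by omega, E.hp.sp.per, E.eq k (by omega), E.eq (k + 1) h1]

/-! ### The sets of directions -/

/-- Diagonals of `q` without the new vertex, in terms of points. -/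
lemma diag_q_iff (hb : NoDiag (n + 1) q n) {k j : ℕ} (hk : k < n) :
    Diag (n + 1) q k j → ∃ i < n, q j = p i ∧ (Diag n p k i ∨ (k = 0 ∧ i = n - 1) ∨
      (k = n - 1 ∧ i = 0)) := by
  intro hd
  have e : q j = q (j % (n + 1)) := (mod_eq E.hq.sp j).symm
  have hlt : j % (n + 1) < n + 1 := Nat.mod_lt _ (by omega)
  have hd' : Diag (n + 1) q k (j % (n + 1)) := by
    unfold Diag at hd ⊢
    rwa [e] at hd
  have h1 : j % (n + 1) ≠ n := by
    intro h
    rw [h] at hd'
    exact hb k hd'.symm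
  refine ⟨j % (n + 1), by omega, by rw [e, E.eq _ (by omega)], ?_⟩
  by_cases h2 : k = 0 ∧ j % (n + 1) = n - 1
  · exact Or.inr (Or.inl h2)
  · by_cases h3 : k = n - 1 ∧ j % (n + 1) = 0
    · exact Or.inr (Or.inr h3)
    · exact Or.inl ((E.diag_iff hk (by omega) h2 h3).1 hd')

lemma diag_p_q {k j : ℕ} (hk : k < n) (hd : Diag n p k j) :
    ∃ i < n, p j = q i ∧ Diag (n + 1) q k i := by
  have hn := E.n3
  have e : p j = p (j % n) := (mod_eq E.hp.sp j).symm
  have hlt : j % n < n := Nat.mod_lt _ (by omega)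
  have hd' : Diag n p k (j % n) := by
    unfold Diag at hd ⊢
    rwa [e] at hd
  refine ⟨j % n, hlt, by rw [e, E.eq _ hlt], ?_⟩
  intro z hz
  rw [E.eq _ hk, E.eq _ hlt] at hz
  exact (E.ins_iff z).2 (Or.inl (hd' hz))

lemma aR_mid {k : ℕ} (h0 : 0 < k) (h1 : k + 1 < n) (hb : NoDiag (n + 1) q n) :
    aR (n + 1) q k = aR n p k := by
  unfold aR
  congr 1
  have e1 : q (k + (n + 1 - 1)) = p (k + (n - 1)) := by
    rw [show k + (n + 1 - 1) = k - 1 + (n + 1) by omega, E.q_add _ (by omega),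
      show k + (n - 1) = k - 1 + n by omega, E.hp.sp.per]
  rw [e1, E.eq (k + 1) h1, E.eq k (by omega)]
  ext x
  constructor
  · rintro ⟨j, hj | hj, rfl⟩
    · obtain ⟨i, hi, e, h | h | h⟩ := E.diag_q_iff hb (by omega) hj
      · exact ⟨i, Or.inl h, by rw [e]⟩
      · omega
      · omega
    · exact ⟨k + (n - 1), Or.inr rfl, by rw [hj]⟩
  · rintro ⟨j, hj | hj, rfl⟩
    · obtain ⟨i, hi, e, h⟩ := E.diag_p_q (by omega) hj
      exact ⟨i, Or.inl h, by rw [e]⟩
    · exact ⟨k + (n + 1 - 1), Or.inr e1, by rw [e1, hj]⟩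

lemma aL_mid {k : ℕ} (h0 : 0 < k) (h1 : k + 1 < n) (hb : NoDiag (n + 1) q n) :
    aL (n + 1) q k = aL n p k := by
  unfold aL
  congr 1
  have e1 : q (k + (n + 1 - 1)) = p (k + (n - 1)) := by
    rw [show k + (n + 1 - 1) = k - 1 + (n + 1) by omega, E.q_add _ (by omega),
      show k + (n - 1) = k - 1 + n by omega, E.hp.sp.per]
  rw [e1, E.eq (k + 1) h1, E.eq k (by omega)]
  ext x
  constructor
  · rintro ⟨j, hj | hj, rfl⟩
    · obtain ⟨i, hi, e, h | h | h⟩ := E.diag_q_iff hb (by omega) hj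
      · exact ⟨i, Or.inl h, by rw [e]⟩
      · omega
      · omega
    · exact ⟨k + 1, Or.inr rfl, by rw [hj]⟩
  · rintro ⟨j, hj | hj, rfl⟩
    · obtain ⟨i, hi, e, h⟩ := E.diag_p_q (by omega) hj
      exact ⟨i, Or.inl h, by rw [e]⟩
    · exact ⟨k + 1, Or.inr (E.eq _ h1), by rw [E.eq _ h1, hj]⟩

lemma aR_v (hb : NoDiag (n + 1) q n) : aR (n + 1) q (n - 1) = eta n p q := by
  have hn := E.n3
  apply le_antisymm
  · refine (aR_le_diag E.hq E.diag_base).trans ?_
    rw [show n - 1 + 1 = n by omega, E.eq 0 (by omega), E.eq (n - 1) (by omega)]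
    exact le_rfl
  · obtain ⟨j, hj, hx⟩ := aR_mem E.hq.sp (n - 1)
    rw [hx]
    rcases hj with hj | hj
    · rw [show n - 1 + 1 = n by omega, E.eq (n - 1) (by omega)]
      obtain ⟨i, hi, e, h | h | h⟩ := E.diag_q_iff hb (by omega) hj
      · rw [e]
        have h1 := E.hp.diag_turn h
        rw [show n - 1 + 1 = n by omega, E.pn] at h1
        have hne : p i - p (n - 1) ≠ 0 := sub_ne_zero.2 (h.p_ne E.hp.sp).symm
        have h2 := E.th_v
        have h3 : th (n + 1) q (n - 1) ≤ 2 * Real.pi := turn_le _ _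
        unfold eta at h2 ⊢
        rw [turn_add E.vb_ne E.vy_ne hne (by linarith)]
        have := turn_pos (p 0 - p (n - 1)) (p i - p (n - 1))
        linarith
      · omega
      · rw [e, h.2]
        exact le_rfl
    · rw [hj]
      have h2 := E.th_v
      have h4 : 0 < th n p (n - 1) := turn_pos _ _
      have h5 : th (n + 1) q (n - 1) = turn (q (n - 1 + 1) - q (n - 1))
        (q (n - 1 + (n + 1 - 1)) - q (n - 1)) := rfl
      rw [← h5]
      linarith

lemma aL_v (hb : NoDiag (n + 1) q n) : aL (n + 1) q (n - 1) = aL n p (n - 1) := by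
  have hn := E.n3
  have e1 : q (n - 1 + (n + 1 - 1)) = p (n - 1 + (n - 1)) := by
    rw [show n - 1 + (n + 1 - 1) = n - 2 + (n + 1) by omega, E.q_add _ (by omega),
      show n - 1 + (n - 1) = n - 2 + n by omega, E.hp.sp.per]
  apply le_antisymm
  · obtain ⟨j, hj, hx⟩ := aL_mem E.hp.sp (n - 1)
    rw [hx]
    rcases hj with hj | hj
    · obtain ⟨i, hi, e, h⟩ := E.diag_p_q (by omega) hj
      have := aL_le_diag E.hq h
      rwa [e1, ← e, E.eq (n - 1) (by omega)] at this
    · rw [show n - 1 + 1 = n by omega, E.pn] at hj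
      have := aL_le_diag E.hq E.diag_base
      rwa [e1, E.eq 0 (by omega), E.eq (n - 1) (by omega), ← hj] at this
  · obtain ⟨j, hj, hx⟩ := aL_mem E.hq.sp (n - 1)
    rw [hx]
    rcases hj with hj | hj
    · obtain ⟨i, hi, e, h | h | h⟩ := E.diag_q_iff hb (by omega) hj
      · rw [e, e1, E.eq (n - 1) (by omega)]
        exact aL_le_diag E.hp h
      · omega
      · rw [e, h.2, e1, E.eq (n - 1) (by omega)]
        refine aL_le_mem E.hp.sp ⟨0, Or.inr ?_, rfl⟩
        rw [show n - 1 + 1 = n by omega, E.pn]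
    · rw [hj]
      have h1 := aL_le E.hp (n - 1)
      have h2 := E.th_v
      have h3 := (eta_pos : 0 < eta n p q)
      have h4 : th (n + 1) q (n - 1) = turn (q (n - 1 + 1) - q (n - 1))
        (q (n - 1 + (n + 1 - 1)) - q (n - 1)) := rfl
      rw [← h4]
      linarith

lemma aR_y (hb : NoDiag (n + 1) q n) : aR (n + 1) q 0 = aR n p 0 := by
  have hn := E.n3
  apply le_antisymm
  · obtain ⟨j, hj, hx⟩ := aR_mem E.hp.sp 0
    rw [hx]
    rcases hj with hj | hj
    · obtain ⟨i, hi, e, h⟩ := E.diag_p_q (by omega) hj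
      have := aR_le_diag E.hq h
      rwa [← e, E.eq 0 (by omega), E.eq (0 + 1) (by omega)] at this
    · have := aR_le_diag E.hq E.diag_base.symm
      rw [hj, zero_add (n - 1)]
      rwa [E.eq 0 (by omega), E.eq (n - 1) (by omega), E.eq (0 + 1) (by omega)] at this
  · obtain ⟨j, hj, hx⟩ := aR_mem E.hq.sp 0
    rw [hx]
    rcases hj with hj | hj
    · obtain ⟨i, hi, e, h | h | h⟩ := E.diag_q_iff hb (by omega) hj
      · rw [e, E.eq 0 (by omega), E.eq (0 + 1) (by omega)]
        exact aR_le_diag E.hp h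
      · rw [e, h.2, E.eq 0 (by omega), E.eq (0 + 1) (by omega)]
        refine aR_le_mem E.hp.sp ⟨n - 1, Or.inr ?_, rfl⟩
        rw [zero_add]
      · omega
    · rw [hj]
      have h1 := aR_le E.hp 0
      have h2 := E.th_y
      have h3 := (bet_pos : 0 < bet n p q)
      have h4 : th (n + 1) q 0 = turn (q (0 + 1) - q 0) (q (0 + (n + 1 - 1)) - q 0) := rfl
      rw [← h4]
      linarith

lemma aL_y (hb : NoDiag (n + 1) q n) : aL (n + 1) q 0 = bet n p q := by
  have hn := E.n3
  apply le_antisymm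
  · refine (aL_le_diag E.hq E.diag_base.symm).trans ?_
    rw [zero_add, show n + 1 - 1 = n by omega, E.eq 0 (by omega), E.eq (n - 1) (by omega)]
    exact le_rfl
  · obtain ⟨j, hj, hx⟩ := aL_mem E.hq.sp 0
    rw [hx, zero_add, show n + 1 - 1 = n by omega]
    rcases hj with hj | hj
    · rw [E.eq 0 (by omega)]
      obtain ⟨i, hi, e, h | h | h⟩ := E.diag_q_iff hb (by omega) hj
      · rw [e]
        have h1 := turn_add_diag E.hp h
        rw [zero_add, zero_add] at h1
        have hne : p i - p 0 ≠ 0 := sub_ne_zero.2 (h.p_ne E.hp.sp).symm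
        have h2 := E.th_y
        have h3 : th (n + 1) q 0 ≤ 2 * Real.pi := turn_le _ _
        have h4 := turn_pos (p 1 - p 0) (p i - p 0)
        unfold bet at h2 ⊢
        rw [turn_add hne E.yv_ne E.yb_ne (by linarith)]
        have := turn_pos (p i - p 0) (p (n - 1) - p 0)
        linarith
      · rw [e, h.2]
        exact le_rfl
      · omega
    · rw [hj]
      have h2 := E.th_y
      have h4 : 0 < th n p 0 := turn_pos _ _
      have h5 : th (n + 1) q 0 = turn (q (0 + 1) - q 0) (q n - q 0) := by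
        unfold th
        rw [zero_add (n + 1 - 1), show n + 1 - 1 = n by omega]
      rw [← h5]
      linarith

lemma aR_b (hb : NoDiag (n + 1) q n) : aR (n + 1) q n = gam n p q := by
  rw [aR_of_noDiag E.hq hb, E.th_b]

lemma aL_b (hb : NoDiag (n + 1) q n) : aL (n + 1) q n = gam n p q := by
  rw [aL_of_noDiag E.hq hb, E.th_b]

/-! ### Counting -/

lemma not_diag_vy : ¬ Diag n p (n - 1) 0 := by
  have hn := E.n3
  intro hd
  have hm : (1 / 2 : ℝ) • p (n - 1) + (1 / 2 : ℝ) • p 0 ∈ openSegment ℝ (p (n - 1)) (p 0) :=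
    ⟨1 / 2, 1 / 2, by norm_num, by norm_num, by norm_num, rfl⟩
  apply (hd hm).1
  rw [E.chain_p]
  exact Or.inr (openSegment_subset_segment ℝ _ _ hm)

open Classical in
lemma cnt_sub : insert (0, n - 1) (insert (n - 1, 0)
    ((Finset.range n ×ˢ Finset.range n).filter fun x => Diag n p x.1 x.2)) ⊆
    (Finset.range (n + 1) ×ˢ Finset.range (n + 1)).filter fun x => Diag (n + 1) q x.1 x.2 := by
  have hn := E.n3
  intro x hx
  simp only [Finset.mem_insert, Finset.mem_filter, Finset.mem_product, Finset.mem_range] at hx ⊢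
  rcases hx with rfl | rfl | ⟨⟨h1, h2⟩, h3⟩
  · exact ⟨⟨by simp, by simp only; omega⟩, E.diag_base.symm⟩
  · exact ⟨⟨by simp only; omega, by simp⟩, E.diag_base⟩
  · refine ⟨⟨by omega, by omega⟩, ?_⟩
    intro z hz
    rw [E.eq _ h1, E.eq _ h2] at hz
    exact (E.ins_iff z).2 (Or.inl (h3 hz))

open Classical in
lemma cnt_card : (insert (0, n - 1) (insert (n - 1, 0)
    ((Finset.range n ×ˢ Finset.range n).filter fun x => Diag n p x.1 x.2))).card =
    Cnt n p + 2 := by
  have hn := E.n3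
  rw [Finset.card_insert_of_notMem, Finset.card_insert_of_notMem]
  · unfold Cnt
    congr!
  · simp only [Finset.mem_filter, not_and]
    intro _
    exact E.not_diag_vy
  · simp only [Finset.mem_insert, Finset.mem_filter, not_or, not_and]
    refine ⟨?_, fun _ h => E.not_diag_vy h.symm⟩
    intro h
    have := (Prod.ext_iff.1 h).1
    simp only at this
    omega

/-- The diagonals of `q` are those of `p` and the new one, up to those at the new vertex. -/
lemma cnt_ge : Cnt n p + 2 ≤ Cnt (n + 1) q := by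
  classical
  have h := Finset.card_le_card E.cnt_sub
  rw [E.cnt_card] at h
  unfold Cnt at h ⊢
  convert h using 2

lemma cnt_eq (hb : NoDiag (n + 1) q n) : Cnt (n + 1) q = Cnt n p + 2 := by
  classical
  apply le_antisymm _ E.cnt_ge
  have hn := E.n3
  rw [← E.cnt_card]
  unfold Cnt
  apply Finset.card_le_card
  intro x hx
  simp only [Finset.mem_insert, Finset.mem_filter, Finset.mem_product, Finset.mem_range] at hx ⊢
  obtain ⟨⟨h1, h2⟩, h3⟩ := hx
  have h4 : x.1 ≠ n := by
    intro h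
    rw [h] at h3
    exact hb _ h3
  have h5 : x.2 ≠ n := by
    intro h
    rw [h] at h3
    exact hb _ h3.symm
  by_cases h6 : x.1 = 0 ∧ x.2 = n - 1
  · exact Or.inl (Prod.ext h6.1 h6.2)
  · by_cases h7 : x.1 = n - 1 ∧ x.2 = 0
    · exact Or.inr (Or.inl (Prod.ext h7.1 h7.2))
    · exact Or.inr (Or.inr ⟨⟨by omega, by omega⟩,
        (E.diag_iff (by omega) (by omega) h6 h7).1 h3⟩)

lemma noDiag_of_cnt (h : Cnt (n + 1) q ≤ Cnt n p + 2) : NoDiag (n + 1) q n := by
  classical
  have hn := E.n3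
  intro j hd
  have e : q j = q (j % (n + 1)) := (mod_eq E.hq.sp j).symm
  have hlt : j % (n + 1) < n + 1 := Nat.mod_lt _ (by omega)
  have hd' : Diag (n + 1) q n (j % (n + 1)) := by
    unfold Diag at hd ⊢
    rwa [e] at hd
  have hmem : (n, j % (n + 1)) ∈ (Finset.range (n + 1) ×ˢ Finset.range (n + 1)).filter
      fun x => Diag (n + 1) q x.1 x.2 := by
    simp only [Finset.mem_filter, Finset.mem_product, Finset.mem_range]
    exact ⟨⟨by omega, hlt⟩, hd'⟩
  have hnot : (n, j % (n + 1)) ∉ insert (0, n - 1) (insert (n - 1, 0)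
      ((Finset.range n ×ˢ Finset.range n).filter fun x => Diag n p x.1 x.2)) := by
    simp only [Finset.mem_insert, Finset.mem_filter, Finset.mem_product, Finset.mem_range,
      Prod.mk.injEq, not_or, not_and]
    refine ⟨by omega, by omega, ?_⟩
    intro h1
    omega
  have h1 := Finset.card_lt_card (Finset.ssubset_iff_subset_ne.2 ⟨E.cnt_sub, fun h => hnot (by
    rw [h]; exact hmem)⟩)
  rw [E.cnt_card] at h1
  have h2 : Cnt n p + 2 < Cnt (n + 1) q := by
    unfold Cnt at h1 ⊢
    convert h1 using 2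
  omega

end Ear

end Pool.Agent.SigPoly
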