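import Pool.Agent.SigPoly.Sub
import Pool.Agent.SigPoly.Basic3

/-!
# Existence of a diagonal
-/

namespace Pool.Agent.SigPoly

open Complex Set Filter Topology Pool.Agent.VisGraph

/-! ### affine functions -/

lemma wle {a b x y m : ℝ} (ha : 0 ≤ a) (hb : 0 ≤ b) (hab : a + b = 1) (hx : x ≤ m) (hy : y ≤ m) :
    a * x + b * y ≤ m := by
  have h1 := mul_le_mul_of_nonneg_left hx ha
  have h2 := mul_le_mul_of_nonneg_left hy hb
  have h3 : a * m + b * m = m := by rw [← add_mul, hab, one_mul]
  linarith

lemma wge {a b x y m : ℝ} (ha : 0 ≤ a) (hb : 0 ≤ b) (hab : a + b = 1) (hx : m ≤ x) (hy : m ≤ y) :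
    m ≤ a * x + b * y := by
  have h1 := mul_le_mul_of_nonneg_left hx ha
  have h2 := mul_le_mul_of_nonneg_left hy hb
  have h3 : a * m + b * m = m := by rw [← add_mul, hab, one_mul]
  linarith

lemma wgt {a b x y m : ℝ} (ha : 0 < a) (hb : 0 ≤ b) (hab : a + b = 1) (hx : m < x) (hy : m ≤ y) :
    m < a * x + b * y := by
  have h1 := mul_lt_mul_of_pos_left hx ha
  have h2 := mul_le_mul_of_nonneg_left hy hb
  have h3 : a * m + b * m = m := by rw [← add_mul, hab, one_mul]
  linarith

/-- real inner product on `ℂ` -/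
def ip (z v : ℂ) : ℝ := z.re * v.re + z.im * v.im

lemma ip_comb {v z z' : ℂ} {a b : ℝ} : ip (a • z + b • z') v = a * ip z v + b * ip z' v := by
  simp only [ip, Complex.add_re, Complex.add_im, Complex.real_smul, Complex.mul_re, Complex.mul_im,
    Complex.ofReal_re, Complex.ofReal_im]
  ring

lemma ip_self (v : ℂ) : ip v v = normSq v := by
  simp [ip, Complex.normSq_apply]

lemma ip_le_of_normSq_le {z v : ℂ} (h : normSq z ≤ normSq v) : ip z v ≤ normSq v := by
  simp only [Complex.normSq_apply, ip] at *
  nlinarith [sq_nonneg (z.re - v.re), sq_nonneg (z.im - v.im)]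

lemma ip_lt_of_normSq_le {z v : ℂ} (h : normSq z ≤ normSq v) (hne : z ≠ v) :
    ip (z - v) v < 0 := by
  have h0 : 0 < normSq (z - v) := normSq_pos.2 (sub_ne_zero.2 hne)
  simp only [Complex.normSq_apply, ip, Complex.sub_re, Complex.sub_im] at *
  nlinarith

lemma segment_comb {a b z : ℂ} (hz : z ∈ segment ℝ a b) :
    ∃ s t : ℝ, 0 ≤ s ∧ 0 ≤ t ∧ s + t = 1 ∧ z = s • a + t • b := by
  obtain ⟨s, t, h1, h2, h3, h4⟩ := hz
  exact ⟨s, t, h1, h2, h3, h4.symm⟩

lemma openSegment_comb {a b z : ℂ} (hz : z ∈ openSegment ℝ a b) :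
    ∃ s t : ℝ, 0 < s ∧ 0 < t ∧ s + t = 1 ∧ z = s • a + t • b := by
  obtain ⟨s, t, h1, h2, h3, h4⟩ := hz
  exact ⟨s, t, h1, h2, h3, h4.symm⟩

/-- Barycentric coordinates. -/
lemma bary (a b c z : ℂ) : (orient a b c : ℂ) * z =
    (orient b c z : ℂ) * a + (orient c a z : ℂ) * b + (orient a b z : ℂ) * c := by
  apply Complex.ext
  · simp only [orient, cr, Complex.sub_re, Complex.sub_im, Complex.add_re,
      Complex.mul_re, Complex.ofReal_re, Complex.ofReal_im]
    ring
  · simp only [orient, cr, Complex.sub_re, Complex.sub_im, Complex.add_im,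
      Complex.mul_im, Complex.ofReal_re, Complex.ofReal_im]
    ring

lemma seg_of_zero {a b c z : ℂ} (h : 0 < orient a b c) (hz : z ∈ ctri a b c)
    (h0 : orient a b z = 0) : z ∈ segment ℝ a b := by
  have hs := orient_sum a b c z
  have hb := bary a b c z
  rw [h0] at hs hb
  have hD : (orient a b c : ℂ) ≠ 0 := by exact_mod_cast h.ne'
  refine ⟨orient b c z / orient a b c, orient c a z / orient a b c, div_nonneg hz.2.1 h.le,
    div_nonneg hz.2.2 h.le, ?_, ?_⟩
  · rw [← add_div, div_eq_one_iff_eq h.ne']
    linarith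
  · simp only [Complex.real_smul]
    push_cast
    field_simp
    rw [hb]
    push_cast
    ring

lemma eq_of_two_zero {a b c z : ℂ} (h : 0 < orient a b c) (h0 : orient a b z = 0)
    (h1 : orient b c z = 0) : z = b := by
  have hs := orient_sum a b c z
  have hb := bary a b c z
  rw [h0, h1] at hs hb
  have hD : (orient a b c : ℂ) ≠ 0 := by exact_mod_cast h.ne'
  have h2 : orient c a z = orient a b c := by linarith
  rw [h2] at hb
  push_cast at hb
  have h3 : (orient a b c : ℂ) * z = (orient a b c : ℂ) * b := by rw [hb]; ring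
  exact mul_left_cancel₀ hD h3

/-- A sign change of an affine function along a segment. -/
lemma cross {u v x y : ℂ} (hx : orient u v x ≤ 0) (hy : 0 ≤ orient u v y) :
    ∃ w ∈ segment ℝ x y, orient u v w = 0 := by
  rcases eq_or_lt_of_le hx with h | h
  · exact ⟨x, left_mem_segment ℝ _ _, h⟩
  · have hd : 0 < orient u v y - orient u v x := by linarith
    have hab : orient u v y / (orient u v y - orient u v x)
        + -orient u v x / (orient u v y - orient u v x) = 1 := by
      field_simp; ring
    refine ⟨_, ⟨orient u v y / (orient u v y - orient u v x),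
      -orient u v x / (orient u v y - orient u v x), div_nonneg hy hd.le,
      div_nonneg (by linarith) hd.le, hab, rfl⟩, ?_⟩
    rw [orient_comb hab]
    field_simp
    ring

lemma seg_le {u v x y w : ℂ} {m : ℝ} (hx : m ≤ orient u v x) (hy : m ≤ orient u v y)
    (hw : w ∈ segment ℝ x y) : m ≤ orient u v w := by
  obtain ⟨s, t, hs, ht, hst, rfl⟩ := segment_comb hw
  rw [orient_comb hst]
  exact wge hs ht hst hx hy

lemma seg_trans {x y z w : ℂ} (hz : z ∈ segment ℝ x y) (hw : w ∈ segment ℝ x z) :
    w ∈ segment ℝ x y :=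
  (convex_segment x y).segment_subset (left_mem_segment ℝ _ _) hz hw

/-- A segment leaving a triangle, but not through the side `c a`. -/
lemma leave {v c a z s : ℂ} (h : 0 < orient v c a) (hz : z ∈ ctri v c a) (hs : s ∉ ctri v c a)
    (hfz : 0 < orient c a z) (hfs : orient c a z ≤ orient c a s) :
    ∃ y ∈ segment ℝ z s, 0 < orient c a y ∧ (y ∈ segment ℝ v c ∨ y ∈ segment ℝ a v) := by
  have hF : ∀ y ∈ segment ℝ z s, orient c a z ≤ orient c a y := fun y hy => seg_le le_rfl hfs hy
  have h' : 0 < orient a v c := by rw [← orient_cyc a v c]; exact h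
  have hc' : ctri a v c = ctri v c a := (ctri_cyc a v c).symm
  -- walk in two steps
  have key : ∀ s', s' ∈ segment ℝ z s → 0 ≤ orient v c s' → orient a v s' < 0 →
      ∃ y ∈ segment ℝ z s, 0 < orient c a y ∧ (y ∈ segment ℝ v c ∨ y ∈ segment ℝ a v) := by
    intro s' hs' h1 h2
    obtain ⟨y, hy, hy0⟩ := cross (u := a) (v := v) (x := s') (y := z) h2.le hz.2.2
    have hy' : y ∈ segment ℝ z s' := by rw [segment_symm]; exact hy
    have hys := seg_trans hs' hy'
    have hfy : 0 < orient c a y := lt_of_lt_of_le hfz (hF y hys)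
    refine ⟨y, hys, hfy, Or.inr (seg_of_zero h' ?_ hy0)⟩
    rw [hc']
    exact ⟨seg_le hz.1 h1 hy', hfy.le, hy0.ge⟩
  have key2 : ∀ s', s' ∈ segment ℝ z s → 0 ≤ orient a v s' → orient v c s' < 0 →
      ∃ y ∈ segment ℝ z s, 0 < orient c a y ∧ (y ∈ segment ℝ v c ∨ y ∈ segment ℝ a v) := by
    intro s' hs' h1 h2
    obtain ⟨y, hy, hy0⟩ := cross (u := v) (v := c) (x := s') (y := z) h2.le hz.1
    have hy' : y ∈ segment ℝ z s' := by rw [segment_symm]; exact hy
    have hys := seg_trans hs' hy'
    have hfy : 0 < orient c a y := lt_of_lt_of_le hfz (hF y hys)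
    exact ⟨y, hys, hfy, Or.inl (seg_of_zero h ⟨hy0.ge, hfy.le, seg_le hz.2.2 h1 hy'⟩ hy0)⟩
  have hrs := right_mem_segment ℝ z s
  by_cases g1 : 0 ≤ orient v c s
  · by_cases g2 : 0 ≤ orient a v s
    · exact absurd ⟨g1, hfz.le.trans hfs, g2⟩ hs
    · exact key s hrs g1 (not_le.1 g2)
  · by_cases g2 : 0 ≤ orient a v s
    · exact key2 s hrs g2 (not_le.1 g1)
    · -- both negative
      obtain ⟨y, hy, hy0⟩ := cross (u := v) (v := c) (x := s) (y := z) (not_le.1 g1).le hz.1
      have hys : y ∈ segment ℝ z s := by rw [segment_symm]; exact hy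
      by_cases g3 : 0 ≤ orient a v y
      · have hfy : 0 < orient c a y := lt_of_lt_of_le hfz (hF y hys)
        exact ⟨y, hys, hfy, Or.inl (seg_of_zero h ⟨hy0.ge, hfy.le, g3⟩ hy0)⟩
      · exact key y hys hy0.ge (not_le.1 g3)

/-! ### simple polygons -/

variable {n : ℕ} {p : ℕ → ℂ}

/-- Two different edges meet at most in a common vertex. -/
lemma edge_inter (h : SP n p) {i k : ℕ} (hik : i < k) (hk : k < i + n) {y : ℂ}
    (hy1 : y ∈ segment ℝ (p i) (p (i + 1))) (hy2 : y ∈ segment ℝ (p k) (p (k + 1))) :
    (k = i + 1 ∧ y = p (i + 1)) ∨ (k + 1 = i + n ∧ y = p i) := by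
  have hn := h.three_le
  by_cases e1 : k = i + 1
  · left
    refine ⟨e1, ?_⟩
    subst e1
    have h3 : y ∈ segment ℝ (p i) (p (i + 1)) ∩ segment ℝ (p (i + 1)) (p (i + 2)) := ⟨hy1, hy2⟩
    rw [h.consec i] at h3
    exact h3
  · by_cases e2 : k + 1 = i + n
    · right
      refine ⟨e2, ?_⟩
      have h3 : y ∈ segment ℝ (p k) (p (k + 1)) ∩ segment ℝ (p (k + 1)) (p (k + 2)) := by
        refine ⟨hy2, ?_⟩
        rw [e2, h.per, show k + 2 = i + 1 + n by omega, h.per]
        exact hy1
      rw [h.consec k, e2, h.per] at h3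
      exact h3
    · have h2 : y ∈ segment ℝ (p i) (p (i + 1)) ∩ segment ℝ (p k) (p (k + 1)) := ⟨hy1, hy2⟩
      rw [h.disj i k (by omega) (by omega)] at h2
      exact absurd h2 (by simp)

/-- A vertex on an edge is an end of this edge. -/
lemma vert_edge (h : SP n p) {k j : ℕ} (hkj : k ≤ j) (hj : j < k + n)
    (hy : p j ∈ segment ℝ (p k) (p (k + 1))) : j = k ∨ j = k + 1 := by
  have hn := h.three_le
  by_contra hcon
  push Not at hcon
  rcases edge_inter h (show k < j by omega) hj hy (left_mem_segment ℝ _ _) with ⟨h1, -⟩ | ⟨h1, h2⟩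
  · exact hcon.2 h1
  · exact h.inj k j (by omega) hj h2.symm

/-- Outside of a half plane which contains the polygon there are no inner points. -/
lemma halfplane_out (h : SP n p) {v : ℂ} (hv0 : v ≠ 0) (hv : ∀ k, normSq (p k) ≤ normSq v) {z : ℂ}
    (hz : normSq v < ip z v) : z ∉ Ins n p := by
  have hch : ∀ x, normSq v < ip x v → x ∉ chain p 0 n := by
    rintro x hx ⟨k, -, -, hk⟩
    obtain ⟨s, t, hs, ht, hst, rfl⟩ := segment_comb hk
    rw [ip_comb] at hx
    have h1 := wle hs ht hst (ip_le_of_normSq_le (hv k)) (ip_le_of_normSq_le (hv (k + 1)))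
    linarith
  have hconv : Convex ℝ {x : ℂ | normSq v < ip x v} := by
    intro x hx y hy a b ha hb hab
    show normSq v < ip (a • x + b • y) v
    rw [ip_comb]
    simp only [mem_ofPred_eq] at hx hy
    rcases ha.eq_or_lt with h0 | h0
    · have : b = 1 := by linarith
      rw [← h0, this]; linarith
    · exact wgt h0 hb hab hx hy.le
  have hv1 : 0 < normSq v := normSq_pos.2 hv0
  have hub : ¬ Bornology.IsBounded {x : ℂ | normSq v < ip x v} := by
    intro hb
    obtain ⟨C, hC⟩ := hb.exists_norm_le
    have hvn : 0 < ‖v‖ := norm_pos_iff.2 hv0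
    set t : ℝ := 2 + |C| / ‖v‖ with ht
    have h1 : 1 < t := by
      have : 0 ≤ |C| / ‖v‖ := by positivity
      linarith
    have h2 : ((t : ℂ) * v) ∈ {x : ℂ | normSq v < ip x v} := by
      show normSq v < ip ((t : ℂ) * v) v
      have : ip ((t : ℂ) * v) v = t * normSq v := by
        simp only [ip, Complex.normSq_apply, Complex.mul_re, Complex.mul_im, Complex.ofReal_re,
          Complex.ofReal_im]; ring
      rw [this]; nlinarith
    have h3 := hC _ h2
    rw [norm_mul, Complex.norm_real, Real.norm_of_nonneg (by linarith)] at h3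
    have h4 : t * ‖v‖ = 2 * ‖v‖ + |C| := by
      rw [ht]; field_simp
    rw [h4] at h3
    have := le_abs_self C
    linarith
  rintro ⟨-, hA⟩
  apply hA
  exact zero_of_unbounded hconv.isPreconnected hub
    (fun x hx => (continuousAt_A (hch x hx)).continuousWithinAt)
    (fun x hx => h.W_int (hch x hx)) (tendsto_A p 0 n) hz

/-- A vertex of maximal norm is strictly convex. -/
lemma convex_vertex (h : PP n p) {i : ℕ} (hi : ∀ k, normSq (p k) ≤ normSq (p i)) :
    th n p i < Real.pi ∧ 0 < orient (p i) (p (i + 1)) (p (i + (n - 1))) := by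
  have hs := h.sp
  have hpi := Real.pi_pos
  have hv0 : p i ≠ 0 := by
    intro h0
    have h1 := hi (i + 1)
    rw [h0, map_zero] at h1
    have h2 : p (i + 1) = 0 := normSq_eq_zero.1 (le_antisymm h1 (normSq_nonneg _))
    exact hs.ne_succ i (by rw [h0, h2])
  have hu : p (i + 1) - p i ≠ 0 := sub_ne_zero.2 (hs.ne_succ i).symm
  have hw : p (i + (n - 1)) - p i ≠ 0 := sub_ne_zero.2 (PP.prev_ne hs i)
  have hiu := ip_lt_of_normSq_le (hi (i + 1)) (hs.ne_succ i).symm
  have hiw := ip_lt_of_normSq_le (hi (i + (n - 1))) (PP.prev_ne hs i)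
  have hth : th n p i < Real.pi := by
    by_contra hcon
    push Not at hcon
    rcases hcon.eq_or_lt with h1 | h1
    · obtain ⟨c, hc, h2⟩ := (turn_eq_pi hu hw).1 h1.symm
      rw [h2] at hiw
      have : ip (-(c : ℂ) * (p (i + 1) - p i)) (p i) = - c * ip (p (i + 1) - p i) (p i) := by
        simp only [ip, Complex.mul_re, Complex.mul_im, Complex.neg_re, Complex.neg_im,
          Complex.ofReal_re, Complex.ofReal_im]; ring
      rw [this] at hiw
      nlinarith
    · obtain ⟨r, hr, hcone⟩ := h.cone_ball i
      set u := p (i + 1) - p i with hudef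
      have hun := norm_pos_iff.2 hu
      set e : ℝ := r / (2 * ‖u‖) with he
      have he0 : 0 < e := by positivity
      have hz : p i + -(e : ℂ) * u ≠ p i := by
        intro h2
        rw [add_eq_left, mul_eq_zero, neg_eq_zero] at h2
        rcases h2 with h2 | h2
        · exact he0.ne' (by exact_mod_cast h2)
        · exact hu h2
      have hd : dist (p i + -(e : ℂ) * u) (p i) < r := by
        rw [dist_eq_norm, add_sub_cancel_left, norm_mul, norm_neg, Complex.norm_real,
          Real.norm_of_nonneg he0.le, he]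
        have : r / (2 * ‖u‖) * ‖u‖ = r / 2 := by field_simp
        rw [this]; linarith
      have ht : turn u (p i + -(e : ℂ) * u - p i) = Real.pi := by
        rw [add_sub_cancel_left]
        exact (turn_eq_pi hu (mul_ne_zero (neg_ne_zero.2 (by exact_mod_cast he0.ne')) hu)).2
          ⟨e, he0, rfl⟩
      have hin := (hcone _ hz hd).1 (by rw [ht]; exact h1)
      refine halfplane_out hs hv0 hi ?_ hin
      have : ip (p i + -(e : ℂ) * u) (p i) = normSq (p i) - e * ip u (p i) := by
        simp only [ip, Complex.normSq_apply, Complex.add_re, Complex.add_im,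
          Complex.mul_re, Complex.mul_im, Complex.neg_re, Complex.neg_im,
          Complex.ofReal_re, Complex.ofReal_im]; ring
      rw [this]
      nlinarith
  exact ⟨hth, (turn_lt_pi hu hw).1 hth⟩

/-- No part of the polygon in a corner triangle above all vertices. -/
lemma no_chain (h : SP n p) {i : ℕ}
    (ho : 0 < orient (p i) (p (i + 1)) (p (i + (n - 1)))) {M : ℝ} (hM : 0 ≤ M)
    (hmax : ∀ k, p k ∈ ctri (p i) (p (i + 1)) (p (i + (n - 1))) → p k ≠ p i →
      orient (p (i + 1)) (p (i + (n - 1))) (p k) ≤ M) {z : ℂ}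
    (hz : z ∈ ctri (p i) (p (i + 1)) (p (i + (n - 1)))) (hzc : z ∈ chain p 0 n)
    (hMz : M < orient (p (i + 1)) (p (i + (n - 1))) z) :
    z ∈ segment ℝ (p i) (p (i + 1)) ∨ z ∈ segment ℝ (p (i + (n - 1))) (p i) := by
  have hn := h.three_le
  rw [← h.chain_per i] at hzc
  obtain ⟨k, hk1, hk2, hzk⟩ := hzc
  by_cases e1 : k = i
  · subst e1; exact Or.inl hzk
  by_cases e2 : k = i + (n - 1)
  · right
    rw [e2, show i + (n - 1) + 1 = i + n by omega, h.per] at hzk
    exact hzk
  exfalso
  -- a higher end of the edge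
  obtain ⟨s, hs, hs1, hs2, hs3⟩ : ∃ s, segment ℝ z s ⊆ segment ℝ (p k) (p (k + 1)) ∧
      orient (p (i + 1)) (p (i + (n - 1))) z ≤ orient (p (i + 1)) (p (i + (n - 1))) s ∧
      s ≠ p i ∧ ∃ j, s = p j := by
    have hmem := hzk
    obtain ⟨a, b, ha, hb, hab, hzz⟩ := segment_comb hzk
    rcases le_total (orient (p (i + 1)) (p (i + (n - 1))) (p k))
      (orient (p (i + 1)) (p (i + (n - 1))) (p (k + 1))) with hle | hle
    · refine ⟨p (k + 1), (convex_segment _ _).segment_subset hmem (right_mem_segment ℝ _ _),
        ?_, ?_, k + 1, rfl⟩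
      · rw [hzz, orient_comb hab]; exact wle ha hb hab hle le_rfl
      · exact (h.inj i (k + 1) (by omega) (by omega)).symm
    · refine ⟨p k, (convex_segment _ _).segment_subset hmem (left_mem_segment ℝ _ _),
        ?_, ?_, k, rfl⟩
      · rw [hzz, orient_comb hab]; exact wle ha hb hab le_rfl hle
      · exact (h.inj i k (by omega) (by omega)).symm
  obtain ⟨j, rfl⟩ := hs3
  have hnot : p j ∉ ctri (p i) (p (i + 1)) (p (i + (n - 1))) := by
    intro hmem
    have := hmax j hmem hs2
    linarith
  obtain ⟨y, hy, hfy, hy2⟩ := leave ho hz hnot (lt_of_le_of_lt hM hMz) hs1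
  have hyk := hs hy
  rcases hy2 with hy2 | hy2
  · rcases edge_inter h (show i < k by omega) hk2 hy2 hyk with ⟨h1, h2⟩ | ⟨h1, h2⟩
    · rw [h2, orient_left] at hfy
      exact lt_irrefl _ hfy
    · omega
  · have hy3 : y ∈ segment ℝ (p (i + (n - 1))) (p (i + (n - 1) + 1)) := by
      rw [show i + (n - 1) + 1 = i + n by omega, h.per]; exact hy2
    rcases edge_inter h (show k < i + (n - 1) by omega) (by omega) hyk hy3 with ⟨h1, h2⟩ | ⟨h1, h2⟩
    · rw [h2, ← h1, orient_right] at hfy
      exact lt_irrefl _ hfy
    · omega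

/-- If a half open segment from a convex vertex into the corner avoids the polygon then its end is
inside. -/
lemma ins_of_corner (h : PP n p) {i : ℕ}
    (ho : 0 < orient (p i) (p (i + 1)) (p (i + (n - 1)))) {z : ℂ}
    (h1 : 0 < orient (p i) (p (i + 1)) z) (h2 : 0 < orient (p (i + (n - 1))) (p i) z)
    (hd : ∀ w ∈ openSegment ℝ (p i) z, w ∉ chain p 0 n) :
    openSegment ℝ (p i) z ⊆ Ins n p := by
  have hs := h.sp
  have hpi := Real.pi_pos
  have hu : p (i + 1) - p i ≠ 0 := sub_ne_zero.2 (hs.ne_succ i).symm
  have hw : p (i + (n - 1)) - p i ≠ 0 := sub_ne_zero.2 (PP.prev_ne hs i)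
  have hz : z ≠ p i := by
    rintro rfl
    rw [orient_left] at h1
    exact lt_irrefl _ h1
  have hx : z - p i ≠ 0 := sub_ne_zero.2 hz
  have ht1 : turn (p (i + 1) - p i) (z - p i) < Real.pi := (turn_lt_pi hu hx).2 h1
  have h2' : 0 < cr (z - p i) (p (i + (n - 1)) - p i) := by
    have : cr (z - p i) (p (i + (n - 1)) - p i) = orient (p (i + (n - 1))) (p i) z := by
      simp only [orient, cr, Complex.sub_re, Complex.sub_im]; ring
    rw [this]; exact h2
  have ht2 : turn (z - p i) (p (i + (n - 1)) - p i) < Real.pi := (turn_lt_pi hx hw).2 h2'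
  have ht : turn (p (i + 1) - p i) (z - p i) < th n p i := by
    unfold th
    rw [turn_add hu hx hw (by linarith)]
    have := turn_pos (z - p i) (p (i + (n - 1)) - p i)
    linarith
  obtain ⟨r, hr, hcone⟩ := h.cone_ball i
  obtain ⟨t, ht0, ht1', htd, htm⟩ := exists_near hz hr
  have hin := (hcone _ (near_ne hz ht0) htd).1 (by
    rw [turn_ray (hs.ne_succ i) hz ht0]; exact ht)
  rcases chord_cases hs hd with h3 | h3
  · exact h3
  · exact absurd hin (h3 _ htm)

/-- Every simple polygon with at least four vertices has a diagonal (flat vertices allowed). -/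
theorem exists_diag {n : ℕ} {p : ℕ → ℂ} (h : PP n p) (hn : 4 ≤ n) : ∃ i j, Diag n p i j := by
  have hs := h.sp
  -- a vertex of maximal norm
  obtain ⟨i, hi⟩ : ∃ i, ∀ k, normSq (p k) ≤ normSq (p i) := by
    obtain ⟨i, -, hi⟩ := Finset.exists_max_image (Finset.range n) (fun k => normSq (p k))
      ⟨0, Finset.mem_range.2 (by omega)⟩
    refine ⟨i, fun k => ?_⟩
    rw [← per_mod hs.per k]
    exact hi _ (Finset.mem_range.2 (Nat.mod_lt _ (by omega)))
  obtain ⟨-, ho⟩ := convex_vertex h hi
  have ho' : 0 < orient (p (i + (n - 1))) (p i) (p (i + 1)) := by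
    rw [← orient_cyc]; exact ho
  have hsum := fun z => orient_sum (p i) (p (i + 1)) (p (i + (n - 1))) z
  -- vertices in the triangle which are not corners
  by_cases hex : ∃ k, p k ∈ ctri (p i) (p (i + 1)) (p (i + (n - 1))) ∧ i + 1 < k ∧ k < i + (n - 1)
  · -- the highest one
    obtain ⟨k, hk, hkmax⟩ := Finset.exists_max_image
      ((Finset.Ioo (i + 1) (i + (n - 1))).filter
        fun k => 0 ≤ orient (p i) (p (i + 1)) (p k) ∧
          0 ≤ orient (p (i + 1)) (p (i + (n - 1))) (p k) ∧ 0 ≤ orient (p (i + (n - 1))) (p i) (p k))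
      (fun k => orient (p (i + 1)) (p (i + (n - 1))) (p k)) (by
        obtain ⟨k, h1, h2, h3⟩ := hex
        exact ⟨k, Finset.mem_filter.2 ⟨Finset.mem_Ioo.2 ⟨h2, h3⟩, h1⟩⟩)
    rw [Finset.mem_filter, Finset.mem_Ioo] at hk
    obtain ⟨⟨hk1, hk2⟩, hkt⟩ := hk
    have hkt' : p k ∈ ctri (p i) (p (i + 1)) (p (i + (n - 1))) := hkt
    have hM := hkt.2.1
    have hmax : ∀ l, p l ∈ ctri (p i) (p (i + 1)) (p (i + (n - 1))) → p l ≠ p i →
        orient (p (i + 1)) (p (i + (n - 1))) (p l)
          ≤ orient (p (i + 1)) (p (i + (n - 1))) (p k) := by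
      intro l hl hne
      -- shift the index
      obtain ⟨m, hm1, hm2, hm3⟩ : ∃ m, i ≤ m ∧ m < i + n ∧ p m = p l := by
        refine ⟨i + (l + (n - i % n)) % n, by omega, by
          have := Nat.mod_lt (l + (n - i % n)) (show 0 < n by omega); omega, ?_⟩
        rw [← per_mod hs.per, ← per_mod hs.per l]
        congr 1
        have h1 : i % n < n := Nat.mod_lt _ (by omega)
        rw [Nat.add_mod, Nat.mod_mod, ← Nat.add_mod,
          show i + (l + (n - i % n)) = l + (n - i % n) + i by ring, Nat.add_mod _ i]
        have h2 : ((l + (n - i % n)) % n + i % n) % n = (l + (n - i % n) + i % n) % n := by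
          rw [Nat.add_mod (l + (n - i % n)) (i % n), Nat.mod_mod]
        rw [h2, show l + (n - i % n) + i % n = l + n by omega, Nat.add_mod_right]
      rw [← hm3] at hl hne ⊢
      by_cases e0 : m = i
      · exact absurd (by rw [e0]) hne
      by_cases e1 : m = i + 1
      · rw [e1, orient_left]; exact hM
      by_cases e2 : m = i + (n - 1)
      · rw [e2, orient_right]; exact hM
      exact hkmax m (Finset.mem_filter.2 ⟨Finset.mem_Ioo.2 ⟨by omega, by omega⟩, hl⟩)
    -- strictness
    have hg1 : 0 < orient (p i) (p (i + 1)) (p k) := by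
      refine lt_of_le_of_ne hkt.1 (fun h0 => ?_)
      have h1 := seg_of_zero ho hkt' h0.symm
      rcases vert_edge hs (by omega) (by omega) h1 with h2 | h2 <;> omega
    have hg2 : 0 < orient (p (i + (n - 1))) (p i) (p k) := by
      refine lt_of_le_of_ne hkt.2.2 (fun h0 => ?_)
      have h1 : p k ∈ segment ℝ (p (i + (n - 1))) (p i) := by
        refine seg_of_zero ho' ?_ h0.symm
        rw [← ctri_cyc]; exact hkt'
      have h2 : p (k + n) ∈ segment ℝ (p (i + (n - 1))) (p (i + (n - 1) + 1)) := by
        rw [show i + (n - 1) + 1 = i + n by omega, hs.per, hs.per]; exact h1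
      rcases vert_edge hs (by omega) (by omega) h2 with h2 | h2 <;> omega
    refine ⟨i, k, ins_of_corner h ho hg1 hg2 ?_⟩
    intro w hw hwc
    obtain ⟨s, t, hs0, ht0, hst, rfl⟩ := openSegment_comb hw
    have g1 : 0 < orient (p i) (p (i + 1)) (s • p i + t • p k) := by
      rw [orient_comb hst, orient_left]; nlinarith
    have g2 : 0 < orient (p (i + (n - 1))) (p i) (s • p i + t • p k) := by
      rw [orient_comb hst, orient_right]; nlinarith
    have hFi : orient (p (i + 1)) (p (i + (n - 1))) (p i)
        = orient (p i) (p (i + 1)) (p (i + (n - 1))) := orient_cyc _ _ _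
    have g3 : orient (p (i + 1)) (p (i + (n - 1))) (p k)
        < orient (p (i + 1)) (p (i + (n - 1))) (s • p i + t • p k) := by
      rw [orient_comb hst, hFi]
      have := hsum (p k)
      nlinarith
    rcases no_chain hs ho hM hmax ⟨g1.le, hM.trans g3.le, g2.le⟩ hwc g3 with h1 | h1
    · rw [orient_eq_zero_of_mem h1] at g1; exact lt_irrefl _ g1
    · rw [orient_eq_zero_of_mem h1] at g2; exact lt_irrefl _ g2
  · -- the diagonal between the neighbours
    push Not at hex
    have hno : ∀ m, i ≤ m → m < i + n → p m ∈ ctri (p i) (p (i + 1)) (p (i + (n - 1))) →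
        m = i ∨ m = i + 1 ∨ m = i + (n - 1) := by
      intro m h1 h2 h3
      by_contra hcon
      push Not at hcon
      have := hex m h3 (by omega)
      omega
    have hmax : ∀ l, p l ∈ ctri (p i) (p (i + 1)) (p (i + (n - 1))) → p l ≠ p i →
        orient (p (i + 1)) (p (i + (n - 1))) (p l) ≤ 0 := by
      intro l hl hne
      obtain ⟨m, hm1, hm2, hm3⟩ : ∃ m, i ≤ m ∧ m < i + n ∧ p m = p l := by
        refine ⟨i + (l + (n - i % n)) % n, by omega, by
          have := Nat.mod_lt (l + (n - i % n)) (show 0 < n by omega); omega, ?_⟩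
        rw [← per_mod hs.per, ← per_mod hs.per l]
        congr 1
        have h1 : i % n < n := Nat.mod_lt _ (by omega)
        rw [Nat.add_mod, Nat.mod_mod, ← Nat.add_mod,
          show i + (l + (n - i % n)) = l + (n - i % n) + i by ring, Nat.add_mod _ i]
        have h2 : ((l + (n - i % n)) % n + i % n) % n = (l + (n - i % n) + i % n) % n := by
          rw [Nat.add_mod (l + (n - i % n)) (i % n), Nat.mod_mod]
        rw [h2, show l + (n - i % n) + i % n = l + n by omega, Nat.add_mod_right]
      rw [← hm3] at hl hne ⊢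
      rcases hno m hm1 hm2 hl with e | e | e
      · exact absurd (by rw [e]) hne
      · rw [e, orient_left]
      · rw [e, orient_right]
    -- points of the open segment
    refine ⟨i + 1, i + (n - 1), ?_⟩
    intro z hz
    obtain ⟨s, t, hs0, ht0, hst, hzz⟩ := openSegment_comb hz
    have hzF : orient (p (i + 1)) (p (i + (n - 1))) z = 0 :=
      orient_eq_zero_of_mem (openSegment_subset_segment ℝ _ _ hz)
    have hz1 : 0 < orient (p i) (p (i + 1)) z := by
      rw [hzz, orient_comb hst, orient_right]
      nlinarith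
    have hz2 : 0 < orient (p (i + (n - 1))) (p i) z := by
      rw [hzz, orient_comb hst, orient_left]
      nlinarith
    have hzt : z ∈ ctri (p i) (p (i + 1)) (p (i + (n - 1))) := ⟨hz1.le, hzF.ge, hz2.le⟩
    have hopen : ∀ w ∈ openSegment ℝ (p i) z, w ∉ chain p 0 n := by
      intro w hw hwc
      obtain ⟨s, t, hs0, ht0, hst, rfl⟩ := openSegment_comb hw
      have g1 : 0 < orient (p i) (p (i + 1)) (s • p i + t • z) := by
        rw [orient_comb hst, orient_left]; nlinarith
      have g2 : 0 < orient (p (i + (n - 1))) (p i) (s • p i + t • z) := by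
        rw [orient_comb hst, orient_right]; nlinarith
      have hFi : orient (p (i + 1)) (p (i + (n - 1))) (p i)
          = orient (p i) (p (i + 1)) (p (i + (n - 1))) := orient_cyc _ _ _
      have g3 : 0 < orient (p (i + 1)) (p (i + (n - 1))) (s • p i + t • z) := by
        rw [orient_comb hst, hFi, hzF]
        nlinarith
      rcases no_chain hs ho le_rfl hmax ⟨g1.le, g3.le, g2.le⟩ hwc g3 with h1 | h1
      · rw [orient_eq_zero_of_mem h1] at g1; exact lt_irrefl _ g1
      · rw [orient_eq_zero_of_mem h1] at g2; exact lt_irrefl _ g2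
    have hins := ins_of_corner h ho hz1 hz2 hopen
    -- the point itself is not on the polygon
    have hzc : z ∉ chain p 0 n := by
      intro hzc
      rw [← hs.chain_per i] at hzc
      obtain ⟨k, hk1, hk2, hzk⟩ := hzc
      by_cases e1 : k = i
      · subst e1
        rw [orient_eq_zero_of_mem hzk] at hz1
        exact lt_irrefl _ hz1
      by_cases e2 : k = i + (n - 1)
      · rw [e2, show i + (n - 1) + 1 = i + n by omega, hs.per] at hzk
        rw [orient_eq_zero_of_mem hzk] at hz2
        exact lt_irrefl _ hz2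
      -- both ends are not above the line
      have hend : ∀ j, segment ℝ z (p j) ⊆ segment ℝ (p k) (p (k + 1)) →
          orient (p (i + 1)) (p (i + (n - 1))) (p j) ≤ 0 := by
        intro j hj
        by_contra hcon
        push Not at hcon
        -- a small step
        obtain ⟨d, hd0, hd1, hd2, hd3⟩ : ∃ d : ℝ, 0 < d ∧ d < 1 ∧
            0 < (1 - d) * orient (p i) (p (i + 1)) z + d * orient (p i) (p (i + 1)) (p j) ∧
            0 < (1 - d) * orient (p (i + (n - 1))) (p i) z
              + d * orient (p (i + (n - 1))) (p i) (p j) := by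
          have e1 : ∀ᶠ d : ℝ in 𝓝[>] 0,
              0 < (1 - d) * orient (p i) (p (i + 1)) z + d * orient (p i) (p (i + 1)) (p j) := by
            have hc : Continuous fun d : ℝ =>
              (1 - d) * orient (p i) (p (i + 1)) z + d * orient (p i) (p (i + 1)) (p j) := by
              fun_prop
            have := hc.tendsto 0
            simp only [sub_zero, one_mul, zero_mul, add_zero] at this
            exact (this.mono_left nhdsWithin_le_nhds).eventually (lt_mem_nhds hz1)
          have e2 : ∀ᶠ d : ℝ in 𝓝[>] 0,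
              0 < (1 - d) * orient (p (i + (n - 1))) (p i) z
                + d * orient (p (i + (n - 1))) (p i) (p j) := by
            have hc : Continuous fun d : ℝ =>
              (1 - d) * orient (p (i + (n - 1))) (p i) z
                + d * orient (p (i + (n - 1))) (p i) (p j) := by
              fun_prop
            have := hc.tendsto 0
            simp only [sub_zero, one_mul, zero_mul, add_zero] at this
            exact (this.mono_left nhdsWithin_le_nhds).eventually (lt_mem_nhds hz2)
          have e3 : ∀ᶠ d : ℝ in 𝓝[>] 0, d ∈ Ioo (0 : ℝ) 1 := Ioo_mem_nhdsGT one_pos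
          obtain ⟨d, h1, h2, h3⟩ := (e1.and (e2.and e3)).exists
          exact ⟨d, h3.1, h3.2, h1, h2⟩
        have hdd : (1 - d) + d = 1 := by ring
        have hmem : (1 - d) • z + d • p j ∈ segment ℝ z (p j) :=
          ⟨1 - d, d, by linarith, hd0.le, hdd, rfl⟩
        have hchain : (1 - d) • z + d • p j ∈ chain p 0 n := by
          rw [← hs.chain_per i]
          exact ⟨k, hk1, hk2, hj hmem⟩
        have g1 : 0 < orient (p i) (p (i + 1)) ((1 - d) • z + d • p j) := by
          rw [orient_comb hdd]; exact hd2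
        have g2 : 0 < orient (p (i + (n - 1))) (p i) ((1 - d) • z + d • p j) := by
          rw [orient_comb hdd]; exact hd3
        have g3 : 0 < orient (p (i + 1)) (p (i + (n - 1))) ((1 - d) • z + d • p j) := by
          rw [orient_comb hdd, hzF, mul_zero, zero_add]
          exact mul_pos hd0 hcon
        rcases no_chain hs ho le_rfl hmax ⟨g1.le, g3.le, g2.le⟩ hchain g3 with h1 | h1
        · rw [orient_eq_zero_of_mem h1] at g1; exact lt_irrefl _ g1
        · rw [orient_eq_zero_of_mem h1] at g2; exact lt_irrefl _ g2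
      have hA := hend k ((convex_segment _ _).segment_subset hzk (left_mem_segment ℝ _ _))
      have hB := hend (k + 1) ((convex_segment _ _).segment_subset hzk (right_mem_segment ℝ _ _))
      obtain ⟨a, b, ha, hb, hab, hze⟩ := segment_comb hzk
      have hk0 : 0 < a := by
        rcases ha.eq_or_lt with h0 | h0
        · exfalso
          have hb1 : b = 1 := by linarith
          have hzeq : z = p (k + 1) := by rw [hze, ← h0, hb1]; simp
          rw [hzeq] at hzt hz1 hz2
          rcases hno (k + 1) (by omega) (by omega) hzt with e | e | e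
          · omega
          · omega
          · rw [e, orient_left] at hz2; exact lt_irrefl _ hz2
        · exact h0
      have hk0' : 0 < b := by
        rcases hb.eq_or_lt with h0 | h0
        · exfalso
          have hb1 : a = 1 := by linarith
          have hzeq : z = p k := by rw [hze, ← h0, hb1]; simp
          rw [hzeq] at hzt hz1 hz2
          rcases hno k (by omega) (by omega) hzt with e | e | e
          · omega
          · rw [e, orient_right] at hz1; exact lt_irrefl _ hz1
          · omega
        · exact h0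
      have hcomb := hzF
      rw [hze, orient_comb hab] at hcomb
      have hA0 : orient (p (i + 1)) (p (i + (n - 1))) (p k) = 0 := by nlinarith
      have hB0 : orient (p (i + 1)) (p (i + (n - 1))) (p (k + 1)) = 0 := by nlinarith
      have hG : ∀ x y : ℂ, orient (p (i + 1)) (p (i + (n - 1))) x = 0 →
          orient (p (i + 1)) (p (i + (n - 1))) y = 0 →
          orient (p i) (p (i + 1)) x ≤ 0 → orient (p (i + (n - 1))) (p i) y ≤ 0 →
          p (i + 1) ∈ segment ℝ x y ∧ p (i + (n - 1)) ∈ segment ℝ x y := by
        intro x y hx hy hgx hgy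
        have sx := hsum x
        have sy := hsum y
        constructor
        · obtain ⟨w, hw, hw0⟩ := cross (u := p i) (v := p (i + 1)) (x := x) (y := y) hgx
            (by linarith)
          have hwF : orient (p (i + 1)) (p (i + (n - 1))) w = 0 :=
            le_antisymm (by
              obtain ⟨s, t, _, _, hst, rfl⟩ := segment_comb hw
              rw [orient_comb hst, hx, hy]; simp) (seg_le hx.ge hy.ge hw)
          have := eq_of_two_zero ho hw0 hwF
          rw [← this]; exact hw
        · obtain ⟨w, hw, hw0⟩ := cross (u := p (i + (n - 1))) (v := p i) (x := y) (y := x) hgy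
            (by linarith)
          have hw' : w ∈ segment ℝ x y := by rw [segment_symm]; exact hw
          have hwF : orient (p (i + 1)) (p (i + (n - 1))) w = 0 :=
            le_antisymm (by
              obtain ⟨s, t, _, _, hst, rfl⟩ := segment_comb hw'
              rw [orient_comb hst, hx, hy]; simp) (seg_le hx.ge hy.ge hw')
          have ho3 : 0 < orient (p (i + 1)) (p (i + (n - 1))) (p i) := by
            rw [orient_cyc]; exact ho
          have := eq_of_two_zero ho3 hwF hw0
          rw [← this]; exact hw'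
      -- each end lies outside of the triangle
      have hout : ∀ m, i < m → m < i + n → m ≠ i → orient (p (i + 1)) (p (i + (n - 1))) (p m) = 0 →
          orient (p i) (p (i + 1)) (p m) ≤ 0 ∨ orient (p (i + (n - 1))) (p i) (p m) ≤ 0 := by
        intro m h1 h2 _ h3
        by_contra hcon
        push Not at hcon
        rcases hno m h1.le h2 ⟨hcon.1.le, h3.ge, hcon.2.le⟩ with e | e | e
        · omega
        · rw [e, orient_right] at hcon; exact lt_irrefl _ hcon.1
        · rw [e, orient_left] at hcon; exact lt_irrefl _ hcon.2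
      have fin : p (i + 1) ∈ segment ℝ (p k) (p (k + 1)) →
          p (i + (n - 1)) ∈ segment ℝ (p k) (p (k + 1)) → False := by
        intro h1 h2
        have h1' : p (i + 1 + n) ∈ segment ℝ (p k) (p (k + 1)) := by rw [hs.per]; exact h1
        have c1 : k = i + 1 := by
          by_contra hne
          rcases vert_edge hs (by omega) (by omega) h1' with h3 | h3 <;> omega
        have c2 : k + 1 = i + (n - 1) := by
          rcases vert_edge hs (by omega) (by omega) h2 with h3 | h3 <;> omega
        omega
      rcases hout k (by omega) hk2 e1 hA0 with g1 | g1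
      · rcases hout (k + 1) (by omega) (by omega) (by omega) hB0 with g2 | g2
        · have : orient (p i) (p (i + 1)) z ≤ 0 := by
            rw [hze, orient_comb hab]; exact wle ha hb hab g1 g2
          linarith
        · obtain ⟨q1, q2⟩ := hG _ _ hA0 hB0 g1 g2
          exact fin q1 q2
      · rcases hout (k + 1) (by omega) (by omega) (by omega) hB0 with g2 | g2
        · obtain ⟨q1, q2⟩ := hG _ _ hB0 hA0 g2 g1
          rw [segment_symm] at q1 q2
          exact fin q1 q2
        · have : orient (p (i + (n - 1))) (p i) z ≤ 0 := by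
            rw [hze, orient_comb hab]; exact wle ha hb hab g1 g2
          linarith
    refine ⟨hzc, ?_⟩
    -- constant winding number on the half open segment
    have hpre : IsPreconnected (openSegment ℝ (p i) z ∪ {z}) := by
      have hconv : Convex ℝ (openSegment ℝ (p i) z ∪ {z}) := by
        have hne : p i ≠ z := by
          rintro rfl
          rw [orient_left] at hz1; exact lt_irrefl _ hz1
        intro x hx y hy a b ha hb hab
        have hrep : ∀ x ∈ openSegment ℝ (p i) z ∪ {z}, ∃ t : ℝ, 0 < t ∧ t ≤ 1 ∧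
            x = (1 - t) • p i + t • z := by
          rintro x (hx | hx)
          · obtain ⟨s, t, h1, h2, h3, rfl⟩ := openSegment_comb hx
            exact ⟨t, h2, by linarith, by rw [show (1 : ℝ) - t = s by linarith]⟩
          · exact ⟨1, one_pos, le_rfl, by rw [mem_singleton_iff.1 hx]; simp⟩
        obtain ⟨s, s1, s2, rfl⟩ := hrep x hx
        obtain ⟨t, t1, t2, rfl⟩ := hrep y hy
        have hu1 : 0 < a * s + b * t := comb_pos ha hb hab s1 t1
        have hu2 : a * s + b * t ≤ 1 := wle ha hb hab s2 t2
        have e : a • ((1 - s) • p i + s • z) + b • ((1 - t) • p i + t • z)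
            = (1 - (a * s + b * t)) • p i + (a * s + b * t) • z := by
          have hb' : b = 1 - a := by linarith
          subst hb'
          simp only [Complex.real_smul]; push_cast; ring
        rw [e]
        rcases hu2.eq_or_lt with h1 | h1
        · right; rw [h1]; simp
        · left; exact ⟨_, _, by linarith, hu1, by ring, rfl⟩
      exact hconv.isPreconnected
    have hoff : ∀ x ∈ openSegment ℝ (p i) z ∪ {z}, x ∉ chain p 0 n := by
      rintro x (hx | hx)
      · exact hopen x hx
      · rw [mem_singleton_iff.1 hx]; exact hzc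
    have hmid : (1 / 2 : ℝ) • p i + (1 / 2 : ℝ) • z ∈ openSegment ℝ (p i) z :=
      ⟨1 / 2, 1 / 2, by norm_num, by norm_num, by norm_num, rfl⟩
    have := const_of_preconnected hpre
      (fun x hx => (continuousAt_A (hoff x hx)).continuousWithinAt)
      (fun x hx => hs.W_int (hoff x hx)) (Or.inr rfl : z ∈ openSegment ℝ (p i) z ∪ {z})
      (Or.inl hmid)
    rw [this]
    exact (hins hmid).2

end Pool.Agent.SigPoly
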