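import Mathlib

/-!
# Signatures of simple polygons: the notions used in the statements of the results

The plane is `ℂ`; a polygon with `n` vertices is a map `P : ZMod n → ℂ`, its edges are the closed
segments from `P i` to `P (i + 1)`, the indices being taken modulo `n`.
-/

namespace Pool.Agent.SigPublic

open Set

/-- `P` is a simple polygon with `n` vertices: `n ≥ 3`, the vertices are distinct, two consecutive
edges meet exactly in their common vertex, and any two other distinct edges are disjoint. -/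
structure IsSimplePolygon {n : ℕ} (P : ZMod n → ℂ) : Prop where
  three_le : 3 ≤ n
  injective : Function.Injective P
  consecutive : ∀ i, segment ℝ (P i) (P (i + 1)) ∩ segment ℝ (P (i + 1)) (P (i + 2)) = {P (i + 1)}
  disjoint : ∀ i j, j ≠ i → j ≠ i + 1 → i ≠ j + 1 →
    segment ℝ (P i) (P (i + 1)) ∩ segment ℝ (P j) (P (j + 1)) = ∅

/-- The polygon `P` as a set: the union of its edges. -/
def boundary {n : ℕ} (P : ZMod n → ℂ) : Set ℂ := ⋃ i, segment ℝ (P i) (P (i + 1))

/-- The inside of the polygon `P`: the points off `P` whose connected component in the complement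
of `P` is bounded. -/
def inside {n : ℕ} (P : ZMod n → ℂ) : Set ℂ :=
  {z | z ∉ boundary P ∧ Bornology.IsBounded (connectedComponentIn (boundary P)ᶜ z)}

/-- The outside of the polygon `P`: the points off `P` whose connected component in the complement
of `P` is unbounded. -/
def outside {n : ℕ} (P : ZMod n → ℂ) : Set ℂ :=
  {z | z ∉ boundary P ∧ ¬ Bornology.IsBounded (connectedComponentIn (boundary P)ᶜ z)}

/-- The segment from `P i` to `P j` is a diagonal: it meets the polygon exactly in its endpoints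
and its relative interior lies inside. -/
def IsDiagonal {n : ℕ} (P : ZMod n → ℂ) (i j : ZMod n) : Prop :=
  segment ℝ (P i) (P j) ∩ boundary P = {P i, P j} ∧ openSegment ℝ (P i) (P j) ⊆ inside P

/-- The set of all diagonals, as unordered pairs of (indices of) vertices. -/
def diagonals {n : ℕ} (P : ZMod n → ℂ) : Set (Sym2 (ZMod n)) :=
  {d | ∃ i j, d = s(i, j) ∧ IsDiagonal P i j}

/-- The vertex `P j` is proper: its two edges are not collinear. -/
def IsProper {n : ℕ} (P : ZMod n → ℂ) (j : ZMod n) : Prop :=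
  ¬ Collinear ℝ {P (j - 1), P j, P (j + 1)}

/-- For all small enough positive `a` and `b` the open segment between the points
`a P (j - 1) + (1 - a) P j` and `b P (j + 1) + (1 - b) P j` lies in the set `S`. -/
def SmallSegmentsIn {n : ℕ} (P : ZMod n → ℂ) (j : ZMod n) (S : Set ℂ) : Prop :=
  ∃ δ > 0, ∀ a b : ℝ, 0 < a → a < δ → 0 < b → b < δ →
    openSegment ℝ ((a : ℂ) * P (j - 1) + (1 - a) * P j) ((b : ℂ) * P (j + 1) + (1 - b) * P j) ⊆ S

/-- `σ` is the signature of `P`: it is `0` exactly at the vertices which are not proper, and `1`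
and `-1` at the convex and at the concave vertices. -/
def HasSignature {n : ℕ} (P : ZMod n → ℂ) (σ : ZMod n → ℤ) : Prop :=
  ∀ j, (σ j = 0 ∧ ¬ IsProper P j) ∨ (σ j = 1 ∧ IsProper P j ∧ SmallSegmentsIn P j (inside P)) ∨
    (σ j = -1 ∧ IsProper P j ∧ SmallSegmentsIn P j (outside P))

/-- `σ` is the signature of a simple polygon with exactly `n - 3` diagonals. -/
def IsMinimalSignature {n : ℕ} (σ : ZMod n → ℤ) : Prop :=
  ∃ P : ZMod n → ℂ, IsSimplePolygon P ∧ HasSignature P σ ∧ (diagonals P).ncard = n - 3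

/-- `T` is a triangulation of a convex `n`-gon with the vertices `0, …, n - 1`: a set of `n - 3`
pairwise non-crossing diagonals; the diagonal joining `a < b` is the pair `(a, b)`. -/
structure IsTriangulation (n : ℕ) (T : Finset (ℕ × ℕ)) : Prop where
  diag : ∀ d ∈ T, d.1 + 2 ≤ d.2 ∧ d.2 < n ∧ ¬ (d.1 = 0 ∧ d.2 = n - 1)
  noncrossing : ∀ d ∈ T, ∀ e ∈ T, ¬ (d.1 < e.1 ∧ e.1 < d.2 ∧ d.2 < e.2)
  card : T.card = n - 3

/-- The vertices `a` and `b` are joined by a side of the convex `n`-gon or by a diagonal in `T`. -/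
def Joined (n : ℕ) (T : Finset (ℕ × ℕ)) (a b : ℕ) : Prop :=
  b = a + 1 ∨ a = b + 1 ∨ (a = 0 ∧ b = n - 1) ∨ (b = 0 ∧ a = n - 1) ∨ (a, b) ∈ T ∨ (b, a) ∈ T

/-- The other endpoint of the diagonal `d`, seen from its endpoint `v`. -/
def other (d : ℕ × ℕ) (v : ℕ) : ℕ := if d.1 = v then d.2 else d.1

/-- The criterion for a sequence `s 0, …, s (n - 1)`: there are a triangulation `T` of the convex
`n`-gon and a choice `w` of one of its two endpoints for each diagonal in `T` such that a vertex
of sign `1` is chosen by no diagonal; a vertex of sign `0` is on exactly one diagonal of `T`, and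
this one chooses it; and a vertex of sign `-1` is chosen by exactly one diagonal, or by exactly
two, which are then two sides of a triangle of `T`. -/
def Criterion (n : ℕ) (s : ℕ → ℤ) : Prop :=
  ∃ T : Finset (ℕ × ℕ), IsTriangulation n T ∧ ∃ w : ℕ × ℕ → ℕ,
    (∀ d ∈ T, w d = d.1 ∨ w d = d.2) ∧
    ∀ v < n,
      (s v = 1 ∧ ∀ d ∈ T, w d ≠ v) ∨
      (s v = 0 ∧ ∃ d ∈ T, w d = v ∧ ∀ e ∈ T, (e.1 = v ∨ e.2 = v) → e = d) ∨
      (s v = -1 ∧ ((∃ d ∈ T, ∀ e ∈ T, w e = v ↔ e = d) ∨
        ∃ d ∈ T, ∃ e ∈ T, d ≠ e ∧ (∀ f ∈ T, w f = v ↔ f = d ∨ f = e) ∧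
          Joined n T (other d v) (other e v)))

end Pool.Agent.SigPublic
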