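import Pool.Agent.SigPoly.Bridge
import Pool.Agent.SigPoly.Public

/-!
# The main results, in terms of the public notions
-/

namespace Pool.Agent.SigPoly

open Pool.Agent

theorem isSimple_iff {n : ℕ} (P : ZMod n → ℂ) :
    SigPublic.IsSimplePolygon P ↔ VisGraph.IsSimplePolygon P :=
  ⟨fun h => ⟨h.1, h.2, h.3, h.4⟩, fun h => ⟨h.1, h.2, h.3, h.4⟩⟩

theorem isTriangulation_iff (n : ℕ) (T : Finset (ℕ × ℕ)) :
    SigPublic.IsTriangulation n T ↔ IsTriangulation n T :=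
  ⟨fun h => ⟨h.1, h.2, h.3⟩, fun h => ⟨h.1, h.2, h.3⟩⟩

theorem criterion_iff (n : ℕ) (s : ℕ → ℤ) : SigPublic.Criterion n s ↔ Criterion n s := by
  constructor
  · rintro ⟨T, hT, h⟩
    exact ⟨T, (isTriangulation_iff n T).1 hT, h⟩
  · rintro ⟨T, hT, h⟩
    exact ⟨T, (isTriangulation_iff n T).2 hT, h⟩

theorem criterion_congr {n : ℕ} {s t : ℕ → ℤ} (h : ∀ k < n, s k = t k) :
    Criterion n s ↔ Criterion n t := by
  constructor
  · rintro ⟨T, hT, w, hw, hv⟩
    refine ⟨T, hT, w, hw, fun v hvn => ?_⟩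
    rw [← h v hvn]
    exact hv v hvn
  · rintro ⟨T, hT, w, hw, hv⟩
    refine ⟨T, hT, w, hw, fun v hvn => ?_⟩
    rw [h v hvn]
    exact hv v hvn

theorem perf_per {n : ℕ} {α : Type*} (f : ZMod n → α) (k : ℕ) : perf f (k + n) = perf f k := by
  simp [perf]

theorem minimal_iff_gen {n : ℕ} (hn : 3 ≤ n) (σ : ZMod n → ℤ) :
    SigPublic.IsMinimalSignature σ ↔ ∃ L, Gen n L ∧ ∀ k, (L k).sgn = perf σ k := by
  rw [← main_iff hn]
  constructor
  · rintro ⟨P, h1, h2, h3⟩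
    exact ⟨P, (isSimple_iff P).1 h1, h2, h3⟩
  · rintro ⟨P, h1, h2, h3⟩
    exact ⟨P, (isSimple_iff P).2 h1, h2, h3⟩

theorem minimal_iff_criterion {n : ℕ} (hn : 3 ≤ n) (σ : ZMod n → ℤ) :
    SigPublic.IsMinimalSignature σ ↔ SigPublic.Criterion n (fun k => σ (k : ZMod n)) := by
  rw [minimal_iff_gen hn, criterion_iff]
  constructor
  · rintro ⟨L, h1, h2⟩
    have h3 := criterion_of_gen h1
    have h4 : (fun k => (L k).sgn) = fun k : ℕ => σ (k : ZMod n) := by
      funext k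
      exact h2 k
    rwa [h4] at h3
  · intro h
    exact gen_of_criterion hn (perf σ) (perf_per σ) h

theorem num_perf {n : ℕ} (hn : 3 ≤ n) (σ : ZMod n → ℤ) (x : ℤ) :
    num n (perf σ) x = {j | σ j = x}.ncard := by
  classical
  have : NeZero n := ⟨by omega⟩
  have h1 : {j | σ j = x} = ((Finset.univ.filter fun j : ZMod n => σ j = x : Finset (ZMod n)) :
      Set (ZMod n)) := by
    ext j
    simp
  rw [h1, Set.ncard_coe_finset]
  unfold num perf
  refine Finset.card_bij' (fun k _ => (k : ZMod n)) (fun j _ => j.val) ?_ ?_ ?_ ?_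
  · intro k hk
    rw [Finset.mem_filter] at hk ⊢
    exact ⟨Finset.mem_univ _, hk.2⟩
  · intro j hj
    rw [Finset.mem_filter] at hj ⊢
    refine ⟨Finset.mem_range.2 (ZMod.val_lt j), ?_⟩
    rw [ZMod.natCast_zmod_val]
    exact hj.2
  · intro k hk
    rw [Finset.mem_filter, Finset.mem_range] at hk
    exact ZMod.val_natCast_of_lt hk.1
  · intro j _
    exact ZMod.natCast_zmod_val j

theorem zeroFree {n : ℕ} (hn : 3 ≤ n) (σ : ZMod n → ℤ) (hσ : ∀ j, σ j = 1 ∨ σ j = -1) :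
    SigPublic.IsMinimalSignature σ ↔
      3 ≤ {j | σ j = 1}.ncard ∧ {j | σ j = 1}.ncard ≤ {j | σ j = -1}.ncard + 3 := by
  rw [minimal_iff_gen hn, ← num_perf hn, ← num_perf hn]
  constructor
  · rintro ⟨L, h1, h2⟩
    have h3 := h1.count
    have h4 : (fun k => (L k).sgn) = perf σ := by
      funext k
      exact h2 k
    rwa [h4] at h3
  · rintro ⟨h3, h4⟩
    exact gen_of_count hn (perf σ) (perf_per σ) (fun k => hσ _) h3 h4

end Pool.Agent.SigPoly
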