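import Pool.Agent.SigPoly.EarMk
import Pool.Agent.SigPoly.Exist
import Pool.Agent.SigPoly.Basic3

/-!
# Polygons with the minimum number of diagonals are described by the grammar
-/

namespace Pool.Agent.SigPoly

open Complex Set Filter Topology Pool.Agent.VisGraph

/-! ### Iterated rotations -/

lemma rotp_iter (k : ℕ) (p : ℕ → ℂ) : rotp^[k] p = fun j => p (j + k) := by
  induction k generalizing p with
  | zero => rfl
  | succ k ih =>
    rw [Function.iterate_succ_apply, ih]
    funext j
    simp only [rotp]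
    congr 1

lemma SP.rot_iter {n : ℕ} {p : ℕ → ℂ} (h : SP n p) (k : ℕ) : SP n (rotp^[k] p) := by
  induction k with
  | zero => exact h
  | succ k ih => rw [Function.iterate_succ_apply']; exact SP.rot ih

lemma PP.rot_iter {n : ℕ} {p : ℕ → ℂ} (h : PP n p) (k : ℕ) : PP n (rotp^[k] p) := by
  induction k with
  | zero => exact h
  | succ k ih => rw [Function.iterate_succ_apply']; exact ih.rot

lemma Cnt_rot_iter {n : ℕ} {p : ℕ → ℂ} (h : SP n p) (k : ℕ) : Cnt n (rotp^[k] p) = Cnt n p := by
  induction k with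
  | zero => rfl
  | succ k ih => rw [Function.iterate_succ_apply', Cnt_rot (SP.rot_iter h k), ih]

lemma Diag_rot_iter {n : ℕ} {p : ℕ → ℂ} (h : SP n p) (k i j : ℕ) :
    Diag n (rotp^[k] p) i j ↔ Diag n p (i + k) (j + k) := by
  induction k generalizing i j with
  | zero => rfl
  | succ k ih =>
    rw [Function.iterate_succ_apply', Diag_rot (SP.rot_iter h k), ih]
    rw [show i + 1 + k = i + (k + 1) by ring, show j + 1 + k = j + (k + 1) by ring]

lemma diag_congr {n : ℕ} {p : ℕ → ℂ} {i i' j j' : ℕ} (e : p i = p i') (e' : p j = p j') :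
    Diag n p i j ↔ Diag n p i' j' := by
  unfold Diag; rw [e, e']

/-- An ear: a shortest diagonal. -/
theorem exists_ear {n : ℕ} {p : ℕ → ℂ} (h : PP n p) (hn : 4 ≤ n) : ∃ i, Diag n p i (i + 2) := by
  classical
  have hs := h.sp
  have hex : ∃ m, ∃ i, m < n ∧ Diag n p i (i + m) := by
    obtain ⟨i, j, hd⟩ := exists_diag h hn
    refine ⟨(j + (n - 1) * i) % n, i, Nat.mod_lt _ (by omega), ?_⟩
    refine (diag_congr rfl ?_).1 hd
    rw [← per_mod hs.per j, ← per_mod hs.per (i + _), Nat.add_mod_mod,
      show i + (j + (n - 1) * i) = j + ((n - 1) * i + i) by ring,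
      show (n - 1) * i + i = n * i by
        obtain ⟨m, rfl⟩ : ∃ m, n = m + 1 := ⟨n - 1, by omega⟩
        simp only [Nat.add_sub_cancel]; ring]
    rw [Nat.add_mul_mod_self_left]
  obtain ⟨i, hm, hd⟩ := Nat.find_spec hex
  have hmin := fun m (hm : m < Nat.find hex) => Nat.find_min hex hm
  set m := Nat.find hex with hmdef
  have hm0 : m ≠ 0 := by
    intro h0
    rw [h0] at hd
    exact not_diag_self hs i hd
  have h2 := hd.two_le hs (by omega) (by omega)
  by_cases hm2 : m = 2
  · exact ⟨i, by rw [← hm2]; exact hd⟩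
  exfalso
  have e : i + m - i + 1 = m + 1 := by omega
  have hsub := sub_pp h hd (by omega) (by omega)
  obtain ⟨a, b, hab⟩ := exists_diag hsub (by omega)
  have hper := hsub.sp.per
  have key : ∀ a b, a ≤ m → b ≤ m → a < b →
      Diag (i + m - i + 1) (subp p i (i + m)) a b → False := by
    intro a b ha hb hlt hab
    have h3 := hab.two_le hsub.sp hlt (by omega)
    have h4 := sub_diag hs hd (by omega) (by omega) (by omega : a ≤ i + m - i)
      (by omega : b ≤ i + m - i) hab
    refine hmin (b - a) (by omega) ⟨i + a, by omega, ?_⟩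
    rw [show i + a + (b - a) = i + b by omega]
    exact h4
  have hab' : Diag (i + m - i + 1) (subp p i (i + m)) (a % (m + 1)) (b % (m + 1)) := by
    refine (diag_congr ?_ ?_).1 hab
    · rw [← e, per_mod hper]
    · rw [← e, per_mod hper]
  have ha : a % (m + 1) < m + 1 := Nat.mod_lt _ (by omega)
  have hb : b % (m + 1) < m + 1 := Nat.mod_lt _ (by omega)
  rcases lt_trichotomy (a % (m + 1)) (b % (m + 1)) with h5 | h5 | h5
  · exact key _ _ (by omega) (by omega) h5 hab'
  · rw [h5] at hab'
    exact not_diag_self hsub.sp _ hab'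
  · exact key _ _ (by omega) (by omega) h5 hab'.symm

/-- Rotating an ear into the standard position. -/
lemma exists_ear' {n : ℕ} {p : ℕ → ℂ} (h : PP (n + 1) p) (hn : 3 ≤ n) :
    ∃ k, Ear n (delp n (rotp^[k] p)) (rotp^[k] p) := by
  obtain ⟨i, hd⟩ := exists_ear h (by omega)
  refine ⟨i + 2, Ear.of_diag (h.rot_iter _) hn ?_⟩
  rw [Diag_rot_iter h.sp, show n - 1 + (i + 2) = i + (n + 1) by omega, Diag.per_left h.sp,
    Nat.zero_add]
  exact hd

theorem cnt_lower {n : ℕ} {p : ℕ → ℂ} (h : PP n p) : 2 * (n - 3) ≤ Cnt n p := by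
  induction n generalizing p with
  | zero => omega
  | succ n ih =>
    by_cases hn : 3 ≤ n
    · obtain ⟨k, E⟩ := exists_ear' h hn
      have h1 := ih E.hp
      have h2 := E.cnt_ge
      rw [Cnt_rot_iter h.sp] at h2
      omega
    · omega

/-! ### Symmetries of apexes -/

lemma Apex.per {n : ℕ} {p : ℕ → ℂ} (h : SP n p) {i t : ℕ} (a : Apex n p (i + n) t) :
    Apex n p i t := by
  have e : p (i + n + 1) = p (i + 1) := by rw [show i + n + 1 = i + 1 + n by ring, h.per]
  have e0 : p (i + n) = p i := h.per i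
  refine ⟨?_, ?_, ?_, ?_⟩
  · have := a.ori; rwa [e, e0] at this
  · have := a.sub; rwa [e, e0] at this
  · have := a.aR; rwa [e, e0, aR_per h] at this
  · have := a.aL
    rwa [e, e0, show i + n + 1 = i + 1 + n by ring, aL_per h] at this

lemma Apex.congr {n : ℕ} {p : ℕ → ℂ} {i t t' : ℕ} (e : p t = p t') (a : Apex n p i t) :
    Apex n p i t' := by
  obtain ⟨h1, h2, h3, h4⟩ := a
  rw [e] at h1 h2 h3 h4
  exact ⟨h1, h2, h3, h4⟩

lemma Apex.of_rot {n : ℕ} {p : ℕ → ℂ} (h : SP n p) {i t : ℕ} (a : Apex n p (i + 1) (t + 1)) :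
    Apex n (rotp p) i t := by
  refine ⟨a.ori, ?_, ?_, ?_⟩
  · rw [Ins_rot h]; exact a.sub
  · rw [aR_rot h]; exact a.aR
  · rw [aL_rot h]; exact a.aL

lemma orient_conj (a b c : ℂ) :
    orient ((starRingEnd ℂ) a) ((starRingEnd ℂ) b) ((starRingEnd ℂ) c) = - orient a b c := by
  simp only [orient, cr, Complex.sub_re, Complex.sub_im, Complex.conj_re, Complex.conj_im]; ring

lemma orient_swap' (a b c : ℂ) : orient a c b = - orient a b c := by
  simp only [orient, cr, Complex.sub_re, Complex.sub_im]; ring

lemma conj_mem_otri {a b c z : ℂ} :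
    (starRingEnd ℂ) z ∈ otri a b c ↔ z ∈ otri ((starRingEnd ℂ) b) ((starRingEnd ℂ) a)
      ((starRingEnd ℂ) c) := by
  have e : ∀ u v : ℂ, orient u v ((starRingEnd ℂ) z) =
      orient ((starRingEnd ℂ) v) ((starRingEnd ℂ) u) z := by
    intro u v
    simp only [orient, cr, Complex.sub_re, Complex.sub_im, Complex.conj_re, Complex.conj_im]; ring
  simp only [otri, mem_ofPred_eq, e]
  tauto

lemma conj_mem_ctri {a b c z : ℂ} :
    (starRingEnd ℂ) z ∈ ctri a b c ↔ z ∈ ctri ((starRingEnd ℂ) b) ((starRingEnd ℂ) a)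
      ((starRingEnd ℂ) c) := by
  have e : ∀ u v : ℂ, orient u v ((starRingEnd ℂ) z) =
      orient ((starRingEnd ℂ) v) ((starRingEnd ℂ) u) z := by
    intro u v
    simp only [orient, cr, Complex.sub_re, Complex.sub_im, Complex.conj_re, Complex.conj_im]; ring
  simp only [ctri, mem_ofPred_eq, e]
  tauto

/-- All that is proved by induction. -/
structure Phi (n : ℕ) (p : ℕ → ℂ) : Prop where
  pp : PP n p
  cnt : Cnt n p = 2 * (n - 3)
  apex : ∀ i, ∃ t, Apex n p i t
  inv : ∀ i, th n p i < Real.pi → th n p i + aR n p (i + (n - 1)) + aL n p (i + 1) ≤ Real.pi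
  gen : ∀ L : ℕ → Lab, (∀ k, L (k + n) = L k) → (∀ i, LabW n p i (L i)) → Gen n L

lemma NoDiag_per' {n : ℕ} {p : ℕ → ℂ} (h : SP n p) (i : ℕ) :
    NoDiag n p (i + n) ↔ NoDiag n p i := by
  unfold NoDiag
  simp only [Diag.per_left h]

lemma LabW_per {n : ℕ} {p : ℕ → ℂ} (h : SP n p) (i : ℕ) (x : Lab) :
    LabW n p (i + n) x ↔ LabW n p i x := by
  cases x <;> simp only [LabW, th_per h, aR_per h, aL_per h, NoDiag_per' h]

lemma labW_of_lt {n : ℕ} {p : ℕ → ℂ} (h : SP n p) {L : ℕ → Lab} (per : ∀ k, L (k + n) = L k)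
    (H : ∀ i < n, LabW n p i (L i)) (i : ℕ) : LabW n p i (L i) := by
  induction i using Nat.strong_induction_on with
  | _ i ih =>
    by_cases hi : i < n
    · exact H i hi
    · have h3 := h.three_le
      obtain ⟨j, rfl⟩ := Nat.exists_eq_add_of_le (not_lt.1 hi)
      rw [Nat.add_comm n j, per, LabW_per h]
      exact ih j (by omega)

theorem Phi.rot {n : ℕ} {p : ℕ → ℂ} (H : Phi n p) : Phi n (rotp p) := by
  have hs := H.pp.sp
  have hn := H.pp.three_le
  refine ⟨H.pp.rot, by rw [Cnt_rot hs]; exact H.cnt, ?_, ?_, ?_⟩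
  · intro i
    obtain ⟨t, ht⟩ := H.apex (i + 1)
    refine ⟨t + (n - 1), Apex.of_rot hs (ht.congr ?_)⟩
    rw [show t + (n - 1) + 1 = t + n by omega, hs.per]
  · intro i hi
    rw [th_rot hs] at hi ⊢
    rw [aR_rot hs, aL_rot hs]
    have := H.inv (i + 1) hi
    rwa [show i + 1 + (n - 1) = i + (n - 1) + 1 by ring] at this
  · intro L per hL
    have h1 := H.gen (fun k => L (k + (n - 1))) (fun k => by
      rw [show k + n + (n - 1) = k + (n - 1) + n by ring, per]) (fun i => by
        have := hL (i + (n - 1))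
        revert this
        generalize L (i + (n - 1)) = x
        have e : i + (n - 1) + 1 = i + n := by omega
        cases x <;> simp only [LabW, th_rot hs, aR_rot hs, aL_rot hs, e, th_per hs, aR_per hs,
          aL_per hs]
        · rintro ⟨h1, h2⟩
          refine ⟨h1, fun j hj => h2 (j + (n - 1)) ((Diag_rot hs _ _).2 ?_)⟩
          rw [e, show j + (n - 1) + 1 = j + n by omega, Diag.per_left hs, Diag.per_right hs]
          exact hj
        · exact id
        · exact id
        · exact id)
    have h2 := Gen.rot n _ h1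
    have e : (fun k => L (k + 1 + (n - 1))) = L := by
      funext k
      rw [show k + 1 + (n - 1) = k + n by omega, per]
    simpa only [e] using h2

theorem Phi.rot_iter {n : ℕ} {p : ℕ → ℂ} (H : Phi n p) (k : ℕ) : Phi n (rotp^[k] p) := by
  induction k with
  | zero => exact H
  | succ k ih => rw [Function.iterate_succ_apply']; exact ih.rot

theorem Phi.of_rot_iter {n : ℕ} {p : ℕ → ℂ} (h : PP n p) {k : ℕ} (H : Phi n (rotp^[k] p)) :
    Phi n p := by
  have hn := h.three_le
  have h1 := H.rot_iter ((n - 1) * k)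
  have e : rotp^[(n - 1) * k] (rotp^[k] p) = p := by
    rw [← Function.iterate_add_apply, rotp_iter]
    funext j
    have : j + ((n - 1) * k + k) = j + n * k := by
      obtain ⟨m, rfl⟩ : ∃ m, n = m + 1 := ⟨n - 1, by omega⟩
      simp only [Nat.add_sub_cancel]; ring
    rw [this, per_add_mul h.sp.per]
  rwa [e] at h1

lemma neg_succ_idx {n : ℕ} (hn : 2 ≤ n) (i : ℕ) :
    (n - 1) * (i + 1) + 1 = (n - 1) * i + n := by
  obtain ⟨m, rfl⟩ : ∃ m, n = m + 1 := ⟨n - 1, by omega⟩
  simp only [Nat.add_sub_cancel]; ring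

theorem Phi.mir {n : ℕ} {p : ℕ → ℂ} (H : Phi n p) : Phi n (mirp n p) := by
  have hs := H.pp.sp
  have hn := H.pp.three_le
  refine ⟨H.pp.mir, by rw [Cnt_mir hs]; exact H.cnt, ?_, ?_, ?_⟩
  · intro i
    obtain ⟨t, ht⟩ := H.apex ((n - 1) * (i + 1))
    have e1 : p ((n - 1) * (i + 1) + 1) = p ((n - 1) * i) := by
      rw [neg_succ_idx (by omega), hs.per]
    have e2 : ∀ a, p ((n - 1) * ((n - 1) * a)) = p a := per_neg_neg (by omega) hs.per
    obtain ⟨h1, h2, h3, h4⟩ := ht
    rw [e1] at h1 h2 h3 h4
    refine ⟨(n - 1) * t, ?_, ?_, ?_, ?_⟩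
    · simp only [mirp_apply, e2]
      rw [orient_conj, ← orient_swap]
      exact h1
    · simp only [mirp_apply, e2]
      rw [Ins_mir hs]
      intro z hz
      refine ⟨(starRingEnd ℂ) z, h2 ?_, by simp⟩
      rw [conj_mem_otri]
      exact hz
    · rw [aR_mir hs]
      simp only [mirp_apply, e2]
      rw [← map_sub, ← map_sub, turn_conj]
      · rw [neg_succ_idx (by omega), aL_per hs] at h4
        exact h4
      · have := (ne_of_orient h1.ne').2.1
        exact sub_ne_zero.2 this.symm
      · have := (ne_of_orient h1.ne').1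
        exact sub_ne_zero.2 this
    · rw [aL_mir hs]
      simp only [mirp_apply, e2]
      rw [← map_sub, ← map_sub, turn_conj]
      · exact h3
      · have := (ne_of_orient h1.ne').1
        exact sub_ne_zero.2 this.symm
      · have := (ne_of_orient h1.ne').2.2
        exact sub_ne_zero.2 this.symm
  · intro i hi
    rw [th_mir hs] at hi ⊢
    rw [aR_mir hs, aL_mir hs]
    have := H.inv _ hi
    have e1 : aL n p ((n - 1) * (i + (n - 1))) = aL n p ((n - 1) * i + 1) := by
      have : (n - 1) * (i + (n - 1)) = (n - 1) * i + 1 + n * (n - 2) := by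
        obtain ⟨m, rfl⟩ : ∃ m, n = m + 2 := ⟨n - 2, by omega⟩
        simp only [Nat.add_sub_cancel, show m + 2 - 1 = m + 1 by omega]; ring
      rw [this, per_add_mul (aL_per hs)]
    have e2 : aR n p ((n - 1) * (i + 1)) = aR n p ((n - 1) * i + (n - 1)) := by
      congr 1
    rw [e1, e2]
    linarith
  · intro L per hL
    have h1 := H.gen (fun k => (L ((n - 1) * k)).mir) (fun k => by
      rw [show (n - 1) * (k + n) = (n - 1) * k + n * (n - 1) by ring, per_add_mul per])
      (fun i => by
        have := hL ((n - 1) * i)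
        revert this
        generalize L ((n - 1) * i) = x
        have e1 := per_neg_neg (by omega) (th_per hs) i
        have e2 := per_neg_neg (by omega) (aR_per hs) i
        have e3 := per_neg_neg (by omega) (aL_per hs) i
        cases x <;> simp only [LabW, Lab.mir, th_mir hs, aR_mir hs, aL_mir hs, e1, e2, e3]
        · rintro ⟨h1, h2⟩
          refine ⟨h1, fun j hj => h2 ((n - 1) * j) ((Diag_mir hs _ _).2 ?_)⟩
          exact (diag_congr (per_neg_neg (by omega) hs.per i)
            (per_neg_neg (by omega) hs.per j)).2 hj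
        · exact id
        · exact id
        · tauto)
    have h2 := Gen.mir n _ h1
    have e : (fun k => ((L ((n - 1) * ((n - 1) * k))).mir).mir) = L := by
      funext k
      rw [per_neg_neg (by omega) per]
      cases L k <;> rfl
    simpa only [e] using h2

theorem Phi.of_mir {n : ℕ} {p : ℕ → ℂ} (h : PP n p) (H : Phi n (mirp n p)) : Phi n p := by
  have := H.mir
  rwa [mirp_mirp h.sp] at this

theorem Phi.base {p : ℕ → ℂ} (h : PP 3 p) : Phi 3 p := by
  have hs := h.sp
  have ho : ∀ i, 0 < orient (p i) (p (i + 1)) (p (i + 2)) := fun i => by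
    rw [orient3 hs.per]; exact PP3_orient h
  refine ⟨h, by rw [cnt_three hs], ?_, ?_, ?_⟩
  · intro i
    have e3 : p (i + 3) = p i := hs.per i
    have e2 : p (i + 1 + (3 - 1)) = p i := by
      rw [show i + 1 + (3 - 1) = i + 3 by ring, hs.per]
    refine ⟨i + 2, ho i, ?_, ?_, ?_⟩
    · intro z hz
      have hz0 : z ∈ otri (p 0) (p 1) (p 2) := by
        have : ∀ i, otri (p i) (p (i + 1)) (p (i + 2)) = otri (p 0) (p 1) (p 2) := by
          intro i
          induction i with
          | zero => rfl
          | succ i ih =>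
            rw [← ih, show i + 1 + 2 = i + 3 by ring, hs.per, show i + 1 + 1 = i + 2 by ring,
              otri_cyc]
        rw [← this i]; exact hz
      have e : p 3 = p 0 := hs.per 0
      refine ⟨notMem_chain3 hs.per hz0.1.ne' hz0.2.1.ne' hz0.2.2.ne', ?_⟩
      rw [A_three, e, tri_in hz0]
      have := Real.pi_pos
      positivity
    · rw [aR_of_noDiag h (noDiag_three hs i)]
      rfl
    · rw [aL_of_noDiag h (noDiag_three hs (i + 1))]
      unfold th
      rw [e2]
  · intro i _
    rw [aR_of_noDiag h (noDiag_three hs _), aL_of_noDiag h (noDiag_three hs _)]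
    unfold th
    have e1 : p (i + (3 - 1)) = p (i + 2) := rfl
    have e2 : p (i + (3 - 1) + 1) = p i := by
      rw [show i + (3 - 1) + 1 = i + 3 by ring, hs.per]
    have e3 : p (i + (3 - 1) + (3 - 1)) = p (i + 1) := by
      rw [show i + (3 - 1) + (3 - 1) = i + 1 + 3 by ring, hs.per]
    have e4 : p (i + 1 + (3 - 1)) = p i := by
      rw [show i + 1 + (3 - 1) = i + 3 by ring, hs.per]
    have e5 : p (i + 1 + 1) = p (i + 2) := rfl
    have := turn_triangle (ho i)
    simp only [e2, e3, e5] at *
    linarith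
  · intro L per hL
    refine Gen.base L per fun k => ?_
    have h1 := hL k
    have h2 := th_three h k
    revert h1
    generalize L k = x
    cases x with
    | tip => intro _; exact Or.inl rfl
    | plus => intro _; exact Or.inr rfl
    | flat => intro h3; simp only [LabW] at h3; linarith
    | neg l r => intro h3; exact absurd h3.1 (not_le.2 h2)

/-! ### The induction step -/

section step

variable {n : ℕ} {p q : ℕ → ℂ}

lemma ins_mono (E : Ear n p q) : Ins n p ⊆ Ins (n + 1) q := fun z hz => (E.ins_iff z).2 (Or.inl hz)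

lemma q_zero (E : Ear n p q) : q (n + 1) = p 0 := by
  have h1 := E.hq.sp.per 0
  rw [Nat.zero_add] at h1
  rw [h1, E.eq 0 (by have := E.hp.three_le; omega)]

lemma step_apex (E : Ear n p q) (hb : NoDiag (n + 1) q n) (H : Phi n p) (i : ℕ) (hi : i < n + 1) :
    ∃ t, Apex (n + 1) q i t := by
  have hn := E.hp.three_le
  have ev : q (n - 1) = p (n - 1) := E.eq _ (by omega)
  have ey : q 0 = p 0 := E.eq _ (by omega)
  have e1 : n - 1 + 1 = n := by omega
  by_cases h1 : i = n - 1
  · subst h1
    refine ⟨0, ?_, ?_, ?_, ?_⟩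
    · rw [e1, ev, ey]; exact E.ori
    · rw [e1, ev, ey]
      intro z hz
      exact (E.ins_iff z).2 (Or.inr (Or.inr hz))
    · rw [E.aR_v hb, e1, ev, ey]; rfl
    · rw [e1, E.aL_b hb, ev, ey]; rfl
  by_cases h2 : i = n
  · subst h2
    refine ⟨i - 1, ?_, ?_, ?_, ?_⟩
    · rw [q_zero E, ev, orient_cyc]; exact E.ori
    · rw [q_zero E, ev, otri_cyc]
      intro z hz
      exact (E.ins_iff z).2 (Or.inr (Or.inr hz))
    · rw [E.aR_b hb, q_zero E, ev]; rfl
    · have e5 := aL_per E.hq.sp 0
      rw [Nat.zero_add] at e5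
      rw [e5, E.aL_y hb, q_zero E, ev]
      rfl
  obtain ⟨t, ht⟩ := H.apex i
  have ht' : Apex n p i (t % n) := ht.congr (per_mod E.hp.sp.per t).symm
  have hlt : t % n < n := Nat.mod_lt _ (by omega)
  have ei : q i = p i := E.eq _ (by omega)
  have ei1 : q (i + 1) = p (i + 1) := E.eq _ (by omega)
  have et : q (t % n) = p (t % n) := E.eq _ hlt
  refine ⟨t % n, ?_, ?_, ?_, ?_⟩
  · rw [ei, ei1, et]; exact ht'.ori
  · rw [ei, ei1, et]; exact ht'.sub.trans (ins_mono E)
  · rw [ei, ei1, et, ← ht'.aR]
    by_cases h0 : i = 0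
    · rw [h0]; exact E.aR_y hb
    · exact E.aR_mid (by omega) (by omega) hb
  · rw [ei, ei1, et, ← ht'.aL]
    by_cases h3 : i + 1 = n - 1
    · rw [h3]; exact E.aL_v hb
    · exact E.aL_mid (by omega) (by omega) hb

lemma apex_of_lt {n : ℕ} {p : ℕ → ℂ} (h : SP n p) (H : ∀ i < n, ∃ t, Apex n p i t) (i : ℕ) :
    ∃ t, Apex n p i t := by
  have h3 := h.three_le
  obtain ⟨t, ht⟩ := H (i % n) (Nat.mod_lt _ (by omega))
  refine ⟨t, ?_⟩
  obtain ⟨h1, h2, h3, h4⟩ := ht
  have e0 := per_mod h.per i
  have e1 : p (i % n + 1) = p (i + 1) := per_mod (L := fun k => p (k + 1)) (fun k => by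
    rw [show k + n + 1 = k + 1 + n by ring, h.per]) i
  have e2 : aL n p (i % n + 1) = aL n p (i + 1) :=
    per_mod (L := fun k => aL n p (k + 1)) (fun k => by
      rw [show k + n + 1 = k + 1 + n by ring, aL_per h]) i
  have e3 : aR n p (i % n) = aR n p i := per_mod (aR_per h) i
  rw [e0, e1] at h1 h2 h3 h4
  rw [e3] at h3
  rw [e2] at h4
  exact ⟨h1, h2, h3, h4⟩

/-- The vertex `p 0` stays convex, with the inequality of `Phi.inv`. -/
lemma step_inv_y (E : Ear n p q) (hb : NoDiag (n + 1) q n) (H : Phi n p)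
    (hv : Real.pi ≤ aR n p (n - 1) + eta n p q) (h0 : th n p 0 < Real.pi) :
    th (n + 1) q 0 + aR (n + 1) q n + aL (n + 1) q 1 ≤ Real.pi := by
  have hn := E.hp.three_le
  have h1 := H.inv 0 h0
  rw [Nat.zero_add, Nat.zero_add] at h1
  have hsum := E.sum_angles
  have e : aL (n + 1) q 1 = aL n p 1 := by
    by_cases h3 : 1 = n - 1
    · omega
    · exact E.aL_mid (by omega) (by omega) hb
  rw [E.th_y, E.aR_b hb, e]
  linarith

lemma step_inv (E : Ear n p q) (hb : NoDiag (n + 1) q n) (H : Phi n p)
    (hv : Real.pi ≤ aR n p (n - 1) + eta n p q) (i : ℕ) (hi : i < n + 1)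
    (hth : th (n + 1) q i < Real.pi) :
    th (n + 1) q i + aR (n + 1) q (i + n) + aL (n + 1) q (i + 1) ≤ Real.pi := by
  have hn := E.hp.three_le
  have hsum := E.sum_angles
  have hqs := E.hq.sp
  by_cases h1 : i = n
  · subst h1
    have e1 : aR (i + 1) q (i + i) = eta i p q := by
      rw [show i + i = i - 1 + (i + 1) by omega, aR_per hqs, E.aR_v hb]
    have e2 : aL (i + 1) q (i + 1) = bet i p q := by
      have e5 := aL_per hqs 0
      rw [Nat.zero_add] at e5
      rw [e5, E.aL_y hb]
    rw [e1, e2, E.th_b]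
    linarith
  by_cases h2 : i = n - 1
  · exfalso
    subst h2
    rw [E.th_v] at hth
    have := aR_le E.hp (n - 1)
    linarith
  by_cases h3 : i = 0
  · subst h3
    rw [Nat.zero_add, Nat.zero_add]
    apply step_inv_y E hb H hv
    rw [E.th_y] at hth
    have := turn_pos (p (n - 1) - p 0) (q n - p 0)
    unfold bet at hth
    linarith
  have e0 := E.th_mid (k := i) (by omega) (by omega)
  rw [e0] at hth ⊢
  have h4 := H.inv i hth
  have e1 : aR (n + 1) q (i + n) = aR n p (i + (n - 1)) := by
    rw [show i + n = i - 1 + (n + 1) by omega, aR_per hqs,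
      show i + (n - 1) = i - 1 + n by omega, aR_per E.hp.sp]
    by_cases h5 : i - 1 = 0
    · rw [h5]; exact E.aR_y hb
    · exact E.aR_mid (by omega) (by omega) hb
  have e2 : aL (n + 1) q (i + 1) = aL n p (i + 1) := by
    by_cases h5 : i + 1 = n - 1
    · rw [h5]; exact E.aL_v hb
    · exact E.aL_mid (by omega) (by omega) hb
  rw [e1, e2]
  exact h4

lemma labV_back (E : Ear n p q) (hb : NoDiag (n + 1) q n) (H : Phi n p)
    (hv : Real.pi ≤ aR n p (n - 1) + eta n p q) {x' : Lab} (hx : LabW (n + 1) q (n - 1) x') :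
    ∃ x, LabW n p (n - 1) x ∧ RuleV x x' := by
  classical
  have hn := E.hp.three_le
  have hle := aR_le E.hp (n - 1)
  have hpos := aL_pos E.hp (n - 1)
  have heta := turn_pos (q n - p (n - 1)) (p 0 - p (n - 1))
  have heta' : 0 < eta n p q := heta
  cases x' with
  | tip =>
    exfalso
    have := hx.1
    rw [E.th_v] at this
    linarith
  | plus =>
    exfalso
    simp only [LabW] at hx
    rw [E.th_v] at hx
    linarith
  | flat =>
    simp only [LabW] at hx
    rw [E.th_v] at hx
    refine ⟨Lab.tip, ⟨by linarith, fun j hj => ?_⟩, RuleV.tf⟩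
    have := aR_add_aL_le E.hp hj
    linarith
  | neg l r =>
    obtain ⟨h1, h2, h3⟩ := hx
    rw [E.th_v] at h1 h2 h3
    rw [E.aL_v hb] at h2
    rw [E.aR_v hb] at h3
    by_cases hth : th n p (n - 1) < Real.pi
    · by_cases hd : NoDiag n p (n - 1)
      · exact ⟨Lab.tip, ⟨hth, hd⟩, RuleV.tn l r⟩
      · have hl : l = false := by
          unfold NoDiag at hd
          push Not at hd
          obtain ⟨j, hj⟩ := hd
          have := aR_add_aL_le E.hp hj
          by_contra hcon
          have := h2 (by simpa using hcon)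
          linarith
        subst hl
        exact ⟨Lab.plus, hth, RuleV.pn r⟩
    · push Not at hth
      have hr : r = false := by
        by_contra hcon
        have := h3 (by simpa using hcon)
        linarith
      have hd : ¬ NoDiag n p (n - 1) := by
        intro hd
        have h4 := aR_of_noDiag E.hp hd
        obtain ⟨t, ht⟩ := H.apex (n - 1)
        have h5 := ht.aR
        have h6 := ne_of_orient ht.ori.ne'
        have h7 := (turn_lt_pi (sub_ne_zero.2 h6.1.symm) (sub_ne_zero.2 h6.2.2.symm)).2 ht.ori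
        linarith
      have hl : l = false := by
        unfold NoDiag at hd
        push Not at hd
        obtain ⟨j, hj⟩ := hd
        have := aR_add_aL_le E.hp hj
        by_contra hcon
        have := h2 (by simpa using hcon)
        linarith
      subst hr hl
      refine ⟨Lab.neg false true, ⟨hth, by simp, fun _ => ?_⟩, RuleV.nn false⟩
      have := E.hq.th_lt (n - 1)
      rw [E.th_v] at this
      linarith

lemma labY_back (E : Ear n p q) (hb : NoDiag (n + 1) q n) (H : Phi n p)
    (hv : Real.pi ≤ aR n p (n - 1) + eta n p q) {x' : Lab} (hx : LabW (n + 1) q 0 x') :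
    ∃ x, LabW n p 0 x ∧ RuleY x x' := by
  have hn := E.hp.three_le
  have hbet : 0 < bet n p q := turn_pos (p (n - 1) - p 0) (q n - p 0)
  have hconv : th n p 0 < Real.pi → th (n + 1) q 0 < Real.pi := by
    intro h0
    have h1 := step_inv_y E hb H hv h0
    have h2 := aR_pos E.hq n
    have h3 := aL_pos E.hq 1
    linarith
  cases x' with
  | tip =>
    exfalso
    exact hx.2 (n - 1) E.diag_base.symm
  | plus =>
    simp only [LabW] at hx
    rw [E.th_y] at hx
    exact ⟨Lab.plus, by simp only [LabW]; linarith, RuleY.pp⟩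
  | flat =>
    exfalso
    simp only [LabW] at hx
    have h1 : th n p 0 < Real.pi := by
      rw [E.th_y] at hx; linarith
    have := hconv h1
    linarith
  | neg l r =>
    obtain ⟨h1, h2, h3⟩ := hx
    have h0 : Real.pi ≤ th n p 0 := by
      by_contra hcon
      push Not at hcon
      linarith [hconv hcon]
    rw [E.th_y] at h1 h2 h3
    rw [E.aL_y hb] at h2
    rw [E.aR_y hb] at h3
    have hl : l = false := by
      by_contra hcon
      have := h2 (by simpa using hcon)
      linarith
    subst hl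
    refine ⟨Lab.neg false r, ⟨h0, by simp, fun hr => ?_⟩, RuleY.nn false r r id⟩
    have := h3 hr
    linarith

theorem Phi.step (E : Ear n p q) (hb : NoDiag (n + 1) q n) (H : Phi n p)
    (hv : Real.pi ≤ aR n p (n - 1) + eta n p q) : Phi (n + 1) q := by
  have hn := E.hp.three_le
  have hqs := E.hq.sp
  refine ⟨E.hq, ?_, ?_, ?_, ?_⟩
  · rw [E.cnt_eq hb, H.cnt]; omega
  · exact apex_of_lt hqs fun i hi => step_apex E hb H i hi
  · intro i hi
    have hlt : i % (n + 1) < n + 1 := Nat.mod_lt _ (by omega)
    have e1 := per_mod (th_per hqs) i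
    have h1 := step_inv E hb H hv (i % (n + 1)) hlt (by rw [e1]; exact hi)
    have e2 : aR (n + 1) q (i % (n + 1) + n) = aR (n + 1) q (i + n) :=
      per_mod (L := fun k => aR (n + 1) q (k + n)) (fun k => by
        rw [show k + (n + 1) + n = k + n + (n + 1) by ring, aR_per hqs]) i
    have e3 : aL (n + 1) q (i % (n + 1) + 1) = aL (n + 1) q (i + 1) :=
      per_mod (L := fun k => aL (n + 1) q (k + 1)) (fun k => by
        rw [show k + (n + 1) + 1 = k + 1 + (n + 1) by ring, aL_per hqs]) i
    rw [e1, e2, e3] at h1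
    exact h1
  · intro L per hL
    obtain ⟨xv, hxv, hrv⟩ := labV_back E hb H hv (hL (n - 1))
    obtain ⟨xy, hxy, hry⟩ := labY_back E hb H hv (hL 0)
    set L0 : ℕ → Lab := fun k => if k % n = 0 then xy else if k % n = n - 1 then xv else L (k % n)
      with hL0
    have hper : ∀ k, L0 (k + n) = L0 k := by
      intro k
      simp only [hL0, Nat.add_mod_right]
    have h0 : L0 0 = xy := by simp [hL0]
    have h1 : L0 (n - 1) = xv := by
      have : (n - 1) % n = n - 1 := Nat.mod_eq_of_lt (by omega)
      simp only [hL0, this]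
      rw [if_neg (by omega)]
      simp
    have h2 : ∀ k, 0 < k → k + 1 < n → L0 k = L k := by
      intro k hk hk'
      have : k % n = k := Nat.mod_eq_of_lt (by omega)
      simp only [hL0, this]
      rw [if_neg (by omega), if_neg (by omega)]
    have hgen : Gen n L0 := by
      apply H.gen L0 hper
      apply labW_of_lt E.hp.sp hper
      intro i hi
      by_cases h3 : i = 0
      · rw [h3, h0]; exact hxy
      by_cases h4 : i = n - 1
      · rw [h4, h1]; exact hxv
      rw [h2 i (by omega) (by omega)]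
      have := hL i
      revert this
      generalize L i = x
      have e1 := E.th_mid (k := i) (by omega) (by omega)
      have e2 := E.aR_mid (k := i) (by omega) (by omega) hb
      have e3 := E.aL_mid (k := i) (by omega) (by omega) hb
      cases x <;> simp only [LabW, e1, e2, e3]
      · rintro ⟨h5, h6⟩
        refine ⟨h5, fun j hj => h6 (j % n) ?_⟩
        have hj' : Diag n p i (j % n) := by
          rw [diag_congr_right (per_mod E.hp.sp.per j)]; exact hj
        have hlt : j % n < n := Nat.mod_lt _ (by omega)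
        rw [E.diag_iff (by omega) hlt (by omega) (by omega)]
        exact hj'
      · exact id
      · exact id
      · exact id
    refine Gen.att n L0 L hgen per (fun k hk hk' => (h2 k hk hk').symm) ?_ ?_ ?_
    · have h3 := hL n
      have h4 : th (n + 1) q n < Real.pi := by
        rw [E.th_b]
        have hsum := E.sum_angles
        have e1 : 0 < eta n p q := turn_pos (q n - p (n - 1)) (p 0 - p (n - 1))
        have e2 : 0 < bet n p q := turn_pos (p (n - 1) - p 0) (q n - p 0)
        linarith
      revert h3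
      generalize L n = x
      cases x with
      | tip => intro _; exact Or.inl rfl
      | plus => intro _; exact Or.inr rfl
      | flat => intro h5; simp only [LabW] at h5; linarith
      | neg l r => intro h5; exact absurd h5.1 (not_le.2 h4)
    · rw [h1]; exact hrv
    · rw [h0]; exact hry

/-- The mirror image of an attached triangle. -/
lemma Ear.mirror (E : Ear n p q) :
    Ear n (rotp (mirp n p)) (rotp^[2] (mirp (n + 1) q)) := by
  have hn := E.hp.three_le
  have hps := E.hp.sp
  have hqs := E.hq.sp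
  have ep : ∀ k < n, rotp (mirp n p) k = (starRingEnd ℂ) (p (n - 1 - k)) := by
    intro k hk
    simp only [rotp, mirp_apply]
    congr 1
    obtain ⟨m, rfl⟩ : ∃ m, n = m + k + 1 := ⟨n - 1 - k, by omega⟩
    have : (m + k + 1 - 1) * (k + 1) = (m + k + 1 - 1 - k) + (m + k + 1) * k := by
      simp only [Nat.add_sub_cancel]; ring
    rw [this, per_add_mul hps.per]
  have eq' : ∀ k < n, rotp^[2] (mirp (n + 1) q) k = (starRingEnd ℂ) (q (n - 1 - k)) := by
    intro k hk
    rw [rotp_iter]
    simp only [mirp_apply, Nat.add_sub_cancel]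
    congr 1
    obtain ⟨m, rfl⟩ : ∃ m, n = m + k + 1 := ⟨n - 1 - k, by omega⟩
    have : (m + k + 1) * (k + 2) = (m + k + 1 - 1 - k) + (m + k + 1 + 1) * (k + 1) := by
      simp only [Nat.add_sub_cancel]; ring
    rw [this, per_add_mul hqs.per]
  have eb : rotp^[2] (mirp (n + 1) q) n = (starRingEnd ℂ) (q n) := by
    rw [rotp_iter]
    simp only [mirp_apply, Nat.add_sub_cancel]
    congr 1
    rw [show n * (n + 2) = n + (n + 1) * n by ring, per_add_mul hqs.per]
  have ev := ep (n - 1) (by omega)
  have ey := ep 0 (by omega)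
  rw [Nat.sub_self] at ev
  rw [Nat.sub_zero] at ey
  refine ⟨E.hp.mir.rot, E.hq.mir.rot_iter 2, ?_, ?_, ?_⟩
  · intro k hk
    rw [eq' k hk, ep k hk, E.eq _ (by omega)]
  · rw [ev, ey, eb, orient_conj, ← orient_swap, orient_cyc]
    exact E.ori
  · intro z hz hz'
    rw [ev, ey, eb] at hz
    rw [ev, ey]
    rw [chain_rot (SP.mir hps), chain_mir hps] at hz'
    obtain ⟨w, hw, rfl⟩ := hz'
    rw [conj_mem_ctri] at hz
    simp only [Complex.conj_conj] at hz
    rw [ctri_cyc] at hz
    have h1 := E.disj w hz hw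
    obtain ⟨a, b, ha, hb, hab, hw'⟩ := h1
    refine ⟨b, a, hb, ha, by linarith, ?_⟩
    rw [← hw']
    simp only [Complex.real_smul, map_add, map_mul, Complex.conj_ofReal]
    ring

lemma eta_mirror (E : Ear n p q) :
    eta n (rotp (mirp n p)) (rotp^[2] (mirp (n + 1) q)) = bet n p q := by
  have hn := E.hp.three_le
  have hps := E.hp.sp
  have hqs := E.hq.sp
  have ep : ∀ k < n, rotp (mirp n p) k = (starRingEnd ℂ) (p (n - 1 - k)) := by
    intro k hk
    simp only [rotp, mirp_apply]
    congr 1
    obtain ⟨m, rfl⟩ : ∃ m, n = m + k + 1 := ⟨n - 1 - k, by omega⟩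
    have : (m + k + 1 - 1) * (k + 1) = (m + k + 1 - 1 - k) + (m + k + 1) * k := by
      simp only [Nat.add_sub_cancel]; ring
    rw [this, per_add_mul hps.per]
  have eb : rotp^[2] (mirp (n + 1) q) n = (starRingEnd ℂ) (q n) := by
    rw [rotp_iter]
    simp only [mirp_apply, Nat.add_sub_cancel]
    congr 1
    rw [show n * (n + 2) = n + (n + 1) * n by ring, per_add_mul hqs.per]
  have ev := ep (n - 1) (by omega)
  have ey := ep 0 (by omega)
  rw [Nat.sub_self] at ev
  rw [Nat.sub_zero] at ey
  unfold eta bet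
  have hne := ne_of_orient E.ori.ne'
  rw [ev, ey, eb, ← map_sub, ← map_sub, turn_conj]
  · exact sub_ne_zero.2 hne.2.2
  · exact sub_ne_zero.2 hne.2.1

lemma noDiag_rot_mir (hb : NoDiag (n + 1) q n) (h : SP (n + 1) q) :
    NoDiag (n + 1) (rotp^[2] (mirp (n + 1) q)) n := by
  intro j hj
  rw [Diag_rot_iter (SP.mir h), Diag_mir h] at hj
  refine hb ((n + 1 - 1) * (j + 2)) ((diag_congr ?_ rfl).1 hj)
  rw [Nat.add_sub_cancel, show n * (n + 2) = n + (n + 1) * n by ring, per_add_mul h.per]

theorem phi {n : ℕ} {p : ℕ → ℂ} (h : PP n p) (hc : Cnt n p = 2 * (n - 3)) : Phi n p := by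
  induction n generalizing p with
  | zero => have := h.three_le; omega
  | succ n ih =>
    by_cases hn : 3 ≤ n
    · obtain ⟨k, E⟩ := exists_ear' h hn
      have hcq : Cnt (n + 1) (rotp^[k] p) = 2 * (n + 1 - 3) := by
        rw [Cnt_rot_iter h.sp, hc]
      have hb : NoDiag (n + 1) (rotp^[k] p) n := by
        apply E.noDiag_of_cnt
        have := cnt_lower E.hp
        omega
      have hcp : Cnt n (delp n (rotp^[k] p)) = 2 * (n - 3) := by
        have := E.cnt_eq hb
        omega
      have H := ih E.hp hcp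
      have hps := E.hp.sp
      refine Phi.of_rot_iter h (k := k) ?_
      obtain ⟨t, ht⟩ := H.apex (n - 1)
      rcases E.quad hb ht with hv | hy
      · exact Phi.step E hb H hv
      · have E' := E.mirror
        have H' : Phi n (rotp (mirp n (delp n (rotp^[k] p)))) := H.mir.rot
        have h1 := Phi.step E' (noDiag_rot_mir hb E.hq.sp) H' (by
          rw [eta_mirror E, aR_rot (SP.mir hps), aR_mir hps, show n - 1 + 1 = n by omega]
          have e1 : aL n (delp n (rotp^[k] p)) ((n - 1) * n) = aL n (delp n (rotp^[k] p)) 0 := by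
            rw [show (n - 1) * n = 0 + n * (n - 1) by ring, per_add_mul (aL_per hps)]
          have e2 := aL_per hps 0
          rw [Nat.zero_add] at e2
          rw [e1, ← e2]
          exact hy)
        exact Phi.of_mir E.hq (Phi.of_rot_iter E.hq.mir h1)
    · have hn2 : n = 2 := by
        have := h.three_le; omega
      subst hn2
      exact Phi.base h

end step

end Pool.Agent.SigPoly
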