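import Pool.Agent.SigPoly.Defs

/-!
# Turning angles
-/

namespace Pool.Agent.SigPoly

open Complex Set Filter Topology Pool.Agent.VisGraph

lemma turn_pos (u v : ℂ) : 0 < turn u v := by
  have := toIocMod_mem_Ioc Real.two_pi_pos 0 (Complex.arg (v / u))
  exact this.1

lemma turn_le (u v : ℂ) : turn u v ≤ 2 * Real.pi := by
  have := (toIocMod_mem_Ioc Real.two_pi_pos 0 (Complex.arg (v / u))).2
  rw [zero_add] at this
  exact this

lemma exp_add_int (t : ℝ) (k : ℤ) :
    Complex.exp (((t + k * (2 * Real.pi) : ℝ) : ℂ) * I) = Complex.exp (t * I) := by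
  have : (((t + k * (2 * Real.pi) : ℝ) : ℂ) * I) = t * I + k * (2 * Real.pi * I) := by
    push_cast; ring
  rw [this, Complex.exp_periodic.int_mul k]

lemma turn_spec {u v : ℂ} (hu : u ≠ 0) (hv : v ≠ 0) :
    ∃ c : ℝ, 0 < c ∧ v = c * Complex.exp (turn u v * I) * u := by
  refine ⟨‖v / u‖, norm_pos_iff.2 (div_ne_zero hv hu), ?_⟩
  have h1 := toIocMod_add_toIocDiv_zsmul Real.two_pi_pos 0 (Complex.arg (v / u))
  have h2 : Complex.exp (turn u v * I) = Complex.exp (Complex.arg (v / u) * I) := by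
    rw [← exp_add_int (turn u v) (toIocDiv Real.two_pi_pos 0 (Complex.arg (v / u)))]
    congr 3
    rw [zsmul_eq_mul] at h1
    exact h1
  rw [h2, Complex.norm_mul_exp_arg_mul_I]
  field_simp

lemma turn_unique {u v : ℂ} (hu : u ≠ 0) {c t : ℝ} (hc : 0 < c) (ht : 0 < t)
    (ht' : t ≤ 2 * Real.pi) (h : v = c * Complex.exp (t * I) * u) : turn u v = t := by
  have hv : v ≠ 0 := by
    rw [h]
    exact mul_ne_zero (mul_ne_zero (by exact_mod_cast hc.ne') (Complex.exp_ne_zero _)) hu
  obtain ⟨c', hc', h'⟩ := turn_spec hu hv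
  have h1 : (c' : ℂ) * Complex.exp (turn u v * I) = c * Complex.exp (t * I) := by
    apply mul_right_cancel₀ hu
    rw [← h', ← h]
  have h2 : c' = c := by
    have := congrArg norm h1
    rwa [norm_mul, norm_mul, Complex.norm_exp_ofReal_mul_I, Complex.norm_exp_ofReal_mul_I, mul_one,
      mul_one, Complex.norm_real, Complex.norm_real, Real.norm_of_nonneg hc.le,
      Real.norm_of_nonneg hc'.le] at this
  rw [h2] at h1
  have h3 : Complex.exp (turn u v * I) = Complex.exp (t * I) :=
    mul_left_cancel₀ (by exact_mod_cast hc.ne') h1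
  rw [Complex.exp_eq_exp_iff_exists_int] at h3
  obtain ⟨k, hk⟩ := h3
  have h4 : turn u v = t + k * (2 * Real.pi) := by
    have hI : (I : ℂ) ≠ 0 := Complex.I_ne_zero
    have : (turn u v : ℂ) = ((t + k * (2 * Real.pi) : ℝ) : ℂ) := by
      apply mul_right_cancel₀ hI
      rw [hk]
      push_cast
      ring
    exact_mod_cast this
  have h5 := turn_pos u v
  have h6 := turn_le u v
  have hpi := Real.pi_pos
  have hk0 : k = 0 := by
    by_contra hne
    rcases lt_or_gt_of_ne hne with h7 | h7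
    · have : (k : ℝ) ≤ -1 := by exact_mod_cast (show k ≤ -1 by omega)
      nlinarith
    · have : (1 : ℝ) ≤ k := by exact_mod_cast (show 1 ≤ k by omega)
      nlinarith
  rw [h4, hk0]; simp

lemma turn_smul {u v : ℂ} (hu : u ≠ 0) (hv : v ≠ 0) {a b : ℝ} (ha : 0 < a) (hb : 0 < b) :
    turn (a * u) (b * v) = turn u v := by
  obtain ⟨c, hc, h⟩ := turn_spec hu hv
  have ha' : (a : ℂ) ≠ 0 := by exact_mod_cast ha.ne'
  refine turn_unique (c := b * c / a) (mul_ne_zero ha' hu) (by positivity) (turn_pos _ _)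
    (turn_le _ _) ?_
  conv_lhs => rw [h]
  push_cast
  field_simp

lemma turn_add {u v w : ℂ} (hu : u ≠ 0) (hv : v ≠ 0) (hw : w ≠ 0)
    (h : turn u v + turn v w ≤ 2 * Real.pi) : turn u w = turn u v + turn v w := by
  obtain ⟨c, hc, h1⟩ := turn_spec hu hv
  obtain ⟨d, hd, h2⟩ := turn_spec hv hw
  refine turn_unique (c := d * c) hu (by positivity)
    (add_pos (turn_pos _ _) (turn_pos _ _)) h ?_
  conv_lhs => rw [h2]
  rw [show ((d : ℂ) * Complex.exp (turn v w * I) * v) =
    (d : ℂ) * Complex.exp (turn v w * I) * (c * Complex.exp (turn u v * I) * u) from by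
      rw [← h1]]
  push_cast
  rw [add_mul, Complex.exp_add]
  ring

lemma turn_add' {u v w : ℂ} (hu : u ≠ 0) (hv : v ≠ 0) (hw : w ≠ 0)
    (h : 2 * Real.pi < turn u v + turn v w) : turn u w = turn u v + turn v w - 2 * Real.pi := by
  obtain ⟨c, hc, h1⟩ := turn_spec hu hv
  obtain ⟨d, hd, h2⟩ := turn_spec hv hw
  refine turn_unique (c := d * c) hu (by positivity) (by linarith)
    (by linarith [turn_le u v, turn_le v w]) ?_
  have e : Complex.exp (((turn u v + turn v w - 2 * Real.pi : ℝ) : ℂ) * I) =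
      Complex.exp (((turn u v + turn v w : ℝ) : ℂ) * I) := by
    rw [← exp_add_int (turn u v + turn v w) (-1)]
    congr 3
    push_cast
    ring
  rw [e]
  conv_lhs => rw [h2]
  rw [show ((d : ℂ) * Complex.exp (turn v w * I) * v) =
    (d : ℂ) * Complex.exp (turn v w * I) * (c * Complex.exp (turn u v * I) * u) from by
      rw [← h1]]
  push_cast
  rw [add_mul, Complex.exp_add]
  ring

/-- If `v` comes before `w` in the counterclockwise order starting with `u`, the turns add up. -/
lemma turn_split {u v w : ℂ} (hu : u ≠ 0) (hv : v ≠ 0) (hw : w ≠ 0)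
    (h : turn u v < turn u w) : turn u w = turn u v + turn v w := by
  rcases le_or_gt (turn u v + turn v w) (2 * Real.pi) with h1 | h1
  · exact turn_add hu hv hw h1
  · have := turn_add' hu hv hw h1
    have := turn_le v w
    linarith

lemma cr_exp (u : ℂ) (c t : ℝ) :
    cr u (c * Complex.exp (t * I) * u) = c * normSq u * Real.sin t := by
  rw [Complex.exp_mul_I]
  simp only [cr, Complex.mul_re, Complex.mul_im, Complex.add_re, Complex.add_im, Complex.ofReal_re,
    Complex.ofReal_im, Complex.I_re, Complex.I_im, Complex.normSq_apply,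
    ← Complex.ofReal_cos, ← Complex.ofReal_sin]
  ring

lemma sin_pos_iff {t : ℝ} (h0 : 0 < t) (h1 : t ≤ 2 * Real.pi) : 0 < Real.sin t ↔ t < Real.pi := by
  constructor
  · intro h
    by_contra hcon
    push Not at hcon
    have : 0 ≤ Real.sin (t - Real.pi) := Real.sin_nonneg_of_nonneg_of_le_pi (by linarith)
      (by linarith)
    rw [Real.sin_sub_pi] at this
    linarith
  · intro h
    exact Real.sin_pos_of_pos_of_lt_pi h0 h

lemma turn_lt_pi {u v : ℂ} (hu : u ≠ 0) (hv : v ≠ 0) : turn u v < Real.pi ↔ 0 < cr u v := by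
  obtain ⟨c, hc, h⟩ := turn_spec hu hv
  have hn : 0 < normSq u := normSq_pos.2 hu
  have e : cr u v = c * normSq u * Real.sin (turn u v) := by
    conv_lhs => rw [h]
    exact cr_exp _ _ _
  rw [e, mul_pos_iff_of_pos_left (by positivity), sin_pos_iff (turn_pos _ _) (turn_le _ _)]

lemma turn_eq_pi {u v : ℂ} (hu : u ≠ 0) (hv : v ≠ 0) :
    turn u v = Real.pi ↔ ∃ c : ℝ, 0 < c ∧ v = -(c : ℂ) * u := by
  constructor
  · intro h
    obtain ⟨c, hc, h1⟩ := turn_spec hu hv
    refine ⟨c, hc, ?_⟩
    rw [h, Complex.exp_pi_mul_I] at h1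
    rw [h1]; ring
  · rintro ⟨c, hc, h⟩
    have hpi := Real.pi_pos
    refine turn_unique hu hc hpi (by linarith) ?_
    rw [Complex.exp_pi_mul_I, h]; ring

lemma turn_eq_two_pi {u v : ℂ} (hu : u ≠ 0) (hv : v ≠ 0) :
    turn u v = 2 * Real.pi ↔ ∃ c : ℝ, 0 < c ∧ v = (c : ℂ) * u := by
  have e : Complex.exp (((2 * Real.pi : ℝ) : ℂ) * I) = 1 := by
    have : (((2 * Real.pi : ℝ) : ℂ) * I) = 2 * Real.pi * I := by push_cast; ring
    rw [this, Complex.exp_two_pi_mul_I]
  constructor
  · intro h
    obtain ⟨c, hc, h1⟩ := turn_spec hu hv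
    refine ⟨c, hc, ?_⟩
    rw [h, e, mul_one] at h1
    exact h1
  · rintro ⟨c, hc, h⟩
    have hpi := Real.pi_pos
    refine turn_unique hu hc (by linarith) le_rfl ?_
    rw [e, h]; ring

lemma turn_gt_pi {u v : ℂ} (hu : u ≠ 0) (hv : v ≠ 0) :
    (Real.pi < turn u v ∧ turn u v < 2 * Real.pi) ↔ cr u v < 0 := by
  obtain ⟨c, hc, h⟩ := turn_spec hu hv
  have hn : 0 < normSq u := normSq_pos.2 hu
  have e : cr u v = c * normSq u * Real.sin (turn u v) := by
    conv_lhs => rw [h]
    exact cr_exp _ _ _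
  have hcn : 0 < c * normSq u := by positivity
  have key : c * normSq u * Real.sin (turn u v) < 0 ↔ Real.sin (turn u v) < 0 := by
    constructor
    · intro h1
      by_contra hcon
      push Not at hcon
      have := mul_nonneg hcn.le hcon
      linarith
    · intro h1
      exact mul_neg_of_pos_of_neg hcn h1
  rw [e, key]
  constructor
  · rintro ⟨h1, h2⟩
    have : 0 < Real.sin (turn u v - Real.pi) :=
      Real.sin_pos_of_pos_of_lt_pi (by linarith) (by linarith)
    rw [Real.sin_sub_pi] at this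
    linarith
  · intro h1
    have h0 := turn_pos u v
    have h2 := turn_le u v
    constructor
    · by_contra hcon
      push Not at hcon
      have := Real.sin_nonneg_of_nonneg_of_le_pi h0.le hcon
      linarith
    · refine lt_of_le_of_ne h2 ?_
      intro h3
      rw [h3, Real.sin_two_pi] at h1
      exact lt_irrefl _ h1

lemma turn_conj {u v : ℂ} (hu : u ≠ 0) (hv : v ≠ 0) :
    turn ((starRingEnd ℂ) v) ((starRingEnd ℂ) u) = turn u v := by
  obtain ⟨c, hc, h⟩ := turn_spec hu hv
  refine turn_unique (c := c⁻¹) (by simpa using hv) (by positivity) (turn_pos _ _) (turn_le _ _) ?_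
  have h1 : (starRingEnd ℂ) v = c * Complex.exp (-(turn u v * I)) * (starRingEnd ℂ) u := by
    conv_lhs => rw [h]
    rw [map_mul, map_mul, Complex.conj_ofReal, ← Complex.exp_conj, map_mul, Complex.conj_ofReal,
      Complex.conj_I]
    congr 3
    ring
  rw [h1, Complex.exp_neg]
  have hc' : (c : ℂ) ≠ 0 := by exact_mod_cast hc.ne'
  have he := Complex.exp_ne_zero (turn u v * I)
  push_cast
  field_simp

lemma turn_swap {u v : ℂ} (hu : u ≠ 0) (hv : v ≠ 0) (h : turn u v < 2 * Real.pi) :
    turn v u = 2 * Real.pi - turn u v := by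
  obtain ⟨c, hc, h1⟩ := turn_spec hu hv
  have h0 := turn_pos u v
  refine turn_unique (c := c⁻¹) hv (by positivity) (by linarith) (by linarith) ?_
  have e : Complex.exp (((2 * Real.pi - turn u v : ℝ) : ℂ) * I) =
      (Complex.exp (turn u v * I))⁻¹ := by
    rw [← Complex.exp_neg, ← exp_add_int _ (-1)]
    congr 1
    push_cast
    ring
  rw [e]
  have hc' : (c : ℂ) ≠ 0 := by exact_mod_cast hc.ne'
  have he := Complex.exp_ne_zero (turn u v * I)
  have h2 : ((c⁻¹ : ℝ) : ℂ) * (Complex.exp (turn u v * I))⁻¹ *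
      (c * Complex.exp (turn u v * I) * u) = u := by
    push_cast
    field_simp
  rw [← h1] at h2
  exact h2.symm

/-- Another formula for the turning angle. -/
lemma turn_eq_arg {u v : ℂ} (hu : u ≠ 0) (hv : v ≠ 0) :
    turn u v = Complex.arg (-(v / u)) + Real.pi := by
  have h1 := Complex.neg_pi_lt_arg (-(v / u))
  have h2 := Complex.arg_le_pi (-(v / u))
  refine turn_unique (c := ‖-(v / u)‖) hu (norm_pos_iff.2 (neg_ne_zero.2 (div_ne_zero hv hu)))
    (by linarith) (by linarith) ?_
  push_cast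
  rw [add_mul, Complex.exp_add, Complex.exp_pi_mul_I]
  have := Complex.norm_mul_exp_arg_mul_I (-(v / u))
  rw [show ((‖-(v / u)‖ : ℝ) : ℂ) * (Complex.exp ((Complex.arg (-(v / u)) : ℂ) * I) * -1) * u =
    -(((‖-(v / u)‖ : ℝ) : ℂ) * Complex.exp ((Complex.arg (-(v / u)) : ℂ) * I)) * u by ring, this]
  field_simp

/-- Continuity of the turning angle away from equal directions. -/
lemma continuousAt_turn {u v : ℂ} (hu : u ≠ 0) (hv : v ≠ 0) (h : turn u v < 2 * Real.pi) :
    ContinuousAt (fun x : ℂ × ℂ => turn x.1 x.2) (u, v) := by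
  have hs : -(v / u) ∈ slitPlane := by
    rw [Complex.mem_slitPlane_iff_arg]
    refine ⟨?_, neg_ne_zero.2 (div_ne_zero hv hu)⟩
    intro h0
    rw [turn_eq_arg hu hv, h0] at h
    linarith
  have h1 : ContinuousAt (fun x : ℂ × ℂ => Complex.arg (-(x.2 / x.1)) + Real.pi) (u, v) := by
    refine ContinuousAt.add ?_ continuousAt_const
    have h2 : ContinuousAt (fun x : ℂ × ℂ => -(x.2 / x.1)) (u, v) := by
      refine ContinuousAt.neg (ContinuousAt.div ?_ ?_ hu)
      · exact continuousAt_snd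
      · exact continuousAt_fst
    exact ContinuousAt.comp (f := fun x : ℂ × ℂ => -(x.2 / x.1)) (g := Complex.arg)
      (Complex.continuousAt_arg hs) h2
  refine h1.congr ?_
  have h3 : ∀ᶠ x : ℂ × ℂ in 𝓝 (u, v), x.1 ≠ 0 ∧ x.2 ≠ 0 :=
    (continuousAt_fst.eventually_ne hu).and (continuousAt_snd.eventually_ne hv)
  filter_upwards [h3] with x hx
  exact (turn_eq_arg hx.1 hx.2).symm

/-- The angle sum of a triangle. -/
lemma turn_triangle {a b c : ℂ} (h : 0 < orient a b c) :
    turn (b - a) (c - a) + turn (c - b) (a - b) + turn (a - c) (b - c) = Real.pi := by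
  have hab : a ≠ b := by rintro rfl; simp [orient, cr] at h
  have hbc : b ≠ c := by
    rintro rfl
    have : orient a b b = 0 := by
      simp only [orient, cr, Complex.sub_re, Complex.sub_im]; ring
    linarith
  have hac : a ≠ c := by
    rintro rfl
    have : orient a b a = 0 := by
      simp only [orient, cr, Complex.sub_re, Complex.sub_im]; ring
    linarith
  have o2 : 0 < cr (c - b) (a - b) := by
    have : cr (c - b) (a - b) = orient a b c := by
      simp only [orient, cr, Complex.sub_re, Complex.sub_im]; ring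
    rw [this]; exact h
  have o3 : 0 < cr (a - c) (b - c) := by
    have : cr (a - c) (b - c) = orient a b c := by
      simp only [orient, cr, Complex.sub_re, Complex.sub_im]; ring
    rw [this]; exact h
  have hA := (turn_lt_pi (sub_ne_zero.2 hab.symm) (sub_ne_zero.2 hac.symm)).2 h
  have hB := (turn_lt_pi (sub_ne_zero.2 hbc.symm) (sub_ne_zero.2 hab)).2 o2
  have hC := (turn_lt_pi (sub_ne_zero.2 hac) (sub_ne_zero.2 hbc)).2 o3
  obtain ⟨k1, hk1, e1⟩ := turn_spec (sub_ne_zero.2 hab.symm) (sub_ne_zero.2 hac.symm)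
  obtain ⟨k2, hk2, e2⟩ := turn_spec (sub_ne_zero.2 hbc.symm) (sub_ne_zero.2 hab)
  obtain ⟨k3, hk3, e3⟩ := turn_spec (sub_ne_zero.2 hac) (sub_ne_zero.2 hbc)
  have p1 := turn_pos (b - a) (c - a)
  have p2 := turn_pos (c - b) (a - b)
  have p3 := turn_pos (a - c) (b - c)
  set A := turn (b - a) (c - a)
  set B := turn (c - b) (a - b)
  set C := turn (a - c) (b - c)
  have hprod : (c - a) * (a - b) * (b - c) =
      (k1 * Complex.exp (A * I) * (b - a)) * (k2 * Complex.exp (B * I) * (c - b)) *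
        (k3 * Complex.exp (C * I) * (a - c)) := by
    rw [← e1, ← e2, ← e3]
  have hne : (a - b) * (b - c) * (c - a) ≠ 0 :=
    mul_ne_zero (mul_ne_zero (sub_ne_zero.2 hab) (sub_ne_zero.2 hbc)) (sub_ne_zero.2 hac.symm)
  have h1 : ((k1 * k2 * k3 : ℝ) : ℂ) * Complex.exp (((A + B + C : ℝ) : ℂ) * I) = -1 := by
    apply mul_right_cancel₀ hne
    push_cast
    rw [add_mul, add_mul, Complex.exp_add, Complex.exp_add]
    linear_combination hprod
  have hK : k1 * k2 * k3 = 1 := by
    have := congrArg norm h1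
    rw [norm_mul, Complex.norm_exp_ofReal_mul_I, mul_one, norm_neg, norm_one, Complex.norm_real,
      Real.norm_of_nonneg (by positivity)] at this
    exact this
  rw [hK, Complex.ofReal_one, one_mul, ← Complex.exp_pi_mul_I,
    Complex.exp_eq_exp_iff_exists_int] at h1
  obtain ⟨k, hk⟩ := h1
  have h4 : A + B + C = Real.pi + k * (2 * Real.pi) := by
    have hI : (I : ℂ) ≠ 0 := Complex.I_ne_zero
    have : ((A + B + C : ℝ) : ℂ) = ((Real.pi + k * (2 * Real.pi) : ℝ) : ℂ) := by
      apply mul_right_cancel₀ hI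
      rw [hk]
      push_cast
      ring
    exact_mod_cast this
  have hpi := Real.pi_pos
  have hk0 : k = 0 := by
    by_contra hne
    rcases lt_or_gt_of_ne hne with h7 | h7
    · have : (k : ℝ) ≤ -1 := by exact_mod_cast (show k ≤ -1 by omega)
      nlinarith
    · have : (1 : ℝ) ≤ k := by exact_mod_cast (show 1 ≤ k by omega)
      nlinarith
  rw [h4, hk0]; simp

end Pool.Agent.SigPoly
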